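import Pool.Agent.Cartan2.Triv

open Module

namespace Cartan2

universe u

open MonoidAlgebra (single)

section gen

variable {k : Type u} [Field k] {G : Type} [Group G] [Fintype G]

open Classical in
/-- The class sum. -/
noncomputable def clsum (k : Type u) [Field k] {G : Type} [Group G] [Fintype G] (a : G) :
    MonoidAlgebra k G :=
  ∑ g ∈ Finset.univ.filter (fun g => IsConj a g), single g 1

open Classical in
theorem coeff_clsum (a g : G) : (clsum k a).coeff g = if IsConj a g then 1 else 0 := by
  unfold clsum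
  rw [MonoidAlgebra.coeff_sum, Finset.sum_apply']
  simp only [MonoidAlgebra.coeff_single, Finsupp.single_apply]
  rw [Finset.sum_ite_eq']
  simp

/-- `x` is central iff its coefficients are constant on conjugacy classes. -/
theorem central_iff (x : MonoidAlgebra k G) :
    (∀ y, x * y = y * x) ↔ ∀ g h, x.coeff (h * g * h⁻¹) = x.coeff g := by
  constructor
  · intro hx g h
    have h1 := congrArg (fun w => w.coeff (h * g)) (hx (single h 1))
    simp only [MonoidAlgebra.coeff_mul_single_apply, MonoidAlgebra.coeff_single_mul_apply] at h1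
    rw [mul_one, one_mul, inv_mul_cancel_left] at h1
    exact h1
  · intro hx y
    rw [eq_sum_coeff y, Finset.mul_sum, Finset.sum_mul]
    refine Finset.sum_congr rfl fun h _ => ?_
    rw [mul_smul_comm, smul_mul_assoc]
    congr 1
    ext g
    rw [MonoidAlgebra.coeff_mul_single_apply, MonoidAlgebra.coeff_single_mul_apply, mul_one,
      one_mul, ← hx (h⁻¹ * g) h]
    congr 1
    group

theorem clsum_central (a : G) (y : MonoidAlgebra k G) : clsum k a * y = y * clsum k a := by
  classical
  revert y
  rw [central_iff]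
  intro g h
  rw [coeff_clsum, coeff_clsum]
  have : IsConj a (h * g * h⁻¹) ↔ IsConj a g := by
    have h1 : IsConj g (h * g * h⁻¹) := isConj_iff.2 ⟨h, rfl⟩
    exact ⟨fun h2 => h2.trans h1.symm, fun h2 => h2.trans h1⟩
  simp only [this]

open Classical in
/-- Restriction to the centralizer of `t`. -/
noncomputable def br (t : G) (x : MonoidAlgebra k G) : MonoidAlgebra k G :=
  ∑ g ∈ Finset.univ.filter (fun g => g * t = t * g), x.coeff g • single g 1

open Classical in
theorem coeff_br (t : G) (x : MonoidAlgebra k G) (g : G) :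
    (br t x).coeff g = if g * t = t * g then x.coeff g else 0 := by
  unfold br
  rw [MonoidAlgebra.coeff_sum, Finset.sum_apply']
  simp only [MonoidAlgebra.coeff_smul, Finsupp.smul_apply, MonoidAlgebra.coeff_single,
    Finsupp.single_apply, smul_eq_mul, mul_ite, mul_one, mul_zero]
  rw [Finset.sum_ite_eq']
  simp

theorem comm_inv_of_comm {t g : G} (h : g * t = t * g) : g⁻¹ * t = t * g⁻¹ := by
  rw [inv_mul_eq_iff_eq_mul, ← mul_assoc, h, mul_inv_cancel_right]

/-- The Brauer homomorphism. -/
theorem br_mul [CharP k 2] {t : G} (ht : t * t = 1) {x y : MonoidAlgebra k G}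
    (hx : ∀ z, x * z = z * x) (hy : ∀ z, y * z = z * y) :
    br t (x * y) = br t x * br t y := by
  classical
  rw [central_iff] at hx hy
  have htinv : t⁻¹ = t := inv_eq_of_mul_eq_one_left ht
  ext g
  rw [coeff_br]
  by_cases hg : g * t = t * g
  · rw [if_pos hg, coeff_mul', coeff_mul']
    -- split according to commuting with t
    have h2 : ∀ h : G, (br t x).coeff h * (br t y).coeff (h⁻¹ * g) =
        if h * t = t * h then x.coeff h * y.coeff (h⁻¹ * g) else 0 := by
      intro h
      rw [coeff_br, coeff_br]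
      by_cases hh : h * t = t * h
      · have h3 : h⁻¹ * g * t = t * (h⁻¹ * g) := by
          rw [mul_assoc, hg, ← mul_assoc, comm_inv_of_comm hh, mul_assoc]
        rw [if_pos hh, if_pos hh, if_pos h3]
      · rw [if_neg hh, if_neg hh, zero_mul]
    simp only [h2]
    rw [← Finset.sum_filter, ← Finset.sum_filter_add_sum_filter_not Finset.univ
      (fun h : G => h * t = t * h)]
    rw [add_eq_left]
    refine Finset.sum_involution (fun h _ => t * h * t⁻¹) ?_ ?_ ?_ ?_
    · intro h _
      have h3 : (t * h * t⁻¹)⁻¹ * g = t * (h⁻¹ * g) * t⁻¹ := by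
        have : g * t⁻¹ = t⁻¹ * g := by rw [htinv]; exact hg
        calc (t * h * t⁻¹)⁻¹ * g = t * h⁻¹ * (t⁻¹ * g) := by group
          _ = t * h⁻¹ * (g * t⁻¹) := by rw [this]
          _ = _ := by group
      rw [h3, hx, hy]
      have h20 : (2 : k) = 0 := CharP.cast_eq_zero k 2
      linear_combination (x.coeff h * y.coeff (h⁻¹ * g)) * h20
    · intro h hh _ heq
      rw [Finset.mem_filter] at hh
      apply hh.2
      have : t * h = h * t := by
        have := congrArg (fun w => w * t) heq
        simpa using this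
      exact this.symm
    · intro h hh
      rw [Finset.mem_filter] at hh ⊢
      refine ⟨Finset.mem_univ _, ?_⟩
      intro h3
      apply hh.2
      rw [htinv] at h3
      have h4 : t * h * t * t = t * h := by rw [mul_assoc (t * h), ht, mul_one]
      have h5 : t * (t * h * t) = h * t := by
        rw [← mul_assoc, ← mul_assoc, ht, one_mul]
      rw [h4, h5] at h3
      exact h3.symm
    · intro h _
      rw [htinv]
      calc t * (t * h * t) * t = (t * t) * h * (t * t) := by group
        _ = h := by rw [ht]; simp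
  · rw [if_neg hg, coeff_mul']
    symm
    apply Finset.sum_eq_zero
    intro h _
    rw [coeff_br, coeff_br]
    by_cases hh : h * t = t * h
    · rw [if_pos hh, if_neg, mul_zero]
      intro h3
      apply hg
      calc g * t = h * (h⁻¹ * g * t) := by group
        _ = h * (t * (h⁻¹ * g)) := by rw [h3]
        _ = (h * t) * (h⁻¹ * g) := by group
        _ = t * g := by rw [hh]; group
    · rw [if_neg hh, zero_mul]

theorem br_one (t : G) : br t (1 : MonoidAlgebra k G) = 1 := by
  classical
  ext g
  rw [coeff_br, MonoidAlgebra.one_def, MonoidAlgebra.coeff_single, Finsupp.single_apply]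
  by_cases hg : 1 = g
  · subst hg; simp
  · rw [if_neg hg]; simp

theorem br_sub (t : G) (x y : MonoidAlgebra k G) : br t (x - y) = br t x - br t y := by
  classical
  ext g
  rw [coeff_br, MonoidAlgebra.coeff_sub, MonoidAlgebra.coeff_sub, Finsupp.sub_apply,
    Finsupp.sub_apply, coeff_br, coeff_br]
  split_ifs <;> simp

theorem br_smul (t : G) (c : k) (x : MonoidAlgebra k G) : br t (c • x) = c • br t x := by
  classical
  ext g
  rw [coeff_br, MonoidAlgebra.coeff_smul, MonoidAlgebra.coeff_smul, Finsupp.smul_apply,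
    Finsupp.smul_apply, coeff_br]
  split_ifs <;> simp

/-- Hypotheses on `a`, `t`. -/
structure BrData (a t : G) : Prop where
  ht : t * t = 1
  hat : a * t = t * a
  hconj : IsConj a a⁻¹
  hne : a ≠ a⁻¹
  hcls : ∀ g, IsConj a g → g * t = t * g → g = a ∨ g = a⁻¹

theorem BrData.br_clsum {a t : G} (H : BrData a t) :
    br t (clsum k a) = single a 1 + single a⁻¹ 1 := by
  classical
  ext g
  rw [coeff_br, coeff_clsum, MonoidAlgebra.coeff_add, Finsupp.add_apply,
    MonoidAlgebra.coeff_single, MonoidAlgebra.coeff_single, Finsupp.single_apply,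
    Finsupp.single_apply]
  by_cases h1 : a = g
  · subst h1
    rw [if_pos H.hat, if_pos (IsConj.refl a), if_pos rfl, if_neg (fun h => H.hne h.symm), add_zero]
  · by_cases h2 : a⁻¹ = g
    · subst h2
      rw [if_pos (comm_inv_of_comm H.hat), if_pos H.hconj, if_neg h1, if_pos rfl, zero_add]
    · rw [if_neg h1, if_neg h2, add_zero]
      by_cases h3 : g * t = t * g
      · rw [if_pos h3, if_neg]
        intro h4
        rcases H.hcls g h4 h3 with h5 | h5
        · exact h1 h5.symm
        · exact h2 h5.symm
      · rw [if_neg h3]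

/-- Eigenvector in the group algebra of a cyclic group. -/
theorem exists_kappa {a : G} {ζ : k} (hζ : ζ ^ orderOf a = 1) :
    ∃ κ : MonoidAlgebra k G, κ ≠ 0 ∧ single a 1 * κ = ζ • κ := by
  classical
  have hm := orderOf_pos a
  have hζ0 : ζ ≠ 0 := by
    rintro rfl
    rw [zero_pow hm.ne'] at hζ
    exact zero_ne_one hζ
  refine ⟨∑ n ∈ Finset.range (orderOf a), (ζ⁻¹) ^ n • single (a ^ n) 1, ?_, ?_⟩
  · intro h
    have h1 := congrArg (fun w => w.coeff 1) h
    simp only [MonoidAlgebra.coeff_sum, MonoidAlgebra.coeff_smul, MonoidAlgebra.coeff_single,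
      MonoidAlgebra.coeff_zero, Finsupp.coe_zero, Pi.zero_apply] at h1
    rw [Finset.sum_apply', Finset.sum_eq_single 0] at h1
    · simp at h1
    · intro n hn hn0
      rw [Finset.mem_range] at hn
      rw [Finsupp.smul_apply, Finsupp.single_apply, if_neg, smul_zero]
      intro h2
      have := orderOf_dvd_of_pow_eq_one h2
      exact absurd (Nat.le_of_dvd (Nat.pos_of_ne_zero hn0) this) (not_le.2 hn)
    · intro h2
      exact absurd (Finset.mem_range.2 hm) h2
  · rw [Finset.mul_sum, Finset.smul_sum]
    have h1 : ∀ n, single a (1 : k) * ((ζ⁻¹) ^ n • single (a ^ n) 1) =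
        ζ • ((ζ⁻¹) ^ (n + 1) • single (a ^ (n + 1)) (1 : k)) := by
      intro n
      rw [mul_smul_comm, MonoidAlgebra.single_mul_single, one_mul, smul_smul, ← pow_succ',
        pow_succ' ζ⁻¹, ← mul_assoc, mul_inv_cancel₀ hζ0, one_mul]
    simp only [h1]
    rw [← Finset.smul_sum, ← Finset.smul_sum]
    congr 1
    have h2 := Finset.sum_range_succ (fun n => (ζ⁻¹) ^ n • single (a ^ n) (1 : k)) (orderOf a)
    have h3 := Finset.sum_range_succ' (fun n => (ζ⁻¹) ^ n • single (a ^ n) (1 : k)) (orderOf a)
    rw [h2] at h3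
    have h4 : (ζ⁻¹) ^ (orderOf a) • single (a ^ (orderOf a)) (1 : k) =
        (ζ⁻¹) ^ 0 • single (a ^ 0) (1 : k) := by
      rw [pow_orderOf_eq_one, inv_pow, hζ, inv_one, pow_zero, pow_zero]
    rw [h4] at h3
    exact (add_right_cancel h3).symm

/-- All `ζ + ζ⁻¹` are eigenvalues of the class sum. -/
theorem BrData.exists_omega [CharP k 2] {a t : G} (H : BrData a t) {ι : Type}
    (Z : SimpleSys k (MonoidAlgebra k G) ι) {ζ : k} (hζ : ζ ^ orderOf a = 1) :
    ∃ i, Z.omega (clsum k a) (clsum_central a) i = ζ + ζ⁻¹ := by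
  by_contra hcon
  push Not at hcon
  have hm := orderOf_pos a
  have hζ0 : ζ ≠ 0 := by
    rintro rfl
    rw [zero_pow hm.ne'] at hζ
    exact zero_ne_one hζ
  set ω := ζ + ζ⁻¹ with hω
  set c : MonoidAlgebra k G := clsum k a - ω • 1 with hc
  have hcc : ∀ y, c * y = y * c := by
    intro y
    rw [hc, sub_mul, mul_sub, clsum_central, smul_mul_assoc, mul_smul_comm, one_mul, mul_one]
  obtain ⟨y, hy⟩ := Z.exists_inv_of_omega hcc (by
    intro i
    have h1 : Z.omega c hcc i = Z.omega (clsum k a) (clsum_central a) i - ω := by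
      apply Z.omega_eq_of
      intro s
      rw [hc, sub_smul, smul_assoc, one_smul, Z.omega_spec (clsum_central a), sub_smul]
    rw [h1]
    exact sub_ne_zero.2 (hcon i))
  have hy2 : c * y = 1 := by rw [hcc, hy]
  have hyc : ∀ z, y * z = z * y := by
    intro z
    calc y * z = y * z * (c * y) := by rw [hy2, mul_one]
      _ = y * (z * c) * y := by simp only [mul_assoc]
      _ = y * (c * z) * y := by rw [hcc z]
      _ = (y * c) * z * y := by simp only [mul_assoc]
      _ = z * y := by rw [hy, one_mul]
  have h1 : br t y * br t c = 1 := by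
    rw [← br_mul H.ht hyc hcc, hy, br_one]
  have h2 : br t c = single a 1 + single a⁻¹ 1 - ω • 1 := by
    rw [hc, br_sub, br_smul, br_one, H.br_clsum]
  obtain ⟨κ, hκ0, hκ⟩ := exists_kappa hζ
  have hκ2 : single a⁻¹ (1 : k) * κ = ζ⁻¹ • κ := by
    have h3 : single a⁻¹ (1 : k) * (single a 1 * κ) = κ := by
      rw [← mul_assoc, MonoidAlgebra.single_mul_single, inv_mul_cancel, one_mul]
      exact one_mul κ
    rw [hκ, mul_smul_comm] at h3
    calc single a⁻¹ (1 : k) * κ = ζ⁻¹ • (ζ • (single a⁻¹ (1 : k) * κ)) := by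
          rw [smul_smul, inv_mul_cancel₀ hζ0, one_smul]
      _ = ζ⁻¹ • κ := by rw [h3]
  have h3 : br t c * κ = 0 := by
    rw [h2, sub_mul, add_mul, hκ, hκ2, smul_mul_assoc, one_mul, hω, add_smul, sub_self]
  apply hκ0
  calc κ = (br t y * br t c) * κ := by rw [h1, one_mul]
    _ = 0 := by rw [mul_assoc, h3, mul_zero]

/-- The class has even cardinality. -/
theorem BrData.sum_class (k : Type u) [Field k] [CharP k 2] {a t : G} (H : BrData a t) [DecidablePred (IsConj a)]
    {V : Type*} [AddCommGroup V] [Module k V] (v : V) :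
    ∑ _g ∈ Finset.univ.filter (fun g => IsConj a g), v = 0 := by
  classical
  have h20 : (2 : k) = 0 := CharP.cast_eq_zero k 2
  refine Finset.sum_involution (fun g _ => g⁻¹) ?_ ?_ ?_ ?_
  · intro g _
    have : (2 : k) • v = 0 := by rw [h20, zero_smul]
    rwa [two_smul] at this
  · intro g hg _ heq
    rw [Finset.mem_filter] at hg
    obtain ⟨c, hc⟩ := isConj_iff.1 hg.2
    apply H.hne
    rw [← hc] at heq
    have h1 : c * a⁻¹ * c⁻¹ = c * a * c⁻¹ := by rw [← heq]; group
    have h2 := mul_right_cancel h1
    exact (mul_left_cancel h2).symm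
  · intro g hg
    rw [Finset.mem_filter] at hg ⊢
    refine ⟨Finset.mem_univ _, ?_⟩
    obtain ⟨c, hc⟩ := isConj_iff.1 hg.2
    refine H.hconj.trans (isConj_iff.2 ⟨c, ?_⟩)
    rw [← hc]; group
  · intro g _
    exact inv_inv g

/-- Modules on which the class sum does not vanish have even dimension. -/
theorem BrData.even_finrank [CharP k 2] {a t : G} (H : BrData a t) {ι : Type}
    (Z : SimpleSys k (MonoidAlgebra k G) ι) {i : ι}
    (hi : Z.omega (clsum k a) (clsum_central a) i ≠ 0) : Even (finrank k (Z.S i)) := by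
  classical
  set ω := Z.omega (clsum k a) (clsum_central a) i with hω
  have h1 : LinearMap.trace k (Z.S i) (Algebra.lsmul k k (Z.S i) (clsum k a)) =
      ω * (finrank k (Z.S i) : k) := by
    have : Algebra.lsmul k k (Z.S i) (clsum k a) = ω • LinearMap.id := by
      ext s
      change clsum k a • s = ω • s
      exact Z.omega_spec (clsum_central a) i s
    rw [this, map_smul, LinearMap.trace_id, smul_eq_mul]
  have h2 : LinearMap.trace k (Z.S i) (Algebra.lsmul k k (Z.S i) (clsum k a)) = 0 := by
    unfold clsum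
    rw [map_sum, map_sum]
    have h3 : ∀ g ∈ Finset.univ.filter (fun g => IsConj a g),
        LinearMap.trace k (Z.S i) (Algebra.lsmul k k (Z.S i) (single g (1 : k))) =
        LinearMap.trace k (Z.S i) (Algebra.lsmul k k (Z.S i) (single a (1 : k))) := by
      intro g hg
      rw [Finset.mem_filter] at hg
      obtain ⟨c, hc⟩ := isConj_iff.1 hg.2
      have h4 : single g (1 : k) = single c 1 * (single a 1 * single c⁻¹ 1) := by
        rw [MonoidAlgebra.single_mul_single, MonoidAlgebra.single_mul_single, ← hc, one_mul,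
          one_mul, mul_assoc]
      have h5 : single a (1 : k) = (single a 1 * single c⁻¹ 1) * single c 1 := by
        rw [MonoidAlgebra.single_mul_single, MonoidAlgebra.single_mul_single, one_mul,
          one_mul, inv_mul_cancel_right]
      rw [h4, map_mul, LinearMap.trace_mul_comm, ← map_mul, ← h5]
    rw [Finset.sum_congr rfl h3]
    exact H.sum_class k _
  rw [h2] at h1
  have h3 : (finrank k (Z.S i) : k) = 0 := (mul_eq_zero.1 h1.symm).resolve_left hi
  rw [CharP.cast_eq_zero_iff k 2] at h3
  exact even_iff_two_dvd.2 h3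

theorem BrData.omega_triv [CharP k 2] {a t : G} (H : BrData a t) {ι : Type}
    (Z : SimpleSys k (MonoidAlgebra k G) ι) {i0 : ι}
    (h0 : ∀ (g : G) (s : Z.S i0), single g (1 : k) • s = s) :
    Z.omega (clsum k a) (clsum_central a) i0 = 0 := by
  classical
  apply Z.omega_eq_of
  intro s
  unfold clsum
  rw [Finset.sum_smul, zero_smul]
  simp only [h0]
  exact H.sum_class k s

end gen

end Cartan2
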