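import Pool.Agent.Cartan2.PSLCount

namespace Cartan2

/-- The Cartan matrix of the principal `2`-block of `PSL(2,7)`. -/
def Bmat : Matrix (Fin 3) (Fin 3) ℕ := !![2, 1, 1; 1, 3, 2; 1, 2, 3]

/-- `c` is a direct sum of `Bmat`, `n4` copies of `(4)` and `n1` copies of `(1)`. -/
def BlockType {ι : Type} (c : ι → ι → ℕ) (n4 n1 : ℕ) : Prop :=
  ∃ b : Fin 3 → ι, Function.Injective b ∧ (∀ x y, c (b x) (b y) = Bmat x y) ∧
    (∀ i, i ∉ Set.range b → (c i i = 4 ∨ c i i = 1) ∧ ∀ j, j ≠ i → c i j = 0) ∧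
    Nat.card {i // c i i = 4} = n4 ∧ Nat.card {i // c i i = 1} = n1

section

variable {ι : Type} [Fintype ι] [DecidableEq ι]

theorem two_terms (f : ι → ι → ℕ) {i j : ι} (hij : i ≠ j) :
    f i i + f j j ≤ ∑ a, ∑ b, f a b := by
  rw [← Fintype.sum_prod_type' (f := f)]
  have h1 : ({(i, i), (j, j)} : Finset (ι × ι)) ⊆ Finset.univ := Finset.subset_univ _
  have h2 := Finset.sum_le_sum_of_subset (f := fun x : ι × ι => f x.1 x.2) h1
  rw [Finset.sum_pair] at h2
  · exact h2
  · intro h; exact hij (congrArg Prod.fst h)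

theorem one_term (f : ι → ι → ℕ) (i : ι) : f i i ≤ ∑ a, ∑ b, f a b := by
  rw [← Fintype.sum_prod_type' (f := f)]
  exact Finset.single_le_sum (f := fun x : ι × ι => f x.1 x.2) (fun _ _ => Nat.zero_le _)
    (Finset.mem_univ (i, i))

/-- If `∑ r i r j c i j = 1` then `r` is an indicator function. -/
theorem indicator_of_sum_one {c : ι → ι → ℕ} (hpos : ∀ i, 1 ≤ c i i) {r : ι → ℕ}
    (h : ∑ i, ∑ j, r i * r j * c i j = 1) :
    ∃ i, r i = 1 ∧ c i i = 1 ∧ ∀ j, j ≠ i → r j = 0 := by
  have h1 : ∃ i, r i ≠ 0 := by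
    by_contra hcon
    push Not at hcon
    simp [hcon] at h
  obtain ⟨i, hi⟩ := h1
  have hle := one_term (fun i j => r i * r j * c i j) i
  rw [h] at hle
  have hri : 1 ≤ r i := Nat.pos_of_ne_zero hi
  have hprod : r i * r i * c i i = 1 := by
    apply le_antisymm hle
    have h2 : 1 ≤ r i * r i := Nat.mul_pos hri hri
    exact Nat.mul_pos h2 (hpos i)
  have h3 := Nat.eq_one_of_mul_eq_one_left hprod
  have h4 := Nat.eq_one_of_mul_eq_one_right hprod
  refine ⟨i, Nat.eq_one_of_mul_eq_one_left h4, ?_, ?_⟩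
  · rw [h4, one_mul] at hprod; exact hprod
  · intro j hj
    have h5 := two_terms (fun i j => r i * r j * c i j) hj
    rw [h, hprod] at h5
    have h6 : r j * r j * c j j = 0 := by omega
    rcases Nat.mul_eq_zero.1 h6 with h7 | h7
    · exact mul_self_eq_zero.1 h7
    · exact absurd h7 (by have := hpos j; omega)

/-- The combinatorial heart of the determination of the Cartan matrix of `PSL(2,q)`. -/
theorem combA (c : ι → ι → ℕ) (hsymm : ∀ i j, c i j = c j i) (hpos : ∀ i, 1 ≤ c i i)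
    (hK4 : ∀ i j, c i i = 1 → j ≠ i → c i j = 0)
    (p N0 : ℕ) (hN0 : N0 = 8 * p + 3)
    (n : ι → ℕ) (hn : ∀ i, 1 ≤ n i) (h8 : ∀ i, 8 ∣ ∑ j, c i j * n j)
    (i0 : ι) (hn0 : n i0 = 1)
    {Γ : Type*} [Finite Γ] (inv : Γ → Γ) (hinv : ∀ γ, inv γ ≠ γ)
    (hΓ : Nat.card Γ + 1 = N0)
    (r : Γ → ι → ℕ) (r1 : ι → ℕ) (hr10 : r1 i0 = 1)
    (E00 : ∑ i, ∑ j, r1 i * r1 j * c i j = 2)
    (EΓΓ1 : ∀ γ, ∑ i, ∑ j, r γ i * r γ j * c i j = 1)
    (EΓΓ2 : ∀ γ δ, (∑ i, ∑ j, r γ i * r δ j * c i j = 0) ↔ ¬ (δ = γ ∨ δ = inv γ))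
    (d : Fin 2 → ι → ℕ) (hd : ∀ a i, d a i ≤ 1)
    (E1d : ∀ a, ∑ i, ∑ j, d a i * r1 j * c i j = 1)
    (EΓd : ∀ a γ, ∑ i, ∑ j, d a i * r γ j * c i j = 1)
    (Eddeq : ∀ a, ∑ i, ∑ j, d a i * d a j * c i j = 1 + N0)
    (Eddne : ∑ i, ∑ j, d 0 i * d 1 j * c i j = N0)
    (hd0 : ∀ a, d a i0 = 0)
    (hdim : ∀ i, i ≠ i0 → r1 i = 0 → (∀ γ, r γ i = 0) → n i = N0 * (d 0 i + d 1 i))
    {K : Type*} (om : ι → K) (hom : ∀ i j, c i j ≠ 0 → om i = om j)
    (s : Fin p → ι) (hs0 : ∀ w, om (s w) ≠ om i0) (hsom : ∀ w w', om (s w) = om (s w') → w = w')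
    (hsr : ∀ w γ, r γ (s w) = 0) (hse : ∀ w, Even (n (s w))) :
    BlockType c p (4 * p + 1) := by
  classical
  -- Step 1
  have h00a : c i0 i0 ≠ 1 := by
    intro h
    have h1 := h8 i0
    rw [Finset.sum_eq_single i0] at h1
    · rw [h, hn0] at h1
      exact absurd h1 (by decide)
    · intro j _ hj
      rw [hK4 i0 j h hj, zero_mul]
    · intro h2; exact absurd (Finset.mem_univ _) h2
  have h00 : c i0 i0 = 2 := by
    have h1 := one_term (fun i j => r1 i * r1 j * c i j) i0
    rw [E00] at h1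
    simp only [hr10, one_mul] at h1
    have := hpos i0
    omega
  have hr1 : ∀ j, j ≠ i0 → r1 j = 0 := by
    intro j hj
    have h1 := two_terms (fun i j => r1 i * r1 j * c i j) hj
    rw [E00] at h1
    simp only [hr10, one_mul, h00] at h1
    have h6 : r1 j * r1 j * c j j = 0 := by omega
    rcases Nat.mul_eq_zero.1 h6 with h7 | h7
    · exact mul_self_eq_zero.1 h7
    · exact absurd h7 (by have := hpos j; omega)
  -- Step 2
  have hG : ∀ γ, ∃ i, r γ i = 1 ∧ c i i = 1 ∧ ∀ j, j ≠ i → r γ j = 0 :=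
    fun γ => indicator_of_sum_one hpos (EΓΓ1 γ)
  choose iG hG1 hG2 hG3 using hG
  -- Step 3
  have hG4 : ∀ γ δ, iG γ = iG δ ↔ δ = γ ∨ δ = inv γ := by
    intro γ δ
    have h1 : ∑ i, ∑ j, r γ i * r δ j * c i j = c (iG γ) (iG δ) := by
      rw [Finset.sum_eq_single (iG γ)]
      · rw [Finset.sum_eq_single (iG δ)]
        · rw [hG1, hG1, one_mul, one_mul]
        · intro j _ hj; rw [hG3 δ j hj]; ring
        · intro h2; exact absurd (Finset.mem_univ _) h2
      · intro i _ hi
        apply Finset.sum_eq_zero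
        intro j _
        rw [hG3 γ i hi]; ring
      · intro h2; exact absurd (Finset.mem_univ _) h2
    have h2 := EΓΓ2 γ δ
    rw [h1] at h2
    constructor
    · intro h3
      by_contra h4
      have := h2.2 h4
      rw [← h3, hG2] at this
      exact one_ne_zero this
    · intro h3
      by_contra h4
      exact h2.1 (hK4 _ _ (hG2 γ) (fun h5 => h4 h5.symm)) h3
  -- Step 4
  have hcardL : Nat.card (Set.range iG) = 4 * p + 1 := by
    have h1 := two_to_one iG inv hinv hG4
    omega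
  have hi0L : ∀ γ, iG γ ≠ i0 := by
    intro γ h
    have := hG2 γ
    rw [h, h00] at this
    omega
  have hcG : ∀ γ j, j ≠ iG γ → c j (iG γ) = 0 := by
    intro γ j hj
    rw [hsymm]; exact hK4 _ _ (hG2 γ) hj
  -- Step 5
  have hdG : ∀ a γ, d a (iG γ) = 1 := by
    intro a γ
    have h1 := EΓd a γ
    have h2 : ∑ i, ∑ j, d a i * r γ j * c i j = d a (iG γ) := by
      rw [Finset.sum_eq_single (iG γ)]
      · rw [Finset.sum_eq_single (iG γ)]
        · rw [hG1, hG2, mul_one, mul_one]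
        · intro j _ hj; rw [hG3 γ j hj]; ring
        · intro h2; exact absurd (Finset.mem_univ _) h2
      · intro i _ hi
        apply Finset.sum_eq_zero
        intro j _
        by_cases hj : j = iG γ
        · rw [hj, hcG γ i hi, mul_zero]
        · rw [hG3 γ j hj]; ring
      · intro h2; exact absurd (Finset.mem_univ _) h2
    rw [← h2, h1]
  -- Step 6
  have E1 : ∀ a, ∑ i, d a i * c i i0 = 1 := by
    intro a
    rw [← E1d a]
    refine Finset.sum_congr rfl fun i _ => ?_
    rw [Finset.sum_eq_single i0]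
    · rw [hr10, mul_one]
    · intro j _ hj; rw [hr1 j hj]; ring
    · intro h2; exact absurd (Finset.mem_univ _) h2
  -- the set `Y`
  set L : Finset ι := Finset.univ.filter (fun i => ∃ γ, iG γ = i) with hL
  set Y : Finset ι := Finset.univ.filter (fun i => i ≠ i0 ∧ ¬ ∃ γ, iG γ = i) with hY
  have memY : ∀ i, i ∈ Y ↔ i ≠ i0 ∧ ¬ ∃ γ, iG γ = i := by
    intro i; simp [hY]
  have memL : ∀ i, i ∈ L ↔ ∃ γ, iG γ = i := by
    intro i; simp [hL]
  have hcL : L.card = 4 * p + 1 := by
    rw [← hcardL, Nat.card_coe_set_eq, ← Set.ncard_coe_finset]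
    congr 1
    ext i
    simp [hL]
  have hsplit : ∀ f : ι → ℕ, ∑ i, f i = f i0 + ∑ i ∈ L, f i + ∑ i ∈ Y, f i := by
    intro f
    have h1 : (Finset.univ : Finset ι) = {i0} ∪ L ∪ Y := by
      ext i
      simp only [Finset.mem_union, Finset.mem_singleton, memL, memY, Finset.mem_univ, true_iff]
      tauto
    rw [h1, Finset.sum_union, Finset.sum_union, Finset.sum_singleton]
    · rw [Finset.disjoint_singleton_left, memL]
      rintro ⟨γ, hγ⟩
      exact hi0L γ hγ
    · rw [Finset.disjoint_left]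
      intro i hi hi2
      rw [memY] at hi2
      rw [Finset.mem_union, Finset.mem_singleton, memL] at hi
      tauto
  -- Step 7
  set T : Fin 2 → Fin 2 → ℕ := fun a b => ∑ i ∈ Y, ∑ j, d a i * d b j * c i j with hT
  have hTsum : ∀ a b, ∑ i, ∑ j, d a i * d b j * c i j = (4 * p + 1) + T a b := by
    intro a b
    rw [hsplit (fun i => ∑ j, d a i * d b j * c i j)]
    have h1 : ∑ j, d a i0 * d b j * c i0 j = 0 := by
      apply Finset.sum_eq_zero
      intro j _
      rw [hd0]; ring
    have h2 : ∑ i ∈ L, ∑ j, d a i * d b j * c i j = ∑ i ∈ L, 1 := by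
      refine Finset.sum_congr rfl fun i hi => ?_
      obtain ⟨γ, rfl⟩ := (memL i).1 hi
      rw [Finset.sum_eq_single (iG γ)]
      · rw [hdG, hdG, hG2]
      · intro j _ hj
        rw [hsymm, hcG γ j hj, mul_zero]
      · intro h2; exact absurd (Finset.mem_univ _) h2
    rw [h1, h2, Finset.sum_const, hcL, zero_add, smul_eq_mul, mul_one]
  have hTeq : ∀ a, T a a = 4 * p + 3 := by
    intro a
    have h1 := Eddeq a
    rw [hTsum] at h1
    omega
  have hTne : T 0 1 = 4 * p + 2 := by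
    have h1 := Eddne
    rw [hTsum] at h1
    omega
  have hTsymm : T 1 0 = 4 * p + 2 := by
    have h1 : ∑ i, ∑ j, d 1 i * d 0 j * c i j = ∑ i, ∑ j, d 0 i * d 1 j * c i j := by
      rw [Finset.sum_comm]
      refine Finset.sum_congr rfl fun i _ => Finset.sum_congr rfl fun j _ => ?_
      rw [hsymm]; ring
    rw [hTsum, hTsum] at h1
    omega
  -- the numbers `D`
  set D : ι → ℕ := fun i => ∑ j, c i j * (d 0 j + d 1 j) with hD
  have hYr : ∀ i ∈ Y, ∀ γ, r γ i = 0 := by
    intro i hi γ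
    apply hG3
    intro h
    exact ((memY i).1 hi).2 ⟨γ, h.symm⟩
  have h8D : ∀ i ∈ Y, 8 ∣ c i i0 + N0 * D i := by
    intro i hi
    have h1 := h8 i
    have h2 : ∑ j, c i j * n j = c i i0 + N0 * D i := by
      rw [hD, Finset.mul_sum, hsplit (fun j => c i j * n j),
        hsplit (fun j => N0 * (c i j * (d 0 j + d 1 j)))]
      rw [hn0, hd0, hd0]
      have h3 : ∑ j ∈ L, c i j * n j = 0 := by
        apply Finset.sum_eq_zero
        intro j hj
        obtain ⟨γ, rfl⟩ := (memL j).1 hj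
        rw [hcG γ i, zero_mul]
        intro h; exact ((memY i).1 hi).2 ⟨γ, h.symm⟩
      have h4 : ∑ j ∈ L, N0 * (c i j * (d 0 j + d 1 j)) = 0 := by
        apply Finset.sum_eq_zero
        intro j hj
        obtain ⟨γ, rfl⟩ := (memL j).1 hj
        rw [hcG γ i, zero_mul, mul_zero]
        intro h; exact ((memY i).1 hi).2 ⟨γ, h.symm⟩
      have h5 : ∑ j ∈ Y, c i j * n j = ∑ j ∈ Y, N0 * (c i j * (d 0 j + d 1 j)) := by
        refine Finset.sum_congr rfl fun j hj => ?_
        rw [hdim j ((memY j).1 hj).1 (hr1 j ((memY j).1 hj).1) (hYr j hj)]; ring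
      rw [h3, h4, h5]; ring
    rwa [h2] at h1
  have hYd : ∀ i ∈ Y, 1 ≤ d 0 i + d 1 i := by
    intro i hi
    have h1 := hdim i ((memY i).1 hi).1 (hr1 i ((memY i).1 hi).1) (hYr i hi)
    have h2 := hn i
    rcases Nat.eq_zero_or_pos (d 0 i + d 1 i) with h3 | h3
    · rw [h3, mul_zero] at h1; omega
    · exact h3
  have hDpos : ∀ i ∈ Y, 1 ≤ D i := by
    intro i hi
    have h1 : c i i * (d 0 i + d 1 i) ≤ D i :=
      Finset.single_le_sum (f := fun j => c i j * (d 0 j + d 1 j)) (fun _ _ => Nat.zero_le _)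
        (Finset.mem_univ i)
    have h2 := Nat.mul_pos (hpos i) (hYd i hi)
    omega
  -- Step 9
  have hia : ∀ a, ∃ i, d a i = 1 ∧ c i i0 = 1 ∧ i ∈ Y ∧ ∀ j, j ≠ i → d a j = 1 → c j i0 = 0 := by
    intro a
    have h1 := E1 a
    have h2 : ∃ i, d a i * c i i0 ≠ 0 := by
      by_contra hcon
      push Not at hcon
      simp [hcon] at h1
    obtain ⟨i, hi⟩ := h2
    have h3 : d a i * c i i0 ≤ 1 := by
      rw [← h1]
      exact Finset.single_le_sum (f := fun j => d a j * c j i0) (fun _ _ => Nat.zero_le _)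
        (Finset.mem_univ i)
    have h4 : d a i * c i i0 = 1 := by omega
    have h5 : i ∈ Y := by
      rw [memY]
      constructor
      · rintro rfl
        rw [hd0, zero_mul] at h4
        omega
      · rintro ⟨γ, rfl⟩
        rw [hsymm, hcG γ i0 (fun h => hi0L γ h.symm), mul_zero] at h4
        omega
    refine ⟨i, Nat.eq_one_of_mul_eq_one_right h4, Nat.eq_one_of_mul_eq_one_left h4, h5, ?_⟩
    intro j hj hdj
    have h6 : d a i * c i i0 + d a j * c j i0 ≤ 1 := by
      rw [← h1, ← Finset.sum_pair (f := fun j => d a j * c j i0) hj.symm]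
      exact Finset.sum_le_sum_of_subset (Finset.subset_univ _)
    rw [h4, hdj] at h6
    omega
  choose ia hia1 hia2 hiaY hia3 using hia
  have homia : ∀ a, om (ia a) = om i0 := by
    intro a
    apply hom
    rw [hia2]; exact one_ne_zero
  -- mod 8 facts
  have hD5 : ∀ a, 5 ≤ D (ia a) := by
    intro a
    have h1 := h8D _ (hiaY a)
    rw [hia2, hN0] at h1
    have h2 : 1 + (8 * p + 3) * D (ia a) = 8 * (p * D (ia a)) + (1 + 3 * D (ia a)) := by ring
    rw [h2] at h1
    have h3 : 8 ∣ 1 + 3 * D (ia a) := (Nat.dvd_add_right ⟨_, rfl⟩).1 h1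
    omega
  -- facts on `s`
  have hsY : ∀ w, s w ∈ Y := by
    intro w
    rw [memY]
    constructor
    · intro h; exact hs0 w (by rw [h])
    · rintro ⟨γ, hγ⟩
      have := hsr w γ
      rw [← hγ, hG1] at this
      omega
  have hscz : ∀ w, c (s w) i0 = 0 := by
    intro w
    by_contra h
    exact hs0 w (hom _ _ h)
  have hsd : ∀ w a, d a (s w) = 1 := by
    intro w a
    have h1 := hse w
    rw [hdim _ ((memY _).1 (hsY w)).1 (hr1 _ ((memY _).1 (hsY w)).1) (hsr w), hN0] at h1
    have h2 : Even (d 0 (s w) + d 1 (s w)) := by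
      rw [Nat.even_mul] at h1
      rcases h1 with h3 | h3
      · exfalso
        rw [Nat.even_iff] at h3
        omega
      · exact h3
    have h3 := hYd _ (hsY w)
    have h4 := hd 0 (s w)
    have h5 := hd 1 (s w)
    rw [Nat.even_iff] at h2
    have h6 : d 0 (s w) = 1 ∧ d 1 (s w) = 1 := by omega
    fin_cases a
    · exact h6.1
    · exact h6.2
  have hsD : ∀ w, 8 ≤ D (s w) := by
    intro w
    have h1 := h8D _ (hsY w)
    rw [hscz, zero_add, hN0] at h1
    have h2 : (8 * p + 3) * D (s w) = 8 * (p * D (s w)) + 3 * D (s w) := by ring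
    rw [h2] at h1
    have h3 : 8 ∣ 3 * D (s w) := (Nat.dvd_add_right ⟨_, rfl⟩).1 h1
    have h4 := hDpos _ (hsY w)
    omega
  have hsinj : Function.Injective s := by
    intro w w' h
    exact hsom w w' (by rw [h])
  -- Step 11
  have hSD : ∀ a, ∑ i ∈ Y, d a i * D i = 8 * p + 5 := by
    intro a
    have h1 : ∑ i ∈ Y, d a i * D i = T a 0 + T a 1 := by
      rw [hT]
      simp only
      rw [← Finset.sum_add_distrib]
      refine Finset.sum_congr rfl fun i _ => ?_
      rw [hD]
      simp only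
      rw [Finset.mul_sum, ← Finset.sum_add_distrib]
      refine Finset.sum_congr rfl fun j _ => ?_
      ring
    rw [h1]
    fin_cases a
    · change T 0 0 + T 0 1 = _
      rw [hTeq, hTne]; ring
    · change T 1 0 + T 1 1 = _
      rw [hTeq, hTsymm]; ring
  set Sa : Fin 2 → Finset ι := fun a => Y.filter (fun i => d a i = 1) with hSa
  have memSa : ∀ a i, i ∈ Sa a ↔ i ∈ Y ∧ d a i = 1 := by
    intro a i; simp [hSa]
  have hSaD : ∀ a, ∑ i ∈ Sa a, D i = 8 * p + 5 := by
    intro a
    have hSa' : Sa a = Y.filter (fun i => d a i = 1) := rfl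
    rw [← hSD a, hSa', Finset.sum_filter (fun i => d a i = 1)]
    refine Finset.sum_congr rfl fun i _ => ?_
    have := hd a i
    split_ifs with h
    · rw [h, one_mul]
    · have : d a i = 0 := by omega
      rw [this, zero_mul]
  set im : Finset ι := Finset.univ.image s with him
  have memim : ∀ i, i ∈ im ↔ ∃ w, s w = i := by
    intro i; simp [him]
  have himcard : im.card = p := by
    rw [him, Finset.card_image_of_injective _ hsinj, Finset.card_univ, Fintype.card_fin]
  have hiaim : ∀ a, ia a ∉ im := by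
    intro a h
    obtain ⟨w, hw⟩ := (memim _).1 h
    apply hs0 w
    rw [hw, homia]
  have himsum : 8 * p ≤ ∑ i ∈ im, D i := by
    have h1 : ∑ i ∈ im, 8 ≤ ∑ i ∈ im, D i := by
      apply Finset.sum_le_sum
      intro i hi
      obtain ⟨w, rfl⟩ := (memim _).1 hi
      exact hsD w
    rw [Finset.sum_const, himcard, smul_eq_mul, mul_comm] at h1
    exact h1
  have hSaeq : ∀ a, Sa a = insert (ia a) im ∧ D (ia a) = 5 ∧ ∑ i ∈ im, D i = 8 * p := by
    intro a
    have hsub : insert (ia a) im ⊆ Sa a := by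
      intro i hi
      rw [Finset.mem_insert] at hi
      rw [memSa]
      rcases hi with rfl | hi
      · exact ⟨hiaY a, hia1 a⟩
      · obtain ⟨w, rfl⟩ := (memim _).1 hi
        exact ⟨hsY w, hsd w a⟩
    have h1 := hSaD a
    rw [← Finset.sum_sdiff hsub, Finset.sum_insert (hiaim a)] at h1
    have h2 := hD5 a
    have h3 : ∑ i ∈ Sa a \ insert (ia a) im, D i = 0 := by omega
    refine ⟨?_, by omega, by omega⟩
    apply le_antisymm _ hsub
    intro i hi
    by_contra hni
    have h4 : i ∈ Sa a \ insert (ia a) im := Finset.mem_sdiff.2 ⟨hi, hni⟩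
    have h5 := Finset.single_le_sum (f := D) (fun _ _ => Nat.zero_le _) h4
    have h6 := hDpos i ((memSa a i).1 hi).1
    omega
  have hDs : ∀ w, D (s w) = 8 := by
    intro w
    have h1 := (hSaeq 0).2.2
    have hmem : s w ∈ im := (memim _).2 ⟨w, rfl⟩
    rw [← Finset.add_sum_erase _ _ hmem] at h1
    have h2 : ∑ i ∈ im.erase (s w), 8 ≤ ∑ i ∈ im.erase (s w), D i := by
      apply Finset.sum_le_sum
      intro i hi
      obtain ⟨w', rfl⟩ := (memim _).1 (Finset.mem_of_mem_erase hi)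
      exact hsD w'
    rw [Finset.sum_const, Finset.card_erase_of_mem hmem, himcard, smul_eq_mul] at h2
    have h3 := hsD w
    have hp : 1 ≤ p := by
      rw [← himcard]; exact Finset.card_pos.2 ⟨_, hmem⟩
    omega
  -- Step 12
  have hne : ia 0 ≠ ia 1 := by
    intro h
    have hS : Sa 0 = Sa 1 := by rw [(hSaeq 0).1, (hSaeq 1).1, h]
    have hdd : ∀ i, d 0 i = d 1 i := by
      intro i
      by_cases h1 : i = i0
      · rw [h1, hd0, hd0]
      · by_cases h2 : ∃ γ, iG γ = i
        · obtain ⟨γ, rfl⟩ := h2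
          rw [hdG, hdG]
        · have hiY : i ∈ Y := (memY i).2 ⟨h1, h2⟩
          have h3 := hYd i hiY
          have h4 := hd 0 i
          have h5 := hd 1 i
          by_cases h6 : d 0 i = 1
          · have h7 : i ∈ Sa 0 := (memSa 0 i).2 ⟨hiY, h6⟩
            rw [hS] at h7
            rw [h6, ((memSa 1 i).1 h7).2]
          · have h7 : d 1 i = 1 := by omega
            have h8 : i ∈ Sa 1 := (memSa 1 i).2 ⟨hiY, h7⟩
            rw [← hS] at h8
            exact absurd ((memSa 0 i).1 h8).2 h6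
    have h1 := Eddeq 0
    have h2 := Eddne
    simp only [hdd] at h1 h2
    omega
  have hd10 : d 1 (ia 0) = 0 := by
    by_contra h
    have h1 := hd 1 (ia 0)
    have h2 : ia 0 ∈ Sa 1 := (memSa 1 _).2 ⟨hiaY 0, by omega⟩
    rw [(hSaeq 1).1, Finset.mem_insert] at h2
    rcases h2 with h3 | h3
    · exact hne h3
    · exact hiaim 0 h3
  have hd01 : d 0 (ia 1) = 0 := by
    by_contra h
    have h1 := hd 0 (ia 1)
    have h2 : ia 1 ∈ Sa 0 := (memSa 0 _).2 ⟨hiaY 1, by omega⟩
    rw [(hSaeq 0).1, Finset.mem_insert] at h2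
    rcases h2 with h3 | h3
    · exact hne h3.symm
    · exact hiaim 1 h3
  have hYeq : ∀ i ∈ Y, i = ia 0 ∨ i = ia 1 ∨ ∃ w, s w = i := by
    intro i hi
    have h3 := hYd i hi
    have h4 := hd 0 i
    by_cases h6 : d 0 i = 1
    · have h7 : i ∈ Sa 0 := (memSa 0 i).2 ⟨hi, h6⟩
      rw [(hSaeq 0).1, Finset.mem_insert, memim] at h7
      tauto
    · have h7 : i ∈ Sa 1 := (memSa 1 i).2 ⟨hi, by have := hd 1 i; omega⟩
      rw [(hSaeq 1).1, Finset.mem_insert, memim] at h7
      tauto
  have hall : ∀ i, i = i0 ∨ (∃ γ, iG γ = i) ∨ i = ia 0 ∨ i = ia 1 ∨ ∃ w, s w = i := by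
    intro i
    by_cases h1 : i = i0
    · left; exact h1
    · by_cases h2 : ∃ γ, iG γ = i
      · right; left; exact h2
      · right; right
        exact hYeq i ((memY i).2 ⟨h1, h2⟩)
  have hsoff : ∀ w j, j ≠ s w → c (s w) j = 0 := by
    intro w j hj
    rcases hall j with rfl | ⟨γ, rfl⟩ | rfl | rfl | ⟨w', rfl⟩
    · exact hscz w
    · exact hcG γ _ hj.symm
    · by_contra h; exact hs0 w (by rw [hom _ _ h, homia])
    · by_contra h; exact hs0 w (by rw [hom _ _ h, homia])
    · by_contra h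
      exact hj (by rw [hsom _ _ (hom _ _ h)])
  have hs4 : ∀ w, c (s w) (s w) = 4 := by
    intro w
    have h1 := hDs w
    rw [hD] at h1
    simp only at h1
    rw [Finset.sum_eq_single (s w)] at h1
    · rw [hsd, hsd] at h1; omega
    · intro j _ hj; rw [hsoff w j hj, zero_mul]
    · intro h2; exact absurd (Finset.mem_univ _) h2
  have hcs : ∀ w j, j ≠ s w → c j (s w) = 0 := fun w j hj => by rw [hsymm]; exact hsoff w j hj
  have hiaG : ∀ a γ, iG γ ≠ ia a := by
    intro a γ h
    exact ((memY _).1 (hiaY a)).2 ⟨γ, h⟩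
  have hias : ∀ a w, s w ≠ ia a := by
    intro a w h
    exact hiaim a ((memim _).2 ⟨w, h⟩)
  have hia0 : ∀ a, ia a ≠ i0 := fun a => ((memY _).1 (hiaY a)).1
  -- Step 15
  have hrow : ∀ a, ∀ f : ι → ℕ, f i0 = 0 → ∑ j, c (ia a) j * f j =
      c (ia a) (ia 0) * f (ia 0) + c (ia a) (ia 1) * f (ia 1) := by
    intro a f hf
    rw [← Finset.sum_pair hne (f := fun j => c (ia a) j * f j)]
    symm
    apply Finset.sum_subset (Finset.subset_univ _)
    intro j _ hj
    rw [Finset.mem_insert, Finset.mem_singleton] at hj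
    push Not at hj
    rcases hall j with rfl | ⟨γ, rfl⟩ | h | h | ⟨w, rfl⟩
    · rw [hf, mul_zero]
    · rw [hcG γ _ (hiaG a γ).symm, zero_mul]
    · exact absurd h hj.1
    · exact absurd h hj.2
    · rw [hcs w _ (hias a w).symm, zero_mul]
  have hDa : ∀ a, c (ia a) (ia 0) + c (ia a) (ia 1) = 5 := by
    intro a
    have h1 := (hSaeq a).2.1
    rw [hD] at h1
    simp only at h1
    rw [hrow a (fun j => d 0 j + d 1 j) (by simp [hd0])] at h1
    simp only [hd10, hd01, hia1] at h1
    omega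
  have hdiag : ∀ a, c (ia a) (ia a) = 3 := by
    intro a
    have h1 := hTeq a
    rw [hT] at h1
    simp only at h1
    have h2 : ∑ i ∈ Y, ∑ j, d a i * d a j * c i j = ∑ i ∈ Sa a, ∑ j, d a j * c i j := by
      have hSa' : Sa a = Y.filter (fun i => d a i = 1) := rfl
      rw [hSa', Finset.sum_filter (fun i => d a i = 1)]
      refine Finset.sum_congr rfl fun i _ => ?_
      have := hd a i
      split_ifs with h
      · rw [h]; simp
      · have : d a i = 0 := by omega
        simp [this]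
    rw [h2, (hSaeq a).1, Finset.sum_insert (hiaim a)] at h1
    have h3 : ∑ i ∈ im, ∑ j, d a j * c i j = ∑ i ∈ im, 4 := by
      refine Finset.sum_congr rfl fun i hi => ?_
      obtain ⟨w, rfl⟩ := (memim _).1 hi
      rw [Finset.sum_eq_single (s w)]
      · rw [hsd, hs4]
      · intro j _ hj; rw [hsoff w j hj, mul_zero]
      · intro h2; exact absurd (Finset.mem_univ _) h2
    have h4 : ∑ j, d a j * c (ia a) j = c (ia a) (ia a) := by
      have h5 := hrow a (fun j => d a j) (hd0 a)
      have h6 : ∑ j, d a j * c (ia a) j = ∑ j, c (ia a) j * d a j :=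
        Finset.sum_congr rfl fun j _ => mul_comm _ _
      rw [h6, h5]
      fin_cases a
      · change c (ia 0) (ia 0) * d 0 (ia 0) + c (ia 0) (ia 1) * d 0 (ia 1) = c (ia 0) (ia 0)
        rw [hia1, hd01]; ring
      · change c (ia 1) (ia 0) * d 1 (ia 0) + c (ia 1) (ia 1) * d 1 (ia 1) = c (ia 1) (ia 1)
        rw [hia1, hd10]; ring
    rw [h3, h4, Finset.sum_const, himcard, smul_eq_mul] at h1
    omega
  -- conclusion
  have hc01 : c (ia 0) (ia 1) = 2 := by
    have h1 := hDa 0
    have h2 := hdiag 0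
    omega
  have hc10 : c (ia 1) (ia 0) = 2 := by rw [hsymm]; exact hc01
  refine ⟨![i0, ia 0, ia 1], ?_, ?_, ?_, ?_, ?_⟩
  · intro x y h
    fin_cases x <;> fin_cases y <;> simp at h ⊢
    · exact hia0 0 h.symm
    · exact hia0 1 h.symm
    · exact hia0 0 h
    · exact hne h
    · exact hia0 1 h
    · exact hne h.symm
  · have e1 := hia2 0
    have e2 := hia2 1
    have e3 : c i0 (ia 0) = 1 := by rw [hsymm]; exact e1
    have e4 : c i0 (ia 1) = 1 := by rw [hsymm]; exact e2
    have e5 := hdiag 0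
    have e6 := hdiag 1
    intro x y
    fin_cases x <;> fin_cases y <;> simp [Bmat, h00, e1, e2, e3, e4, e5, e6, hc01, hc10]
  · intro i hi
    have hi' : i ≠ i0 ∧ i ≠ ia 0 ∧ i ≠ ia 1 := by
      refine ⟨?_, ?_, ?_⟩
      · rintro rfl; exact hi ⟨0, rfl⟩
      · rintro rfl; exact hi ⟨1, rfl⟩
      · rintro rfl; exact hi ⟨2, rfl⟩
    rcases hall i with h | ⟨γ, rfl⟩ | h | h | ⟨w, rfl⟩
    · exact absurd h hi'.1
    · exact ⟨Or.inr (hG2 γ), fun j hj => hK4 _ _ (hG2 γ) hj⟩
    · exact absurd h hi'.2.1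
    · exact absurd h hi'.2.2
    · exact ⟨Or.inl (hs4 w), hsoff w⟩
  · -- the `4`s
    have h1 : Nat.card {i // c i i = 4} = im.card := by
      rw [Nat.card_eq_fintype_card, Fintype.card_subtype]
      congr 1
      ext i
      simp only [Finset.mem_filter, Finset.mem_univ, true_and]
      rw [memim]
      constructor
      · intro h4
        rcases hall i with rfl | ⟨γ, rfl⟩ | rfl | rfl | h
        · omega
        · have := hG2 γ; omega
        · have := hdiag 0; omega
        · have := hdiag 1; omega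
        · exact h
      · rintro ⟨w, rfl⟩; exact hs4 w
    rw [h1, himcard]
  · have h1 : Nat.card {i // c i i = 1} = L.card := by
      rw [Nat.card_eq_fintype_card, Fintype.card_subtype]
      congr 1
      ext i
      simp only [Finset.mem_filter, Finset.mem_univ, true_and]
      rw [memL]
      constructor
      · intro h4
        rcases hall i with rfl | h | rfl | rfl | ⟨w, rfl⟩
        · omega
        · exact h
        · have := hdiag 0; omega
        · have := hdiag 1; omega
        · have := hs4 w; omega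
      · rintro ⟨γ, rfl⟩; exact hG2 γ
    rw [h1, hcL]

end

end Cartan2
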