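import Pool.Agent.Cartan2.Clifford
import Pool.Agent.Cartan2.Comb

open Module

namespace Cartan2

universe u

open MonoidAlgebra (single)

variable {k : Type u} [Field k] {H L : Type} [Group H] [Fintype H] [Group L] [Fintype L]

/-- A system of central idempotents of `k N`, `N = ker π`, permuted by `L`. -/
structure Cliff (k : Type u) [Field k] {H L : Type} [Group H] [Fintype H] [Group L] [Fintype L]
    (π : H →* L) (σ : L →* H) (Θ : Type) [Fintype Θ] [MulAction L Θ] where
  πσ : ∀ l, π (σ l) = l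
  E : Θ → MonoidAlgebra k H
  deg : Θ → ℕ
  idem : ∀ θ, E θ * E θ = E θ
  orth : ∀ θ θ', θ ≠ θ' → E θ * E θ' = 0
  sum : ∑ θ, E θ = 1
  conj : ∀ l θ, single (σ l) (1 : k) * E θ * single (σ l⁻¹) (1 : k) = E (l • θ)
  comm : ∀ n, π n = 1 → ∀ θ, single n (1 : k) * E θ = E θ * single n (1 : k)
  dim : ∀ θ, finrank k (lid (E θ)) = Fintype.card L * (deg θ) ^ 2
  deg_pos : ∀ θ, 1 ≤ deg θ
  dvd : ∀ θ (M : Type u) [AddCommGroup M] [Module k M] [Module (MonoidAlgebra k H) M]
    [IsScalarTower k (MonoidAlgebra k H) M] [FiniteDimensional k M], deg θ ∣ rk k (E θ) M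
  supp : ∀ θ g, π g ≠ 1 → (E θ).coeff g = 0
  θ0 : Θ
  θ0_fix : ∀ l : L, l • θ0 = θ0
  θ0_act : ∀ n, π n = 1 → single n (1 : k) * E θ0 = E θ0
  θ0_map : MonoidAlgebra.mapDomainAlgHom k k π (E θ0) = 1

namespace Cliff

variable {π : H →* L} {σ : L →* H} {Θ : Type} [Fintype Θ] [MulAction L Θ] (C : Cliff k π σ Θ)
include C

theorem conj' (l : L) (θ : Θ) : single (σ l) (1 : k) * C.E θ = C.E (l • θ) * single (σ l) 1 := by
  rw [← C.conj, mul_assoc _ (single (σ l⁻¹) (1 : k)), MonoidAlgebra.single_mul_single, ← map_mul,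
    inv_mul_cancel, map_one, one_mul]
  change _ = _ * 1
  rw [mul_one]

/-- decomposition of a group element -/
theorem decomp (h : H) : π (h * (σ (π h))⁻¹) = 1 ∧ h = (h * (σ (π h))⁻¹) * σ (π h) := by
  constructor
  · rw [map_mul, map_inv, C.πσ, mul_inv_cancel]
  · group

theorem single_E (h : H) (θ : Θ) :
    single h (1 : k) * C.E θ = C.E (π h • θ) * single h 1 := by
  obtain ⟨h1, h2⟩ := C.decomp h
  have h3 : single h (1 : k) = single (h * (σ (π h))⁻¹) 1 * single (σ (π h)) 1 := by
    rw [MonoidAlgebra.single_mul_single, ← h2, one_mul]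
  rw [h3, mul_assoc, C.conj', ← mul_assoc, C.comm _ h1, mul_assoc]

theorem E_single_E_eq_zero {h : H} {θ θ' : Θ} (hne : π h • θ' ≠ θ) :
    C.E θ * single h (1 : k) * C.E θ' = 0 := by
  rw [mul_assoc, C.single_E, ← mul_assoc, C.orth θ _ hne.symm, zero_mul]

theorem cdim_eq_zero {θ θ' : Θ} (hne : ∀ l : L, l • θ' ≠ θ) : cdim k (C.E θ) (C.E θ') = 0 := by
  unfold cdim
  rw [Submodule.finrank_eq_zero, eq_bot_iff]
  rintro _ ⟨a, rfl⟩
  rw [Submodule.mem_bot]
  change C.E θ * (a * C.E θ') = 0
  rw [eq_sum_coeff a, Finset.sum_mul, Finset.mul_sum]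
  apply Finset.sum_eq_zero
  intro g _
  rw [smul_mul_assoc, mul_smul_comm, ← mul_assoc, C.E_single_E_eq_zero (hne _), smul_zero]

theorem rk_smul {M : Type*} [AddCommGroup M] [Module k M] [Module (MonoidAlgebra k H) M]
    [IsScalarTower k (MonoidAlgebra k H) M] (l : L) (θ : Θ) :
    rk k (C.E (l • θ)) M = rk k (C.E θ) M := by
  rw [← C.conj]
  apply rk_conj
  · rw [MonoidAlgebra.single_mul_single, ← map_mul, mul_inv_cancel, map_one, one_mul]; rfl
  · rw [MonoidAlgebra.single_mul_single, ← map_mul, inv_mul_cancel, map_one, one_mul]; rfl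

theorem finrank_eq_sum {M : Type*} [AddCommGroup M] [Module k M] [Module (MonoidAlgebra k H) M]
    [IsScalarTower k (MonoidAlgebra k H) M] [FiniteDimensional k M] :
    finrank k M = ∑ θ, rk k (C.E θ) M := by
  rw [← rk_one (A := MonoidAlgebra k H), ← C.sum, rk_sum_orth C.E C.idem C.orth]

open Classical in
theorem sum_orbit {M : Type*} [AddCommGroup M] [Module k M] [Module (MonoidAlgebra k H) M]
    [IsScalarTower k (MonoidAlgebra k H) M] [FiniteDimensional k M] (θ : Θ)
    (h : ∀ θ', θ' ∉ MulAction.orbit L θ → rk k (C.E θ') M = 0) :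
    finrank k M = Nat.card (MulAction.orbit L θ) * rk k (C.E θ) M := by
  rw [C.finrank_eq_sum]
  have h1 : ∑ θ', rk k (C.E θ') M =
      ∑ θ' ∈ Finset.univ.filter (fun θ' => θ' ∈ MulAction.orbit L θ), rk k (C.E θ) M := by
    rw [Finset.sum_filter]
    refine Finset.sum_congr rfl fun θ' _ => ?_
    split_ifs with h2
    · obtain ⟨l, hl⟩ := h2
      rw [← hl]
      exact C.rk_smul l θ
    · exact h θ' h2
  rw [h1, Finset.sum_const, smul_eq_mul]
  congr 1
  rw [Nat.card_eq_fintype_card, Fintype.card_subtype]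

/-- `dim E θ A E θ = |T| deg² `. -/
theorem cdim_self (θ : Θ) : cdim k (C.E θ) (C.E θ) =
    Nat.card (MulAction.stabilizer L θ) * (C.deg θ) ^ 2 := by
  classical
  have := fd_sub (k := k) (lid (C.E θ))
  have h1 := C.sum_orbit (M := lid (C.E θ)) θ (by
    intro θ' hθ'
    rw [rk_lid]
    apply C.cdim_eq_zero
    intro l hl
    exact hθ' ⟨l, hl⟩)
  rw [C.dim, rk_lid] at h1
  have h2 := MulAction.card_orbit_mul_card_stabilizer_eq_card_group L θ
  rw [← Nat.card_eq_fintype_card, ← Nat.card_eq_fintype_card] at h2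
  have hne : Nonempty (MulAction.orbit L θ) := ⟨⟨θ, MulAction.mem_orbit_self θ⟩⟩
  have h3 : 0 < Nat.card (MulAction.orbit L θ) := Nat.card_pos
  apply Nat.eq_of_mul_eq_mul_left h3
  rw [← h1, ← h2]; ring

/-- Corner elements are supported on the inertia group. -/
theorem supp_corner {θ : Θ} {x : MonoidAlgebra k H} (hx : C.E θ * x * C.E θ = x) {g : H}
    (hg : π g • θ ≠ θ) : x.coeff g = 0 := by
  classical
  rw [← hx, eq_sum_coeff x, Finset.mul_sum, Finset.sum_mul, MonoidAlgebra.coeff_sum,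
    Finset.sum_apply']
  apply Finset.sum_eq_zero
  intro h _
  rw [mul_smul_comm, smul_mul_assoc, MonoidAlgebra.coeff_smul, Finsupp.smul_apply]
  by_cases h1 : π h • θ = θ
  · -- the element is supported on `π g = π h`
    have h2 : (C.E θ * single h 1 * C.E θ).coeff g = 0 := by
      rw [mul_assoc, C.single_E, h1, ← mul_assoc, C.idem, MonoidAlgebra.coeff_mul_single_apply]
      rw [C.supp, zero_mul]
      rw [map_mul, map_inv]
      intro h3
      apply hg
      rw [mul_inv_eq_one.1 h3, h1]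
    rw [h2, smul_zero]
  · rw [C.E_single_E_eq_zero h1, MonoidAlgebra.coeff_zero, Finsupp.coe_zero, Pi.zero_apply,
      smul_zero]

/-- If the inertia group has odd order, the corner meets the radical trivially. -/
theorem corner_jac {θ : Θ}
    (hodd : (Nat.card ((MulAction.stabilizer L θ).comap π) : k) ≠ 0) :
    ∀ x ∈ Ring.jacobson (MonoidAlgebra k H), C.E θ * x * C.E θ = 0 := by
  intro x hx
  have : IsArtinianRing (MonoidAlgebra k H) := IsArtinianRing.of_finite k _
  set y := C.E θ * x * C.E θ with hy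
  have hyJ : y ∈ Ring.jacobson (MonoidAlgebra k H) :=
    Ideal.mul_mem_right _ _ (Ideal.mul_mem_left _ _ hx)
  have hyE : C.E θ * y * C.E θ = y := by
    rw [hy]
    calc C.E θ * (C.E θ * x * C.E θ) * C.E θ = (C.E θ * C.E θ) * x * (C.E θ * C.E θ) := by
          simp only [mul_assoc]
      _ = _ := by rw [C.idem]
  have hys : ∀ g, g ∉ (MulAction.stabilizer L θ).comap π → y.coeff g = 0 := by
    intro g hg
    apply C.supp_corner hyE
    intro h
    exact hg h
  ext g
  rw [MonoidAlgebra.coeff_zero, Finsupp.coe_zero, Pi.zero_apply]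
  by_cases hg : g ∈ (MulAction.stabilizer L θ).comap π
  · have h1 : (single g⁻¹ 1 * y).coeff 1 = 0 := by
      apply coeff_one_of_nilpotent_supp ((MulAction.stabilizer L θ).comap π) hodd
      · exact jacobson_nilpotent (Ideal.mul_mem_left _ _ hyJ)
      · intro h hh
        rw [MonoidAlgebra.coeff_single_mul_apply, one_mul, inv_inv]
        apply hys
        intro h2
        apply hh
        have := Subgroup.mul_mem _ (Subgroup.inv_mem _ hg) h2
        simpa using this
    rw [MonoidAlgebra.coeff_single_mul_apply, one_mul, inv_inv, mul_one] at h1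
    exact h1
  · exact hys g hg

end Cliff

end Cartan2
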