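import Pool.Agent.Cartan2.Comb

namespace Cartan2

section

variable {ι R : Type} [Fintype ι] [Fintype R]

theorem combine (c : ι → ι → ℕ) (cl : ι → Option R) (t : R → ℕ)
    (ht : ∀ r, t r = 1 ∨ t r = 3 ∨ t r = 4)
    (hcl : ∀ i j, c i j ≠ 0 → cl i = cl j)
    (hoff : ∀ i j r, cl i = some r → j ≠ i → c i j = 0)
    (h1 : ∀ r, t r = 1 → Nat.card {i // cl i = some r} = 1 ∧ ∀ i, cl i = some r → c i i = 1)
    (h3 : ∀ r, t r = 3 → Nat.card {i // cl i = some r} = 3 ∧ ∀ i, cl i = some r → c i i = 1)
    (h4 : ∀ r, t r = 4 → Nat.card {i // cl i = some r} = 1 ∧ ∀ i, cl i = some r → c i i = 4)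
    {p0 q0 : ℕ} (h0 : BlockType (fun i j : {i // cl i = none} => c i j) p0 q0) :
    BlockType c (p0 + Nat.card {r // t r = 4})
      (q0 + Nat.card {r // t r = 1} + 3 * Nat.card {r // t r = 3}) := by
  classical
  obtain ⟨b, hb1, hb2, hb3, hb4, hb5⟩ := h0
  -- counting fibrewise
  have count : ∀ m : ℕ, Nat.card {i // c i i = m} =
      Nat.card {i : {i // cl i = none} // c i.1 i.1 = m} +
        ∑ r, Nat.card {i // cl i = some r ∧ c i i = m} := by
    intro m
    rw [Nat.card_eq_fintype_card, Fintype.card_subtype,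
      Finset.card_eq_sum_card_fiberwise (f := cl) (t := Finset.univ) (fun _ _ => Finset.mem_coe.2 (Finset.mem_univ _)),
      Fintype.sum_option]
    congr 1
    · rw [← Nat.card_congr (Equiv.subtypeSubtypeEquivSubtypeInter (fun i => cl i = none)
        (fun i => c i i = m)).symm, Nat.card_eq_fintype_card, Fintype.card_subtype]
      congr 1
      ext i; simp [and_comm]
    · refine Finset.sum_congr rfl fun r _ => ?_
      rw [Nat.card_eq_fintype_card, Fintype.card_subtype]
      congr 1
      ext i; simp [and_comm]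
  refine ⟨fun x => (b x).1, ?_, ?_, ?_, ?_, ?_⟩
  · intro x y h
    exact hb1 (Subtype.ext h)
  · exact hb2
  · intro i hi
    rcases hcli : cl i with _ | r
    · have h5 := hb3 ⟨i, hcli⟩ (by
        rintro ⟨x, hx⟩
        exact hi ⟨x, congrArg Subtype.val hx⟩)
      refine ⟨h5.1, fun j hj => ?_⟩
      by_contra h6
      have h7 := hcl i j h6
      rw [hcli] at h7
      exact h6 (h5.2 ⟨j, h7.symm⟩ (fun h => hj (congrArg Subtype.val h)))
    · refine ⟨?_, fun j hj => hoff i j r hcli hj⟩
      rcases ht r with h | h | h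
      · right; exact (h1 r h).2 i hcli
      · right; exact (h3 r h).2 i hcli
      · left; exact (h4 r h).2 i hcli
  · rw [count 4, hb4]
    congr 1
    have h5 : ∀ r, Nat.card {i // cl i = some r ∧ c i i = 4} = if t r = 4 then 1 else 0 := by
      intro r
      split_ifs with h
      · refine Eq.trans ?_ (h4 r h).1
        exact Nat.card_congr (Equiv.subtypeEquivRight fun i =>
          ⟨fun h6 => h6.1, fun h6 => ⟨h6, (h4 r h).2 i h6⟩⟩)
      · have : IsEmpty {i // cl i = some r ∧ c i i = 4} := by
          constructor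
          rintro ⟨i, hi, hi4⟩
          rcases ht r with h6 | h6 | h6
          · have := (h1 r h6).2 i hi; omega
          · have := (h3 r h6).2 i hi; omega
          · exact h h6
        exact Nat.card_eq_zero.2 (Or.inl this)
    simp only [h5]
    rw [Finset.sum_boole, Nat.card_eq_fintype_card, Fintype.card_subtype]
    rfl
  · rw [count 1, hb5, add_assoc]
    congr 1
    have h5 : ∀ r, Nat.card {i // cl i = some r ∧ c i i = 1} =
        (if t r = 1 then 1 else 0) + 3 * (if t r = 3 then 1 else 0) := by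
      intro r
      rcases ht r with h | h | h
      · rw [if_pos h, if_neg (by omega), mul_zero, add_zero]
        refine Eq.trans ?_ (h1 r h).1
        exact Nat.card_congr (Equiv.subtypeEquivRight fun i =>
          ⟨fun h6 => h6.1, fun h6 => ⟨h6, (h1 r h).2 i h6⟩⟩)
      · rw [if_neg (by omega), if_pos h, mul_one, zero_add]
        refine Eq.trans ?_ (h3 r h).1
        exact Nat.card_congr (Equiv.subtypeEquivRight fun i =>
          ⟨fun h6 => h6.1, fun h6 => ⟨h6, (h3 r h).2 i h6⟩⟩)
      · rw [if_neg (by omega), if_neg (by omega), mul_zero, add_zero]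
        have : IsEmpty {i // cl i = some r ∧ c i i = 1} := by
          constructor
          rintro ⟨i, hi, hi4⟩
          have := (h4 r h).2 i hi; omega
        exact Nat.card_eq_zero.2 (Or.inl this)
    simp only [h5]
    rw [Finset.sum_add_distrib, ← Finset.mul_sum, Finset.sum_boole, Finset.sum_boole,
      Nat.card_eq_fintype_card, Fintype.card_subtype, Nat.card_eq_fintype_card,
      Fintype.card_subtype]
    rfl

end

section orbit

variable {ι : Type} [Fintype ι] [DecidableEq ι]

/-- The case of an inertia group of order `4`. -/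
theorem orbit_four {c : ι → ι → ℕ} (hpos : ∀ i, 1 ≤ c i i) {r : ι → ℕ}
    (h : ∑ i, ∑ j, r i * r j * c i j = 4) (hdiv : ∀ i, r i ≠ 0 → 4 ∣ ∑ j, c i j * r j) :
    ∃ i, r i = 1 ∧ c i i = 4 ∧ ∀ j, j ≠ i → r j = 0 := by
  set D : ι → ℕ := fun i => ∑ j, c i j * r j with hD
  have h1 : ∑ i, r i * D i = 4 := by
    rw [← h]
    refine Finset.sum_congr rfl fun i _ => ?_
    rw [hD]; simp only
    rw [Finset.mul_sum]
    refine Finset.sum_congr rfl fun j _ => ?_
    ring
  have hD4 : ∀ i, r i ≠ 0 → 4 ≤ D i := by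
    intro i hi
    have h2 : c i i * r i ≤ D i :=
      Finset.single_le_sum (f := fun j => c i j * r j) (fun _ _ => Nat.zero_le _)
        (Finset.mem_univ i)
    have h3 : 1 ≤ c i i * r i := Nat.mul_pos (hpos i) (Nat.pos_of_ne_zero hi)
    exact Nat.le_of_dvd (by omega) (hdiv i hi)
  have h2 : ∃ i, r i ≠ 0 := by
    by_contra hcon
    push Not at hcon
    simp [hcon] at h1
  obtain ⟨i, hi⟩ := h2
  have h3 : r i * D i ≤ 4 := by
    rw [← h1]
    exact Finset.single_le_sum (f := fun j => r j * D j) (fun _ _ => Nat.zero_le _)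
      (Finset.mem_univ i)
  have h4 := hD4 i hi
  have hr : r i = 1 := by
    by_contra h5
    have h6 : 2 ≤ r i := by omega
    have h7 : 2 * 4 ≤ r i * D i := Nat.mul_le_mul h6 h4
    omega
  have hDi : D i = 4 := by rw [hr, one_mul] at h3; omega
  have hj : ∀ j, j ≠ i → r j = 0 := by
    intro j hj
    by_contra h5
    have h6 : r i * D i + r j * D j ≤ 4 := by
      rw [← h1, ← Finset.sum_pair (f := fun j => r j * D j) hj.symm]
      exact Finset.sum_le_sum_of_subset (Finset.subset_univ _)
    have h7 : 1 * 4 ≤ r j * D j := Nat.mul_le_mul (by omega) (hD4 j h5)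
    rw [hr, hDi] at h6
    omega
  refine ⟨i, hr, ?_, hj⟩
  rw [hD] at hDi
  simp only at hDi
  rw [Finset.sum_eq_single i] at hDi
  · rw [hr, mul_one] at hDi; exact hDi
  · intro j _ hji; rw [hj j hji, mul_zero]
  · intro h2; exact absurd (Finset.mem_univ _) h2

/-- The case of an inertia group of order `3`. -/
theorem orbit_three {c : ι → ι → ℕ} {r : ι → ℕ}
    (h : ∑ i, ∑ j, r i * r j * c i j = 3)
    (hc : ∀ i, r i ≠ 0 → ∀ j, c i j = if i = j then 1 else 0) :
    Nat.card {i // r i ≠ 0} = 3 := by
  classical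
  have h1 : ∑ i, r i * r i = 3 := by
    rw [← h]
    refine Finset.sum_congr rfl fun i _ => ?_
    by_cases hi : r i = 0
    · simp [hi]
    · rw [Finset.sum_eq_single i]
      · rw [hc i hi i, if_pos rfl, mul_one]
      · intro j _ hj; rw [hc i hi j, if_neg hj.symm, mul_zero]
      · intro h2; exact absurd (Finset.mem_univ _) h2
  have h2 : ∀ i, r i ≤ 1 := by
    intro i
    by_contra h3
    have h4 : 2 * 2 ≤ r i * r i := Nat.mul_le_mul (by omega) (by omega)
    have h5 : r i * r i ≤ 3 := by
      rw [← h1]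
      exact Finset.single_le_sum (f := fun j => r j * r j) (fun _ _ => Nat.zero_le _)
        (Finset.mem_univ i)
    omega
  have h3 : ∑ i, r i * r i = ∑ i, if r i ≠ 0 then 1 else 0 := by
    refine Finset.sum_congr rfl fun i _ => ?_
    have := h2 i
    split_ifs with h4
    · have : r i = 1 := by omega
      rw [this]
    · push Not at h4
      rw [h4]
  rw [h3, Finset.sum_boole] at h1
  rw [Nat.card_eq_fintype_card, Fintype.card_subtype]
  exact_mod_cast h1

end orbit

end Cartan2
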