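import Pool.Agent.Cartan2.Transport
import Pool.Agent.Cartan2.Combine

open Module

namespace Cartan2

universe u

open MonoidAlgebra (single)

namespace Cliff

variable {k : Type u} [Field k] {H L : Type} [Group H] [Fintype H] [Group L] [Fintype L]
variable {π : H →* L} {σ : L →* H} {Θ : Type} [Fintype Θ] [MulAction L Θ] (C : Cliff k π σ Θ)

theorem term_le {ι : Type} [Fintype ι] (f : ι → ι → ℕ) (i j : ι) : f i j ≤ ∑ a, ∑ b, f a b := by
  rw [← Fintype.sum_prod_type' (f := f)]
  exact Finset.single_le_sum (f := fun x : ι × ι => f x.1 x.2) (fun _ _ => Nat.zero_le _)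
    (Finset.mem_univ (i, j))

theorem same_orbit {ι : Type} [Fintype ι] (Z : SimpleSys k (MonoidAlgebra k H) ι) {θ θ' : Θ}
    {i j : ι} (hi : rk k (C.E θ) (Z.S i) ≠ 0) (hj : rk k (C.E θ') (Z.S j) ≠ 0)
    (hc : Z.c i j ≠ 0) : ∃ l : L, l • θ' = θ := by
  by_contra hcon
  push Not at hcon
  have h1 := C.cdim_eq_zero hcon
  rw [Z.cdim_eq_sum (groupForm k H) (C.idem θ) (C.idem θ')] at h1
  have h2 := term_le (fun i j => rk k (C.E θ) (Z.S i) * rk k (C.E θ') (Z.S j) * Z.c i j) i j
  rw [h1] at h2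
  have h3 : 0 < rk k (C.E θ) (Z.S i) * rk k (C.E θ') (Z.S j) * Z.c i j :=
    Nat.mul_pos (Nat.mul_pos (Nat.pos_of_ne_zero hi) (Nat.pos_of_ne_zero hj))
      (Nat.pos_of_ne_zero hc)
  omega

theorem card_comap_stab (hπ : Function.Surjective π) (T : Subgroup L) :
    Nat.card (T.comap π) = Nat.card π.ker * Nat.card T := by
  have h1 := (T.comap π).card_mul_index
  have h2 := T.card_mul_index
  have h3 := π.ker.card_mul_index
  rw [Subgroup.index_comap_of_surjective T hπ] at h1
  have h4 : π.ker.index = Nat.card L := by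
    rw [Subgroup.index_ker, MonoidHom.range_eq_top.2 hπ, Subgroup.card_top]
  have h5 : 0 < T.index := Nat.pos_of_ne_zero (Subgroup.index_ne_zero_of_finite)
  apply Nat.eq_of_mul_eq_mul_right h5
  rw [h1, mul_assoc, h2, ← h4, h3]

theorem blockType [CharP k 2] [IsAlgClosed k] {ι : Type} [Fintype ι]
    (Z : SimpleSys k (MonoidAlgebra k H) ι)
    (hN : Odd (Nat.card π.ker)) (hL : Fintype.card L % 16 = 8)
    {R : Type} [Fintype R] (rep : R → Θ) (t : R → ℕ)
    (ht : ∀ r, t r = 1 ∨ t r = 3 ∨ t r = 4)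
    (hstab : ∀ r, Nat.card (MulAction.stabilizer L (rep r)) = t r)
    (hcov : ∀ θ, θ ≠ C.θ0 → ∃ r, ∃ l : L, l • rep r = θ)
    (hdisj : ∀ r r' (l : L), l • rep r = rep r' → r = r')
    (hrep0 : ∀ r, rep r ≠ C.θ0) (hdeg : ∀ θ, Odd (C.deg θ)) {p0 q0 : ℕ}
    (hLB : ∀ (ι' : Type) [Fintype ι'] (Z' : SimpleSys k (MonoidAlgebra k L) ι'),
      BlockType Z'.c p0 q0) :
    BlockType Z.c (p0 + Nat.card {r // t r = 4})
      (q0 + Nat.card {r // t r = 1} + 3 * Nat.card {r // t r = 3}) := by
  classical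
  have τ := groupForm k H
  have hπ : Function.Surjective π := fun l => ⟨σ l, C.πσ l⟩
  let oc : Option R → Θ := fun o => o.elim C.θ0 rep
  have hP : ∀ o o' (l : L), l • oc o = oc o' → o = o' := by
    intro o o' l h
    rcases o with _ | r <;> rcases o' with _ | r'
    · rfl
    · exfalso
      change l • C.θ0 = rep r' at h
      rw [C.θ0_fix] at h
      exact hrep0 r' h.symm
    · exfalso
      change l • rep r = C.θ0 at h
      apply hrep0 r
      rw [← C.θ0_fix l⁻¹, ← h, inv_smul_smul]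
    · exact congrArg some (hdisj r r' l h)
  have hex : ∀ i, ∃ o, rk k (C.E (oc o)) (Z.S i) ≠ 0 := by
    intro i
    have hnt : Nontrivial (Z.S i) := IsSimpleModule.nontrivial (MonoidAlgebra k H) _
    have h1 : 0 < finrank k (Z.S i) := finrank_pos
    rw [C.finrank_eq_sum] at h1
    have h2 : ∃ θ, rk k (C.E θ) (Z.S i) ≠ 0 := by
      by_contra hcon
      push Not at hcon
      simp [hcon] at h1
    obtain ⟨θ, hθ⟩ := h2
    by_cases h3 : θ = C.θ0
    · exact ⟨none, by rw [h3] at hθ; exact hθ⟩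
    · obtain ⟨r, l, hl⟩ := hcov θ h3
      refine ⟨some r, ?_⟩
      rw [← hl, C.rk_smul] at hθ
      exact hθ
  choose cl hcl0 using hex
  have hcl : ∀ i j, Z.c i j ≠ 0 → cl i = cl j := by
    intro i j hij
    obtain ⟨l, hl⟩ := C.same_orbit Z (hcl0 i) (hcl0 j) hij
    exact (hP _ _ l hl).symm
  have hself : ∀ i, Z.c i i ≠ 0 := fun i => by have := Z.c_self_pos i; omega
  have hcliff : ∀ i o, cl i = o ↔ rk k (C.E (oc o)) (Z.S i) ≠ 0 := by
    intro i o
    constructor
    · rintro rfl; exact hcl0 i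
    · intro h
      obtain ⟨l, hl⟩ := C.same_orbit Z (hcl0 i) h (hself i)
      exact (hP _ _ l hl).symm
  -- the reduced ranks
  have hdv : ∀ r i, ∃ m, rk k (C.E (rep r)) (Z.S i) = C.deg (rep r) * m := fun r i =>
    C.dvd (rep r) (Z.S i)
  choose m hm using hdv
  have hmne : ∀ r i, m r i ≠ 0 ↔ cl i = some r := by
    intro r i
    rw [hcliff]
    change _ ↔ rk k (C.E (rep r)) (Z.S i) ≠ 0
    rw [hm]
    have := C.deg_pos (rep r)
    constructor
    · intro h
      exact Nat.mul_ne_zero (by omega) h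
    · intro h h2
      exact h (by rw [h2, mul_zero])
  have hsum : ∀ r, ∑ i, ∑ j, m r i * m r j * Z.c i j = t r := by
    intro r
    have h1 := C.cdim_self (rep r)
    rw [Z.cdim_eq_sum τ (C.idem _) (C.idem _), hstab] at h1
    have h2 : ∑ i, ∑ j, rk k (C.E (rep r)) (Z.S i) * rk k (C.E (rep r)) (Z.S j) * Z.c i j =
        (∑ i, ∑ j, m r i * m r j * Z.c i j) * (C.deg (rep r)) ^ 2 := by
      rw [Finset.sum_mul]
      refine Finset.sum_congr rfl fun i _ => ?_
      rw [Finset.sum_mul]
      refine Finset.sum_congr rfl fun j _ => ?_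
      rw [hm, hm]; ring
    rw [h2] at h1
    have h3 : 0 < (C.deg (rep r)) ^ 2 := by
      have := C.deg_pos (rep r)
      positivity
    exact Nat.eq_of_mul_eq_mul_right h3 h1
  have hpos := fun i => Z.c_self_pos i
  -- inertia group of order 1
  have case1 : ∀ r, t r = 1 → ∃ i, cl i = some r ∧ Z.c i i = 1 ∧ ∀ j, cl j = some r → j = i := by
    intro r hr
    have h1 := hsum r
    rw [hr] at h1
    obtain ⟨i, hi1, hi2, hi3⟩ := indicator_of_sum_one hpos h1
    refine ⟨i, (hmne r i).1 (by rw [hi1]; exact one_ne_zero), hi2, ?_⟩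
    intro j hj
    by_contra h2
    exact (hmne r j).2 hj (hi3 j h2)
  -- inertia group of order 4
  have case4 : ∀ r, t r = 4 → ∃ i, cl i = some r ∧ Z.c i i = 4 ∧ ∀ j, cl j = some r → j = i := by
    intro r hr
    have h1 := hsum r
    rw [hr] at h1
    have hdiv : ∀ i, m r i ≠ 0 → 4 ∣ ∑ j, Z.c i j * m r j := by
      intro i hi
      have hcli := (hmne r i).1 hi
      have h8 : 2 ^ 3 ∣ finrank k (lid (Z.ε i)) := by
        apply pow_dvd_finrank_lid (Z.idem i)
        have h2 : Fintype.card L ∣ Fintype.card H := by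
          have h3 := π.ker.card_mul_index
          rw [Subgroup.index_ker, MonoidHom.range_eq_top.2 hπ, Subgroup.card_top] at h3
          rw [← Nat.card_eq_fintype_card, ← Nat.card_eq_fintype_card, ← h3]
          exact dvd_mul_left _ _
        exact Dvd.dvd.trans (by omega) h2
      rw [Z.finrank_lid i] at h8
      have horb : ∀ j, Z.c i j * finrank k (Z.S j) =
          Nat.card (MulAction.orbit L (rep r)) * C.deg (rep r) * (Z.c i j * m r j) := by
        intro j
        by_cases hij : Z.c i j = 0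
        · rw [hij]; ring
        · have hclj : cl j = some r := by rw [← hcl i j hij, hcli]
          have hrkj : rk k (C.E (rep r)) (Z.S j) ≠ 0 := (hcliff j (some r)).1 hclj
          rw [C.sum_orbit (M := Z.S j) (rep r), hm]
          · ring
          · intro θ' hθ'
            by_contra h3
            obtain ⟨l, hl⟩ := C.same_orbit Z h3 hrkj (hself j)
            exact hθ' ⟨l, hl⟩
      simp only [horb] at h8
      rw [← Finset.mul_sum] at h8
      have ho := MulAction.card_orbit_mul_card_stabilizer_eq_card_group L (rep r)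
      rw [← Nat.card_eq_fintype_card, ← Nat.card_eq_fintype_card, hstab, hr] at ho
      set X := ∑ j, Z.c i j * m r j
      set o := Nat.card (MulAction.orbit L (rep r)) with hodef
      obtain ⟨q, hq⟩ := hdeg (rep r)
      rw [hq] at h8
      -- `o = 2 * odd`
      have ho2 : ∃ w, o = 2 * (2 * w + 1) := ⟨(o - 2) / 4, by omega⟩
      obtain ⟨w, hw⟩ := ho2
      rw [hw] at h8
      have h9 : 2 * (2 * w + 1) * (2 * q + 1) * X = 2 * ((2 * w + 1) * (2 * q + 1) * X) := by ring
      rw [h9, show 2 ^ 3 = 2 * 4 by norm_num] at h8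
      have h10 : 4 ∣ (2 * w + 1) * (2 * q + 1) * X := Nat.dvd_of_mul_dvd_mul_left (by norm_num) h8
      have h11 : Nat.Coprime 4 ((2 * w + 1) * (2 * q + 1)) := by
        have h12 : Odd ((2 * w + 1) * (2 * q + 1)) :=
          Odd.mul ⟨w, rfl⟩ ⟨q, rfl⟩
        have : Nat.Coprime (2 ^ 2) ((2 * w + 1) * (2 * q + 1)) :=
          Nat.Coprime.pow_left 2 (Nat.coprime_two_left.2 h12)
        exact this
      exact h11.dvd_of_dvd_mul_left h10
    obtain ⟨i, hi1, hi2, hi3⟩ := orbit_four hpos h1 hdiv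
    refine ⟨i, (hmne r i).1 (by rw [hi1]; exact one_ne_zero), hi2, ?_⟩
    intro j hj
    by_contra h2
    exact (hmne r j).2 hj (hi3 j h2)
  -- inertia group of order 3
  have case3 : ∀ r, t r = 3 → (Nat.card {i // cl i = some r} = 3) ∧
      ∀ i, cl i = some r → ∀ j, Z.c i j = if i = j then 1 else 0 := by
    intro r hr
    have h1 := hsum r
    rw [hr] at h1
    have hodd : (Nat.card ((MulAction.stabilizer L (rep r)).comap π) : k) ≠ 0 := by
      apply odd_cast_ne
      rw [card_comap_stab hπ, hstab, hr]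
      exact hN.mul (by decide)
    have hJ := jac_mul_eq_zero τ (C.idem (rep r)) (C.corner_jac hodd)
    have h2 : ∀ i, cl i = some r → ∀ j, Z.c i j = if i = j then 1 else 0 := by
      intro i hi j
      exact Z.c_eq_ite_of_jac hJ ((hcliff i (some r)).1 hi) j
    refine ⟨?_, h2⟩
    have h3 := orbit_three h1 (fun i hi => h2 i ((hmne r i).1 hi))
    rw [← h3]
    exact Nat.card_congr (Equiv.subtypeEquivRight fun i => (hmne r i).symm)
  apply combine Z.c cl t ht hcl
  · intro i j r hi hji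
    rcases ht r with hr | hr | hr
    · obtain ⟨i', h1, h2, h3⟩ := case1 r hr
      have : i = i' := h3 i hi
      subst this
      exact Z.c_eq_zero_of_self τ h2 hji
    · rw [(case3 r hr).2 i hi j, if_neg hji.symm]
    · obtain ⟨i', h1, h2, h3⟩ := case4 r hr
      by_contra h4
      have h5 := hcl i j h4
      rw [hi] at h5
      apply hji
      rw [h3 i hi, h3 j h5.symm]
  · intro r hr
    obtain ⟨i', h1, h2, h3⟩ := case1 r hr
    constructor
    · rw [Nat.card_eq_one_iff_unique]
      exact ⟨⟨fun a b => Subtype.ext ((h3 a.1 a.2).trans (h3 b.1 b.2).symm)⟩, ⟨⟨i', h1⟩⟩⟩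
    · intro i hi
      rw [h3 i hi, h2]
  · intro r hr
    refine ⟨(case3 r hr).1, fun i hi => ?_⟩
    rw [(case3 r hr).2 i hi i, if_pos rfl]
  · intro r hr
    obtain ⟨i', h1, h2, h3⟩ := case4 r hr
    constructor
    · rw [Nat.card_eq_one_iff_unique]
      exact ⟨⟨fun a b => Subtype.ext ((h3 a.1 a.2).trans (h3 b.1 b.2).symm)⟩, ⟨⟨i', h1⟩⟩⟩
    · intro i hi
      rw [h3 i hi, h2]
  · -- the part of `k L`
    have e1 : ∀ i, cl i = none ↔ rk k (C.E C.θ0) (Z.S i) ≠ 0 := fun i => hcliff i none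
    have h1 := hLB _ (C.sysL Z)
    obtain ⟨b, hb1, hb2, hb3, hb4, hb5⟩ := h1
    let f : {i // rk k (C.E C.θ0) (Z.S i) ≠ 0} ≃ {i // cl i = none} :=
      Equiv.subtypeEquivRight fun i => (e1 i).symm
    have hfc : ∀ i j, (C.sysL Z).c i j = Z.c (f i).1 (f j).1 := fun i j => C.sysL_c Z i j
    refine ⟨fun x => f (b x), ?_, ?_, ?_, ?_, ?_⟩
    · intro x y h; exact hb1 (f.injective h)
    · intro x y
      rw [← hb2 x y, hfc]
    · intro i hi
      obtain ⟨i, rfl⟩ := f.surjective i
      have h2 := hb3 i (by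
        rintro ⟨x, hx⟩
        exact hi ⟨x, by simp only; rw [hx]⟩)
      refine ⟨?_, ?_⟩
      · change Z.c (f i).1 (f i).1 = 4 ∨ Z.c (f i).1 (f i).1 = 1
        rw [← hfc]; exact h2.1
      · intro j hj
        obtain ⟨j, rfl⟩ := f.surjective j
        change Z.c (f i).1 (f j).1 = 0
        rw [← hfc]
        exact h2.2 j (fun h => hj (by rw [h]))
    · rw [← hb4]
      exact Nat.card_congr (f.symm.subtypeEquiv fun i => by
        rw [hfc, Equiv.apply_symm_apply])
    · rw [← hb5]
      exact Nat.card_congr (f.symm.subtypeEquiv fun i => by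
        rw [hfc, Equiv.apply_symm_apply])

end Cliff

end Cartan2
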