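import Pool.Agent.Cartan2.Triv

open Module

namespace Cartan2

universe u

open MonoidAlgebra (single)

section coset

variable {k : Type u} [Field k] {G : Type} [Group G] [Fintype G]
variable {P : Type} [Group P] [Fintype P]

theorem eid_unit : eid (1 : Unit →* G) (1 : Unit →* kˣ) = 1 := by
  unfold eid
  simp
  rfl

/-- The dimension of `e k G`. -/
theorem cdim_eid_one (hP : (Fintype.card P : k) ≠ 0) (α : P →* G) (hα : Function.Injective α)
    (χ : P →* kˣ) : cdim k (eid α χ) 1 * Nat.card P = Nat.card G := by
  classical
  let r := QuotientGroup.rightRel α.range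
  have : Fintype (Quotient r) := Fintype.ofFinite _
  have h1 := mackey hP (by simp : (Fintype.card Unit : k) ≠ 0) α χ (1 : Unit →* G)
    (1 : Unit →* kˣ) (ξ := Quotient r) (fun i => Quotient.out i) ?_ ?_
  · rw [eid_unit] at h1
    rw [h1]
    have h2 : Nat.card {i : Quotient r // ∀ (p : P) (r' : Unit),
        α p * Quotient.out i = Quotient.out i * (1 : Unit →* G) r' → χ p = (1 : Unit →* kˣ) r'} =
        Nat.card (Quotient r) := by
      apply Nat.card_congr
      apply Equiv.subtypeUnivEquiv
      intro i p r' h
      have h3 : α p = 1 := by simpa using h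
      have h4 : p = 1 := hα (by rw [h3, map_one])
      rw [h4, map_one]; rfl
    rw [h2]
    have h3 : Nat.card (Quotient r) = α.range.index := by
      rw [Subgroup.index]
      exact Nat.card_congr (QuotientGroup.quotientRightRelEquivQuotientLeftRel _)
    have h4 : Nat.card P = Nat.card α.range :=
      Nat.card_congr (MonoidHom.ofInjective hα).toEquiv
    rw [h3, h4, mul_comm]
    exact Subgroup.card_mul_index _
  · intro g
    have h2 : r.r (Quotient.out (Quotient.mk r g)) g := Quotient.mk_out (s := r) g
    have h3 : g * (Quotient.out (Quotient.mk r g))⁻¹ ∈ α.range := QuotientGroup.rightRel_apply.1 h2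
    obtain ⟨p, hp⟩ := h3
    refine ⟨Quotient.mk r g, p, (), ?_⟩
    rw [hp]; simp
  · intro i j p r' h
    have h2 : Quotient.mk r (Quotient.out i) = Quotient.mk r (Quotient.out j) := by
      apply Quotient.sound
      apply QuotientGroup.rightRel_apply.2
      refine ⟨p, ?_⟩
      rw [← h]; simp
    rwa [Quotient.out_eq, Quotient.out_eq] at h2

end coset

section trace

variable {k : Type u} [Field k] {G : Type} [Group G] [Fintype G]

theorem trace_mulLeft (y : MonoidAlgebra k G) :
    LinearMap.trace k _ (LinearMap.mulLeft k y) = (Fintype.card G : k) * y.coeff 1 := by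
  classical
  rw [LinearMap.trace_eq_matrix_trace k (MonoidAlgebra.basis G k), Matrix.trace]
  have : ∀ g : G, (LinearMap.toMatrix (MonoidAlgebra.basis G k) (MonoidAlgebra.basis G k)
      (LinearMap.mulLeft k y)).diag g = y.coeff 1 := by
    intro g
    rw [Matrix.diag_apply, LinearMap.toMatrix_apply, MonoidAlgebra.basis_apply,
      LinearMap.mulLeft_apply]
    change (y * single g 1).coeff g = _
    rw [MonoidAlgebra.coeff_mul_single_apply, mul_inv_cancel, mul_one]
  simp only [this, Finset.sum_const, Finset.card_univ, nsmul_eq_mul]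

theorem coeff_one_of_nilpotent (hG : (Fintype.card G : k) ≠ 0) {y : MonoidAlgebra k G}
    (hy : IsNilpotent y) : y.coeff 1 = 0 := by
  have h1 : IsNilpotent (LinearMap.mulLeft k y) := by
    obtain ⟨n, hn⟩ := hy
    refine ⟨n, ?_⟩
    rw [LinearMap.pow_mulLeft, hn, LinearMap.mulLeft_zero_eq_zero]
  have h2 := (LinearMap.isNilpotent_trace_of_isNilpotent h1).eq_zero
  rw [trace_mulLeft] at h2
  exact (mul_eq_zero.1 h2).resolve_left hG

/-- A nilpotent element supported on a subgroup of odd order has vanishing coefficient at `1`. -/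
theorem coeff_one_of_nilpotent_supp (K : Subgroup G) (hK : (Nat.card K : k) ≠ 0)
    {y : MonoidAlgebra k G} (hy : IsNilpotent y) (hs : ∀ g, g ∉ K → y.coeff g = 0) :
    y.coeff 1 = 0 := by
  classical
  have : Fintype K := Fintype.ofFinite _
  let j : MonoidAlgebra k K →ₐ[k] MonoidAlgebra k G :=
    MonoidAlgebra.mapDomainAlgHom k k K.subtype
  have hj : Function.Injective j := MonoidAlgebra.mapDomain_injective Subtype.val_injective
  let y' : MonoidAlgebra k K := ∑ g : K, y.coeff g • single g 1
  have hy' : j y' = y := by
    have h1 : j y' = ∑ g : K, y.coeff g • single (g : G) 1 := by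
      simp only [y', map_sum, map_smul]
      refine Finset.sum_congr rfl fun g _ => ?_
      congr 1
      exact MonoidAlgebra.mapDomain_single
    rw [h1]
    ext g
    rw [MonoidAlgebra.coeff_sum, Finset.sum_apply']
    simp only [MonoidAlgebra.coeff_smul, Finsupp.smul_apply, MonoidAlgebra.coeff_single,
      Finsupp.single_apply, smul_eq_mul, mul_ite, mul_one, mul_zero]
    by_cases hg : g ∈ K
    · rw [Finset.sum_eq_single (⟨g, hg⟩ : K)]
      · simp
      · intro b _ hb
        rw [if_neg]
        exact fun h => hb (Subtype.ext h)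
      · intro h; exact absurd (Finset.mem_univ _) h
    · rw [hs g hg]
      apply Finset.sum_eq_zero
      intro b _
      rw [if_neg]
      exact fun h => hg (h ▸ b.2)
  have hn : IsNilpotent y' := by
    rw [← IsNilpotent.map_iff hj, hy']
    exact hy
  have h2 := coeff_one_of_nilpotent (by rwa [← Nat.card_eq_fintype_card]) hn
  have h3 : y'.coeff 1 = y.coeff 1 := by
    simp only [y']
    rw [MonoidAlgebra.coeff_sum, Finset.sum_apply', Finset.sum_eq_single 1]
    · rw [MonoidAlgebra.coeff_smul, Finsupp.smul_apply, MonoidAlgebra.coeff_single,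
        Finsupp.single_eq_same, smul_eq_mul, mul_one]
      rfl
    · intro b _ hb
      rw [MonoidAlgebra.coeff_smul, Finsupp.smul_apply, MonoidAlgebra.coeff_single,
        Finsupp.single_eq_of_ne hb.symm, smul_zero]
    · intro h; exact absurd (Finset.mem_univ _) h
  rw [← h3, h2]

end trace

end Cartan2
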