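import Mathlib

/-!
# Cartan matrices of finite dimensional algebras (definitions)
-/

namespace Cartan2

universe u

/-- `P` is a projective cover of `S`: `P` is projective and there is a surjection `P → S`
whose kernel is superfluous. -/
def IsProjectiveCover (A : Type u) [Ring A] (P S : ModuleCat.{u} A) : Prop :=
  Module.Projective A P ∧ ∃ π : P →ₗ[A] S, Function.Surjective π ∧
    ∀ N : Submodule A P, N ⊔ LinearMap.ker π = ⊤ → N = ⊤

/-- The subquotient `N₂ / N₁` of the module `M` is isomorphic to `T`. -/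
def FactorIso (A : Type u) [Ring A] (M T : ModuleCat.{u} A) (N₁ N₂ : Submodule A M) : Prop :=
  Nonempty ((↥N₂ ⧸ N₁.submoduleOf N₂) ≃ₗ[A] T)

/-- The module `M` has a composition series `s 0 = 0 ⋖ s 1 ⋖ ... ⋖ s l = M`, and exactly `n` of
its composition factors are isomorphic to `T`. -/
def HasMultiplicity (A : Type u) [Ring A] (M T : ModuleCat.{u} A) (n : ℕ) : Prop :=
  ∃ (l : ℕ) (s : Fin (l + 1) → Submodule A M), s 0 = ⊥ ∧ s (Fin.last l) = ⊤ ∧
    (∀ t : Fin l, s t.castSucc ⋖ s t.succ) ∧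
    Nat.card {t : Fin l // FactorIso A M T (s t.castSucc) (s t.succ)} = n

/-- `C` is the Cartan matrix of the ring `A`, with respect to a labelling by `ι` of
representatives `S i` of the isomorphism classes of simple `A`-modules, `P i` being the
projective cover of `S i`: the entry `C i j` is the multiplicity of `S j` as a composition
factor of `P i`. -/
def IsCartanMatrix (A : Type u) [Ring A] {ι : Type} (C : ι → ι → ℕ) : Prop :=
  ∃ S P : ι → ModuleCat.{u} A,
    (∀ i, IsSimpleModule A (S i)) ∧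
    (∀ i j, Nonempty (S i ≃ₗ[A] S j) → i = j) ∧
    (∀ T : ModuleCat.{u} A, IsSimpleModule A T → ∃ i, Nonempty (T ≃ₗ[A] S i)) ∧
    (∀ i, IsProjectiveCover A (P i) (S i)) ∧
    (∀ i j, HasMultiplicity A (P i) (S j) (C i j))

/-- The `304 × 304` block diagonal matrix with one block `[[2,1,1],[1,3,2],[1,2,3]]`, sixty
blocks `[4]` and 241 blocks `[1]`. -/
def cartanM : Matrix (Fin 3 ⊕ (Fin 60 ⊕ Fin 241)) (Fin 3 ⊕ (Fin 60 ⊕ Fin 241)) ℕ :=
  Matrix.fromBlocks !![2, 1, 1; 1, 3, 2; 1, 2, 3] 0 0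
    (Matrix.diagonal (Sum.elim (fun _ : Fin 60 => 4) (fun _ : Fin 241 => 1)))

end Cartan2
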