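import Pool.Agent.Cartan2.Simple

open Module

namespace Cartan2

universe u

section Col

variable {k A : Type u} [Field k] [Ring A] [Algebra k A] {n : ℕ}

/-- The module of column vectors attached to a matrix representation. -/
def Col (_φ : A →ₐ[k] Matrix (Fin n) (Fin n) k) : Type u := Fin n → k

variable (φ : A →ₐ[k] Matrix (Fin n) (Fin n) k)

instance : AddCommGroup (Col φ) := inferInstanceAs (AddCommGroup (Fin n → k))
instance : Module k (Col φ) := inferInstanceAs (Module k (Fin n → k))
instance : FiniteDimensional k (Col φ) := inferInstanceAs (FiniteDimensional k (Fin n → k))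
instance : Module A (Col φ) :=
  Module.compHom (Fin n → k) (φ : A →+* Matrix (Fin n) (Fin n) k)

/-- The tautological identification. -/
def Col.mk : (Fin n → k) ≃ₗ[k] Col φ := LinearEquiv.refl k (Fin n → k)

theorem Col.smul_mk (a : A) (v : Fin n → k) : a • Col.mk φ v = Col.mk φ ((φ a).mulVec v) := rfl

instance : IsScalarTower k A (Col φ) := ⟨fun c a v => by
  obtain ⟨w, rfl⟩ := (Col.mk φ).surjective v
  rw [Col.smul_mk, Col.smul_mk, map_smul, Matrix.smul_mulVec, map_smul]⟩

theorem Col.simple (hφ : Function.Surjective φ) (hn : NeZero n) : IsSimpleModule A (Col φ) := by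
  rw [isSimpleModule_iff_toSpanSingleton_surjective]
  refine ⟨?_, ?_⟩
  · have : Nonempty (Fin n) := ⟨0⟩
    exact inferInstanceAs (Nontrivial (Fin n → k))
  · intro v hv w
    obtain ⟨v, rfl⟩ := (Col.mk φ).surjective v
    obtain ⟨w, rfl⟩ := (Col.mk φ).surjective w
    obtain ⟨j, hj⟩ : ∃ j, v j ≠ 0 := by
      by_contra h
      push Not at h
      exact hv (by rw [show v = 0 from funext h, map_zero])
    obtain ⟨a, ha⟩ := hφ (Matrix.vecMulVec w (Pi.single j (v j)⁻¹))
    refine ⟨a, ?_⟩
    rw [LinearMap.toSpanSingleton_apply, Col.smul_mk, ha]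
    congr 1
    funext i
    rw [Matrix.vecMulVec_mulVec]
    simp [hj]

theorem Col.single_mulVec [NeZero n] (w : Fin n → k) :
    (Matrix.single (0 : Fin n) (0 : Fin n) (1 : k)).mulVec w = w 0 • Pi.single 0 1 := by
  funext i
  rw [Matrix.single_mulVec]
  by_cases hi : i = 0
  · subst hi; simp
  · simp [Function.update, hi]

theorem Col.rk_single [NeZero n] {a : A} (ha : φ a = Matrix.single 0 0 1) :
    rk k a (Col φ) = 1 := by
  unfold rk
  have : LinearMap.range (Algebra.lsmul k k (Col φ) a) =
      Submodule.span k {Col.mk φ (Pi.single 0 1)} := by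
    ext v
    rw [Submodule.mem_span_singleton]
    constructor
    · rintro ⟨w, rfl⟩
      obtain ⟨w, rfl⟩ := (Col.mk φ).surjective w
      refine ⟨w 0, ?_⟩
      change _ = a • Col.mk φ w
      rw [Col.smul_mk, ha, Col.single_mulVec, map_smul]
    · rintro ⟨c, rfl⟩
      refine ⟨Col.mk φ (Pi.single 0 c), ?_⟩
      change a • Col.mk φ _ = _
      rw [Col.smul_mk, ha, Col.single_mulVec, map_smul]
      simp
  rw [this]
  apply finrank_span_singleton
  intro h
  rw [map_eq_zero_iff _ (Col.mk φ).injective] at h
  have := congrFun h 0
  simp at this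

end Col

theorem jacobson_nilpotent {A : Type*} [Ring A] [IsArtinianRing A] {x : A}
    (hx : x ∈ Ring.jacobson A) : IsNilpotent x := by
  obtain ⟨n, hn⟩ := IsSemiprimaryRing.isNilpotent (R := A)
  refine ⟨n, ?_⟩
  have : x ^ n ∈ (Ring.jacobson A) ^ n := Ideal.pow_mem_pow hx n
  rw [hn] at this
  simpa using this

theorem jacobson_smul {A : Type*} [Ring A] {x : A} (hx : x ∈ Ring.jacobson A)
    (T : Type*) [AddCommGroup T] [Module A T] [IsSimpleModule A T] (t : T) : x • t = 0 :=
  Module.mem_annihilator.1 (IsSemisimpleModule.jacobson_le_annihilator A T hx) t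

/-- Existence of a complete system of simple modules. -/
theorem exists_simpleSys (k A : Type u) [Field k] [IsAlgClosed k] [Ring A] [Algebra k A]
    [FiniteDimensional k A] : ∃ n : ℕ, Nonempty (SimpleSys k A (Fin n)) := by
  classical
  have : IsArtinianRing A := IsArtinianRing.of_finite k A
  obtain ⟨n, d, hd, ⟨e⟩⟩ :=
    IsSemisimpleRing.exists_algEquiv_pi_matrix_of_isAlgClosed k (A ⧸ Ring.jacobson A)
  refine ⟨n, ⟨?_⟩⟩
  let F : A →ₐ[k] (Π i, Matrix (Fin (d i)) (Fin (d i)) k) :=
    e.toAlgHom.comp (Ideal.Quotient.mkₐ k (Ring.jacobson A))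
  have hFs : Function.Surjective F :=
    e.surjective.comp (Ideal.Quotient.mkₐ_surjective k (Ring.jacobson A))
  have hFk : ∀ a, F a = 0 → a ∈ Ring.jacobson A := by
    intro a ha
    have : e (Ideal.Quotient.mk (Ring.jacobson A) a) = 0 := ha
    rw [map_eq_zero_iff _ e.injective] at this
    exact Ideal.Quotient.eq_zero_iff_mem.1 this
  have hFk' : ∀ a, a ∈ Ring.jacobson A → F a = 0 := by
    intro a ha
    change e (Ideal.Quotient.mk (Ring.jacobson A) a) = 0
    rw [Ideal.Quotient.eq_zero_iff_mem.2 ha, map_zero]
  let ρ : ∀ i, A →ₐ[k] Matrix (Fin (d i)) (Fin (d i)) k := fun i =>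
    (Pi.evalAlgHom k (fun i => Matrix (Fin (d i)) (Fin (d i)) k) i).comp F
  have hρ : ∀ i, Function.Surjective (ρ i) := fun i => by
    intro M
    obtain ⟨a, ha⟩ := hFs (Pi.single i M)
    exact ⟨a, by simp [ρ, ha]⟩
  have hε : ∀ i : Fin n, ∃ ε : A, ε * ε = ε ∧
      F ε = (Pi.single i (Matrix.single 0 0 1)) := by
    intro i
    obtain ⟨ε, h1, h2⟩ := exists_isIdempotentElem_eq_of_ker_isNilpotent F.toRingHom
      (fun x hx => jacobson_nilpotent (hFk x hx)) (Pi.single i (Matrix.single 0 0 1))
      (by
        obtain ⟨a, ha⟩ := hFs (Pi.single i (Matrix.single 0 0 1))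
        exact ⟨a, ha⟩)
      (by
        unfold IsIdempotentElem
        rw [← Pi.single_mul]
        simp)
    exact ⟨ε, h1, h2⟩
  choose ε hε1 hε2 using hε
  have hρε : ∀ i, ρ i (ε i) = Matrix.single 0 0 1 := fun i => by simp [ρ, hε2]
  have hρε' : ∀ i j, i ≠ j → ρ j (ε i) = 0 := fun i j hij => by
    simp [ρ, hε2, Pi.single_eq_of_ne hij.symm]
  exact {
    S := fun i => Col (ρ i)
    simple := fun i => Col.simple (ρ i) (hρ i) (hd i)
    ε := ε
    idem := hε1
    rk_self := fun i => Col.rk_single (ρ i) (hρε i)
    rk_ne := fun i j hij => by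
      rw [rk_eq_zero_iff]
      intro m
      obtain ⟨w, rfl⟩ := (Col.mk (ρ j)).surjective m
      rw [Col.smul_mk, hρε' i j hij, Matrix.zero_mulVec, map_zero]
    complete := by
      intro T _ _ _
      -- some `ε i` acts non-trivially
      have h1 : ∃ i, ∃ t : T, ε i • t ≠ 0 := by
        by_contra hcon
        push Not at hcon
        choose x hx using fun (i : Fin n) (a : Fin (d i)) =>
          hFs (Pi.single i (Matrix.single a 0 1))
        choose y hy using fun (i : Fin n) (a : Fin (d i)) =>
          hFs (Pi.single i (Matrix.single 0 a 1))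
        have h2 : (1 - ∑ i, ∑ a, x i a * ε i * y i a) ∈ Ring.jacobson A := by
          apply hFk
          simp only [map_sub, map_one, map_sum, map_mul, hx, hy, hε2]
          rw [sub_eq_zero]
          funext i
          rw [Finset.sum_apply, Finset.sum_eq_single i]
          · rw [Finset.sum_apply]
            simp only [← Pi.single_mul, Pi.single_eq_same]
            simp only [Matrix.single_mul_single_same, mul_one, Pi.one_apply]
            ext p q
            rw [Matrix.sum_apply]
            simp only [Matrix.single_apply, Matrix.one_apply]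
            rw [Finset.sum_eq_single p]
            · simp
            · intro b _ hb; rw [if_neg]; exact fun h => hb h.1
            · intro h; exact absurd (Finset.mem_univ _) h
          · intro j _ hj
            rw [Finset.sum_apply]
            apply Finset.sum_eq_zero
            intro a _
            simp only [← Pi.single_mul]
            rw [Pi.single_eq_of_ne hj.symm]
          · intro h; exact absurd (Finset.mem_univ i) h
        have : Nontrivial T := IsSimpleModule.nontrivial A T
        obtain ⟨t, ht⟩ := exists_ne (0 : T)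
        have h3 := jacobson_smul h2 T t
        rw [sub_smul, one_smul, Finset.sum_smul] at h3
        simp only [Finset.sum_smul, mul_smul, hcon, smul_zero, Finset.sum_const_zero,
          sub_zero] at h3
        exact ht h3
      obtain ⟨i, t, ht⟩ := h1
      refine ⟨i, ?_⟩
      have hs : IsSimpleModule A (Col (ρ i)) := Col.simple (ρ i) (hρ i) (hd i)
      let v0 : Col (ρ i) := Col.mk (ρ i) (Pi.single 0 1)
      have hv0 : v0 ≠ 0 := by
        intro h
        rw [map_eq_zero_iff _ (Col.mk (ρ i)).injective] at h
        have := congrFun h 0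
        simp at this
      let g := LinearMap.toSpanSingleton A T (ε i • t)
      let h := LinearMap.toSpanSingleton A (Col (ρ i)) v0
      have hgs : Function.Surjective g :=
        (isSimpleModule_iff_toSpanSingleton_surjective.1 inferInstance).2 _ ht
      have hhs : Function.Surjective h :=
        (isSimpleModule_iff_toSpanSingleton_surjective.1 hs).2 _ hv0
      have hle : LinearMap.ker h ≤ LinearMap.ker g := by
        intro a ha
        rw [LinearMap.mem_ker] at ha ⊢
        change a • v0 = 0 at ha
        change a • ε i • t = 0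
        rw [smul_smul]
        apply jacobson_smul
        apply hFk
        funext j
        change ρ j (a * ε i) = 0
        rw [map_mul]
        by_cases hij : i = j
        · subst hij
          rw [hρε]
          have : (ρ i a).mulVec (Pi.single 0 1) = 0 := by
            have h1 : Col.mk (ρ i) ((ρ i a).mulVec (Pi.single 0 1)) = 0 := ha
            rwa [map_eq_zero_iff _ (Col.mk (ρ i)).injective] at h1
          ext p q
          have h5 := congrFun this p
          simp at h5
          rw [Matrix.mul_apply]
          rw [Finset.sum_eq_single 0]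
          · rw [h5, zero_mul]; rfl
          · intro b _ hb
            rw [Matrix.single_apply, if_neg, mul_zero]
            exact fun h => hb h.1.symm
          · intro h; exact absurd (Finset.mem_univ _) h
        · rw [hρε' i j hij, mul_zero]
      have hker : LinearMap.ker h = LinearMap.ker g := by
        have hco : IsCoatom (LinearMap.ker h) := by
          have : IsSimpleModule A (A ⧸ LinearMap.ker h) :=
            IsSimpleModule.congr (h.quotKerEquivOfSurjective hhs)
          exact isSimpleModule_iff_isCoatom.1 this
        rcases hco.le_iff.1 hle with h1 | h1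
        · exfalso
          rw [LinearMap.ker_eq_top] at h1
          have := hgs (ε i • t)
          obtain ⟨a, ha⟩ := this
          rw [h1] at ha
          exact ht ha.symm
        · exact h1.symm
      exact ⟨((g.quotKerEquivOfSurjective hgs).symm.trans
        (Submodule.quotEquivOfEq _ _ hker.symm)).trans (h.quotKerEquivOfSurjective hhs)⟩ }

end Cartan2
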