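import Pool.Agent.Cartan2.Final

/-!
A nonabelian finite simple group which is not characterized by its Cartan matrix in
characteristic two: `G = PSL(2,967)`, of order `483 * 967 * 968`, and
`H = Heis(11) ⋊ PSL(2,7)`, of order `11 ^ 6 * 168`, have the same Cartan matrix, namely
`[[2,1,1],[1,3,2],[1,2,3]] ⊕ [4] ^ 60 ⊕ [1] ^ 241`.
-/

namespace Cartan2.Explicit

open Cartan2

universe u

/-- `PSL(2,967)`. -/
abbrev G : Type := Matrix.ProjectiveSpecialLinearGroup (Fin 2) (ZMod 967)

/-- `C` is a Cartan matrix of the group `X` over `k`, that is, of the group algebra `k X`. -/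
def IsGroupCartanMatrix (k : Type u) [Field k] (X : Type) [Group X] {ι : Type}
    (C : ι → ι → ℕ) : Prop :=
  IsCartanMatrix (MonoidAlgebra k X) C

theorem explicit_result : Finite G ∧ IsSimpleGroup G ∧ (∃ a b : G, a * b ≠ b * a) ∧
    ∃ (H : Type) (_ : Group H), Finite H ∧ IsEmpty (G ≃* H) ∧
      ∀ (k : Type u) [Field k] [IsAlgClosed k] [CharP k 2],
        IsGroupCartanMatrix k G cartanM ∧ IsGroupCartanMatrix k H cartanM ∧
        ∀ (ι κ : Type) (C : ι → ι → ℕ) (D : κ → κ → ℕ),
          IsGroupCartanMatrix k G C → IsGroupCartanMatrix k H D →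
            ∃ e : ι ≃ κ, ∀ i j, C i j = D (e i) (e j) := by
  refine ⟨inferInstanceAs (Finite GG), simple_GG, noncomm_GG, HG, inferInstance, inferInstance,
    ?_, ?_⟩
  · constructor
    intro f
    have h := Nat.card_congr f.toEquiv
    have h2 : Nat.card GG = Nat.card HG := h
    rw [card_GG, card_HG] at h2
    norm_num at h2
  · intro k _ _ _
    obtain ⟨h1, h2⟩ := isCartanMatrix_of_blockType (k := k) (G := GG)
      (fun ι _ Z => psl967_blockType Z)
    obtain ⟨h3, h4⟩ := isCartanMatrix_of_blockType (k := k) (G := HG)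
      (fun ι _ Z => heis_blockType Z)
    refine ⟨h1, h3, fun ι κ C D hC hD => ?_⟩
    obtain ⟨e1, he1⟩ := h2 ι C hC
    obtain ⟨e2, he2⟩ := h4 κ D hD
    refine ⟨e1.symm.trans e2, fun i j => ?_⟩
    rw [Equiv.trans_apply, Equiv.trans_apply, he2, ← he1, e1.apply_symm_apply,
      e1.apply_symm_apply]

end Cartan2.Explicit
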