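import Pool.Agent.Cartan2.Proj

open Module

namespace Cartan2

universe u

variable {k A : Type u} [Field k] [Ring A] [Algebra k A]

namespace SimpleSys

variable {ι : Type} (Z : SimpleSys k A ι)

/-- The number of composition factors isomorphic to `S j` in any composition series. -/
theorem count_eq_rk (M : Type u) [AddCommGroup M] [Module A M] [Module k M]
    [IsScalarTower k A M] [FiniteDimensional k M] (j : ι) (T : Type u) [AddCommGroup T]
    [Module A T] (hT : Nonempty (T ≃ₗ[A] Z.S j)) {n : ℕ}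
    (h : HasMultiplicity A (ModuleCat.of A M) (ModuleCat.of A T) n) :
    n = rk k (Z.ε j) M := by
  classical
  obtain ⟨l, s, hs1, hs2, hstep, hn⟩ := h
  obtain ⟨φ⟩ := hT
  change Fin (l + 1) → Submodule A M at s
  have key : ∀ t : Fin l, rk k (Z.ε j) (s t.succ) = rk k (Z.ε j) (s t.castSucc) +
      if FactorIso A (ModuleCat.of A M) (ModuleCat.of A T) (s t.castSucc) (s t.succ)
        then 1 else 0 := by
    intro t
    have hle : s t.castSucc ≤ s t.succ := (hstep t).le
    haveI := fd_sub (k := k) (s t.succ)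
    haveI := fd_sub (k := k) (s t.castSucc)
    rw [rk_add (Z.idem j) ((s t.castSucc).submoduleOf (s t.succ)),
      rk_congr (Z.ε j) (Submodule.submoduleOfEquivOfLe hle)]
    congr 1
    have hsim : IsSimpleModule A (↥(s t.succ) ⧸ (s t.castSucc).submoduleOf (s t.succ)) :=
      (covBy_iff_quot_is_simple hle).1 (hstep t)
    obtain ⟨i, ⟨f⟩⟩ := Z.complete (↥(s t.succ) ⧸ (s t.castSucc).submoduleOf (s t.succ))
    rw [rk_congr (Z.ε j) f]
    by_cases hij : j = i
    · subst hij
      rw [if_pos ⟨f.trans φ.symm⟩, Z.rk_self]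
    · rw [if_neg, Z.rk_ne j i hij]
      rintro ⟨g⟩
      exact hij (Z.eq_of_iso ⟨(g.trans φ).symm.trans f⟩)
  have h1 := telescope (fun t => rk k (Z.ε j) (s t)) _ key
  have h2 : rk k (Z.ε j) (s 0) = 0 := by
    have : s 0 = ⊥ := hs1
    rw [this]
    exact rk_subsingleton _
  have h3 : rk k (Z.ε j) (s (Fin.last _)) = rk k (Z.ε j) M := by
    have : s (Fin.last _) = ⊤ := hs2
    rw [this]
    exact rk_congr _ Submodule.topEquiv
  rw [h3, h2, zero_add] at h1
  rw [h1, Finset.sum_boole, ← hn, Nat.card_eq_fintype_card, Fintype.card_subtype]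
  rfl

end SimpleSys

/-- Uniqueness of projective covers. -/
theorem projectiveCover_unique {P Q S S' : ModuleCat.{u} A} (hP : IsProjectiveCover A P S)
    (hQ : IsProjectiveCover A Q S') (h : Nonempty (S ≃ₗ[A] S')) : Nonempty (P ≃ₗ[A] Q) := by
  obtain ⟨hP1, π, hπ, hπ2⟩ := hP
  obtain ⟨hQ1, ρ, hρ, hρ2⟩ := hQ
  obtain ⟨φ⟩ := h
  obtain ⟨f, hf⟩ := Module.projective_lifting_property ρ (φ.toLinearMap.comp π) hρ
  have hfs : Function.Surjective f := by
    rw [← LinearMap.range_eq_top]
    apply hρ2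
    rw [eq_top_iff]
    intro q _
    obtain ⟨p, hp⟩ := hπ (φ.symm (ρ q))
    have h1 : ρ (f p) = ρ q := by
      have := LinearMap.congr_fun hf p
      simp only [LinearMap.comp_apply] at this
      rw [this, hp]
      simp
    have h2 : q = f p + (q - f p) := by abel
    rw [h2]
    refine Submodule.add_mem_sup (LinearMap.mem_range_self f p) ?_
    rw [LinearMap.mem_ker, map_sub, h1, sub_self]
  obtain ⟨s, hs⟩ := Module.projective_lifting_property f LinearMap.id hfs
  have hs' : ∀ q, f (s q) = q := fun q => LinearMap.congr_fun hs q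
  have hstop : LinearMap.range s = ⊤ := by
    apply hπ2
    rw [eq_top_iff]
    intro p _
    have h2 : p = s (f p) + (p - s (f p)) := by abel
    rw [h2]
    refine Submodule.add_mem_sup (LinearMap.mem_range_self s (f p)) ?_
    rw [LinearMap.mem_ker]
    apply φ.injective
    have h3 := LinearMap.congr_fun hf (p - s (f p))
    simp only [LinearMap.comp_apply] at h3
    have h4 : f (p - s (f p)) = 0 := by rw [map_sub, hs', sub_self]
    rw [h4, map_zero] at h3
    rw [map_zero]
    exact h3.symm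
  refine ⟨(LinearEquiv.ofBijective s ⟨?_, LinearMap.range_eq_top.1 hstop⟩).symm⟩
  intro a b hab
  rw [← hs' a, ← hs' b, hab]

/-- The Cartan matrix is unique up to simultaneous permutation of rows and columns. -/
theorem cartan_unique [FiniteDimensional k A] {κ : Type} (Z : SimpleSys k A κ) {ι : Type}
    {C : ι → ι → ℕ} (h : IsCartanMatrix A C) :
    ∃ e : ι ≃ κ, ∀ i j, C i j = Z.c (e i) (e j) := by
  obtain ⟨S, P, hS, hinj, hcompl, hP, hmul⟩ := h
  have h1 : ∀ i, ∃ m, Nonempty (S i ≃ₗ[A] Z.S m) := fun i => by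
    haveI := hS i
    exact Z.complete (S i)
  choose e he using h1
  have hb : Function.Bijective e := by
    constructor
    · intro i j hij
      apply hinj
      obtain ⟨f⟩ := he i
      obtain ⟨g⟩ := he j
      rw [← hij] at g
      exact ⟨f.trans g.symm⟩
    · intro m
      obtain ⟨i, ⟨f⟩⟩ := hcompl (ModuleCat.of A (Z.S m)) (Z.simple m)
      refine ⟨i, ?_⟩
      obtain ⟨g⟩ := he i
      exact Z.eq_of_iso ⟨(f.trans g).symm⟩
  refine ⟨Equiv.ofBijective e hb, fun i j => ?_⟩
  change C i j = Z.c (e i) (e j)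
  obtain ⟨f⟩ := projectiveCover_unique (hP i) (Z.projectiveCover (e i)) (he i)
  letI : Module k (P i) := Module.compHom _ (algebraMap k A)
  haveI : IsScalarTower k A (P i) := ⟨fun a b c => by
    change (a • b) • c = (algebraMap k A a) • (b • c)
    rw [smul_smul, Algebra.smul_def]⟩
  have := fd_sub (k := k) (lid (Z.ε (e i)))
  let f' : P i ≃ₗ[A] lid (Z.ε (e i)) := f
  have hfd : FiniteDimensional k (P i) := Module.Finite.equiv (f'.restrictScalars k).symm
  have h2 := Z.count_eq_rk (P i) (e j) (S j) (he j) (hmul i j)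
  rw [h2, rk_congr (k := k) (Z.ε (e j)) f', Z.rk_lid_c]

/-- Relabelling. -/
theorem reindex_isCartanMatrix {ι κ : Type} {C : ι → ι → ℕ} (h : IsCartanMatrix A C)
    (e : κ ≃ ι) : IsCartanMatrix A (fun x y => C (e x) (e y)) := by
  obtain ⟨S, P, hS, hinj, hcompl, hP, hmul⟩ := h
  refine ⟨fun x => S (e x), fun x => P (e x), fun x => hS _, fun x y hxy => e.injective
    (hinj _ _ hxy), fun T hT => ?_, fun x => hP _, fun x y => hmul _ _⟩
  obtain ⟨i, hi⟩ := hcompl T hT
  refine ⟨e.symm i, ?_⟩
  change Nonempty (T ≃ₗ[A] S (e (e.symm i)))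
  rw [e.apply_symm_apply]
  exact hi

end Cartan2
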