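import Pool.Agent.Cartan2.GSide
import Pool.Agent.Cartan2.Unique

open Module

namespace Cartan2

universe u

theorem blockType_std {ι : Type} [Fintype ι] {c : ι → ι → ℕ} (hs : ∀ i j, c i j = c j i)
    (h : BlockType c 60 241) :
    ∃ e : (Fin 3 ⊕ (Fin 60 ⊕ Fin 241)) ≃ ι, ∀ x y, c (e x) (e y) = cartanM x y := by
  obtain ⟨b, hb, hB, hrest, h4, h1⟩ := h
  let e4 : {i // c i i = 4} ≃ Fin 60 := Finite.equivFinOfCardEq h4
  let e1 : {i // c i i = 1} ≃ Fin 241 := Finite.equivFinOfCardEq h1
  let f : (Fin 3 ⊕ (Fin 60 ⊕ Fin 241)) → ι :=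
    Sum.elim b (Sum.elim (fun x => (e4.symm x).1) (fun x => (e1.symm x).1))
  have d4 : ∀ x, c (e4.symm x).1 (e4.symm x).1 = 4 := fun x => (e4.symm x).2
  have d1 : ∀ x, c (e1.symm x).1 (e1.symm x).1 = 1 := fun x => (e1.symm x).2
  have db : ∀ x, c (b x) (b x) ≠ 4 ∧ c (b x) (b x) ≠ 1 := by
    intro x
    rw [hB]
    revert x
    decide
  have n4 : ∀ x, (e4.symm x).1 ∉ Set.range b := by
    rintro x ⟨y, hy⟩
    exact (db y).1 (by rw [hy]; exact d4 x)
  have n1 : ∀ x, (e1.symm x).1 ∉ Set.range b := by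
    rintro x ⟨y, hy⟩
    exact (db y).2 (by rw [hy]; exact d1 x)
  have hf : Function.Bijective f := by
    constructor
    · rintro (x | x | x) (y | y | y) hxy
      · rw [hb hxy]
      · exact absurd ⟨x, hxy⟩ (n4 y)
      · exact absurd ⟨x, hxy⟩ (n1 y)
      · exact absurd ⟨y, hxy.symm⟩ (n4 x)
      · change (e4.symm x).1 = (e4.symm y).1 at hxy
        rw [e4.symm.injective (Subtype.ext hxy)]
      · change (e4.symm x).1 = (e1.symm y).1 at hxy
        exfalso
        have := d4 x
        rw [hxy, d1 y] at this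
        exact absurd this (by norm_num)
      · exact absurd ⟨y, hxy.symm⟩ (n1 x)
      · change (e1.symm x).1 = (e4.symm y).1 at hxy
        exfalso
        have := d1 x
        rw [hxy, d4 y] at this
        exact absurd this (by norm_num)
      · change (e1.symm x).1 = (e1.symm y).1 at hxy
        rw [e1.symm.injective (Subtype.ext hxy)]
    · intro i
      by_cases hi : i ∈ Set.range b
      · obtain ⟨x, rfl⟩ := hi
        exact ⟨Sum.inl x, rfl⟩
      · rcases (hrest i hi).1 with h | h
        · refine ⟨Sum.inr (Sum.inl (e4 ⟨i, h⟩)), ?_⟩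
          change (e4.symm (e4 ⟨i, h⟩)).1 = i
          rw [e4.symm_apply_apply]
        · refine ⟨Sum.inr (Sum.inr (e1 ⟨i, h⟩)), ?_⟩
          change (e1.symm (e1 ⟨i, h⟩)).1 = i
          rw [e1.symm_apply_apply]
  have hz : ∀ i j, i ∉ Set.range b → j ≠ i → c i j = 0 := fun i j hi hj => (hrest i hi).2 j hj
  refine ⟨Equiv.ofBijective f hf, ?_⟩
  intro x y
  change c (f x) (f y) = cartanM x y
  by_cases hxy : x = y
  · subst hxy
    rcases x with x | x | x
    · exact hB x x
    · change c (e4.symm x).1 (e4.symm x).1 = _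
      rw [d4]
      simp [cartanM]
    · change c (e1.symm x).1 (e1.symm x).1 = _
      rw [d1]
      simp [cartanM]
  · have hne : f x ≠ f y := fun h => hxy (hf.1 h)
    rcases x with x | x
    · rcases y with y | y
      · exact hB x y
      · have hy : f (Sum.inr y) ∉ Set.range b := by
          rcases y with y | y
          · exact n4 y
          · exact n1 y
        rw [hs, hz _ _ hy hne]
        simp [cartanM]
    · have hx : f (Sum.inr x) ∉ Set.range b := by
        rcases x with x | x
        · exact n4 x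
        · exact n1 x
      rw [hz _ _ hx hne.symm]
      rcases y with y | y
      · simp [cartanM]
      · rw [cartanM, Matrix.fromBlocks_apply₂₂, Matrix.diagonal_apply_ne]
        exact fun h => hxy (by rw [h])

variable {k : Type u} [Field k] [IsAlgClosed k] [CharP k 2]

theorem isCartanMatrix_of_blockType {G : Type} [Group G] [Fintype G]
    (h : ∀ (ι : Type) [Fintype ι] (Z : SimpleSys k (MonoidAlgebra k G) ι),
      BlockType Z.c 60 241) :
    IsCartanMatrix (MonoidAlgebra k G) cartanM ∧
    ∀ (ι : Type) (C : ι → ι → ℕ), IsCartanMatrix (MonoidAlgebra k G) C →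
      ∃ e : (Fin 3 ⊕ (Fin 60 ⊕ Fin 241)) ≃ ι, ∀ x y, C (e x) (e y) = cartanM x y := by
  obtain ⟨n, ⟨Z⟩⟩ := exists_simpleSys (k := k) (A := MonoidAlgebra k G)
  obtain ⟨e, he⟩ := blockType_std (fun i j => Z.c_symm (groupForm k G) i j) (h _ Z)
  constructor
  · have h1 := reindex_isCartanMatrix Z.isCartanMatrix e
    have h2 : (fun x y => Z.c (e x) (e y)) = cartanM := by
      funext x y
      exact he x y
    rw [h2] at h1
    exact h1
  · intro ι C hC
    obtain ⟨e', he'⟩ := cartan_unique Z hC
    refine ⟨e.trans e'.symm, fun x y => ?_⟩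
    rw [he', Equiv.trans_apply, Equiv.trans_apply, e'.apply_symm_apply, e'.apply_symm_apply, he]

theorem noncomm_GG : ∃ a b : GG, a * b ≠ b * a := by
  refine ⟨pr (uu 1), pr ww, ?_⟩
  rw [← map_mul, ← map_mul, Ne, pr_eq_iff]
  have h1 : (uu (1 : ZMod 967) * ww).1 = !![-1, 1; -1, 0] := by
    change (uu 1).1 * (ww).1 = _
    rw [uu_val, ww_val, Matrix.mul_fin_two]
    simp
  have h2 : (ww * uu (1 : ZMod 967)).1 = !![0, 1; -1, -1] := by
    change (ww).1 * (uu 1).1 = _
    rw [uu_val, ww_val, Matrix.mul_fin_two]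
    simp
  rw [h1, h2]
  rintro (h | h)
  · have := congrFun (congrFun h 0) 0
    exact absurd this (by
      change ¬ ((-1 : ZMod 967) = 0)
      decide +kernel)
  · have := congrFun (congrFun h 0) 0
    exact absurd this (by
      change ¬ ((-1 : ZMod 967) = -0)
      decide +kernel)

theorem simple_GG : IsSimpleGroup GG := by
  apply Matrix.ProjectiveSpecialLinearGroup.rank_two_simple
  rw [Nat.card_eq_fintype_card, ZMod.card]
  norm_num

theorem not_isSquare_neg_one967 : ¬ IsSquare (-1 : ZMod 967) := by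
  rw [FiniteField.isSquare_neg_one_iff, ZMod.card]
  norm_num

theorem card_GG : Nat.card GG = 483 * 967 * 968 := by
  have h := two_N0 not_isSquare_neg_one967
  rw [ZMod.card] at h
  rw [card_PSLF not_isSquare_neg_one967, ZMod.card, show N0 (ZMod 967) = 483 by omega]

theorem card_HG : Nat.card HG = 11 ^ 6 * 168 := by
  rw [Nat.card_eq_fintype_card, card_HH, ZMod.card, card_PSL7']

end Cartan2
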