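import Pool.Agent.Cartan2.TheoremB2

open Module

namespace Cartan2

universe u

instance fact967 : Fact (Nat.Prime 967) := ⟨by norm_num⟩

/-- matrices of the torus -/
def tm (x y : ZMod 967) : Matrix (Fin 2) (Fin 2) (ZMod 967) := !![x, y; -y, x]

theorem tm_mul {x y x' y' X Y : ZMod 967} (hX : x * x' - y * y' = X) (hY : x * y' + y * x' = Y) :
    tm x y * tm x' y' = tm X Y := by
  unfold tm
  rw [← hX, ← hY, Matrix.mul_fin_two]
  ext i j
  fin_cases i <;> fin_cases j <;> simp <;> ring

theorem tm_pow_a : tm 21 340 ^ 11 = tm 460 287 := by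
  have h2 : tm 21 340 * tm 21 340 = tm 881 742 :=
    tm_mul (by decide +kernel) (by decide +kernel)
  have h4 : tm 881 742 * tm 881 742 = tm 286 20 :=
    tm_mul (by decide +kernel) (by decide +kernel)
  have h8 : tm 286 20 * tm 286 20 = tm 168 803 :=
    tm_mul (by decide +kernel) (by decide +kernel)
  have h10 : tm 168 803 * tm 881 742 = tm 870 479 :=
    tm_mul (by decide +kernel) (by decide +kernel)
  have h11 : tm 870 479 * tm 21 340 = tm 460 287 :=
    tm_mul (by decide +kernel) (by decide +kernel)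
  calc tm 21 340 ^ 11 = (((tm 21 340 ^ 2) ^ 2) ^ 2 * tm 21 340 ^ 2) * tm 21 340 := by
        rw [← pow_mul, ← pow_mul, ← pow_add, ← pow_succ]
    _ = _ := by
        rw [pow_two (tm 21 340), h2, pow_two (tm 881 742), h4, pow_two (tm 286 20), h8, h10, h11]

theorem tm_pow_b : tm 460 287 ^ 11 = tm 1 0 := by
  have h2 : tm 460 287 * tm 460 287 = tm 620 49 :=
    tm_mul (by decide +kernel) (by decide +kernel)
  have h4 : tm 620 49 * tm 620 49 = tm 34 806 :=
    tm_mul (by decide +kernel) (by decide +kernel)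
  have h8 : tm 34 806 * tm 34 806 = tm 377 656 :=
    tm_mul (by decide +kernel) (by decide +kernel)
  have h10 : tm 377 656 * tm 620 49 = tm 460 680 :=
    tm_mul (by decide +kernel) (by decide +kernel)
  have h11 : tm 460 680 * tm 460 287 = tm 1 0 :=
    tm_mul (by decide +kernel) (by decide +kernel)
  calc tm 460 287 ^ 11 = (((tm 460 287 ^ 2) ^ 2) ^ 2 * tm 460 287 ^ 2) * tm 460 287 := by
        rw [← pow_mul, ← pow_mul, ← pow_add, ← pow_succ]
    _ = _ := by
        rw [pow_two (tm 460 287), h2, pow_two (tm 620 49), h4, pow_two (tm 34 806), h8, h10, h11]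

theorem tor_eq : (21 : ZMod 967) * 21 + 340 * 340 = 1 := by decide +kernel

theorem order_tor : orderOf (pr (tor (21 : ZMod 967) 340 tor_eq)) = 2 * 60 + 1 := by
  have h1 : ((tor (21 : ZMod 967) 340 tor_eq) ^ 11).1 = tm 460 287 := by
    rw [Matrix.SpecialLinearGroup.coe_pow]
    exact tm_pow_a
  have h2 : ((tor (21 : ZMod 967) 340 tor_eq) ^ 121).1 = 1 := by
    rw [show 121 = 11 * 11 from rfl, pow_mul, Matrix.SpecialLinearGroup.coe_pow, h1, tm_pow_b]
    ext i j
    fin_cases i <;> fin_cases j <;> simp [tm]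
  have h3 : 2 * 60 + 1 = 11 ^ (1 + 1) := by norm_num
  rw [h3]
  apply orderOf_eq_prime_pow
  · rw [pow_one, ← map_pow, ← map_one pr, pr_eq_iff]
    rintro (h | h)
    · rw [h1] at h
      have := congrFun (congrFun h 0) 1
      exact absurd this (by
        change ¬ ((287 : ZMod 967) = 0)
        decide +kernel)
    · rw [h1] at h
      have := congrFun (congrFun h 0) 1
      exact absurd this (by
        change ¬ ((287 : ZMod 967) = -0)
        decide +kernel)
  · rw [← map_pow, ← map_one pr, pr_eq_iff]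
    left
    exact h2

/-- the group `G` -/
abbrev GG := PSLF (ZMod 967)

variable {k : Type u} [Field k] [IsAlgClosed k] [CharP k 2]

theorem psl967_blockType {ι : Type} [Fintype ι] (Z : SimpleSys k (MonoidAlgebra k GG) ι) :
    BlockType Z.c 60 241 := by
  obtain ⟨ψ, hψ⟩ := exists_primitive_char (k := k) 967 (by decide)
  exact psl_blockType_tor (F := ZMod 967) (p := 60) (by rw [ZMod.card]) hψ (x := 21) (y := 340)
    (u := 2) (v := 295) tor_eq (by decide +kernel) order_tor (by norm_num) Z

end Cartan2
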