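import Pool.Agent.Cartan2.Sym2

open Module

namespace Cartan2

universe u

open MonoidAlgebra (single)

section

variable {k : Type u} [Field k] {G : Type} [Group G] [Fintype G]

theorem coeff_mul' (x y : MonoidAlgebra k G) (g : G) :
    (x * y).coeff g = ∑ h, x.coeff h * y.coeff (h⁻¹ * g) := by
  rw [MonoidAlgebra.coeff_mul_apply_left]
  exact Finsupp.sum_fintype _ _ (fun i => zero_mul _)

theorem coeff_mul'' (x y : MonoidAlgebra k G) (g : G) :
    (x * y).coeff g = ∑ h, x.coeff (g * h⁻¹) * y.coeff h := by
  rw [MonoidAlgebra.coeff_mul_apply_right]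
  exact Finsupp.sum_fintype _ _ (fun i => mul_zero _)

instance : FiniteDimensional k (MonoidAlgebra k G) :=
  Module.Finite.of_basis (MonoidAlgebra.basis G k)

theorem finrank_groupAlg : finrank k (MonoidAlgebra k G) = Fintype.card G :=
  Module.finrank_eq_card_basis (MonoidAlgebra.basis G k)

/-- coefficient as a linear map -/
def coeffL (g : G) : MonoidAlgebra k G →ₗ[k] k where
  toFun x := x.coeff g
  map_add' _ _ := rfl
  map_smul' _ _ := rfl

variable (k G) in
/-- The symmetrizing form of a group algebra. -/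
def groupForm : SymForm k (MonoidAlgebra k G) where
  t := coeffL 1
  symm x y := by
    change (x * y).coeff 1 = (y * x).coeff 1
    rw [coeff_mul', coeff_mul'']
    refine Finset.sum_congr rfl fun h _ => ?_
    rw [mul_one, one_mul, mul_comm]
  nondeg x h := by
    ext g
    have := h (single g⁻¹ 1)
    change (x * single g⁻¹ 1).coeff 1 = 0 at this
    simpa using this

/-- The sum of the elements of a subgroup. -/
noncomputable def sumK (k : Type u) [Field k] {G : Type} [Group G] [Fintype G] (K : Subgroup G) :
    MonoidAlgebra k G := by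
  classical exact ∑ g : K, single (g : G) 1

open Classical in
theorem sumK_def (K : Subgroup G) : sumK k K = ∑ g : K, single (g : G) 1 := rfl

theorem single_mul_sumK {K : Subgroup G} {g : G} (hg : g ∈ K) :
    single g 1 * sumK k K = sumK k K := by
  classical
  rw [sumK_def, Finset.mul_sum]
  simp only [MonoidAlgebra.single_mul_single, one_mul]
  exact Fintype.sum_equiv (Equiv.mulLeft (⟨g, hg⟩ : K)) _ _ (fun x => rfl)

theorem exists_sumK_mul (K : Subgroup G) (v : MonoidAlgebra k G)
    (hv : ∀ g ∈ K, single g 1 * v = v) : ∃ b, sumK k K * b = v := by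
  classical
  let r : G → G := fun x => Quotient.out (Quotient.mk (QuotientGroup.rightRel K) x)
  have hr1 : ∀ x, r x * x⁻¹ ∈ K := by
    intro x
    have : (QuotientGroup.rightRel K).r (r x) x := Quotient.mk_out (s := QuotientGroup.rightRel K) x
    have h2 : x * (r x)⁻¹ ∈ K := QuotientGroup.rightRel_apply.1 this
    simpa using K.inv_mem h2
  have hr2 : ∀ x y, y * x⁻¹ ∈ K → r x = r y := by
    intro x y h
    have : Quotient.mk (QuotientGroup.rightRel K) x = Quotient.mk (QuotientGroup.rightRel K) y :=
      Quotient.sound (QuotientGroup.rightRel_apply.2 h)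
    simp only [r, this]
  have hvc : ∀ g ∈ K, ∀ x, v.coeff (g * x) = v.coeff x := by
    intro g hg x
    have := congrArg (fun w => w.coeff x) (hv g⁻¹ (K.inv_mem hg))
    simpa using this
  refine ⟨MonoidAlgebra.ofCoeff (Finsupp.equivFunOnFinite.symm
    (fun x => if r x = x then v.coeff x else 0)), ?_⟩
  ext x
  rw [sumK_def, Finset.sum_mul, MonoidAlgebra.coeff_sum, Finset.sum_apply']
  simp only [MonoidAlgebra.coeff_single_mul_apply, one_mul]
  change ∑ g : K, (if r ((g : G)⁻¹ * x) = (g : G)⁻¹ * x then v.coeff ((g : G)⁻¹ * x) else 0) = _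
  have h1 : ∀ g : K, r ((g : G)⁻¹ * x) = r x := by
    intro g
    apply hr2
    have : x * ((g : G)⁻¹ * x)⁻¹ = g := by group
    rw [this]; exact g.2
  have hx : x * (r x)⁻¹ ∈ K := by simpa using K.inv_mem (hr1 x)
  rw [Finset.sum_eq_single (⟨x * (r x)⁻¹, hx⟩ : K)]
  · rw [h1]
    have h2 : (x * (r x)⁻¹)⁻¹ * x = r x := by group
    change (if r x = (x * (r x)⁻¹)⁻¹ * x then v.coeff ((x * (r x)⁻¹)⁻¹ * x) else 0) = _
    rw [h2, if_pos rfl]
    have := hvc _ (hr1 x) x
    rw [← this]
    congr 1
    group
  · intro g _ hg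
    rw [h1, if_neg]
    intro h
    apply hg
    apply Subtype.ext
    change (g : G) = x * (r x)⁻¹
    rw [h]
    group
  · intro h; exact absurd (Finset.mem_univ _) h

open Classical in
theorem coeff_sumK (K : Subgroup G) (g : G) :
    (sumK k K).coeff g = if g ∈ K then 1 else 0 := by
  rw [sumK_def, MonoidAlgebra.coeff_sum, Finset.sum_apply']
  simp only [MonoidAlgebra.coeff_single]
  by_cases hg : g ∈ K
  · rw [if_pos hg, Finset.sum_eq_single (⟨g, hg⟩ : K)]
    · simp
    · intro b _ hb
      rw [Finsupp.single_apply, if_neg]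
      exact fun h => hb (Subtype.ext h)
    · intro h; exact absurd (Finset.mem_univ _) h
  · rw [if_neg hg]
    apply Finset.sum_eq_zero
    intro b _
    rw [Finsupp.single_apply, if_neg]
    exact fun h => hg (h ▸ b.2)

set_option maxHeartbeats 1000000 in
/-- (K5) -/
theorem finrank_eq_card_mul [CharP k 2] {ε : MonoidAlgebra k G} (hε : ε * ε = ε) (n : ℕ)
    (K : Subgroup G) (hK : Nat.card K = 2 ^ n) :
    finrank k (lid ε) = 2 ^ n * rk k (sumK k K) (lid ε) := by
  classical
  have := fd_sub (k := k) (lid ε)
  have : Fact (Nat.Prime 2) := ⟨Nat.prime_two⟩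
  induction n generalizing K with
  | zero =>
    have : K = ⊥ := by
      rw [← Subgroup.card_eq_one]; simpa using hK
    subst this
    have h1 : sumK k (⊥ : Subgroup G) = 1 := by
      ext g
      rw [coeff_sumK, MonoidAlgebra.one_def, MonoidAlgebra.coeff_single, Finsupp.single_apply]
      simp only [Subgroup.mem_bot]
      simp only [eq_comm]
    rw [h1, rk_one]; simp
  | succ n ih =>
    obtain ⟨H, hH, -⟩ := Sylow.exists_subgroup_card_pow_prime_le (G := K) 2 (n := 0) (m := n)
      (by rw [hK]; exact pow_dvd_pow 2 (Nat.le_succ n)) ⊥ (by simp) (Nat.zero_le n)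
    have hidx : H.index = 2 := by
      have h1 := H.card_mul_index
      rw [hH, hK, pow_succ] at h1
      exact Nat.eq_of_mul_eq_mul_left (by positivity) h1
    set K' : Subgroup G := H.map K.subtype with hK'
    have hcK' : Nat.card K' = 2 ^ n := by
      rw [hK', Subgroup.card_map_of_injective K.subtype_injective, hH]
    have hmemK' : ∀ (g : G) (hg : g ∈ K), g ∈ K' ↔ (⟨g, hg⟩ : K) ∈ H := by
      intro g hg
      rw [hK', Subgroup.mem_map]
      constructor
      · rintro ⟨x, hx, hxg⟩
        have : x = ⟨g, hg⟩ := Subtype.ext hxg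
        rwa [← this]
      · intro h
        exact ⟨⟨g, hg⟩, h, rfl⟩
    have hle : K' ≤ K := by
      rintro _ ⟨x, -, rfl⟩
      exact x.2
    obtain ⟨t, ht⟩ : ∃ t : K, t ∉ H := by
      by_contra h
      push Not at h
      have : H = ⊤ := by ext x; simp [h x]
      rw [this, Subgroup.index_top] at hidx
      omega
    have hsplit : ∀ g ∈ K, ((t : G)⁻¹ * g ∈ K' ↔ g ∉ K') := by
      intro g hg
      rw [hmemK' _ (K.mul_mem (K.inv_mem t.2) hg), hmemK' g hg]
      have := Subgroup.mul_mem_iff_of_index_two hidx (a := t⁻¹) (b := ⟨g, hg⟩)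
      have h2 : (⟨(t : G)⁻¹ * g, K.mul_mem (K.inv_mem t.2) hg⟩ : K) = t⁻¹ * ⟨g, hg⟩ := rfl
      rw [h2, this]
      simp only [inv_mem_iff, ht, false_iff]
    have hsplit' : ∀ g ∈ K, (g * (t : G)⁻¹ ∈ K' ↔ g ∉ K') := by
      intro g hg
      rw [hmemK' _ (K.mul_mem hg (K.inv_mem t.2)), hmemK' g hg]
      have := Subgroup.mul_mem_iff_of_index_two hidx (a := ⟨g, hg⟩) (b := t⁻¹)
      have h2 : (⟨g * (t : G)⁻¹, K.mul_mem hg (K.inv_mem t.2)⟩ : K) = ⟨g, hg⟩ * t⁻¹ := rfl
      rw [h2, this]
      simp only [inv_mem_iff, ht, iff_false]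
    have e1 : sumK k K = sumK k K' + single (t : G) 1 * sumK k K' := by
      ext g
      rw [MonoidAlgebra.coeff_add, Finsupp.add_apply, MonoidAlgebra.coeff_single_mul_apply,
        coeff_sumK, coeff_sumK, coeff_sumK, one_mul]
      by_cases hg : g ∈ K
      · rw [if_pos hg]
        by_cases hg' : g ∈ K'
        · rw [if_pos hg', if_neg, add_zero]
          rw [hsplit g hg]; exact fun h => h hg'
        · rw [if_neg hg', if_pos, zero_add]
          rw [hsplit g hg]; exact hg'
      · rw [if_neg hg, if_neg (fun h => hg (hle h)), if_neg, add_zero]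
        intro h
        apply hg
        have := K.mul_mem t.2 (hle h)
        simpa using this
    have e2 : sumK k K = sumK k K' + sumK k K' * single (t : G) 1 := by
      ext g
      rw [MonoidAlgebra.coeff_add, Finsupp.add_apply, MonoidAlgebra.coeff_mul_single_apply,
        coeff_sumK, coeff_sumK, coeff_sumK, mul_one]
      by_cases hg : g ∈ K
      · rw [if_pos hg]
        by_cases hg' : g ∈ K'
        · rw [if_pos hg', if_neg, add_zero]
          rw [hsplit' g hg]; exact fun h => h hg'
        · rw [if_neg hg', if_pos, zero_add]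
          rw [hsplit' g hg]; exact hg'
      · rw [if_neg hg, if_neg (fun h => hg (hle h)), if_neg, add_zero]
        intro h
        apply hg
        have := K.mul_mem (hle h) t.2
        simpa using this
    rw [ih K' hcK', pow_succ, mul_assoc]
    congr 1
    unfold rk
    set R' := LinearMap.range (Algebra.lsmul k k (lid ε) (sumK k K')) with hR'
    set R := LinearMap.range (Algebra.lsmul k k (lid ε) (sumK k K)) with hR
    let ψ : R' →ₗ[k] lid ε :=
      ((LinearMap.id : lid ε →ₗ[k] lid ε) +
        Algebra.lsmul k k (lid ε) (single (t : G) (1 : k))).comp R'.subtype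
    have hψ : ∀ v : R', ψ v = (v : lid ε) + (single (t : G) (1 : k)) • (v : lid ε) :=
      fun v => rfl
    have hr : LinearMap.range ψ = R := by
      ext v
      constructor
      · rintro ⟨⟨_, ⟨m, rfl⟩⟩, rfl⟩
        refine ⟨m, ?_⟩
        rw [hψ]
        change sumK k K • m = sumK k K' • m + (single (t : G) (1 : k)) • sumK k K' • m
        rw [e1, add_smul, mul_smul]
      · rintro ⟨m, rfl⟩
        refine ⟨⟨sumK k K' • m, ⟨m, rfl⟩⟩, ?_⟩
        rw [hψ]
        change sumK k K' • m + (single (t : G) (1 : k)) • sumK k K' • m = sumK k K • m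
        rw [e1, add_smul, mul_smul]
    have two0 : ∀ v : lid ε, v + v = 0 := by
      intro v
      have : (2 : k) • v = 0 := by
        have h2 : (2 : k) = 0 := CharP.cast_eq_zero k 2
        rw [h2, zero_smul]
      rwa [two_smul] at this
    have hk : (LinearMap.ker ψ).map R'.subtype = R := by
      ext v
      constructor
      · rintro ⟨v, hv, rfl⟩
        have hv' : (v : lid ε) + (single (t : G) (1 : k)) • (v : lid ε) = 0 := hv
        have htv : (single (t : G) (1 : k)) • (v : lid ε) = v := by
          have := two0 v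
          rw [← this] at hv'
          exact add_left_cancel hv'
        obtain ⟨m, hm⟩ := v.2
        have hm' : sumK k K' • m = (v : lid ε) := hm
        have hKv : ∀ g ∈ K', (single g (1 : k)) • (v : lid ε) = v := by
          intro g hg
          rw [← hm', ← mul_smul, single_mul_sumK hg]
        have hKv2 : ∀ g ∈ K, (single g (1 : k)) • (v : lid ε) = v := by
          intro g hg
          by_cases hg' : g ∈ K'
          · exact hKv g hg'
          · have h1 := hKv _ ((hsplit g hg).2 hg')
            calc (single g (1 : k)) • (v : lid ε) =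
                (single (t : G) (1 : k) * single ((t : G)⁻¹ * g) 1) • (v : lid ε) := by
                  rw [MonoidAlgebra.single_mul_single]; congr 2 <;> group
              _ = v := by rw [mul_smul, h1, htv]
        obtain ⟨b, hb⟩ := exists_sumK_mul K ((v : lid ε) : MonoidAlgebra k G)
          (fun g hg => congrArg Subtype.val (hKv2 g hg))
        refine ⟨⟨b * ε, mem_lid.2 ⟨b, rfl⟩⟩, ?_⟩
        apply Subtype.ext
        change sumK k K * (b * ε) = _
        rw [← mul_assoc, hb]
        exact (mem_lid_idem hε).1 (v : lid ε).2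
      · rintro ⟨m, rfl⟩
        refine ⟨⟨sumK k K • m, ⟨m + single (t : G) (1 : k) • m, ?_⟩⟩, ?_, rfl⟩
        · change sumK k K' • (m + single (t : G) (1 : k) • m) = sumK k K • m
          rw [e2, add_smul, mul_smul, smul_add]
        · change sumK k K • m + (single (t : G) (1 : k)) • sumK k K • m = 0
          rw [← mul_smul, single_mul_sumK t.2, two0]
    have h1 := LinearMap.finrank_range_add_finrank_ker ψ
    rw [hr, (Submodule.equivMapOfInjective R'.subtype Subtype.val_injective
      (LinearMap.ker ψ)).finrank_eq, hk] at h1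
    omega

theorem pow_dvd_finrank_lid [CharP k 2] {ε : MonoidAlgebra k G} (hε : ε * ε = ε) {n : ℕ}
    (hn : 2 ^ n ∣ Fintype.card G) : 2 ^ n ∣ finrank k (lid ε) := by
  have : Fact (Nat.Prime 2) := ⟨Nat.prime_two⟩
  obtain ⟨K, hK⟩ := Sylow.exists_subgroup_card_pow_prime (G := G) 2 (n := n)
    (by rwa [Nat.card_eq_fintype_card])
  exact ⟨_, finrank_eq_card_mul hε n K hK⟩

end

end Cartan2
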