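import Pool.Agent.Cartan2.CliffFinal

open Matrix

namespace Cartan2

universe u

section heis

/-- The group of pairs `(v,w)` with `(v,w)(v',w') = (v+v', w+w'+v×v')`. -/
@[ext] structure Heis (F : Type) where
  v : Fin 3 → F
  w : Fin 3 → F

variable {F : Type} [Field F]

/-- cross product -/
def cr (v w : Fin 3 → F) : Fin 3 → F :=
  ![v 1 * w 2 - v 2 * w 1, v 2 * w 0 - v 0 * w 2, v 0 * w 1 - v 1 * w 0]

theorem cr_add_left (a b c : Fin 3 → F) : cr (a + b) c = cr a c + cr b c := by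
  ext i; fin_cases i <;> simp [cr] <;> ring
theorem cr_add_right (a b c : Fin 3 → F) : cr a (b + c) = cr a b + cr a c := by
  ext i; fin_cases i <;> simp [cr] <;> ring
theorem cr_self (a : Fin 3 → F) : cr a a = 0 := by
  ext i; fin_cases i <;> simp [cr] <;> ring
theorem cr_neg_right (a b : Fin 3 → F) : cr a (-b) = -cr a b := by
  ext i; fin_cases i <;> simp [cr] <;> ring
theorem cr_neg_left (a b : Fin 3 → F) : cr (-a) b = -cr a b := by
  ext i; fin_cases i <;> simp [cr] <;> ring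
theorem cr_comm (a b : Fin 3 → F) : cr b a = -cr a b := by
  ext i; fin_cases i <;> simp [cr] <;> ring
theorem cr_smul_left (c : F) (a b : Fin 3 → F) : cr (c • a) b = c • cr a b := by
  ext i; fin_cases i <;> simp [cr] <;> ring
theorem cr_smul_right (c : F) (a b : Fin 3 → F) : cr a (c • b) = c • cr a b := by
  ext i; fin_cases i <;> simp [cr] <;> ring
theorem cr_zero_left (b : Fin 3 → F) : cr 0 b = 0 := by
  ext i; fin_cases i <;> simp [cr]
theorem cr_zero_right (b : Fin 3 → F) : cr b 0 = 0 := by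
  ext i; fin_cases i <;> simp [cr]
theorem cr_dot (a b : Fin 3 → F) : cr a b ⬝ᵥ b = 0 := by
  simp [cr, dotProduct, Fin.sum_univ_three]; ring

theorem cr_equivariant (A : Matrix (Fin 3) (Fin 3) F) (v w : Fin 3 → F) :
    cr (A *ᵥ v) (A *ᵥ w) = A.adjugateᵀ *ᵥ cr v w := by
  rw [Matrix.adjugate_fin_three]
  ext i
  fin_cases i <;> simp [cr, Matrix.mulVec, dotProduct, Fin.sum_univ_three] <;> ring

instance : Group (Heis F) where
  mul a b := ⟨a.v + b.v, a.w + b.w + cr a.v b.v⟩
  one := ⟨0, 0⟩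
  inv a := ⟨-a.v, -a.w⟩
  mul_assoc a b c := by
    apply Heis.ext
    · exact add_assoc _ _ _
    · change a.w + b.w + cr a.v b.v + c.w + cr (a.v + b.v) c.v =
        a.w + (b.w + c.w + cr b.v c.v) + cr a.v (b.v + c.v)
      rw [cr_add_left, cr_add_right]; abel
  one_mul a := by
    apply Heis.ext
    · exact zero_add _
    · change 0 + a.w + cr 0 a.v = a.w
      rw [cr_zero_left]; simp
  mul_one a := by
    apply Heis.ext
    · exact add_zero _
    · change a.w + 0 + cr a.v 0 = a.w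
      rw [cr_zero_right]; simp
  inv_mul_cancel a := by
    apply Heis.ext
    · exact neg_add_cancel _
    · change -a.w + a.w + cr (-a.v) a.v = 0
      rw [cr_neg_left, cr_self]; simp

theorem Heis.mul_v (a b : Heis F) : (a * b).v = a.v + b.v := rfl
theorem Heis.mul_w (a b : Heis F) : (a * b).w = a.w + b.w + cr a.v b.v := rfl
theorem Heis.one_v : (1 : Heis F).v = 0 := rfl
theorem Heis.one_w : (1 : Heis F).w = 0 := rfl
theorem Heis.inv_v (a : Heis F) : (a⁻¹).v = -a.v := rfl
theorem Heis.inv_w (a : Heis F) : (a⁻¹).w = -a.w := rfl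

/-- The underlying set. -/
def Heis.equiv : Heis F ≃ (Fin 3 → F) × (Fin 3 → F) where
  toFun a := (a.v, a.w)
  invFun a := ⟨a.1, a.2⟩
  left_inv _ := rfl
  right_inv _ := rfl

instance [Finite F] : Finite (Heis F) := Finite.of_equiv _ Heis.equiv.symm

omit [Field F] in
theorem Heis.card : Nat.card (Heis F) = Nat.card F ^ 6 := by
  rw [Nat.card_congr Heis.equiv, Nat.card_prod, Nat.card_fun, Nat.card_eq_fintype_card (α := Fin 3),
    Fintype.card_fin, ← pow_add]

abbrev SL3 (F : Type) [Field F] := Matrix.SpecialLinearGroup (Fin 3) F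

/-- the contragredient -/
def ct (A : SL3 F) : Matrix (Fin 3) (Fin 3) F := ((A⁻¹).1)ᵀ

theorem ct_eq (A : SL3 F) : ct A = A.1.adjugateᵀ := by
  unfold ct
  rw [Matrix.SpecialLinearGroup.coe_inv A]

theorem ct_one : ct (1 : SL3 F) = 1 := by
  unfold ct
  rw [inv_one]
  exact Matrix.transpose_one

theorem ct_mul (A B : SL3 F) : ct (A * B) = ct A * ct B := by
  unfold ct
  rw [_root_.mul_inv_rev]
  change ((B⁻¹).1 * (A⁻¹).1)ᵀ = _
  rw [Matrix.transpose_mul]

theorem ct_dot (A : SL3 F) (y v : Fin 3 → F) : (ct A *ᵥ y) ⬝ᵥ (A.1 *ᵥ v) = y ⬝ᵥ v := by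
  unfold ct
  rw [Matrix.mulVec_transpose, ← Matrix.dotProduct_mulVec, Matrix.mulVec_mulVec]
  have : (A⁻¹).1 * A.1 = 1 := congrArg Subtype.val (inv_mul_cancel A)
  rw [this, Matrix.one_mulVec]

/-- The action of `SL3` on `Heis`. -/
def heisAut (A : SL3 F) : Heis F →* Heis F where
  toFun a := ⟨A.1 *ᵥ a.v, ct A *ᵥ a.w⟩
  map_one' := by
    apply Heis.ext
    · change A.1 *ᵥ (0 : Fin 3 → F) = 0
      exact Matrix.mulVec_zero _
    · change ct A *ᵥ (0 : Fin 3 → F) = 0
      exact Matrix.mulVec_zero _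
  map_mul' a b := by
    apply Heis.ext
    · change A.1 *ᵥ (a.v + b.v) = A.1 *ᵥ a.v + A.1 *ᵥ b.v
      exact Matrix.mulVec_add _ _ _
    · change ct A *ᵥ (a.w + b.w + cr a.v b.v) =
        ct A *ᵥ a.w + ct A *ᵥ b.w + cr (A.1 *ᵥ a.v) (A.1 *ᵥ b.v)
      rw [cr_equivariant, ← ct_eq, Matrix.mulVec_add, Matrix.mulVec_add]

theorem heisAut_one (a : Heis F) : heisAut 1 a = a := by
  apply Heis.ext
  · exact Matrix.one_mulVec _
  · change ct 1 *ᵥ a.w = a.w
    rw [ct_one, Matrix.one_mulVec]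

theorem heisAut_mul (A B : SL3 F) (a : Heis F) : heisAut (A * B) a = heisAut A (heisAut B a) := by
  apply Heis.ext
  · change (A * B).1 *ᵥ a.v = A.1 *ᵥ (B.1 *ᵥ a.v)
    rw [Matrix.mulVec_mulVec]; rfl
  · change ct (A * B) *ᵥ a.w = ct A *ᵥ (ct B *ᵥ a.w)
    rw [ct_mul, Matrix.mulVec_mulVec]

/-- As automorphism. -/
def heisMulAut : SL3 F →* MulAut (Heis F) where
  toFun A :=
    { toFun := heisAut A
      invFun := heisAut A⁻¹
      left_inv := fun a => by rw [← heisAut_mul, inv_mul_cancel, heisAut_one]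
      right_inv := fun a => by rw [← heisAut_mul, mul_inv_cancel, heisAut_one]
      map_mul' := map_mul _ }
  map_one' := by
    ext1 a
    exact heisAut_one a
  map_mul' A B := by
    ext1 a
    exact heisAut_mul A B a

end heis

end Cartan2
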