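import Pool.Agent.Cartan2.Heis

open Module

namespace Cartan2

universe u

open MonoidAlgebra (single)

section general

variable {k : Type u} [Field k] {G : Type} [Group G] [Fintype G]

theorem eid_conj {P P' : Type} [Group P] [Fintype P] [Group P'] [Fintype P'] (e : P ≃ P')
    (α : P →* G) (χ : P →* kˣ) (α' : P' →* G) (χ' : P' →* kˣ) (a b : G)
    (hα : ∀ p, α' (e p) = a * α p * b) (hχ : ∀ p, χ' (e p) = χ p) :
    single a (1 : k) * eid α χ * single b 1 = eid α' χ' := by
  unfold eid
  rw [mul_smul_comm, smul_mul_assoc, Finset.mul_sum, Finset.sum_mul, Fintype.card_congr e]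
  congr 1
  refine Fintype.sum_equiv e _ _ (fun p => ?_)
  rw [MonoidAlgebra.single_mul_single, MonoidAlgebra.single_mul_single, one_mul, mul_one, hα, hχ]

theorem eid_mul_eid_eq_zero {P R : Type} [Group P] [Fintype P] [Group R] [Fintype R]
    (α : P →* G) (χ : P →* kˣ) (β : R →* G) (ψ : R →* kˣ)
    {p : P} {r : R} (h1 : α p = β r) (h2 : χ p ≠ ψ r) :
    eid α χ * eid β ψ = 0 := by
  have := eid_single_eid_eq_zero α χ β ψ 1 (p := p) (r := r) (by rw [mul_one, one_mul, h1]) h2
  rwa [show (single (1 : G) (1 : k)) = 1 from rfl, mul_one] at this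

/-- A family of orthogonal idempotents of total dimension `|G|` sums to `1`. -/
theorem sum_eq_one_of_dim {Θ : Type} [Fintype Θ] (E : Θ → MonoidAlgebra k G)
    (idem : ∀ θ, E θ * E θ = E θ) (orth : ∀ θ θ', θ ≠ θ' → E θ * E θ' = 0)
    (hdim : ∑ θ, cdim k (E θ) 1 = Fintype.card G) : ∑ θ, E θ = 1 := by
  classical
  have h1 := rk_sum_orth (k := k) (M := lid (1 : MonoidAlgebra k G)) E idem orth Finset.univ
  simp only [rk_lid] at h1
  rw [hdim] at h1
  set S := ∑ θ, E θ with hS
  have hSS : S * S = S := by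
    rw [hS, Finset.sum_mul]
    refine Finset.sum_congr rfl fun i hi => ?_
    rw [Finset.mul_sum, Finset.sum_eq_single i]
    · exact idem i
    · intro j _ hj; exact orth i j hj.symm
    · intro h; exact absurd hi h
  have h2 : corner k S 1 = ⊤ := by
    apply Submodule.eq_top_of_finrank_eq
    change cdim k S 1 = _
    rw [h1, finrank_eq_card_basis (MonoidAlgebra.basis G k)]
  have h3 : (1 : MonoidAlgebra k G) ∈ corner k S 1 := by rw [h2]; trivial
  rw [mem_corner hSS (one_mul 1)] at h3
  have h4 := h3.1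
  rwa [mul_one] at h4

/-- divisibility from commutation relations. -/
theorem dvd_rk_of_commutator {e : MonoidAlgebra k G} (he : e * e = e) {g h : G} {ξ : k} {q : ℕ}
    (hq : q.Prime) (hξ : ξ ^ q = 1) (hξ1 : ξ ≠ 1)
    (hge : single g (1 : k) * e = e * single g 1) (hhe : single h (1 : k) * e = e * single h 1)
    (hgh : single (g * h) (1 : k) * e = ξ • (single (h * g) (1 : k) * e))
    (M : Type u) [AddCommGroup M] [Module k M] [Module (MonoidAlgebra k G) M]
    [IsScalarTower k (MonoidAlgebra k G) M] [FiniteDimensional k M] : q ∣ rk k e M := by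
  set V := LinearMap.range (Algebra.lsmul k k M e) with hV
  have hinv : ∀ x : G, single x (1 : k) * e = e * single x 1 →
      ∀ v ∈ V, (Algebra.lsmul k k M (single x (1 : k))) v ∈ V := by
    rintro x hx _ ⟨m, rfl⟩
    refine ⟨single x (1 : k) • m, ?_⟩
    change e • single x (1 : k) • m = single x (1 : k) • e • m
    rw [smul_smul, smul_smul, hx]
  have hev : ∀ v : V, e • (v : M) = v := by
    rintro ⟨_, ⟨m, rfl⟩⟩
    change e • e • m = e • m
    rw [smul_smul, he]
  let X : V →ₗ[k] V := (Algebra.lsmul k k M (single g (1 : k))).restrict (hinv g hge)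
  let Y : V →ₗ[k] V := (Algebra.lsmul k k M (single h (1 : k))).restrict (hinv h hhe)
  have hge' : single g⁻¹ (1 : k) * e = e * single g⁻¹ 1 := by
    have h0 : single g⁻¹ (1 : k) * single g (1 : k) = 1 := by
      rw [MonoidAlgebra.single_mul_single, inv_mul_cancel, one_mul]; rfl
    have h1 : single g (1 : k) * single g⁻¹ (1 : k) = 1 := by
      rw [MonoidAlgebra.single_mul_single, mul_inv_cancel, one_mul]; rfl
    calc single g⁻¹ (1 : k) * e = single g⁻¹ (1 : k) * (e * single g (1 : k)) * single g⁻¹ 1 := by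
          rw [mul_assoc, mul_assoc, h1, mul_one]
      _ = e * single g⁻¹ 1 := by
          rw [← hge, ← mul_assoc, h0, one_mul]
  have hhe' : single h⁻¹ (1 : k) * e = e * single h⁻¹ 1 := by
    have h0 : single h⁻¹ (1 : k) * single h (1 : k) = 1 := by
      rw [MonoidAlgebra.single_mul_single, inv_mul_cancel, one_mul]; rfl
    have h1 : single h (1 : k) * single h⁻¹ (1 : k) = 1 := by
      rw [MonoidAlgebra.single_mul_single, mul_inv_cancel, one_mul]; rfl
    calc single h⁻¹ (1 : k) * e = single h⁻¹ (1 : k) * (e * single h (1 : k)) * single h⁻¹ 1 := by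
          rw [mul_assoc, mul_assoc, h1, mul_one]
      _ = e * single h⁻¹ 1 := by
          rw [← hhe, ← mul_assoc, h0, one_mul]
  let X' : V →ₗ[k] V := (Algebra.lsmul k k M (single g⁻¹ (1 : k))).restrict (hinv _ hge')
  let Y' : V →ₗ[k] V := (Algebra.lsmul k k M (single h⁻¹ (1 : k))).restrict (hinv _ hhe')
  have hXX' : X * X' = 1 := by
    ext v
    change single g (1 : k) • single g⁻¹ (1 : k) • (v : M) = v
    rw [smul_smul, MonoidAlgebra.single_mul_single, mul_inv_cancel, one_mul]
    change (1 : MonoidAlgebra k G) • (v : M) = v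
    rw [one_smul]
  have hYY' : Y * Y' = 1 := by
    ext v
    change single h (1 : k) • single h⁻¹ (1 : k) • (v : M) = v
    rw [smul_smul, MonoidAlgebra.single_mul_single, mul_inv_cancel, one_mul]
    change (1 : MonoidAlgebra k G) • (v : M) = v
    rw [one_smul]
  have hXY : X * Y = ξ • (Y * X) := by
    ext v
    change single g (1 : k) • single h (1 : k) • (v : M) =
      ξ • (single h (1 : k) • single g (1 : k) • (v : M))
    rw [smul_smul, smul_smul, MonoidAlgebra.single_mul_single, MonoidAlgebra.single_mul_single,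
      one_mul, ← hev v, smul_smul, smul_smul, hgh, smul_assoc]
  have hdetX : LinearMap.det X ≠ 0 := by
    intro h0
    have := congrArg LinearMap.det hXX'
    rw [map_mul, h0, zero_mul, map_one] at this
    exact zero_ne_one this
  have hdetY : LinearMap.det Y ≠ 0 := by
    intro h0
    have := congrArg LinearMap.det hYY'
    rw [map_mul, h0, zero_mul, map_one] at this
    exact zero_ne_one this
  have h5 := congrArg LinearMap.det hXY
  rw [LinearMap.det_smul, map_mul, map_mul, mul_comm (LinearMap.det Y)] at h5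
  have h6 : ξ ^ finrank k V = 1 := by
    have h7 : (ξ ^ finrank k V - 1) * (LinearMap.det X * LinearMap.det Y) = 0 := by
      rw [sub_mul, ← h5, one_mul, sub_self]
    exact sub_eq_zero.1 ((mul_eq_zero.1 h7).resolve_right (mul_ne_zero hdetX hdetY))
  haveI := Fact.mk hq
  have h8 : orderOf ξ = q := orderOf_eq_prime hξ hξ1
  have h9 := orderOf_dvd_of_pow_eq_one h6
  rw [h8] at h9
  exact h9

end general

section heis

variable {F : Type} [Field F] [Fintype F] [DecidableEq F] {L : Type} [Group L] [Fintype L]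

/-- The group `Heis(F) ⋊ L`. -/
abbrev HH (ρ : L →* SL3 F) := Heis F ⋊[heisMulAut.comp ρ] L

variable (ρ : L →* SL3 F)

noncomputable instance : Fintype (Heis F) := Fintype.ofEquiv _ Heis.equiv.symm
noncomputable instance : Fintype (HH ρ) := Fintype.ofEquiv _ SemidirectProduct.equivProd.symm

/-- The index set. -/
abbrev ThH (F : Type) [Field F] := (Fin 3 → F) ⊕ ({x : Fin 3 → F // x ≠ 0} × F)

omit [Fintype F] [DecidableEq F] in
theorem mulVec_ne_zero (A : SL3 F) {x : Fin 3 → F} (hx : x ≠ 0) : A.1.mulVec x ≠ 0 := by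
  intro h
  apply hx
  have h1 : (A⁻¹).1 * A.1 = 1 := congrArg Subtype.val (inv_mul_cancel A)
  have h2 : (A⁻¹).1.mulVec (A.1.mulVec x) = x := by
    rw [Matrix.mulVec_mulVec, h1, Matrix.one_mulVec]
  rw [← h2, h, Matrix.mulVec_zero]

/-- The action of `SL3` on the index set. -/
def thSmul (A : SL3 F) : ThH F → ThH F
  | Sum.inl y => Sum.inl ((ct A).mulVec y)
  | Sum.inr z => Sum.inr (⟨A.1.mulVec z.1.1, mulVec_ne_zero A z.1.2⟩, z.2)

omit [Fintype F] [DecidableEq F] in
theorem thSmul_inl (A : SL3 F) (y : Fin 3 → F) :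
    thSmul A (Sum.inl y) = Sum.inl ((ct A).mulVec y) := rfl

omit [Fintype F] [DecidableEq F] in
theorem thSmul_inr (A : SL3 F) (x : {x : Fin 3 → F // x ≠ 0}) (s : F) :
    thSmul A (Sum.inr (x, s)) = Sum.inr (⟨A.1.mulVec x.1, mulVec_ne_zero A x.2⟩, s) := rfl

omit [Fintype F] [DecidableEq F] in
theorem th_inr_ext {x x' : {x : Fin 3 → F // x ≠ 0}} (h : x.1 = x'.1) (s : F) :
    (Sum.inr (x, s) : ThH F) = Sum.inr (x', s) := by
  rw [Subtype.ext h]

omit [Fintype F] [DecidableEq F] in
theorem thSmul_one (θ : ThH F) : thSmul (1 : SL3 F) θ = θ := by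
  rcases θ with y | ⟨⟨x, hx⟩, s⟩
  · change Sum.inl ((ct (1 : SL3 F)).mulVec y) = Sum.inl y
    rw [ct_one, Matrix.one_mulVec]
  · rw [thSmul_inr]
    apply th_inr_ext
    exact Matrix.one_mulVec _

omit [Fintype F] [DecidableEq F] in
theorem thSmul_mul (A B : SL3 F) (θ : ThH F) : thSmul (A * B) θ = thSmul A (thSmul B θ) := by
  rcases θ with y | ⟨⟨x, hx⟩, s⟩
  · change Sum.inl ((ct (A * B)).mulVec y) = Sum.inl ((ct A).mulVec ((ct B).mulVec y))
    rw [ct_mul, Matrix.mulVec_mulVec]
  · rw [thSmul_inr, thSmul_inr, thSmul_inr]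
    apply th_inr_ext
    change (A * B).1.mulVec x = A.1.mulVec (B.1.mulVec x)
    rw [Matrix.mulVec_mulVec]
    rfl

/-- The action of `L` on the index set. -/
@[reducible] def thActL : MulAction L (ThH F) where
  smul l θ := thSmul (ρ l) θ
  one_smul θ := by
    change thSmul (ρ 1) θ = θ
    rw [map_one, thSmul_one]
  mul_smul a b θ := by
    change thSmul (ρ (a * b)) θ = thSmul (ρ a) (thSmul (ρ b) θ)
    rw [map_mul, thSmul_mul]

variable {k : Type u} [Field k]

/-- linear characters -/
def χlin (ψ : AddChar F k) (y : Fin 3 → F) : Heis F →* kˣ :=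
  MonoidHom.toHomUnits
    { toFun := fun n => ψ (y ⬝ᵥ n.v)
      map_one' := by
        change ψ (y ⬝ᵥ 0) = 1
        rw [dotProduct_zero, AddChar.map_zero_eq_one]
      map_mul' := fun a b => by
        rw [Heis.mul_v, dotProduct_add, AddChar.map_add_eq_mul] }

omit [Fintype F] [DecidableEq F] in
theorem χlin_val (ψ : AddChar F k) (y : Fin 3 → F) (n : Heis F) :
    ((χlin ψ y n : kˣ) : k) = ψ (y ⬝ᵥ n.v) := rfl

/-- The normal subgroup attached to `x`. -/
def γx (x : Fin 3 → F) : Multiplicative (F × (Fin 3 → F)) →* Heis F where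
  toFun p := ⟨p.toAdd.1 • x, p.toAdd.2⟩
  map_one' := by
    apply Heis.ext
    · exact zero_smul _ _
    · rfl
  map_mul' p q := by
    apply Heis.ext
    · exact add_smul _ _ _
    · change p.toAdd.2 + q.toAdd.2 = p.toAdd.2 + q.toAdd.2 + cr (p.toAdd.1 • x) (q.toAdd.1 • x)
      rw [cr_smul_left, cr_smul_right, cr_self]
      simp

/-- characters of it -/
def χx (ψ : AddChar F k) (x : Fin 3 → F) (s : F) : Multiplicative (F × (Fin 3 → F)) →* kˣ :=
  MonoidHom.toHomUnits
    { toFun := fun p => ψ (s * p.toAdd.1 + p.toAdd.2 ⬝ᵥ x)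
      map_one' := by
        change ψ (s * 0 + (0 : Fin 3 → F) ⬝ᵥ x) = 1
        rw [zero_dotProduct, mul_zero, add_zero, AddChar.map_zero_eq_one]
      map_mul' := fun a b => by
        change ψ (s * (a.toAdd.1 + b.toAdd.1) + (a.toAdd.2 + b.toAdd.2) ⬝ᵥ x) = _
        rw [← AddChar.map_add_eq_mul, add_dotProduct]
        congr 1
        ring }

omit [Fintype F] [DecidableEq F] in
theorem χx_val (ψ : AddChar F k) (x : Fin 3 → F) (s : F) (c : F) (w : Fin 3 → F) :
    ((χx ψ x s (Multiplicative.ofAdd (c, w)) : kˣ) : k) = ψ (s * c + w ⬝ᵥ x) := rfl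

/-- The central idempotents. -/
noncomputable def EH (ψ : AddChar F k) : ThH F → MonoidAlgebra k (HH ρ)
  | Sum.inl y => eid SemidirectProduct.inl (χlin ψ y)
  | Sum.inr z => eid (SemidirectProduct.inl.comp (γx z.1.1)) (χx ψ z.1.1 z.2)

/-- The degrees. -/
def degH : ThH F → ℕ
  | Sum.inl _ => 1
  | Sum.inr _ => Fintype.card F

omit [Fintype F] [DecidableEq F] in
theorem exists_dot_ne {ψ : AddChar F k} (hψ : ψ.IsPrimitive) {a b : Fin 3 → F} (hab : a ≠ b) :
    ∃ w : Fin 3 → F, ψ (w ⬝ᵥ a) ≠ ψ (w ⬝ᵥ b) := by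
  obtain ⟨i, hi⟩ := Function.ne_iff.1 hab
  obtain ⟨c, hc⟩ : ∃ c, ψ ((a i - b i) * c) ≠ 1 := by
    have h := hψ (sub_ne_zero.2 hi)
    by_contra hcon
    push Not at hcon
    apply h
    ext c
    exact hcon c
  refine ⟨Pi.single i c, ?_⟩
  rw [single_dotProduct, single_dotProduct]
  intro h
  apply hc
  have : (a i - b i) * c = c * a i + -(c * b i) := by ring
  rw [this, AddChar.map_add_eq_mul, h, ← AddChar.map_add_eq_mul, add_neg_cancel,
    AddChar.map_zero_eq_one]

omit [Fintype F] [DecidableEq F] in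
theorem exists_mul_ne {ψ : AddChar F k} (hψ : ψ.IsPrimitive) {a b : F} (hab : a ≠ b) :
    ∃ c : F, ψ (a * c) ≠ ψ (b * c) := by
  obtain ⟨c, hc⟩ : ∃ c, ψ ((a - b) * c) ≠ 1 := by
    have h := hψ (sub_ne_zero.2 hab)
    by_contra hcon
    push Not at hcon
    apply h
    ext c
    exact hcon c
  refine ⟨c, ?_⟩
  intro h
  apply hc
  have : (a - b) * c = a * c + -(b * c) := by ring
  rw [this, AddChar.map_add_eq_mul, h, ← AddChar.map_add_eq_mul, add_neg_cancel,
    AddChar.map_zero_eq_one]

theorem EH_orth {ψ : AddChar F k} (hψ : ψ.IsPrimitive) (θ θ' : ThH F) (h : θ ≠ θ') :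
    EH ρ ψ θ * EH ρ ψ θ' = 0 := by
  rcases θ with y | ⟨⟨x, hx⟩, s⟩ <;> rcases θ' with y' | ⟨⟨x', hx'⟩, s'⟩
  · have hne : y ≠ y' := fun h2 => h (by rw [h2])
    obtain ⟨w, hw⟩ := exists_dot_ne hψ hne
    refine eid_mul_eid_eq_zero _ _ _ _ (p := (⟨w, 0⟩ : Heis F)) (r := ⟨w, 0⟩) rfl ?_
    intro h2
    apply hw
    have h3 := congrArg Units.val h2
    rw [χlin_val, χlin_val] at h3
    rwa [dotProduct_comm w, dotProduct_comm w]
  · obtain ⟨w, hw⟩ := exists_dot_ne hψ (Ne.symm hx')
    rw [dotProduct_zero, AddChar.map_zero_eq_one] at hw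
    refine eid_mul_eid_eq_zero _ _ _ _ (p := (⟨0, w⟩ : Heis F))
      (r := Multiplicative.ofAdd ((0 : F), w)) ?_ ?_
    · change SemidirectProduct.inl _ = SemidirectProduct.inl _
      congr 1
      apply Heis.ext
      · exact (zero_smul _ _).symm
      · rfl
    · intro h2
      apply hw
      have h3 := congrArg Units.val h2
      rw [χlin_val, χx_val, mul_zero, zero_add] at h3
      rw [← h3]
      change 1 = ψ (y ⬝ᵥ 0)
      rw [dotProduct_zero, AddChar.map_zero_eq_one]
  · obtain ⟨w, hw⟩ := exists_dot_ne hψ hx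
    rw [dotProduct_zero, AddChar.map_zero_eq_one] at hw
    refine eid_mul_eid_eq_zero _ _ _ _ (r := (⟨0, w⟩ : Heis F))
      (p := Multiplicative.ofAdd ((0 : F), w)) ?_ ?_
    · change SemidirectProduct.inl _ = SemidirectProduct.inl _
      congr 1
      apply Heis.ext
      · exact (zero_smul _ _)
      · rfl
    · intro h2
      apply hw
      have h3 := congrArg Units.val h2
      rw [χlin_val, χx_val, mul_zero, zero_add] at h3
      rw [h3]
      change ψ (y' ⬝ᵥ 0) = 1
      rw [dotProduct_zero, AddChar.map_zero_eq_one]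
  · by_cases hxx : x = x'
    · subst hxx
      have hne : s ≠ s' := fun h2 => h (by rw [h2])
      obtain ⟨c, hc⟩ := exists_mul_ne hψ hne
      refine eid_mul_eid_eq_zero _ _ _ _ (p := Multiplicative.ofAdd (c, (0 : Fin 3 → F)))
        (r := Multiplicative.ofAdd (c, (0 : Fin 3 → F))) rfl ?_
      intro h2
      apply hc
      have h3 := congrArg Units.val h2
      rw [χx_val, χx_val, zero_dotProduct, add_zero, add_zero] at h3
      exact h3
    · obtain ⟨w, hw⟩ := exists_dot_ne hψ hxx
      refine eid_mul_eid_eq_zero _ _ _ _ (p := Multiplicative.ofAdd ((0 : F), w))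
        (r := Multiplicative.ofAdd ((0 : F), w)) ?_ ?_
      · change SemidirectProduct.inl _ = SemidirectProduct.inl _
        congr 1
        apply Heis.ext
        · change (0 : F) • x = (0 : F) • x'
          rw [zero_smul, zero_smul]
        · rfl
      · intro h2
        apply hw
        have h3 := congrArg Units.val h2
        rw [χx_val, χx_val, mul_zero, zero_add, mul_zero, zero_add] at h3
        exact h3

end heis

end Cartan2
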