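import Pool.Agent.Cartan2.HeisCliff

open Module

namespace Cartan2

universe u

open MonoidAlgebra (single)

variable {F : Type} [Field F] [Fintype F] [DecidableEq F] {L : Type} [Group L] [Fintype L]
variable (ρ : L →* SL3 F)
variable {k : Type u} [Field k]

omit [DecidableEq F] in
theorem card_heis' : Fintype.card (Heis F) = Fintype.card F ^ 6 := by
  rw [← Nat.card_eq_fintype_card, Heis.card, Nat.card_eq_fintype_card]

theorem card_HH : Fintype.card (HH ρ) = Fintype.card F ^ 6 * Fintype.card L := by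
  rw [← Nat.card_eq_fintype_card, SemidirectProduct.card, Heis.card, Nat.card_eq_fintype_card,
    Nat.card_eq_fintype_card]

theorem card_P : Fintype.card (Multiplicative (F × (Fin 3 → F))) = Fintype.card F ^ 4 := by
  rw [Fintype.card_multiplicative, Fintype.card_prod, Fintype.card_fun, Fintype.card_fin]
  ring

theorem EH_idem (hF : (Fintype.card F : k) ≠ 0) (ψ : AddChar F k) (θ : ThH F) :
    EH ρ ψ θ * EH ρ ψ θ = EH ρ ψ θ := by
  rcases θ with y | ⟨⟨x, hx⟩, s⟩
  · apply eid_idem
    rw [card_heis', Nat.cast_pow]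
    exact pow_ne_zero _ hF
  · apply eid_idem
    rw [card_P, Nat.cast_pow]
    exact pow_ne_zero _ hF

theorem inl_heis (l : L) (n : Heis F) :
    (SemidirectProduct.inl (heisAut (ρ l) n) : HH ρ) =
      SemidirectProduct.inr l * SemidirectProduct.inl n * SemidirectProduct.inr l⁻¹ :=
  SemidirectProduct.inl_aut l n

/-- conjugation by `L` -/
theorem EH_conj (ψ : AddChar F k) (l : L) (θ : ThH F) :
    single (SemidirectProduct.inr l : HH ρ) (1 : k) * EH ρ ψ θ *
      single (SemidirectProduct.inr l⁻¹ : HH ρ) 1 = EH ρ ψ (thSmul (ρ l) θ) := by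
  rcases θ with y | ⟨⟨x, hx⟩, s⟩
  · refine eid_conj (heisMulAut (ρ l)).toEquiv _ _ _ _ _ _ (fun p => ?_) (fun p => ?_)
    · exact inl_heis ρ l p
    · apply Units.ext
      rw [χlin_val, χlin_val]
      change ψ ((ct (ρ l)).mulVec y ⬝ᵥ (ρ l).1.mulVec p.v) = ψ (y ⬝ᵥ p.v)
      rw [ct_dot]
  · let e0 : (Fin 3 → F) ≃ (Fin 3 → F) :=
      { toFun := fun w => (ct (ρ l)).mulVec w
        invFun := fun w => (ct (ρ l)⁻¹).mulVec w
        left_inv := fun w => by
          change (ct (ρ l)⁻¹).mulVec ((ct (ρ l)).mulVec w) = w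
          rw [Matrix.mulVec_mulVec, ← ct_mul, inv_mul_cancel, ct_one, Matrix.one_mulVec]
        right_inv := fun w => by
          change (ct (ρ l)).mulVec ((ct (ρ l)⁻¹).mulVec w) = w
          rw [Matrix.mulVec_mulVec, ← ct_mul, mul_inv_cancel, ct_one, Matrix.one_mulVec] }
    let e : Multiplicative (F × (Fin 3 → F)) ≃ Multiplicative (F × (Fin 3 → F)) :=
      (Multiplicative.toAdd.trans ((Equiv.refl F).prodCongr e0)).trans Multiplicative.ofAdd
    refine eid_conj e _ _ _ _ _ _ (fun p => ?_) (fun p => ?_)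
    · rw [MonoidHom.comp_apply, MonoidHom.comp_apply, ← inl_heis ρ l]
      congr 1
      obtain ⟨c, w⟩ := p
      apply Heis.ext
      · change c • ((ρ l).1.mulVec x) = (ρ l).1.mulVec (c • x)
        exact (Matrix.mulVec_smul _ _ _).symm
      · rfl
    · apply Units.ext
      obtain ⟨c, w⟩ := p
      change ψ (s * c + (ct (ρ l)).mulVec w ⬝ᵥ (ρ l).1.mulVec x) = ψ (s * c + w ⬝ᵥ x)
      rw [ct_dot]

/-- centrality -/
theorem EH_comm (ψ : AddChar F k) (m : Heis F) (θ : ThH F) :
    single (SemidirectProduct.inl m : HH ρ) (1 : k) * EH ρ ψ θ =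
      EH ρ ψ θ * single (SemidirectProduct.inl m : HH ρ) 1 := by
  rcases θ with y | ⟨⟨x, hx⟩, s⟩
  · change single _ (1 : k) * eid _ _ = eid _ _ * single _ 1
    rw [single_mul_eid, eid_mul_single]
  · let e : Multiplicative (F × (Fin 3 → F)) ≃ Multiplicative (F × (Fin 3 → F)) :=
      { toFun := fun p => Multiplicative.ofAdd
          (p.toAdd.1, p.toAdd.2 + (2 * p.toAdd.1) • cr m.v x)
        invFun := fun p => Multiplicative.ofAdd
          (p.toAdd.1, p.toAdd.2 - (2 * p.toAdd.1) • cr m.v x)
        left_inv := fun p => by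
          obtain ⟨c, w⟩ := p
          change Multiplicative.ofAdd (c, w + (2 * c) • cr m.v x - (2 * c) • cr m.v x) = _
          rw [add_sub_cancel_right]; rfl
        right_inv := fun p => by
          obtain ⟨c, w⟩ := p
          change Multiplicative.ofAdd (c, w - (2 * c) • cr m.v x + (2 * c) • cr m.v x) = _
          rw [sub_add_cancel]; rfl }
    have h := eid_conj (k := k) e (SemidirectProduct.inl.comp (γx x) : _ →* HH ρ) (χx ψ x s)
      (SemidirectProduct.inl.comp (γx x)) (χx ψ x s) (SemidirectProduct.inl m)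
      (SemidirectProduct.inl m⁻¹) (fun p => ?_) (fun p => ?_)
    · change single _ (1 : k) * eid _ _ = eid _ _ * single _ 1
      conv_rhs => rw [← h]
      rw [mul_assoc, mul_assoc, MonoidAlgebra.single_mul_single, ← map_mul,
        inv_mul_cancel, map_one, one_mul]
      change _ = _ * (_ * 1)
      rw [mul_one]
    · rw [MonoidHom.comp_apply, MonoidHom.comp_apply, ← map_mul, ← map_mul]
      congr 1
      obtain ⟨c, w⟩ := p
      apply Heis.ext
      · change c • x = m.v + c • x + -m.v
        abel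
      · change w + (2 * c) • cr m.v x =
          m.w + w + cr m.v (c • x) + -m.w + cr (m.v + c • x) (-m.v)
        rw [cr_neg_right, cr_add_left, cr_self, cr_smul_right, cr_smul_left, cr_comm m.v x,
          mul_smul, two_smul]
        simp only [smul_neg]
        abel
    · apply Units.ext
      obtain ⟨c, w⟩ := p
      change ψ (s * c + (w + (2 * c) • cr m.v x) ⬝ᵥ x) = ψ (s * c + w ⬝ᵥ x)
      rw [add_dotProduct, smul_dotProduct, cr_dot, smul_zero, add_zero]

theorem cdim_EH (hF : (Fintype.card F : k) ≠ 0) (ψ : AddChar F k) (θ : ThH F) :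
    cdim k (EH ρ ψ θ) 1 = Fintype.card L * degH θ ^ 2 := by
  have hq : 0 < Fintype.card F := Fintype.card_pos
  rcases θ with y | ⟨⟨x, hx⟩, s⟩
  · have h := cdim_eid_one (k := k) (G := HH ρ) (P := Heis F) (by
      rw [card_heis', Nat.cast_pow]
      exact pow_ne_zero _ hF) SemidirectProduct.inl SemidirectProduct.inl_injective (χlin ψ y)
    rw [Nat.card_eq_fintype_card, Nat.card_eq_fintype_card, card_heis', card_HH] at h
    change cdim k (eid SemidirectProduct.inl (χlin ψ y)) 1 = _
    apply Nat.eq_of_mul_eq_mul_right (pow_pos hq 6)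
    rw [h, degH]; ring
  · have hinj : Function.Injective (γx x) := by
      intro p q hpq
      obtain ⟨c, w⟩ := p
      obtain ⟨c', w'⟩ := q
      have h1 : c • x = c' • x := congrArg Heis.v hpq
      have h2 : w = w' := congrArg Heis.w hpq
      have h3 : c = c' := smul_left_injective F hx h1
      subst h2 h3
      rfl
    have h := cdim_eid_one (k := k) (G := HH ρ) (P := Multiplicative (F × (Fin 3 → F))) (by
      rw [card_P, Nat.cast_pow]
      exact pow_ne_zero _ hF) (SemidirectProduct.inl.comp (γx x))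
      (SemidirectProduct.inl_injective.comp hinj) (χx ψ x s)
    rw [Nat.card_eq_fintype_card, Nat.card_eq_fintype_card, card_P, card_HH] at h
    change cdim k (eid (SemidirectProduct.inl.comp (γx x)) (χx ψ x s)) 1 = _
    apply Nat.eq_of_mul_eq_mul_right (pow_pos hq 4)
    rw [h]
    change _ = Fintype.card L * (Fintype.card F) ^ 2 * _
    ring

theorem EH_sum (hF : (Fintype.card F : k) ≠ 0) {ψ : AddChar F k} (hψ : ψ.IsPrimitive) :
    ∑ θ, EH ρ ψ θ = 1 := by
  apply sum_eq_one_of_dim _ (EH_idem ρ hF ψ) (EH_orth ρ hψ)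
  simp only [cdim_EH ρ hF ψ]
  rw [Fintype.sum_sum_type, card_HH]
  have h1 : ∀ y : Fin 3 → F, Fintype.card L * degH (Sum.inl y : ThH F) ^ 2 = Fintype.card L :=
    fun y => by change _ * 1 ^ 2 = _; ring
  have h2 : ∀ z : {x : Fin 3 → F // x ≠ 0} × F, Fintype.card L * degH (Sum.inr z : ThH F) ^ 2 =
    Fintype.card L * Fintype.card F ^ 2 := fun y => rfl
  simp only [h1, h2, Finset.sum_const, Finset.card_univ, smul_eq_mul, Fintype.card_fun,
    Fintype.card_fin, Fintype.card_prod]
  have h3 : Fintype.card {x : Fin 3 → F // x ≠ 0} + 1 = Fintype.card F ^ 3 := by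
    have h4 := Fintype.card_subtype_compl (fun x : Fin 3 → F => x = 0)
    rw [Fintype.card_subtype_eq, Fintype.card_fun, Fintype.card_fin] at h4
    change Fintype.card {x : Fin 3 → F // ¬ x = 0} + 1 = _
    rw [h4]
    have : 1 ≤ Fintype.card F ^ 3 := Nat.one_le_pow _ _ Fintype.card_pos
    omega
  calc Fintype.card F ^ 3 * Fintype.card L + Fintype.card {x : Fin 3 → F // x ≠ 0} *
        Fintype.card F * (Fintype.card L * Fintype.card F ^ 2) =
        (Fintype.card {x : Fin 3 → F // x ≠ 0} + 1) * Fintype.card F ^ 3 * Fintype.card L := by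
        ring
    _ = _ := by rw [h3]; ring

end Cartan2
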