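import Pool.Agent.Cartan2.HeisCliff2

open Module

namespace Cartan2

universe u

open MonoidAlgebra (single)

variable {F : Type} [Field F] [Fintype F] [DecidableEq F] {L : Type} [Group L] [Fintype L]
variable (ρ : L →* SL3 F)
variable {k : Type u} [Field k]

theorem EH_supp (ψ : AddChar F k) (θ : ThH F) (g : HH ρ)
    (hg : SemidirectProduct.rightHom g ≠ 1) : (EH ρ ψ θ).coeff g = 0 := by
  classical
  rcases θ with y | ⟨⟨x, hx⟩, s⟩
  · change (eid _ _).coeff g = 0
    rw [coeff_eid, Finset.sum_eq_zero, mul_zero]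
    intro p _
    rw [if_neg]
    intro h
    apply hg
    rw [← h, SemidirectProduct.rightHom_inl]
  · change (eid _ _).coeff g = 0
    rw [coeff_eid, Finset.sum_eq_zero, mul_zero]
    intro p _
    rw [if_neg]
    intro h
    apply hg
    rw [← h, MonoidHom.comp_apply, SemidirectProduct.rightHom_inl]

theorem EH_dvd (hF : (Fintype.card F : k) ≠ 0) (hprime : (Fintype.card F).Prime)
    (h2 : (2 : F) ≠ 0) {ψ : AddChar F k} (hψ : ψ.IsPrimitive) (θ : ThH F)
    (M : Type u) [AddCommGroup M] [Module k M] [Module (MonoidAlgebra k (HH ρ)) M]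
    [IsScalarTower k (MonoidAlgebra k (HH ρ)) M] [FiniteDimensional k M] :
    degH θ ∣ rk k (EH ρ ψ θ) M := by
  rcases θ with y | ⟨⟨x, hx⟩, s⟩
  · exact one_dvd _
  · change Fintype.card F ∣ _
    obtain ⟨i, hi⟩ := Function.ne_iff.1 hx
    obtain ⟨a, b, hab⟩ : ∃ a b : Fin 3 → F, cr a b ⬝ᵥ x = x i := by
      fin_cases i
      · refine ⟨![0, 1, 0], ![0, 0, 1], ?_⟩
        simp [cr, dotProduct, Fin.sum_univ_three]
      · refine ⟨![0, 0, 1], ![1, 0, 0], ?_⟩
        simp [cr, dotProduct, Fin.sum_univ_three]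
      · refine ⟨![1, 0, 0], ![0, 1, 0], ?_⟩
        simp [cr, dotProduct, Fin.sum_univ_three]
    have hi' : 2 * x i ≠ 0 := mul_ne_zero h2 hi
    obtain ⟨c, hc⟩ := exists_mul_ne hψ hi'
    rw [zero_mul, AddChar.map_zero_eq_one] at hc
    have hE := EH_idem ρ hF ψ (Sum.inr (⟨x, hx⟩, s))
    refine dvd_rk_of_commutator (g := SemidirectProduct.inl (⟨c • a, 0⟩ : Heis F))
      (h := SemidirectProduct.inl (⟨b, 0⟩ : Heis F)) (ξ := ψ (2 * x i * c)) hE hprime ?_ hc
      (EH_comm ρ ψ _ _) (EH_comm ρ ψ _ _) ?_ M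
    · rw [← AddChar.map_nsmul_eq_pow, nsmul_eq_mul, Nat.cast_card_eq_zero, zero_mul,
        AddChar.map_zero_eq_one]
    · have h3 : (⟨c • a, 0⟩ : Heis F) * ⟨b, 0⟩ = ⟨b, 0⟩ * ⟨c • a, 0⟩ *
          γx x (Multiplicative.ofAdd (0, (2 * c) • cr a b)) := by
        apply Heis.ext
        · change c • a + b = b + c • a + (0 : F) • x
          rw [zero_smul, add_zero, add_comm]
        · change (0 : Fin 3 → F) + 0 + cr (c • a) b = 0 + 0 + cr b (c • a) + (2 * c) • cr a b +
            cr (b + c • a) ((0 : F) • x)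
          rw [zero_smul, cr_zero_right, cr_smul_left, cr_smul_right, cr_comm a b, mul_smul,
            two_smul, smul_neg]
          abel
      rw [← map_mul, ← map_mul, h3, map_mul]
      have h4 : single (SemidirectProduct.inl (⟨b, 0⟩ * ⟨c • a, 0⟩ : Heis F) *
          SemidirectProduct.inl (γx x (Multiplicative.ofAdd (0, (2 * c) • cr a b))) : HH ρ) (1 : k) =
          single (SemidirectProduct.inl (⟨b, 0⟩ * ⟨c • a, 0⟩ : Heis F) : HH ρ) 1 *
          single (SemidirectProduct.inl (γx x (Multiplicative.ofAdd (0, (2 * c) • cr a b))) :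
            HH ρ) 1 := by
        rw [MonoidAlgebra.single_mul_single, one_mul]
      rw [h4, mul_assoc]
      have h5 : single (SemidirectProduct.inl (γx x (Multiplicative.ofAdd
          (0, (2 * c) • cr a b))) : HH ρ) (1 : k) * EH ρ ψ (Sum.inr (⟨x, hx⟩, s)) =
          ψ (2 * x i * c) • EH ρ ψ (Sum.inr (⟨x, hx⟩, s)) := by
        have h6 := single_mul_eid (k := k) (SemidirectProduct.inl.comp (γx x) : _ →* HH ρ)
          (χx ψ x s) (Multiplicative.ofAdd (0, (2 * c) • cr a b))
        rw [χx_val] at h6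
        have h7 : s * 0 + ((2 * c) • cr a b) ⬝ᵥ x = 2 * x i * c := by
          rw [smul_dotProduct, hab, smul_eq_mul]; ring
        rw [h7] at h6
        exact h6
      rw [h5, mul_smul_comm]

theorem EH_zero_act (ψ : AddChar F k) (m : Heis F) :
    single (SemidirectProduct.inl m : HH ρ) (1 : k) * EH ρ ψ (Sum.inl 0) =
      EH ρ ψ (Sum.inl 0) := by
  change single _ (1 : k) * eid _ _ = eid _ _
  rw [single_mul_eid, χlin_val, zero_dotProduct, AddChar.map_zero_eq_one, one_smul]

theorem EH_zero_map (hF : (Fintype.card F : k) ≠ 0) (ψ : AddChar F k) :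
    MonoidAlgebra.mapDomainAlgHom k k (SemidirectProduct.rightHom : HH ρ →* L)
      (EH ρ ψ (Sum.inl 0)) = 1 := by
  change MonoidAlgebra.mapDomainAlgHom k k _ (eid _ _) = _
  unfold eid
  rw [map_smul, map_sum]
  have h1 : ∀ p : Heis F, MonoidAlgebra.mapDomainAlgHom k k
      (SemidirectProduct.rightHom : HH ρ →* L) (single (SemidirectProduct.inl p)
        (((χlin ψ 0 p)⁻¹ : kˣ) : k)) = 1 := by
    intro p
    change MonoidAlgebra.mapDomain _ _ = _
    rw [MonoidAlgebra.mapDomain_single]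
    have h2 : χlin ψ 0 p = 1 := by
      apply Units.ext
      rw [χlin_val, zero_dotProduct, AddChar.map_zero_eq_one]; rfl
    rw [h2, inv_one]
    change single (SemidirectProduct.rightHom (SemidirectProduct.inl p : HH ρ)) (1 : k) = 1
    rw [SemidirectProduct.rightHom_inl]
    rfl
  simp only [h1, Finset.sum_const, Finset.card_univ]
  rw [← Nat.cast_smul_eq_nsmul k, smul_smul, inv_mul_cancel₀, one_smul]
  rw [card_heis', Nat.cast_pow]
  exact pow_ne_zero _ hF

theorem eq_inl_of_rightHom {g : HH ρ} (hg : SemidirectProduct.rightHom g = 1) :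
    g = SemidirectProduct.inl g.left := by
  apply SemidirectProduct.ext
  · rw [SemidirectProduct.left_inl]
  · rw [SemidirectProduct.right_inl]; exact hg

variable [CharP k 2]

/-- The Clifford system of `Heis(F) ⋊ L`. -/
noncomputable def cliffHeis (hF : (Fintype.card F : k) ≠ 0) (hprime : (Fintype.card F).Prime)
    (h2 : (2 : F) ≠ 0) {ψ : AddChar F k} (hψ : ψ.IsPrimitive) :
    @Cliff k _ (HH ρ) L _ _ _ _ SemidirectProduct.rightHom SemidirectProduct.inr (ThH F) _
      (thActL ρ) :=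
  letI := thActL ρ (F := F)
  { πσ := fun l => SemidirectProduct.rightHom_inr l
    E := EH ρ ψ
    deg := degH
    idem := EH_idem ρ hF ψ
    orth := EH_orth ρ hψ
    sum := EH_sum ρ hF hψ
    conj := fun l θ => EH_conj ρ ψ l θ
    comm := fun n hn θ => by
      rw [eq_inl_of_rightHom ρ hn]
      exact EH_comm ρ ψ _ θ
    dim := fun θ => by
      haveI := fd_sub (k := k) (lid (EH ρ ψ θ))
      rw [← rk_one (k := k) (A := MonoidAlgebra k (HH ρ)), rk_lid,
        cdim_symm (groupForm k (HH ρ)) (one_mul 1) (EH_idem ρ hF ψ θ)]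
      exact cdim_EH ρ hF ψ θ
    deg_pos := fun θ => by
      rcases θ with y | z
      · exact le_refl 1
      · exact Fintype.card_pos
    dvd := fun θ M => EH_dvd ρ hF hprime h2 hψ θ M
    supp := fun θ g hg => EH_supp ρ ψ θ g hg
    θ0 := Sum.inl 0
    θ0_fix := fun l => by
      change Sum.inl ((ct (ρ l)).mulVec 0) = Sum.inl 0
      rw [Matrix.mulVec_zero]
    θ0_act := fun n hn => by
      rw [eq_inl_of_rightHom ρ hn]
      exact EH_zero_act ρ ψ _
    θ0_map := EH_zero_map ρ hF ψ }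

end Cartan2
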