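import Pool.Agent.Cartan2.PSLTorus

open Module

namespace Cartan2

universe u

theorem two_to_one {X Y : Type*} [Finite X] (f : X → Y) (σ : X → X) (hσ : ∀ x, σ x ≠ x)
    (hf : ∀ x y, f x = f y ↔ y = x ∨ y = σ x) : Nat.card X = 2 * Nat.card (Set.range f) := by
  classical
  have : Fintype X := Fintype.ofFinite X
  have h1 : Nat.card (Set.range f) = (Finset.univ.image f).card := by
    have h2 : Set.range f = ((Finset.univ.image f : Finset Y) : Set Y) := by simp
    rw [h2, Nat.card_coe_set_eq, Set.ncard_coe_finset]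
  rw [h1, Nat.card_eq_fintype_card, ← Finset.card_univ,
    Finset.card_eq_sum_card_fiberwise (f := f) (t := Finset.univ.image f)
      (fun x _ => Finset.mem_coe.2 (Finset.mem_image_of_mem f (Finset.mem_univ x)))]
  rw [Finset.sum_const_nat (m := 2), mul_comm]
  intro y hy
  obtain ⟨x, -, rfl⟩ := Finset.mem_image.1 hy
  have h3 : Finset.univ.filter (fun z => f z = f x) = {x, σ x} := by
    ext z
    rw [Finset.mem_filter, Finset.mem_insert, Finset.mem_singleton, ← hf x z]
    simp [eq_comm]
  rw [h3, Finset.card_pair (hσ x).symm]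

variable {F : Type} [Field F] [Fintype F] [DecidableEq F]
variable {k : Type u} [Field k]

instance : Finite (Fˣ →* kˣ) := by
  obtain ⟨g, hg⟩ := IsCyclic.exists_generator (α := Fˣ)
  have : Finite (rootsOfUnity (Fintype.card Fˣ) k) := inferInstance
  let f : (Fˣ →* kˣ) → rootsOfUnity (Fintype.card Fˣ) k := fun Λ => ⟨Λ g, by
    rw [mem_rootsOfUnity, ← map_pow, pow_card_eq_one, map_one]⟩
  apply Finite.of_injective f
  intro Λ M h
  have h1 : Λ g = M g := congrArg Subtype.val h
  ext t
  obtain ⟨n, hn⟩ := mem_powers_iff_mem_zpowers.2 (hg t)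
  have hn' : g ^ n = t := hn
  rw [← hn', map_pow, map_pow, h1]

/-- The number of linear characters. -/
theorem card_hom [IsAlgClosed k] [CharP k 2] (h1 : ¬ IsSquare (-1 : F)) :
    Nat.card (Fˣ →* kˣ) = N0 F := by
  obtain ⟨g, hg⟩ := IsCyclic.exists_generator (α := Fˣ)
  have hodd := odd_N0 h1
  have : NeZero ((N0 F : ℕ) : k) := ⟨odd_cast_ne hodd⟩
  have hN : NeZero (N0 F) := ⟨fun h => by rw [h] at hodd; exact absurd hodd (by decide)⟩
  have hcu : Fintype.card Fˣ = N0 F * 2 := by
    rw [Fintype.card_units, ← two_N0 h1]; omega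
  have hog : orderOf g = N0 F * 2 := by
    rw [← hcu, orderOf_eq_card_of_forall_mem_zpowers hg, Nat.card_eq_fintype_card]
  have key : ∀ z : kˣ, z ^ (N0 F * 2) = 1 → z ^ N0 F = 1 := by
    intro z hz
    rw [pow_mul] at hz
    set w := z ^ N0 F
    have h2 : ((w : kˣ) : k) * w = 1 := by
      rw [← Units.val_mul, ← pow_two, hz]; rfl
    have h3 : (((w : kˣ) : k) - 1) * (((w : kˣ) : k) - 1) = 0 := by
      have h20 : (2 : k) = 0 := CharP.cast_eq_zero k 2
      linear_combination h2 + (1 - ((w : kˣ) : k)) * h20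
    ext
    simpa [sub_eq_zero] using h3
  let f : (Fˣ →* kˣ) → rootsOfUnity (N0 F) k := fun Λ => ⟨Λ g, by
    rw [mem_rootsOfUnity]
    apply key
    rw [← map_pow, ← hcu, pow_card_eq_one, map_one]⟩
  have hf : Function.Bijective f := by
    constructor
    · intro Λ M h
      have h1 : Λ g = M g := congrArg Subtype.val h
      ext t
      obtain ⟨n, hn⟩ := mem_powers_iff_mem_zpowers.2 (hg t)
      have hn' : g ^ n = t := hn
      rw [← hn', map_pow, map_pow, h1]
    · intro z
      have hz : orderOf (z : kˣ) ∣ orderOf g := by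
        rw [orderOf_dvd_iff_pow_eq_one, hog, pow_mul, (mem_rootsOfUnity _ _).1 z.2, one_pow]
      refine ⟨monoidHomOfForallMemZpowers hg hz, ?_⟩
      apply Subtype.ext
      exact monoidHomOfForallMemZpowers_apply_gen hg hz
  rw [Nat.card_congr (Equiv.ofBijective f hf)]
  exact HasEnoughRootsOfUnity.natCard_rootsOfUnity k (N0 F)

/-- The order of `PSL(2,q)`. -/
theorem card_PSLF (h1 : ¬ IsSquare (-1 : F)) :
    Nat.card (PSLF F) = N0 F * Fintype.card F * (Fintype.card F + 1) := by
  let f : (F × SqF F) ⊕ (F × SqF F × F) → PSLF F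
    | Sum.inl x => pr (uu x.1 * dg x.2.1)
    | Sum.inr x => pr (uu x.1 * ww * dg x.2.1.1 * uu x.2.2)
  have hww : ∀ (b : F) (t : SqF F) (b' : F) (g : SLF F), g ∈ BB F →
      pr (uu b * ww * dg t.1 * uu b') ≠ pr g := by
    intro b t b' g hg h
    apply pr_ne_ww (g := (uu b)⁻¹ * g * (uu b')⁻¹ * (dg t.1)⁻¹) ((BB F).mul_mem ((BB F).mul_mem
      ((BB F).mul_mem ((BB F).inv_mem (uu_mem _)) hg) ((BB F).inv_mem (uu_mem _)))
      ((BB F).inv_mem (dg_mem t.2)))
    rw [map_mul, map_mul, map_mul, ← h, ← map_mul, ← map_mul, ← map_mul]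
    congr 1
    group
  have hf : Function.Bijective f := by
    constructor
    · rintro (⟨b, t⟩ | ⟨b, t, b'⟩) (⟨c, s⟩ | ⟨c, s, c'⟩) h
      · have h2 := pr_inj_BB h1 ((BB F).mul_mem (uu_mem b) (dg_mem t.2))
          ((BB F).mul_mem (uu_mem c) (dg_mem s.2)) h
        have h3 := congrArg Subtype.val h2
        rw [udg_val, udg_val] at h3
        have e00 := congrFun (congrFun h3 0) 0
        have e01 := congrFun (congrFun h3 0) 1
        simp at e00
        have hts : t = s := Subtype.ext (Units.ext e00)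
        subst hts
        simp at e01
        rw [e01]
      · exact (hww c s c' _ ((BB F).mul_mem (uu_mem b) (dg_mem t.2)) h.symm).elim
      · exact (hww b t b' _ ((BB F).mul_mem (uu_mem c) (dg_mem s.2)) h).elim
      · change pr (uu b * ww * dg t.1 * uu b') = pr (uu c * ww * dg s.1 * uu c') at h
        rw [pr_eq_iff, uwdu_val, uwdu_val] at h
        rcases h with e | e
        · have e00 := congrFun (congrFun e 0) 0
          have e10 := congrFun (congrFun e 1) 0
          have e11 := congrFun (congrFun e 1) 1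
          simp at e00 e10 e11
          have hts : t = s := Subtype.ext (Units.ext e10)
          subst hts
          simp at e00 e11
          rw [e00, e11]
        · exfalso
          have e10 := congrFun (congrFun e 1) 0
          simp at e10
          exact sq_eq_of_neg h1 t.2 s.2 s.1.ne_zero (by linear_combination (-1 : F) * e10)
    · intro g
      rcases bruhat h1 g with ⟨b, t, rfl⟩ | ⟨b, t, b', rfl⟩
      · exact ⟨Sum.inl (b, t), rfl⟩
      · exact ⟨Sum.inr (b, t, b'), rfl⟩
  rw [← Nat.card_congr (Equiv.ofBijective f hf), Nat.card_sum, Nat.card_prod, Nat.card_prod,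
    Nat.card_prod, Nat.card_eq_fintype_card (α := F)]
  change Fintype.card F * N0 F + Fintype.card F * (N0 F * Fintype.card F) = _
  ring

end Cartan2
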