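import Pool.Agent.Cartan2.Heis
import Pool.Agent.Cartan2.PSLCount

namespace Cartan2

/-- Coded `3×3` matrices. -/
structure M9 where
  a : ℕ
  b : ℕ
  c : ℕ
  d : ℕ
  e : ℕ
  f : ℕ
  g : ℕ
  h : ℕ
  i : ℕ

namespace M9

/-- product mod 11 -/
def mul (x y : M9) : M9 :=
  ⟨(x.a * y.a + x.b * y.d + x.c * y.g) % 11, (x.a * y.b + x.b * y.e + x.c * y.h) % 11,
    (x.a * y.c + x.b * y.f + x.c * y.i) % 11,
   (x.d * y.a + x.e * y.d + x.f * y.g) % 11, (x.d * y.b + x.e * y.e + x.f * y.h) % 11,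
    (x.d * y.c + x.e * y.f + x.f * y.i) % 11,
   (x.g * y.a + x.h * y.d + x.i * y.g) % 11, (x.g * y.b + x.h * y.e + x.i * y.h) % 11,
    (x.g * y.c + x.h * y.f + x.i * y.i) % 11⟩

/-- identity -/
def one : M9 := ⟨1, 0, 0, 0, 1, 0, 0, 0, 1⟩

/-- powers -/
def pw (x : M9) : ℕ → M9
  | 0 => one
  | n + 1 => mul (pw x n) x

/-- equality -/
def beq (x y : M9) : Bool :=
  Nat.beq x.a y.a && (Nat.beq x.b y.b && (Nat.beq x.c y.c && (Nat.beq x.d y.d &&
    (Nat.beq x.e y.e && (Nat.beq x.f y.f && (Nat.beq x.g y.g && (Nat.beq x.h y.h &&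
      Nat.beq x.i y.i)))))))

/-- determinant is one -/
def det1 (x : M9) : Bool :=
  Nat.beq ((x.a * x.e * x.i + x.b * x.f * x.g + x.c * x.d * x.h) % 11)
    ((1 + x.c * x.e * x.g + x.b * x.d * x.i + x.a * x.f * x.h) % 11)

/-- cofactor matrix -/
def adjT (x : M9) : M9 :=
  ⟨(x.e * x.i + 121 - x.f * x.h) % 11, (x.f * x.g + 121 - x.d * x.i) % 11,
    (x.d * x.h + 121 - x.e * x.g) % 11,
   (x.c * x.h + 121 - x.b * x.i) % 11, (x.a * x.i + 121 - x.c * x.g) % 11,
    (x.b * x.g + 121 - x.a * x.h) % 11,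
   (x.b * x.f + 121 - x.c * x.e) % 11, (x.c * x.d + 121 - x.a * x.f) % 11,
    (x.a * x.e + 121 - x.b * x.d) % 11⟩

/-- small entries -/
def small (x : M9) : Prop :=
  x.a < 11 ∧ x.b < 11 ∧ x.c < 11 ∧ x.d < 11 ∧ x.e < 11 ∧ x.f < 11 ∧ x.g < 11 ∧ x.h < 11 ∧ x.i < 11

theorem beq_eq {x y : M9} (h : beq x y = true) : x = y := by
  unfold beq at h
  simp only [Bool.and_eq_true, Nat.beq_eq] at h
  obtain ⟨h1, h2, h3, h4, h5, h6, h7, h8, h9⟩ := h
  cases x; cases y
  simp_all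

/-- decoding -/
def toM (x : M9) : Matrix (Fin 3) (Fin 3) (ZMod 11) :=
  !![(x.a : ZMod 11), (x.b : ZMod 11), (x.c : ZMod 11);
     (x.d : ZMod 11), (x.e : ZMod 11), (x.f : ZMod 11);
     (x.g : ZMod 11), (x.h : ZMod 11), (x.i : ZMod 11)]

theorem toM_one : toM one = 1 := by
  ext i j; fin_cases i <;> fin_cases j <;> simp [toM, one]

theorem toM_mul (x y : M9) : toM (mul x y) = toM x * toM y := by
  ext i j
  fin_cases i <;> fin_cases j <;>
    simp [toM, mul, Matrix.mul_apply, Fin.sum_univ_three]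

theorem toM_pw (x : M9) (n : ℕ) : toM (pw x n) = toM x ^ n := by
  induction n with
  | zero => rw [pow_zero]; exact toM_one
  | succ n ih => rw [pow_succ, ← ih, ← toM_mul]; rfl

theorem toM_det {x : M9} (h : det1 x = true) : (toM x).det = 1 := by
  unfold det1 at h
  rw [Nat.beq_eq] at h
  have h1 := (ZMod.natCast_eq_natCast_iff' _ _ 11).2 h
  push_cast at h1
  rw [Matrix.det_fin_three]
  simp [toM]
  linear_combination h1

theorem small_mul (x y : M9) : small (mul x y) := by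
  refine ⟨?_, ?_, ?_, ?_, ?_, ?_, ?_, ?_, ?_⟩ <;> exact Nat.mod_lt _ (by norm_num)

theorem toM_adjT {x : M9} (h : small x) : toM (adjT x) = (toM x).adjugate.transpose := by
  obtain ⟨h1, h2, h3, h4, h5, h6, h7, h8, h9⟩ := h
  have key : ∀ p q r s : ℕ, r < 11 → s < 11 →
      (((p * q + 121 - r * s) % 11 : ℕ) : ZMod 11) = (p : ZMod 11) * q - r * s := by
    intro p q r s hr hs
    have h1 : r * s ≤ p * q + 121 := by nlinarith
    rw [ZMod.natCast_mod, Nat.cast_sub h1]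
    push_cast
    have : (121 : ZMod 11) = 0 := by decide
    rw [this, add_zero]
  rw [Matrix.adjugate_fin_three]
  ext i j
  fin_cases i <;> fin_cases j <;> simp only [toM, adjT]
  · simp [key _ _ _ _ h6 h8]
  · simp [key _ _ _ _ h4 h9]; ring
  · simp [key _ _ _ _ h5 h7]
  · simp [key _ _ _ _ h2 h9]; ring
  · simp [key _ _ _ _ h3 h7]
  · simp [key _ _ _ _ h1 h8]; ring
  · simp [key _ _ _ _ h3 h5]
  · simp [key _ _ _ _ h1 h6]; ring
  · simp [key _ _ _ _ h2 h4]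

end M9

/-- coded vectors -/
structure V3 where
  a : ℕ
  b : ℕ
  c : ℕ

namespace V3

/-- matrix times vector -/
def app (m : M9) (v : V3) : V3 :=
  ⟨(m.a * v.a + m.b * v.b + m.c * v.c) % 11, (m.d * v.a + m.e * v.b + m.f * v.c) % 11,
    (m.g * v.a + m.h * v.b + m.i * v.c) % 11⟩

/-- scaling -/
def scal (s : ℕ) (v : V3) : V3 := ⟨(s * v.a) % 11, (s * v.b) % 11, (s * v.c) % 11⟩

/-- equality -/
def beq (x y : V3) : Bool := Nat.beq x.a y.a && (Nat.beq x.b y.b && Nat.beq x.c y.c)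

/-- decoding -/
def toV (x : V3) : Fin 3 → ZMod 11 := ![(x.a : ZMod 11), (x.b : ZMod 11), (x.c : ZMod 11)]

/-- small entries -/
def small (x : V3) : Prop := x.a < 11 ∧ x.b < 11 ∧ x.c < 11

theorem toV_app (m : M9) (v : V3) : toV (app m v) = m.toM.mulVec (toV v) := by
  ext i
  fin_cases i <;> simp [toV, app, M9.toM, Matrix.mulVec, dotProduct, Fin.sum_univ_three]

theorem toV_scal (s : ℕ) (v : V3) : toV (scal s v) = (s : ZMod 11) • toV v := by
  ext i
  fin_cases i <;> simp [toV, scal]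

theorem small_app (m : M9) (v : V3) : small (app m v) := by
  refine ⟨?_, ?_, ?_⟩ <;> exact Nat.mod_lt _ (by norm_num)

theorem small_scal (s : ℕ) (v : V3) : small (scal s v) := by
  refine ⟨?_, ?_, ?_⟩ <;> exact Nat.mod_lt _ (by norm_num)

theorem beq_iff {x y : V3} (hx : small x) (hy : small y) : beq x y = true ↔ toV x = toV y := by
  obtain ⟨a1, b1, c1⟩ := hx
  obtain ⟨a2, b2, c2⟩ := hy
  have key : ∀ p q : ℕ, p < 11 → q < 11 → ((p : ZMod 11) = (q : ZMod 11) ↔ p = q) := by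
    intro p q hp hq
    rw [ZMod.natCast_eq_natCast_iff', Nat.mod_eq_of_lt hp, Nat.mod_eq_of_lt hq]
  unfold beq
  simp only [Bool.and_eq_true, Nat.beq_eq]
  rw [← key _ _ a1 a2, ← key _ _ b1 b2, ← key _ _ c1 c2]
  constructor
  · rintro ⟨h1, h2, h3⟩
    ext i
    fin_cases i
    · exact h1
    · exact h2
    · exact h3
  · intro h
    exact ⟨congrFun h 0, congrFun h 1, congrFun h 2⟩

end V3

end Cartan2
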