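import Pool.Agent.Cartan2.GroupAlg

open Module

namespace Cartan2

universe u

open MonoidAlgebra (single)

section

variable {k : Type u} [Field k] {G : Type} [Group G] [Fintype G]
variable {P : Type} [Group P] [Fintype P] {R : Type} [Group R] [Fintype R]

/-- The idempotent attached to a homomorphism `α : P → G` and a linear character of `P`. -/
noncomputable def eid (α : P →* G) (χ : P →* kˣ) : MonoidAlgebra k G :=
  (Fintype.card P : k)⁻¹ • ∑ p, single (α p) (((χ p)⁻¹ : kˣ) : k)

theorem single_mul_eid (α : P →* G) (χ : P →* kˣ) (p : P) :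
    single (α p) (1 : k) * eid α χ = ((χ p : kˣ) : k) • eid α χ := by
  have h : single (α p) (1 : k) * (∑ q, single (α q) (((χ q)⁻¹ : kˣ) : k)) =
      ((χ p : kˣ) : k) • (∑ q, single (α q) (((χ q)⁻¹ : kˣ) : k)) := by
    rw [Finset.mul_sum, Finset.smul_sum]
    refine Fintype.sum_equiv (Equiv.mulLeft p) _ _ (fun q => ?_)
    simp only [Equiv.coe_mulLeft, map_mul, mul_inv_rev, Units.val_mul,
      MonoidAlgebra.single_mul_single, one_mul, MonoidAlgebra.smul_single, smul_eq_mul]
    congr 1
    rw [mul_comm, mul_assoc, Units.inv_mul, mul_one]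
  unfold eid
  rw [mul_smul_comm, h, smul_comm]

theorem eid_mul_single (α : P →* G) (χ : P →* kˣ) (p : P) :
    eid α χ * single (α p) (1 : k) = ((χ p : kˣ) : k) • eid α χ := by
  have h : (∑ q, single (α q) (((χ q)⁻¹ : kˣ) : k)) * single (α p) (1 : k) =
      ((χ p : kˣ) : k) • (∑ q, single (α q) (((χ q)⁻¹ : kˣ) : k)) := by
    rw [Finset.sum_mul, Finset.smul_sum]
    refine Fintype.sum_equiv (Equiv.mulRight p) _ _ (fun q => ?_)
    simp only [Equiv.coe_mulRight, map_mul, mul_inv_rev, Units.val_mul,
      MonoidAlgebra.single_mul_single, mul_one, MonoidAlgebra.smul_single, smul_eq_mul]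
    congr 1
    rw [← mul_assoc, Units.mul_inv, one_mul]
  unfold eid
  rw [smul_mul_assoc, h, smul_comm]

theorem eid_idem (hP : (Fintype.card P : k) ≠ 0) (α : P →* G) (χ : P →* kˣ) :
    eid α χ * eid α χ = eid α χ := by
  conv_lhs => enter [1]; unfold eid
  rw [smul_mul_assoc, Finset.sum_mul]
  have : ∀ p, single (α p) (((χ p)⁻¹ : kˣ) : k) * eid α χ = eid α χ := by
    intro p
    have h1 : single (α p) (((χ p)⁻¹ : kˣ) : k) = (((χ p)⁻¹ : kˣ) : k) • single (α p) (1 : k) := by
      rw [MonoidAlgebra.smul_single, smul_eq_mul, mul_one]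
    rw [h1, smul_mul_assoc, single_mul_eid, smul_smul, Units.inv_mul, one_smul]
  simp only [this, Finset.sum_const, Finset.card_univ]
  rw [← Nat.cast_smul_eq_nsmul k, smul_smul, inv_mul_cancel₀ hP, one_smul]

theorem eid_mul_single_mul_eid_coeff (α : P →* G) (χ : P →* kˣ) (β : R →* G) (ψ : R →* kˣ)
    (x g : G) [DecidableEq G] : (eid α χ * single x 1 * eid β ψ).coeff g =
      (Fintype.card P : k)⁻¹ * ((Fintype.card R : k)⁻¹ *
        ∑ p, ∑ r, if α p * x * β r = g then ((((χ p)⁻¹ : kˣ) : k) * (((ψ r)⁻¹ : kˣ) : k)) else 0) := by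
  unfold eid
  rw [smul_mul_assoc, smul_mul_assoc, mul_smul_comm]
  rw [MonoidAlgebra.coeff_smul, Finsupp.smul_apply, MonoidAlgebra.coeff_smul, Finsupp.smul_apply,
    smul_eq_mul, smul_eq_mul]
  congr 2
  rw [Finset.sum_mul, Finset.sum_mul, MonoidAlgebra.coeff_sum, Finset.sum_apply']
  refine Finset.sum_congr rfl fun p _ => ?_
  rw [Finset.mul_sum, MonoidAlgebra.coeff_sum, Finset.sum_apply']
  refine Finset.sum_congr rfl fun r _ => ?_
  rw [MonoidAlgebra.single_mul_single, MonoidAlgebra.single_mul_single,
    MonoidAlgebra.coeff_single, Finsupp.single_apply, mul_one]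

theorem eid_single_eid_eq_zero (α : P →* G) (χ : P →* kˣ) (β : R →* G) (ψ : R →* kˣ)
    (x : G) {p : P} {r : R} (h1 : α p * x = x * β r) (h2 : χ p ≠ ψ r) :
    eid α χ * single x 1 * eid β ψ = 0 := by
  have h3 : ((χ p : kˣ) : k) • (eid α χ * single x 1 * eid β ψ) =
      ((ψ r : kˣ) : k) • (eid α χ * single x 1 * eid β ψ) := by
    calc ((χ p : kˣ) : k) • (eid α χ * single x 1 * eid β ψ) =
        (eid α χ * single (α p) 1) * single x 1 * eid β ψ := by
          rw [eid_mul_single, smul_mul_assoc, smul_mul_assoc]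
      _ = eid α χ * single (α p * x) 1 * eid β ψ := by
          rw [mul_assoc (eid α χ), MonoidAlgebra.single_mul_single, one_mul]
      _ = eid α χ * single (x * β r) 1 * eid β ψ := by rw [h1]
      _ = eid α χ * single x 1 * (single (β r) 1 * eid β ψ) := by
          rw [← mul_assoc, mul_assoc (eid α χ) (single x 1),
            MonoidAlgebra.single_mul_single, one_mul]
      _ = _ := by rw [single_mul_eid, mul_smul_comm]
  have h4 : (((χ p : kˣ) : k) - ((ψ r : kˣ) : k)) • (eid α χ * single x 1 * eid β ψ) = 0 := by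
    rw [sub_smul, h3, sub_self]
  exact (smul_eq_zero.1 h4).resolve_left (sub_ne_zero.2 (fun h => h2 (Units.ext h)))

theorem eq_sum_coeff (a : MonoidAlgebra k G) : a = ∑ g, a.coeff g • single g 1 := by
  classical
  ext g
  rw [MonoidAlgebra.coeff_sum, Finset.sum_apply', Finset.sum_eq_single g]
  · rw [MonoidAlgebra.coeff_smul, Finsupp.smul_apply, MonoidAlgebra.coeff_single,
      Finsupp.single_eq_same, smul_eq_mul, mul_one]
  · intro b _ hb
    rw [MonoidAlgebra.coeff_smul, Finsupp.smul_apply, MonoidAlgebra.coeff_single,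
      Finsupp.single_eq_of_ne hb.symm, smul_zero]
  · intro h; exact absurd (Finset.mem_univ _) h

/-- Mackey's formula. -/
theorem mackey (hP : (Fintype.card P : k) ≠ 0) (hR : (Fintype.card R : k) ≠ 0)
    (α : P →* G) (χ : P →* kˣ) (β : R →* G) (ψ : R →* kˣ) {ξ : Type} [Fintype ξ] (x : ξ → G)
    (cover : ∀ g, ∃ i p r, g = α p * x i * β r)
    (disj : ∀ i j p r, α p * x i * β r = x j → i = j) :
    cdim k (eid α χ) (eid β ψ) =
      Nat.card {i : ξ // ∀ p r, α p * x i = x i * β r → χ p = ψ r} := by
  classical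
  set adm : ξ → Prop := fun i => ∀ p r, α p * x i = x i * β r → χ p = ψ r with hadm
  set e := eid α χ
  set f := eid β ψ
  let v : {i : ξ // adm i} → MonoidAlgebra k G := fun i => e * single (x i) 1 * f
  have hspan : corner k e f = Submodule.span k (Set.range v) := by
    apply le_antisymm
    · have hgen : ∀ g : G, e * single g 1 * f ∈ Submodule.span k (Set.range v) := by
        intro g
        obtain ⟨i, p, r, hg⟩ := cover g
        have h1 : e * single g 1 * f =
            (((χ p : kˣ) : k) * ((ψ r : kˣ) : k)) • (e * single (x i) 1 * f) := by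
          have h2 : single g (1 : k) = single (α p) 1 * single (x i) 1 * single (β r) 1 := by
            rw [MonoidAlgebra.single_mul_single, MonoidAlgebra.single_mul_single, hg]; simp
          calc e * single g 1 * f =
              (e * single (α p) 1) * single (x i) 1 * (single (β r) 1 * f) := by
                rw [h2]; simp only [mul_assoc]
            _ = _ := by
                rw [eid_mul_single, single_mul_eid, smul_mul_assoc, smul_mul_assoc,
                  mul_smul_comm, smul_smul]
        rw [h1]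
        apply Submodule.smul_mem
        by_cases hi : adm i
        · exact Submodule.subset_span ⟨⟨i, hi⟩, rfl⟩
        · have : e * single (x i) 1 * f = 0 := by
            simp only [hadm] at hi
            push Not at hi
            obtain ⟨p, r, h1, h2⟩ := hi
            exact eid_single_eid_eq_zero α χ β ψ (x i) h1 h2
          rw [this]
          exact Submodule.zero_mem _
      rintro _ ⟨a, rfl⟩
      have ha : a = ∑ g, a.coeff g • single g 1 := eq_sum_coeff a
      rw [ha]
      simp only [map_sum, map_smul]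
      refine Submodule.sum_mem _ fun g _ => Submodule.smul_mem _ _ ?_
      have := hgen g
      rwa [mul_assoc] at this
    · rw [Submodule.span_le]
      rintro _ ⟨i, rfl⟩
      exact mul_mem_corner _ _ _
  have hco1 : ∀ i j : {i : ξ // adm i}, i ≠ j → (v i).coeff (x j) = 0 := by
    intro i j hij
    simp only [v, e, f]
    rw [eid_mul_single_mul_eid_coeff, Finset.sum_eq_zero, mul_zero, mul_zero]
    intro p _
    apply Finset.sum_eq_zero
    intro r _
    rw [if_neg]
    intro h
    exact hij (Subtype.ext (disj _ _ _ _ h))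
  have hco2 : ∀ i : {i : ξ // adm i}, (v i).coeff (x i) ≠ 0 := by
    intro i
    simp only [v, e, f]
    rw [eid_mul_single_mul_eid_coeff]
    apply mul_ne_zero (inv_ne_zero hP) (mul_ne_zero (inv_ne_zero hR) _)
    let S : Subgroup (P × R) :=
      { carrier := {q | α q.1 * x i = x i * β q.2}
        mul_mem' := by
          intro a b ha hb
          simp only [Set.mem_ofPred_eq, Prod.fst_mul, Prod.snd_mul, map_mul] at ha hb ⊢
          rw [mul_assoc, hb, ← mul_assoc, ha, mul_assoc]
        one_mem' := by simp
        inv_mem' := by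
          intro a ha
          simp only [Set.mem_ofPred_eq, Prod.fst_inv, Prod.snd_inv, map_inv] at ha ⊢
          rw [inv_mul_eq_iff_eq_mul, ← mul_assoc, ha, mul_inv_cancel_right] }
    have hS : ∑ p, ∑ r, (if α p * x i * β r = x i then
        ((((χ p)⁻¹ : kˣ) : k) * (((ψ r)⁻¹ : kˣ) : k)) else 0) = (Nat.card S : k) := by
      have h1 : ∀ p r, (if α p * x i * β r = x i then
          ((((χ p)⁻¹ : kˣ) : k) * (((ψ r)⁻¹ : kˣ) : k)) else 0) =
          if (p, r⁻¹) ∈ S then 1 else 0 := by
        intro p r
        have h2 : (p, r⁻¹) ∈ S ↔ α p * x i * β r = x i := by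
          change α p * x i = x i * β r⁻¹ ↔ _
          rw [map_inv, eq_mul_inv_iff_mul_eq]
        by_cases h : α p * x i * β r = x i
        · rw [if_pos h, if_pos (h2.2 h)]
          have h3 := i.2 p r⁻¹ (h2.2 h)
          rw [h3, map_inv, inv_inv, Units.mul_inv]
        · rw [if_neg h, if_neg (fun h' => h (h2.1 h'))]
      simp only [h1]
      have h3 : ∀ p, ∑ r : R, (if (p, r⁻¹) ∈ S then (1 : k) else 0) =
          ∑ r : R, (if (p, r) ∈ S then (1 : k) else 0) := fun p =>
        Fintype.sum_equiv (Equiv.inv R) _ _ (fun r => rfl)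
      simp only [h3]
      rw [← Fintype.sum_prod_type' (f := fun p r => if (p, r) ∈ S then (1 : k) else 0)]
      rw [Finset.sum_boole, Nat.card_eq_fintype_card, Fintype.card_subtype]
    rw [hS]
    have hdvd : Nat.card S ∣ Nat.card (P × R) := S.card_subgroup_dvd_card
    obtain ⟨m, hm⟩ := hdvd
    intro h0
    have h5 : (Nat.card (P × R) : k) = 0 := by rw [hm, Nat.cast_mul, h0, zero_mul]
    rw [Nat.card_prod, Nat.cast_mul, Nat.card_eq_fintype_card, Nat.card_eq_fintype_card] at h5
    rcases mul_eq_zero.1 h5 with h6 | h6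
    · exact hP h6
    · exact hR h6
  have hli : LinearIndependent k v := by
    rw [Fintype.linearIndependent_iff]
    intro c hc j
    have h1 := congrArg (coeffL (k := k) (x j)) hc
    rw [map_sum, map_zero, Finset.sum_eq_single j] at h1
    · rw [map_smul, smul_eq_mul] at h1
      exact (mul_eq_zero.1 h1).resolve_right (hco2 j)
    · intro i _ hij
      rw [map_smul, smul_eq_mul]
      have : coeffL (k := k) (x j) (v i) = 0 := hco1 i j hij
      rw [this, mul_zero]
    · intro h; exact absurd (Finset.mem_univ _) h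
  unfold cdim
  rw [hspan, finrank_span_eq_card hli, Nat.card_eq_fintype_card]

end

end Cartan2
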