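import Pool.Agent.Cartan2.RhoTest

namespace Cartan2

open M9 V3

/-- coded `uu b` -/
def uN (b : ℕ) : M9 := Rn 1 b 0 1
/-- coded `ww` -/
def wN : M9 := Rn 0 1 6 0
/-- coded `dg` -/
def dN : ℕ → M9
  | 0 => Rn 1 0 0 1
  | 1 => Rn 2 0 0 4
  | _ => Rn 4 0 0 2

/-- The cells. -/
abbrev CC := (Fin 7 × Fin 3) ⊕ (Fin 7 × Fin 3 × Fin 7)

/-- coded elements -/
def word : CC → M9
  | Sum.inl x => mul (uN x.1.1) (dN x.2.1)
  | Sum.inr x => mul (mul (mul (uN x.1.1) wN) (dN x.2.1.1)) (uN x.2.2.1)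

/-- coded contragredient elements -/
def wordT (c : CC) : M9 := adjT (word c)

/-- orbit representatives -/
def xx : Fin 3 → V3
  | 0 => ⟨0, 0, 1⟩
  | 1 => ⟨0, 1, 1⟩
  | 2 => ⟨0, 1, 6⟩

/-- stabilizer orders -/
def tt : Fin 3 → ℕ
  | 0 => 4
  | 1 => 3
  | 2 => 1

/-- the test -/
def test2 (m : M9) (a b : Fin 3) (s : ℕ) : Bool :=
  bif V3.beq (app m (xx a)) (scal s (xx b)) then
    Nat.beq s 0 || (Nat.beq a.1 b.1 && (Nat.beq s 1 || Nat.beq s 10))
  else true

set_option maxRecDepth 100000 in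
theorem test2_word : ∀ (c : CC) (a b : Fin 3) (s : Fin 11), test2 (word c) a b s.1 = true := by
  decide +kernel

set_option maxRecDepth 100000 in
theorem test2_wordT : ∀ (c : CC) (a b : Fin 3) (s : Fin 11), test2 (wordT c) a b s.1 = true := by
  decide +kernel

set_option maxRecDepth 100000 in
theorem count_word : ∀ a : Fin 3, (Finset.univ.filter (fun c : CC =>
    V3.beq (app (word c) (xx a)) (xx a) = true)).card = tt a := by
  decide +kernel

set_option maxRecDepth 100000 in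
theorem count_wordT : ∀ a : Fin 3, (Finset.univ.filter (fun c : CC =>
    V3.beq (app (wordT c) (xx a)) (xx a) = true)).card = tt a := by
  decide +kernel

end Cartan2
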