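import Pool.Agent.Cartan2.Rho
import Pool.Agent.Cartan2.OrbTest

namespace Cartan2

open M9 V3

/-- the squares mod 7 -/
def un7 : Fin 3 → (ZMod 7)ˣ
  | 0 => ⟨1, 1, by decide, by decide⟩
  | 1 => ⟨2, 4, by decide, by decide⟩
  | 2 => ⟨4, 2, by decide, by decide⟩

theorem exists_un7 (t : SqF (ZMod 7)) : ∃ i, t.1 = un7 i := by
  have key : ∀ x : ZMod 7, IsSquare x → x ≠ 0 → x = 1 ∨ x = 2 ∨ x = 4 := by decide
  rcases key _ t.2 t.1.ne_zero with h | h | h
  · exact ⟨0, Units.ext h⟩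
  · exact ⟨1, Units.ext h⟩
  · exact ⟨2, Units.ext h⟩

/-- Bruhat parametrization of `PSL(2,7)`. -/
def fC : CC → SLF (ZMod 7)
  | Sum.inl x => uu ((x.1.1 : ℕ) : ZMod 7) * dg (un7 x.2)
  | Sum.inr x => uu ((x.1.1 : ℕ) : ZMod 7) * ww * dg (un7 x.2.1) * uu ((x.2.2.1 : ℕ) : ZMod 7)

theorem RM_uuN {n : ℕ} (hn : n < 7) : RM (uu (n : ZMod 7)) = toM (uN n) := by
  unfold RM
  rw [Rc_eq (uu_val _), ZMod.val_natCast_of_lt hn]
  rfl

theorem RM_wwN : RM ww = toM wN := by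
  unfold RM
  rw [Rc_eq ww_val]
  rfl

theorem RM_dgN (i : Fin 3) : RM (dg (un7 i)) = toM (dN i.1) := by
  unfold RM
  match i with
  | 0 => rw [Rc_eq (show (dg (un7 0)).1 = !![1, 0; 0, 1] from rfl)]; rfl
  | 1 => rw [Rc_eq (show (dg (un7 1)).1 = !![2, 0; 0, 4] from rfl)]; rfl
  | 2 => rw [Rc_eq (show (dg (un7 2)).1 = !![4, 0; 0, 2] from rfl)]; rfl

theorem RM_word (c : CC) : RM (fC c) = toM (word c) := by
  rcases c with ⟨b, i⟩ | ⟨b, i, b'⟩
  · change RM (uu _ * dg _) = toM (mul _ _)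
    rw [RM_mul, toM_mul, RM_uuN b.2, RM_dgN]
  · change RM (uu _ * ww * dg _ * uu _) = toM (mul (mul (mul _ _) _) _)
    rw [RM_mul, RM_mul, RM_mul, toM_mul, toM_mul, toM_mul, RM_uuN b.2, RM_dgN, RM_uuN b'.2,
      RM_wwN]

theorem card_sq7 : N0 (ZMod 7) = 3 := by
  have := two_N0 not_isSquare_neg_one7
  rw [ZMod.card] at this
  omega

theorem card_PSL7 : Nat.card (PSLF (ZMod 7)) = 168 := by
  rw [card_PSLF not_isSquare_neg_one7, card_sq7, ZMod.card]

theorem fC_surj : Function.Surjective (fun c => pr (fC c)) := by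
  intro g
  rcases bruhat not_isSquare_neg_one7 g with ⟨b, t, rfl⟩ | ⟨b, t, b', rfl⟩
  · obtain ⟨i, hi⟩ := exists_un7 t
    refine ⟨Sum.inl (⟨b.val, ZMod.val_lt b⟩, i), ?_⟩
    change pr (uu ((b.val : ℕ) : ZMod 7) * dg (un7 i)) = _
    rw [ZMod.natCast_zmod_val, hi]
  · obtain ⟨i, hi⟩ := exists_un7 t
    refine ⟨Sum.inr (⟨b.val, ZMod.val_lt b⟩, i, ⟨b'.val, ZMod.val_lt b'⟩), ?_⟩
    change pr (uu ((b.val : ℕ) : ZMod 7) * ww * dg (un7 i) * uu ((b'.val : ℕ) : ZMod 7)) = _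
    rw [ZMod.natCast_zmod_val, ZMod.natCast_zmod_val, hi]

theorem fC_bij : Function.Bijective (fun c => pr (fC c)) := by
  apply fC_surj.bijective_of_nat_card_le
  rw [card_PSL7, Nat.card_eq_fintype_card]
  simp

theorem ρ7_word (c : CC) : (ρ7 (pr (fC c))).1 = toM (word c) := by
  rw [ρ7_pr, RM_word]

theorem small_word (c : CC) : (word c).small := by
  rcases c with x | x <;> exact small_mul _ _

theorem ct_word (c : CC) : ct (ρ7 (pr (fC c))) = toM (wordT c) := by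
  rw [ct_eq, ρ7_word, wordT, toM_adjT (small_word c)]

theorem small_xx (a : Fin 3) : (xx a).small := by
  match a with
  | 0 => exact ⟨by decide, by decide, by decide⟩
  | 1 => exact ⟨by decide, by decide, by decide⟩
  | 2 => exact ⟨by decide, by decide, by decide⟩

/-- base vectors -/
def XX (a : Fin 3) : Fin 3 → ZMod 11 := toV (xx a)

theorem orb_generic (M : PSLF (ZMod 7) → Matrix (Fin 3) (Fin 3) (ZMod 11)) (wd : CC → M9)
    (hM : ∀ c, M (pr (fC c)) = toM (wd c))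
    (h2 : ∀ (c : CC) (a b : Fin 3) (s : Fin 11), test2 (wd c) a b s.1 = true)
    (hc : ∀ a : Fin 3, (Finset.univ.filter (fun c : CC =>
      V3.beq (app (wd c) (xx a)) (xx a) = true)).card = tt a) :
    (∀ (l : PSLF (ZMod 7)) (a b : Fin 3) (s : ZMod 11), s ≠ 0 →
      (M l).mulVec (XX a) = s • XX b → a = b ∧ (s = 1 ∨ s = -1)) ∧
    (∀ a : Fin 3, Nat.card {l : PSLF (ZMod 7) // (M l).mulVec (XX a) = XX a} = tt a) := by
  constructor
  · intro l a b s hs h
    obtain ⟨c, rfl⟩ := fC_surj l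
    have h3 := h2 c a b s
    change test2 (wd c) a b s.val = true at h3
    have h4 : V3.beq (app (wd c) (xx a)) (scal s.val (xx b)) = true := by
      rw [beq_iff (small_app _ _) (small_scal _ _), toV_app, toV_scal, ZMod.natCast_zmod_val,
        ← hM]
      exact h
    unfold test2 at h3
    rw [h4, cond_true, Bool.or_eq_true, Bool.and_eq_true, Bool.or_eq_true, Nat.beq_eq,
      Nat.beq_eq, Nat.beq_eq, Nat.beq_eq] at h3
    rcases h3 with h3 | ⟨h3, h5 | h5⟩
    · exact absurd ((ZMod.val_eq_zero s).1 h3) hs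
    · refine ⟨Fin.ext h3, Or.inl ?_⟩
      apply ZMod.val_injective
      rw [h5]; rfl
    · refine ⟨Fin.ext h3, Or.inr ?_⟩
      apply ZMod.val_injective
      rw [h5]; rfl
  · intro a
    rw [← hc a]
    have h3 : Nat.card {c : CC // V3.beq (app (wd c) (xx a)) (xx a) = true} =
        (Finset.univ.filter (fun c : CC => V3.beq (app (wd c) (xx a)) (xx a) = true)).card := by
      rw [Nat.card_eq_fintype_card, Fintype.card_subtype]
    rw [← h3]
    symm
    apply Nat.card_congr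
    refine (Equiv.ofBijective _ fC_bij).subtypeEquiv (fun c => ?_)
    rw [beq_iff (small_app _ _) (small_xx a), toV_app]
    change _ ↔ (M (pr (fC c))).mulVec _ = _
    rw [hM]
    rfl

theorem orbV (l : PSLF (ZMod 7)) (a b : Fin 3) (s : ZMod 11) (hs : s ≠ 0)
    (h : (ρ7 l).1.mulVec (XX a) = s • XX b) : a = b ∧ (s = 1 ∨ s = -1) :=
  (orb_generic (fun l => (ρ7 l).1) word ρ7_word test2_word count_word).1 l a b s hs h

theorem stabV (a : Fin 3) : Nat.card {l : PSLF (ZMod 7) // (ρ7 l).1.mulVec (XX a) = XX a} = tt a :=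
  (orb_generic (fun l => (ρ7 l).1) word ρ7_word test2_word count_word).2 a

theorem orbT (l : PSLF (ZMod 7)) (a b : Fin 3) (s : ZMod 11) (hs : s ≠ 0)
    (h : (ct (ρ7 l)).mulVec (XX a) = s • XX b) : a = b ∧ (s = 1 ∨ s = -1) :=
  (orb_generic (fun l => ct (ρ7 l)) wordT ct_word test2_wordT count_wordT).1 l a b s hs h

theorem stabT (a : Fin 3) : Nat.card {l : PSLF (ZMod 7) // (ct (ρ7 l)).mulVec (XX a) = XX a} =
    tt a :=
  (orb_generic (fun l => ct (ρ7 l)) wordT ct_word test2_wordT count_wordT).2 a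

end Cartan2
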