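import Pool.Agent.Cartan2.Mackey

open Module

namespace Cartan2

universe u

open MonoidAlgebra (single)

section

variable {k A : Type u} [Field k] [Ring A] [Algebra k A]
variable {M : Type*} [AddCommGroup M] [Module k M] [Module A M] [IsScalarTower k A M]
  [FiniteDimensional k M]

theorem rk_add_orth {e f : A} (he : e * e = e) (hf : f * f = f) (hef : e * f = 0)
    (hfe : f * e = 0) : rk k (e + f) M = rk k e M + rk k f M := by
  unfold rk
  set E := Algebra.lsmul k k M e
  set F := Algebra.lsmul k k M f
  have h1 : LinearMap.range (Algebra.lsmul k k M (e + f)) =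
      LinearMap.range E ⊔ LinearMap.range F := by
    apply le_antisymm
    · rintro _ ⟨m, rfl⟩
      rw [map_add, LinearMap.add_apply]
      exact Submodule.add_mem_sup ⟨m, rfl⟩ ⟨m, rfl⟩
    · rw [sup_le_iff]
      constructor
      · rintro _ ⟨m, rfl⟩
        refine ⟨e • m, ?_⟩
        change (e + f) • e • m = e • m
        rw [smul_smul, add_mul, he, hfe, add_zero]
      · rintro _ ⟨m, rfl⟩
        refine ⟨f • m, ?_⟩
        change (e + f) • f • m = f • m
        rw [smul_smul, add_mul, hf, hef, zero_add]
  have h2 : LinearMap.range E ⊓ LinearMap.range F = ⊥ := by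
    rw [eq_bot_iff]
    rintro x ⟨⟨y, hy⟩, ⟨z, hz⟩⟩
    change e • y = x at hy
    change f • z = x at hz
    rw [Submodule.mem_bot]
    have h3 : e • x = x := by rw [← hy, smul_smul, he]
    rw [← h3, ← hz, smul_smul, hef, zero_smul]
  have h3 := Submodule.finrank_sup_add_finrank_inf_eq (LinearMap.range E) (LinearMap.range F)
  rw [h2, finrank_bot, add_zero] at h3
  rw [h1, h3]

theorem rk_sum_orth {κ : Type*} (e : κ → A) (he : ∀ i, e i * e i = e i)
    (horth : ∀ i j, i ≠ j → e i * e j = 0) (s : Finset κ) :
    rk k (∑ i ∈ s, e i) M = ∑ i ∈ s, rk k (e i) M := by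
  classical
  have hidem : ∀ s : Finset κ, (∑ i ∈ s, e i) * (∑ i ∈ s, e i) = ∑ i ∈ s, e i := by
    intro s
    rw [Finset.sum_mul]
    refine Finset.sum_congr rfl fun i hi => ?_
    rw [Finset.mul_sum, Finset.sum_eq_single i]
    · exact he i
    · intro j _ hj; exact horth i j hj.symm
    · intro h; exact absurd hi h
  induction s using Finset.induction_on with
  | empty => simp [rk_zero]
  | insert a s ha ih =>
    rw [Finset.sum_insert ha, Finset.sum_insert ha, rk_add_orth (he a) (hidem s), ih]
    · rw [Finset.mul_sum]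
      apply Finset.sum_eq_zero
      intro i hi
      exact horth a i (fun h => ha (h ▸ hi))
    · rw [Finset.sum_mul]
      apply Finset.sum_eq_zero
      intro i hi
      exact horth i a (fun h => ha (h ▸ hi))

omit [FiniteDimensional k M] in
theorem rk_conj {u v : A} (e : A) (huv : u * v = 1) (hvu : v * u = 1) :
    rk k (u * e * v) M = rk k e M := by
  unfold rk
  let g : M ≃ₗ[k] M := LinearEquiv.ofLinearMap (Algebra.lsmul k k M u) (Algebra.lsmul k k M v)
    (by rw [← Module.End.mul_eq_comp, ← map_mul, huv, map_one]; rfl)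
    (by rw [← Module.End.mul_eq_comp, ← map_mul, hvu, map_one]; rfl)
  have h1 : LinearMap.range (Algebra.lsmul k k M (u * e * v)) =
      (LinearMap.range (Algebra.lsmul k k M e)).map (g : M →ₗ[k] M) := by
    ext x
    constructor
    · rintro ⟨y, rfl⟩
      refine ⟨e • v • y, ⟨v • y, rfl⟩, ?_⟩
      change u • e • v • y = (u * e * v) • y
      rw [mul_smul, mul_smul]
    · rintro ⟨_, ⟨y, rfl⟩, rfl⟩
      refine ⟨u • y, ?_⟩
      change (u * e * v) • u • y = u • e • y
      rw [smul_smul, mul_assoc (u * e), hvu, mul_one, mul_smul]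
  rw [h1]
  exact LinearEquiv.finrank_map_eq g _

end

end Cartan2
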