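import Pool.Agent.Cartan2.Mackey

open Module Matrix

namespace Cartan2

universe u

variable {F : Type} [Field F] [Fintype F] [DecidableEq F]

/-- `SL(2,F)` -/
abbrev SLF (F : Type) [Field F] := Matrix.SpecialLinearGroup (Fin 2) F
/-- `PSL(2,F)` -/
abbrev PSLF (F : Type) [Field F] := Matrix.ProjectiveSpecialLinearGroup (Fin 2) F

/-- The projection. -/
def pr : SLF F →* PSLF F := QuotientGroup.mk' _

/-- Explicit elements. -/
def mk4 (a b c d : F) (h : a * d - b * c = 1) : SLF F :=
  ⟨!![a, b; c, d], by rw [Matrix.det_fin_two_of]; exact h⟩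

theorem pr_surjective : Function.Surjective (pr : SLF F →* PSLF F) :=
  QuotientGroup.mk'_surjective _

theorem pr_eq_iff (g h : SLF F) : pr g = pr h ↔ g.1 = h.1 ∨ g.1 = -h.1 := by
  have h0 : pr g = pr h ↔ g⁻¹ * h ∈ Subgroup.center (SLF F) := QuotientGroup.eq
  rw [h0, Matrix.SpecialLinearGroup.mem_center_iff]
  constructor
  · rintro ⟨r, hr, hr2⟩
    have h1 : h.1 = r • g.1 := by
      have : h = g * (g⁻¹ * h) := by group
      have h2 : h.1 = g.1 * (g⁻¹ * h).1 := by
        conv_lhs => rw [this]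
        exact Matrix.SpecialLinearGroup.coe_mul _ _
      rw [h2]
      change g.1 * (↑(g⁻¹ * h) : Matrix (Fin 2) (Fin 2) F) = _
      rw [← hr2, Matrix.scalar_apply, ← Matrix.smul_one_eq_diagonal, mul_smul_comm, mul_one]
    have h3 : r = 1 ∨ r = -1 := by
      rw [Fintype.card_fin] at hr
      have h4 : (r - 1) * (r + 1) = 0 := by linear_combination hr
      rcases mul_eq_zero.1 h4 with h5 | h5
      · left; exact sub_eq_zero.1 h5
      · right; exact eq_neg_of_add_eq_zero_left h5
    rcases h3 with h3 | h3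
    · left; rw [h1, h3, one_smul]
    · right; rw [h1, h3]; simp
  · rintro (h1 | h1)
    · have : g = h := Subtype.ext h1
      subst this
      exact ⟨1, by simp, by simp⟩
    · refine ⟨-1, by simp, ?_⟩
      have h2 : h.1 = -g.1 := by rw [h1, neg_neg]
      have h3 : ((g⁻¹ * h : SLF F) : Matrix (Fin 2) (Fin 2) F) = -(1 : Matrix (Fin 2) (Fin 2) F) := by
        rw [Matrix.SpecialLinearGroup.coe_mul]
        change (g⁻¹).1 * h.1 = _
        rw [h2, mul_neg]
        congr 1
        have := congrArg Subtype.val (inv_mul_cancel g)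
        exact this
      rw [h3]
      ext i j
      fin_cases i <;> fin_cases j <;> simp

/-- Upper unipotent elements. -/
def uu (b : F) : SLF F := mk4 1 b 0 1 (by ring)

/-- Diagonal elements. -/
def dg (t : Fˣ) : SLF F := mk4 t 0 0 (↑(t⁻¹) : F) (by simp)

/-- The Weyl element. -/
def ww : SLF F := mk4 0 1 (-1) 0 (by ring)

/-- Squares. -/
abbrev SqF (F : Type) [Field F] := {t : Fˣ // IsSquare (t : F)}

theorem isSquare_or_neg (h1 : ¬ IsSquare (-1 : F)) {a : F} (ha : a ≠ 0) :
    IsSquare a ∨ IsSquare (-a) := by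
  by_cases h : IsSquare a
  · left; exact h
  · right
    rw [← quadraticChar_neg_one_iff_not_isSquare] at h h1
    rw [← quadraticChar_one_iff_isSquare (neg_ne_zero.2 ha), ← neg_one_mul, map_mul, h, h1]
    norm_num

theorem uu_val (b : F) : (uu b).1 = !![1, b; 0, 1] := rfl
theorem dg_val (t : Fˣ) : (dg t).1 = !![(t : F), 0; 0, (t : F)⁻¹] := by
  change !![(t : F), 0; 0, (↑(t⁻¹) : F)] = _
  rw [Units.val_inv_eq_inv_val]
theorem ww_val : (ww : SLF F).1 = !![0, 1; -1, 0] := rfl

theorem udg_val (b : F) (t : Fˣ) : (uu b * dg t).1 = !![(t : F), b * (t : F)⁻¹; 0, (t : F)⁻¹] := by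
  change (uu b).1 * (dg t).1 = _
  rw [uu_val, dg_val, Matrix.mul_fin_two]
  simp

theorem uwdu_val (b : F) (t : Fˣ) (b' : F) : (uu b * ww * dg t * uu b').1 =
    !![-b * t, -b * t * b' + (t : F)⁻¹; -(t : F), -t * b'] := by
  change (uu b).1 * (ww).1 * (dg t).1 * (uu b').1 = _
  rw [uu_val, dg_val, ww_val, uu_val, Matrix.mul_fin_two, Matrix.mul_fin_two, Matrix.mul_fin_two]
  simp

theorem bruhat (h1 : ¬ IsSquare (-1 : F)) (g : PSLF F) :
    (∃ (b : F) (t : SqF F), g = pr (uu b * dg t)) ∨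
    (∃ (b : F) (t : SqF F) (b' : F), g = pr (uu b * ww * dg t * uu b')) := by
  obtain ⟨g, rfl⟩ := pr_surjective g
  obtain ⟨x, y, z, v, hg⟩ : ∃ x y z v, g.1 = !![x, y; z, v] := ⟨_, _, _, _, Matrix.eta_fin_two _⟩
  have hdet : x * v - y * z = 1 := by
    have := g.2
    rw [hg, Matrix.det_fin_two_of] at this
    exact this
  by_cases hz : z = 0
  · left
    have hx : x ≠ 0 := by
      rintro rfl
      rw [hz] at hdet
      simp at hdet
    rw [hz, mul_zero, sub_zero] at hdet
    rcases isSquare_or_neg h1 hx with hs | hs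
    · refine ⟨y * x, ⟨Units.mk0 x hx, hs⟩, ?_⟩
      rw [pr_eq_iff]; left
      rw [hg, udg_val, hz]
      have : v = x⁻¹ := eq_inv_of_mul_eq_one_right hdet
      ext i j; fin_cases i <;> fin_cases j <;> simp [this, hx]
    · refine ⟨y * x, ⟨Units.mk0 (-x) (neg_ne_zero.2 hx), hs⟩, ?_⟩
      rw [pr_eq_iff]; right
      rw [hg, udg_val, hz]
      have : v = x⁻¹ := eq_inv_of_mul_eq_one_right hdet
      ext i j; fin_cases i <;> fin_cases j <;> simp [this, hx]
  · right
    rcases isSquare_or_neg h1 (neg_ne_zero.2 hz) with hs | hs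
    · refine ⟨x / z, ⟨Units.mk0 (-z) (neg_ne_zero.2 hz), hs⟩, v / z, ?_⟩
      rw [pr_eq_iff]; left
      rw [hg, uwdu_val]
      ext i j
      fin_cases i <;> fin_cases j <;> simp <;> field_simp
      linear_combination (-1 : F) * hdet
    · rw [neg_neg] at hs
      refine ⟨x / z, ⟨Units.mk0 z hz, hs⟩, v / z, ?_⟩
      rw [pr_eq_iff]; right
      rw [hg, uwdu_val]
      ext i j
      fin_cases i <;> fin_cases j <;> simp <;> field_simp
      linear_combination (-1 : F) * hdet

end Cartan2
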