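import Pool.Agent.Cartan2.PSLMackey

open Module Matrix

namespace Cartan2

universe u

open MonoidAlgebra (single)

variable {F : Type} [Field F] [Fintype F] [DecidableEq F]
variable {k : Type u} [Field k]

theorem cdim_UU_same [CharP k 2] (h1 : ¬ IsSquare (-1 : F)) {ψ : AddChar F k}
    (hψ : ψ.IsPrimitive) {c : F} (hc : c ≠ 0) : cdim k (fU ψ c) (fU ψ c) = 1 + N0 F := by
  rw [cdim_UU_aux h1 hψ]
  congr 1
  rw [Nat.card_eq_one_iff_unique]
  constructor
  · constructor
    rintro ⟨⟨t, ht⟩, ht2⟩ ⟨⟨s, hs⟩, hs2⟩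
    have key : ∀ t : Fˣ, IsSquare (t : F) → c * (t * t) = c → t = 1 := by
      intro t ht h
      have h2 : ((t : F) - 1) * (t + 1) = 0 := by
        have : c * (((t : F) - 1) * (t + 1)) = 0 := by linear_combination h
        exact (mul_eq_zero.1 this).resolve_left hc
      rcases mul_eq_zero.1 h2 with h3 | h3
      · ext; simpa [sub_eq_zero] using h3
      · exfalso
        apply h1
        rw [← eq_neg_of_add_eq_zero_left h3]; exact ht
    have h3 := key t ht ht2
    have h4 := key s hs hs2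
    subst h3; subst h4; rfl
  · exact ⟨⟨⟨1, ⟨1, by simp⟩⟩, by simp⟩⟩

theorem cdim_UU_ne [CharP k 2] (h1 : ¬ IsSquare (-1 : F)) {ψ : AddChar F k}
    (hψ : ψ.IsPrimitive) : cdim k (fU ψ 1) (fU ψ (-1)) = N0 F := by
  rw [cdim_UU_aux h1 hψ]
  rw [Nat.card_eq_zero.2, zero_add]
  left
  constructor
  rintro ⟨⟨t, ht⟩, ht2⟩
  apply h1
  exact ⟨t, by rw [← ht2]; ring⟩

/-- The automorphism `g ↦ diag(1,-1) g diag(1,-1)`. -/
def sig : SLF F →* SLF F where
  toFun g := ⟨!![g.1 0 0, -g.1 0 1; -g.1 1 0, g.1 1 1], by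
    have := g.2
    rw [Matrix.det_fin_two] at this
    rw [Matrix.det_fin_two_of]; linear_combination this⟩
  map_one' := by
    apply Subtype.ext
    ext i j; fin_cases i <;> fin_cases j <;> simp
  map_mul' a b := by
    apply Subtype.ext
    change !![(a.1 * b.1) 0 0, -(a.1 * b.1) 0 1; -(a.1 * b.1) 1 0, (a.1 * b.1) 1 1] =
      !![a.1 0 0, -a.1 0 1; -a.1 1 0, a.1 1 1] * !![b.1 0 0, -b.1 0 1; -b.1 1 0, b.1 1 1]
    rw [Matrix.mul_fin_two, Matrix.mul_apply, Matrix.mul_apply, Matrix.mul_apply,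
      Matrix.mul_apply]
    simp only [Fin.sum_univ_two]
    ext i j
    fin_cases i <;> fin_cases j <;> simp <;> ring

theorem sig_val (g : SLF F) : (sig g).1 = !![g.1 0 0, -g.1 0 1; -g.1 1 0, g.1 1 1] := rfl

theorem sig_center : Subgroup.center (SLF F) ≤ (Subgroup.center (SLF F)).comap sig := by
  intro g hg
  rw [Subgroup.mem_comap]
  rw [Matrix.SpecialLinearGroup.mem_center_iff] at hg ⊢
  obtain ⟨r, hr, hr2⟩ := hg
  refine ⟨r, hr, ?_⟩
  have h2 : g.1 = Matrix.scalar (Fin 2) r := hr2.symm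
  change _ = (sig g).1
  ext i j
  fin_cases i <;> fin_cases j <;> simp [sig_val, h2]

/-- The automorphism of `PSL`. -/
def sigP : PSLF F →* PSLF F := QuotientGroup.map _ _ sig sig_center

theorem sigP_pr (g : SLF F) : sigP (pr g) = pr (sig g) := rfl

/-- The anti-automorphism. -/
def tauP (g : PSLF F) : PSLF F := (sigP g)⁻¹

theorem tauP_mul (g h : PSLF F) : tauP (g * h) = tauP h * tauP g := by
  simp [tauP]

theorem tauP_uu (b : F) : tauP (pr (uu b)) = pr (uu b) := by
  unfold tauP
  rw [sigP_pr, ← map_inv]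
  congr 1
  rw [inv_eq_iff_mul_eq_one]
  have : sig (uu b) = uu (-b) := by
    apply Subtype.ext
    ext i j; fin_cases i <;> fin_cases j <;> simp [sig_val, uu_val]
  rw [this, uu_mul, neg_add_cancel, uu_zero]

theorem tauP_wdg (t : Fˣ) : tauP (pr (ww * dg t)) = pr (ww * dg t) := by
  unfold tauP
  rw [sigP_pr, ← map_inv]
  congr 1
  rw [inv_eq_iff_mul_eq_one]
  apply Subtype.ext
  have e1 : (sig (ww * dg t)).1 = !![0, -(t : F)⁻¹; (t : F), 0] := by
    have : (ww * dg t).1 = !![0, (t : F)⁻¹; -(t : F), 0] := by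
      change (ww).1 * (dg t).1 = _
      rw [ww_val, dg_val, Matrix.mul_fin_two]; simp
    rw [sig_val, this]
    ext i j; fin_cases i <;> fin_cases j <;> simp
  change (sig (ww * dg t)).1 * ((ww).1 * (dg t).1) = _
  rw [e1, ww_val, dg_val, Matrix.mul_fin_two, Matrix.mul_fin_two]
  ext i j; fin_cases i <;> fin_cases j <;> simp

theorem tauP_dg (t : Fˣ) : tauP (pr (dg t)) = pr (dg t⁻¹) := by
  unfold tauP
  rw [sigP_pr, ← map_inv]
  congr 1
  rw [inv_eq_iff_mul_eq_one]
  have : sig (dg t) = dg t := by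
    apply Subtype.ext
    ext i j; fin_cases i <;> fin_cases j <;> simp [sig_val, dg_val]
  rw [this, dg_mul, mul_inv_cancel, dg_one]

/-- The linear extension of `tauP`. -/
noncomputable def TT : MonoidAlgebra k (PSLF F) →ₗ[k] MonoidAlgebra k (PSLF F) :=
  (MonoidAlgebra.basis (PSLF F) k).constr k (fun g => single (tauP g) (1 : k))

theorem TT_single (g : PSLF F) : TT (single g (1 : k)) = single (tauP g) (1 : k) := by
  unfold TT
  rw [← MonoidAlgebra.basis_apply, Basis.constr_basis]

theorem TT_mul (x y : MonoidAlgebra k (PSLF F)) : TT (x * y) = TT y * TT x := by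
  rw [eq_sum_coeff x, eq_sum_coeff y]
  simp only [Finset.sum_mul, Finset.mul_sum, map_sum, smul_mul_assoc, mul_smul_comm, map_smul,
    MonoidAlgebra.single_mul_single, one_mul, TT_single, tauP_mul]
  simp only [Finset.smul_sum, smul_smul]
  rw [Finset.sum_comm]
  refine Finset.sum_congr rfl fun h _ => Finset.sum_congr rfl fun g _ => ?_
  rw [mul_comm]

theorem TT_fU (ψ : AddChar F k) (c : F) : TT (fU ψ c) = fU ψ c := by
  unfold fU eid
  rw [map_smul, map_sum]
  congr 1
  refine Finset.sum_congr rfl fun p _ => ?_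
  have h1 : ∀ (g : PSLF F) (a : k), single g a = a • single g (1 : k) := by
    intro g a; rw [MonoidAlgebra.smul_single, smul_eq_mul, mul_one]
  rw [h1 (αU p), map_smul, TT_single]
  congr 2
  exact tauP_uu p.toAdd

theorem fU_comm [CharP k 2] (h1 : ¬ IsSquare (-1 : F)) {ψ : AddChar F k}
    (hψ : ψ.IsPrimitive) {c : F} (hc : c ≠ 0) (x y : MonoidAlgebra k (PSLF F)) :
    (fU ψ c * x * fU ψ c) * (fU ψ c * y * fU ψ c) =
      (fU ψ c * y * fU ψ c) * (fU ψ c * x * fU ψ c) := by
  set e := fU ψ c with he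
  have hus : ∀ b : F, e * single (pr (uu b)) (1 : k) = ψ (c * b) • e := by
    intro b
    exact eid_mul_single αU (χU ψ c) (Multiplicative.ofAdd b)
  have hsu : ∀ b : F, single (pr (uu b)) (1 : k) * e = ψ (c * b) • e := by
    intro b
    exact single_mul_eid αU (χU ψ c) (Multiplicative.ofAdd b)
  have hzero : ∀ t : Fˣ, IsSquare (t : F) → t ≠ 1 → e * single (pr (dg t)) 1 * e = 0 := by
    intro t ht ht1
    have h2 : (t : F) * t - 1 ≠ 0 := by
      intro h
      have h3 : ((t : F) - 1) * (t + 1) = 0 := by linear_combination h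
      rcases mul_eq_zero.1 h3 with h4 | h4
      · apply ht1; ext; simpa [sub_eq_zero] using h4
      · apply h1; rw [← eq_neg_of_add_eq_zero_left h4]; exact ht
    obtain ⟨b, hb⟩ := exists_psi_ne hψ (mul_ne_zero hc h2)
    apply eid_single_eid_eq_zero αU (χU ψ c) αU (χU ψ c) (pr (dg t))
      (p := Multiplicative.ofAdd ((t : F) * t * b)) (r := Multiplicative.ofAdd b)
    · change pr (uu _) * pr (dg t) = pr (dg t) * pr (uu b)
      rw [← map_mul, ← map_mul, dg_mul_uu]; rfl
    · intro h
      apply hb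
      have h3 := congrArg (fun x : kˣ => (x : k)) h
      simp only [χU_val] at h3
      have h4 : c * ((t : F) * t - 1) * b = c * (t * t * b) + -(c * b) := by ring
      rw [h4, AddChar.map_add_eq_mul, h3, ← AddChar.map_add_eq_mul, add_neg_cancel,
        AddChar.map_zero_eq_one]
  have hss : ∀ g h : PSLF F, single (g * h) (1 : k) = single g 1 * single h 1 := by
    intro g h; rw [MonoidAlgebra.single_mul_single, one_mul]
  have hT1 : ∀ g : PSLF F, TT (e * single g (1 : k) * e) = e * single g 1 * e := by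
    intro g
    rw [TT_mul, TT_mul, TT_single, he, TT_fU, ← he, ← mul_assoc]
    rcases bruhat h1 g with ⟨b, t, rfl⟩ | ⟨b, t, b', rfl⟩
    · rw [map_mul, tauP_mul, tauP_uu, tauP_dg, hss, hss]
      have a1 : e * (single (pr (dg t.1⁻¹)) 1 * single (pr (uu b)) 1) * e =
          ψ (c * b) • (e * single (pr (dg t.1⁻¹)) 1 * e) := by
        rw [← mul_assoc, mul_assoc _ (single (pr (uu b)) 1), hsu, mul_smul_comm]
      have a2 : e * (single (pr (uu b)) 1 * single (pr (dg t.1)) 1) * e =
          ψ (c * b) • (e * single (pr (dg t.1)) 1 * e) := by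
        rw [← mul_assoc, hus, smul_mul_assoc, smul_mul_assoc]
      rw [a1, a2]
      by_cases ht : t.1 = 1
      · rw [ht, inv_one]
      · rw [hzero _ t.2 ht, hzero _ (by simpa using t.2.inv) (by simpa using ht)]
    · rw [mul_assoc (uu b), map_mul, map_mul, tauP_mul, tauP_mul, tauP_uu, tauP_uu, tauP_wdg, hss,
        hss, hss, hss]
      have a1 : e * (single (pr (uu b')) 1 * (single (pr (ww * dg t.1)) 1 *
          single (pr (uu b)) 1)) * e =
          (ψ (c * b') * ψ (c * b)) • (e * single (pr (ww * dg t.1)) 1 * e) := by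
        rw [← mul_assoc, hus, smul_mul_assoc, smul_mul_assoc, ← mul_assoc,
          mul_assoc _ (single (pr (uu b)) 1), hsu, mul_smul_comm, smul_smul]
      have a2 : e * (single (pr (uu b)) 1 * single (pr (ww * dg t.1)) 1 *
          single (pr (uu b')) 1) * e =
          (ψ (c * b') * ψ (c * b)) • (e * single (pr (ww * dg t.1)) 1 * e) := by
        calc e * (single (pr (uu b)) 1 * single (pr (ww * dg t.1)) 1 *
              single (pr (uu b')) 1) * e =
            (e * single (pr (uu b)) 1) * single (pr (ww * dg t.1)) 1 *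
              (single (pr (uu b')) 1 * e) := by simp only [mul_assoc]
          _ = _ := by
            rw [hus, hsu, smul_mul_assoc, smul_mul_assoc, mul_smul_comm, smul_smul, mul_comm]
      rw [a1, a2]
  have hT : ∀ x, TT (e * x * e) = e * x * e := by
    intro x
    rw [eq_sum_coeff x]
    simp only [Finset.mul_sum, Finset.sum_mul, mul_smul_comm, smul_mul_assoc, map_sum, map_smul,
      hT1]
  have hee : e * e = e := eid_idem (card_U_ne h1) _ _
  calc (e * x * e) * (e * y * e) = e * (x * e * (e * y)) * e := by simp only [mul_assoc]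
    _ = TT (e * (x * e * (e * y)) * e) := (hT _).symm
    _ = TT ((e * x * e) * (e * y * e)) := by congr 1; simp only [mul_assoc]
    _ = _ := by rw [TT_mul, hT, hT]

end Cartan2
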