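import Pool.Agent.Cartan2.Orth

open Module

namespace Cartan2

universe u

open MonoidAlgebra (single)

section gen

variable {k : Type u} [Field k] {G : Type} [Group G] [Fintype G]
variable {P : Type} [Group P] [Fintype P]
variable {M : Type*} [AddCommGroup M] [Module k M] [Module (MonoidAlgebra k G) M]
  [IsScalarTower k (MonoidAlgebra k G) M]

omit [Fintype G] in
theorem eid_smul_of_eigen (hP : (Fintype.card P : k) ≠ 0) (α : P →* G) (χ : P →* kˣ) {v : M}
    (hv : ∀ p, single (α p) (1 : k) • v = ((χ p : kˣ) : k) • v) : eid α χ • v = v := by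
  unfold eid
  rw [smul_assoc, Finset.sum_smul]
  have : ∀ p, single (α p) (((χ p)⁻¹ : kˣ) : k) • v = v := by
    intro p
    have h1 : single (α p) (((χ p)⁻¹ : kˣ) : k) = (((χ p)⁻¹ : kˣ) : k) • single (α p) (1 : k) := by
      rw [MonoidAlgebra.smul_single, smul_eq_mul, mul_one]
    rw [h1, smul_assoc, hv, smul_smul, Units.inv_mul, one_smul]
  simp only [this, Finset.sum_const, Finset.card_univ]
  rw [← Nat.cast_smul_eq_nsmul k, smul_smul, inv_mul_cancel₀ hP, one_smul]

/-- The trivial module. -/
def Triv (k : Type u) (_G : Type) : Type u := k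

noncomputable instance : AddCommGroup (Triv k G) := inferInstanceAs (AddCommGroup k)
noncomputable instance : Module k (Triv k G) := inferInstanceAs (Module k k)
instance : FiniteDimensional k (Triv k G) := inferInstanceAs (FiniteDimensional k k)

variable (k G) in
/-- augmentation -/
noncomputable def aug : MonoidAlgebra k G →ₐ[k] k := MonoidAlgebra.lift k k G 1

omit [Fintype G] in
theorem aug_single (g : G) : aug k G (single g 1) = 1 := by
  simp [aug, MonoidAlgebra.lift_single]

noncomputable instance : Module (MonoidAlgebra k G) (Triv k G) :=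
  Module.compHom k (aug k G : MonoidAlgebra k G →+* k)

/-- identification -/
def Triv.mk : k ≃ₗ[k] Triv k G := LinearEquiv.refl k k

omit [Fintype G] in
theorem Triv.smul_mk (a : MonoidAlgebra k G) (c : k) :
    a • (Triv.mk c : Triv k G) = Triv.mk (aug k G a * c) := rfl

instance : IsScalarTower k (MonoidAlgebra k G) (Triv k G) := ⟨fun c a v => by
  obtain ⟨w, rfl⟩ := (Triv.mk (k := k) (G := G)).surjective v
  rw [Triv.smul_mk, Triv.smul_mk, map_smul, smul_mul_assoc, map_smul]⟩

instance : IsSimpleModule (MonoidAlgebra k G) (Triv k G) := by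
  rw [isSimpleModule_iff_toSpanSingleton_surjective]
  refine ⟨inferInstanceAs (Nontrivial k), ?_⟩
  intro v hv w
  obtain ⟨v, rfl⟩ := (Triv.mk (k := k) (G := G)).surjective v
  obtain ⟨w, rfl⟩ := (Triv.mk (k := k) (G := G)).surjective w
  have hv0 : v ≠ 0 := by
    rintro rfl
    exact hv (map_zero _)
  refine ⟨(w * v⁻¹) • 1, ?_⟩
  rw [LinearMap.toSpanSingleton_apply, Triv.smul_mk, map_smul, map_one]
  congr 1
  rw [smul_eq_mul, mul_one, mul_assoc, inv_mul_cancel₀ hv0, mul_one]

omit [Fintype G] in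
theorem exists_triv {ι : Type} (Z : SimpleSys k (MonoidAlgebra k G) ι) :
    ∃ i0, finrank k (Z.S i0) = 1 ∧ ∀ (g : G) (s : Z.S i0), single g (1 : k) • s = s := by
  obtain ⟨i0, ⟨f⟩⟩ := Z.complete (Triv k G)
  refine ⟨i0, ?_, ?_⟩
  · rw [← (f.restrictScalars k).finrank_eq]
    exact finrank_self k
  · intro g s
    obtain ⟨v, rfl⟩ := f.surjective s
    obtain ⟨v, rfl⟩ := (Triv.mk (k := k) (G := G)).surjective v
    rw [← map_smul, Triv.smul_mk, aug_single, one_mul]

omit [Fintype G] in
theorem rk_triv_one [FiniteDimensional k M] (hM : ∀ (g : G) (s : M), single g (1 : k) • s = s)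
    (hP : (Fintype.card P : k) ≠ 0) (α : P →* G) :
    rk k (eid α (1 : P →* kˣ)) M = finrank k M := by
  unfold rk
  have : LinearMap.range (Algebra.lsmul k k M (eid α (1 : P →* kˣ))) = ⊤ := by
    rw [eq_top_iff]
    intro v _
    refine ⟨v, ?_⟩
    change eid α (1 : P →* kˣ) • v = v
    apply eid_smul_of_eigen hP
    intro p
    rw [hM]; simp
  rw [this, finrank_top]

theorem rk_triv_ne [FiniteDimensional k M] (hM : ∀ (g : G) (s : M), single g (1 : k) • s = s)
    (α : P →* G) {χ : P →* kˣ} (hχ : χ ≠ 1) : rk k (eid α χ) M = 0 := by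
  rw [rk_eq_zero_iff]
  intro s
  obtain ⟨p, hp⟩ : ∃ p, χ p ≠ 1 := by
    by_contra h
    push Not at h
    exact hχ (MonoidHom.ext h)
  have h1 : eid α χ • s = ((χ p : kˣ) : k) • eid α χ • s := by
    conv_lhs => rw [← hM (α p) (eid α χ • s)]
    rw [smul_smul, single_mul_eid, smul_assoc]
  have h2 : (1 - ((χ p : kˣ) : k)) • eid α χ • s = 0 := by
    rw [sub_smul, one_smul, ← h1, sub_self]
  refine (smul_eq_zero.1 h2).resolve_left ?_
  intro h3
  apply hp
  ext
  exact (sub_eq_zero.1 h3).symm

end gen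

end Cartan2
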