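import Pool.Agent.Cartan2.PSLComm
import Pool.Agent.Cartan2.Triv

open Module

namespace Cartan2

universe u

open MonoidAlgebra (single)



variable {F : Type} [Field F] [Fintype F] [DecidableEq F]
variable {k : Type u} [Field k]

theorem fU_single (ψ : AddChar F k) (c b : F) :
    fU ψ c * single (pr (uu b)) (1 : k) = ψ (c * b) • fU ψ c :=
  eid_mul_single αU (χU ψ c) (Multiplicative.ofAdd b)

theorem single_fU (ψ : AddChar F k) (c b : F) :
    single (pr (uu b)) (1 : k) * fU ψ c = ψ (c * b) • fU ψ c :=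
  single_mul_eid αU (χU ψ c) (Multiplicative.ofAdd b)

theorem fU_orth {ψ : AddChar F k} (hψ : ψ.IsPrimitive) {c d : F} (hcd : c ≠ d) :
    fU ψ c * fU ψ d = 0 := by
  obtain ⟨b, hb⟩ := exists_psi_ne hψ (sub_ne_zero.2 hcd)
  have h1 : ψ (c * b) • (fU ψ c * fU ψ d) = ψ (d * b) • (fU ψ c * fU ψ d) := by
    rw [← smul_mul_assoc, ← fU_single, mul_assoc, single_fU, mul_smul_comm]
  have h2 : (ψ (c * b) - ψ (d * b)) • (fU ψ c * fU ψ d) = 0 := by
    rw [sub_smul, h1, sub_self]
  refine (smul_eq_zero.1 h2).resolve_left ?_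
  intro h3
  apply hb
  have h4 : (c - d) * b = c * b + -(d * b) := by ring
  rw [h4, AddChar.map_add_eq_mul, sub_eq_zero.1 h3, ← AddChar.map_add_eq_mul, add_neg_cancel,
        AddChar.map_zero_eq_one]

theorem fU_eq (ψ : AddChar F k) (c : F) :
    fU ψ c = (Fintype.card F : k)⁻¹ • ∑ b, ψ (-(c * b)) • single (pr (uu b)) (1 : k) := by
  unfold fU eid
  rw [Fintype.card_multiplicative]
  congr 1
  refine Fintype.sum_equiv Multiplicative.toAdd _ _ (fun b => ?_)
  rw [MonoidAlgebra.smul_single, smul_eq_mul, mul_one]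
  change single (pr (uu b.toAdd)) (_ : k) = single (pr (uu b.toAdd)) (_ : k)
  congr 1
  rw [AddChar.map_neg_eq_inv, Units.val_inv_eq_inv_val]
  rfl

theorem sum_fU [CharP k 2] (h1 : ¬ IsSquare (-1 : F)) {ψ : AddChar F k}
    (hψ : ψ.IsPrimitive) : ∑ c, fU ψ c = 1 := by
  have hq : (Fintype.card F : k) ≠ 0 := odd_cast_ne (odd_card h1)
  simp only [fU_eq]
  rw [← Finset.smul_sum, Finset.sum_comm]
  simp only [← Finset.sum_smul]
  have h2 : ∀ b : F, ∑ c, ψ (-(c * b)) = if b = 0 then (Fintype.card F : k) else 0 := by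
    intro b
    have := AddChar.sum_mulShift (-b) hψ
    simp only [mul_neg, neg_eq_zero] at this
    rw [this]
    split_ifs <;> simp
  simp only [h2]
  rw [Finset.sum_eq_single 0]
  · rw [if_pos rfl, smul_smul, inv_mul_cancel₀ hq, one_smul, uu_zero, map_one]
    rfl
  · intro b _ hb
    rw [if_neg hb, zero_smul]
  · intro h; exact absurd (Finset.mem_univ _) h

theorem conj_fU (ψ : AddChar F k) (c : F) (s : Fˣ) :
    single (pr (dg s)) (1 : k) * fU ψ c * single (pr (dg s⁻¹)) (1 : k) =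
      fU ψ (c * (↑(s⁻¹) * ↑(s⁻¹))) := by
  rw [fU_eq, fU_eq, mul_smul_comm, smul_mul_assoc, Finset.mul_sum, Finset.sum_mul]
  congr 1
  have hs : (s : F) * s ≠ 0 := mul_ne_zero s.ne_zero s.ne_zero
  refine Fintype.sum_equiv (Equiv.mulLeft₀ ((s : F) * s) hs) _ _ (fun b => ?_)
  rw [mul_smul_comm, smul_mul_assoc, MonoidAlgebra.single_mul_single,
    MonoidAlgebra.single_mul_single, one_mul, one_mul, Equiv.mulLeft₀_apply]
  congr 2
  · congr 1
    rw [Units.val_inv_eq_inv_val]
    have := s.ne_zero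
    field_simp
  · congr 1
    rw [← map_mul, ← map_mul, dg_mul_uu, mul_assoc, dg_mul, mul_inv_cancel, dg_one, mul_one]

section module

variable {M : Type*} [AddCommGroup M] [Module k M] [Module (MonoidAlgebra k (PSLF F)) M]
  [IsScalarTower k (MonoidAlgebra k (PSLF F)) M] [FiniteDimensional k M]

theorem single_inv_mul (s : Fˣ) :
    single (pr (dg s)) (1 : k) * single (pr (dg s⁻¹)) 1 = 1 := by
  rw [MonoidAlgebra.single_mul_single, ← map_mul, dg_mul, mul_inv_cancel, dg_one, map_one,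
    one_mul]; rfl

theorem single_inv_mul' (s : Fˣ) :
    single (pr (dg s⁻¹)) (1 : k) * single (pr (dg s)) 1 = 1 := by
  rw [MonoidAlgebra.single_mul_single, ← map_mul, dg_mul, inv_mul_cancel, dg_one, map_one,
    one_mul]; rfl

omit [FiniteDimensional k M] in
theorem rk_fU_conj (ψ : AddChar F k) (c : F) (s : Fˣ) :
    rk k (fU ψ (c * (s * s))) M = rk k (fU ψ c) M := by
  have h := conj_fU ψ c s⁻¹
  rw [inv_inv] at h
  rw [← h]
  exact rk_conj _ (single_inv_mul' s) (single_inv_mul s)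

omit [FiniteDimensional k M] in
theorem rk_fU_sq (ψ : AddChar F k) (c : F) {t : F} (ht : IsSquare t) (ht0 : t ≠ 0) :
    rk k (fU ψ (c * t)) M = rk k (fU ψ c) M := by
  obtain ⟨s, rfl⟩ := ht
  have hs : s ≠ 0 := left_ne_zero_of_mul ht0
  exact rk_fU_conj ψ c (Units.mk0 s hs)

/-- The dimension formula. -/
theorem finrank_eq_fU [CharP k 2] (h1 : ¬ IsSquare (-1 : F)) {ψ : AddChar F k}
    (hψ : ψ.IsPrimitive) : finrank k M = rk k (fU ψ 0) M +
      N0 F * (rk k (fU ψ 1) M + rk k (fU ψ (-1)) M) := by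
  classical
  have : Fintype (SqF F) := Fintype.ofFinite _
  have hid : ∀ c, fU ψ c * fU ψ c = fU ψ c := fun c => eid_idem (card_U_ne h1) _ _
  rw [← rk_one (A := MonoidAlgebra k (PSLF F)), ← sum_fU h1 hψ,
    rk_sum_orth (fun c => fU ψ c) hid (fun i j h => fU_orth hψ h)]
  have h2 : ∑ c, rk k (fU ψ c) M = rk k (fU ψ 0) M + ∑ u : Fˣ, rk k (fU ψ (u : F)) M := by
    rw [← Finset.add_sum_erase _ _ (Finset.mem_univ (0 : F))]
    congr 1
    symm
    refine Finset.sum_bij (fun (u : Fˣ) _ => (u : F)) ?_ ?_ ?_ ?_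
    · intro u _; simp
    · intro u _ v _ h; exact Units.ext h
    · intro b hb
      exact ⟨Units.mk0 b (Finset.ne_of_mem_erase hb), Finset.mem_univ _, rfl⟩
    · intro u _; rfl
  rw [h2]
  congr 1
  rw [← (unitsEquiv h1).sum_comp, Fintype.sum_prod_type]
  simp only [Fintype.sum_bool, unitsEquiv_true, unitsEquiv_false]
  have h3 : ∀ t : SqF F, rk k (fU ψ ((t.1 : Fˣ) : F)) M + rk k (fU ψ ((-t.1 : Fˣ) : F)) M =
      rk k (fU ψ 1) M + rk k (fU ψ (-1)) M := by
    intro t
    rw [Units.val_neg, ← one_mul ((t.1 : Fˣ) : F), rk_fU_sq ψ 1 t.2 t.1.ne_zero,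
      one_mul, ← neg_one_mul, rk_fU_sq ψ (-1) t.2 t.1.ne_zero]
  simp only [h3, Finset.sum_const, Finset.card_univ, smul_eq_mul]
  rw [N0, Nat.card_eq_fintype_card]

/-- If `U` has non-zero invariants, so does some character of the Borel subgroup. -/
theorem exists_eB [IsAlgClosed k] [CharP k 2] (h1 : ¬ IsSquare (-1 : F)) (ψ : AddChar F k)
    (h0 : rk k (fU ψ 0) M ≠ 0) : ∃ Λ : Fˣ →* kˣ, rk k (eB (F := F) Λ) M ≠ 0 := by
  classical
  set V := LinearMap.range (Algebra.lsmul k k M (fU ψ 0)) with hV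
  have hid : fU ψ 0 * fU ψ 0 = fU ψ 0 := eid_idem (card_U_ne h1) _ _
  have hVe : ∀ v : V, fU ψ 0 • (v : M) = v := by
    rintro ⟨_, ⟨w, rfl⟩⟩
    change fU ψ 0 • fU ψ 0 • w = fU ψ 0 • w
    rw [smul_smul, hid]
  have hnt : Nontrivial V := by
    rw [← finrank_pos_iff (R := k)]
    exact Nat.pos_of_ne_zero h0
  have hcomm : ∀ s : Fˣ, single (pr (dg s)) (1 : k) * fU ψ 0 =
      fU ψ 0 * single (pr (dg s)) (1 : k) := by
    intro s
    have h := conj_fU ψ 0 s
    rw [zero_mul] at h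
    calc single (pr (dg s)) (1 : k) * fU ψ 0 =
        single (pr (dg s)) (1 : k) * fU ψ 0 *
          (single (pr (dg s⁻¹)) (1 : k) * single (pr (dg s)) (1 : k)) := by
          rw [single_inv_mul', mul_one]
      _ = (single (pr (dg s)) (1 : k) * fU ψ 0 * single (pr (dg s⁻¹)) (1 : k)) *
          single (pr (dg s)) (1 : k) := by simp only [mul_assoc]
      _ = _ := by rw [h]
  obtain ⟨g, hg⟩ := IsCyclic.exists_generator (α := Fˣ)
  let T : V →ₗ[k] V := LinearMap.codRestrict V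
      ((Algebra.lsmul k k M (single (pr (dg g)) (1 : k))).comp V.subtype) (fun v => by
        refine ⟨single (pr (dg g)) (1 : k) • (v : M), ?_⟩
        change fU ψ 0 • single (pr (dg g)) (1 : k) • (v : M) = single (pr (dg g)) (1 : k) • (v : M)
        rw [smul_smul, ← hcomm, ← smul_smul, hVe])
  obtain ⟨z, hz⟩ := Module.End.exists_eigenvalue T
  obtain ⟨v, hv⟩ := hz.exists_hasEigenvector
  have hv1 : single (pr (dg g)) (1 : k) • (v : M) = z • (v : M) :=
      congrArg Subtype.val hv.apply_eq_smul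
  have hv0 : (v : M) ≠ 0 := fun h => hv.2 (Subtype.ext h)
  have hpow : ∀ n : ℕ, single (pr (dg (g ^ n))) (1 : k) • (v : M) = z ^ n • (v : M) := by
    intro n
    induction n with
    | zero =>
      rw [pow_zero, dg_one, map_one, pow_zero, one_smul]
      exact one_smul _ _
    | succ n ih =>
      have : single (pr (dg (g ^ (n + 1)))) (1 : k) =
          single (pr (dg (g ^ n))) (1 : k) * single (pr (dg g)) (1 : k) := by
        rw [MonoidAlgebra.single_mul_single, ← map_mul, dg_mul, one_mul, pow_succ]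
      rw [this, mul_smul, hv1, smul_comm, ih, smul_smul, ← pow_succ']
  have hzo : z ^ orderOf g = 1 := by
    have := hpow (orderOf g)
    rw [pow_orderOf_eq_one, dg_one, map_one] at this
    have h2 : (single (1 : PSLF F) (1 : k)) • (v : M) = (v : M) := one_smul _ _
    rw [h2] at this
    have h3 : (z ^ orderOf g - 1) • (v : M) = 0 := by rw [sub_smul, ← this, one_smul, sub_self]
    exact sub_eq_zero.1 ((smul_eq_zero.1 h3).resolve_right hv0)
  have hz0 : z ≠ 0 := by
    rintro rfl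
    rw [zero_pow (orderOf_pos g).ne'] at hzo
    exact zero_ne_one hzo
  have hord : orderOf (Units.mk0 z hz0) ∣ orderOf g := by
    rw [orderOf_dvd_iff_pow_eq_one]
    ext
    simpa using hzo
  let Λ : Fˣ →* kˣ := monoidHomOfForallMemZpowers hg hord
  have hΛ : Λ g = Units.mk0 z hz0 := monoidHomOfForallMemZpowers_apply_gen hg hord
  have hΛt : ∀ t : Fˣ, single (pr (dg t)) (1 : k) • (v : M) = ((Λ t : kˣ) : k) • (v : M) := by
    intro t
    obtain ⟨n, hn⟩ := mem_powers_iff_mem_zpowers.2 (hg t)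
    have hn' : g ^ n = t := hn
    rw [← hn', hpow, map_pow, hΛ]; rfl
  refine ⟨Λ, ?_⟩
  rw [Ne, rk_eq_zero_iff]
  intro hall
  apply hv0
  rw [← hall (v : M)]
  symm
  unfold eB
  apply eid_smul_of_eigen (card_BB_ne h1)
  intro p
  obtain ⟨a, b, ha, hp⟩ := BB_form p
  have hpe : p.1 = uu (b * a) * dg a := by
    apply Subtype.ext
    rw [udg_val, hp]; simp
  have e1 : single (αB p) (1 : k) = single (pr (uu (b * a))) 1 * single (pr (dg a)) 1 := by
    rw [MonoidAlgebra.single_mul_single, ← map_mul, ← hpe, one_mul]; rfl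
  have e2 : bdiag p = a := by
    ext
    rw [bdiag_val, hp]; simp
  have e3 : single (pr (uu (b * a))) (1 : k) • (v : M) = (v : M) := by
    conv_lhs => rw [← hVe v]
    rw [smul_smul, single_fU, zero_mul, AddChar.map_zero_eq_one, one_smul, hVe]
  rw [e1, mul_smul, hΛt, smul_comm, e3]
  change _ = ((Λ (bdiag p) : kˣ) : k) • (v : M)
  rw [e2]

end module

end Cartan2
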