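import Pool.Agent.Cartan2.PSL

open Module Matrix

namespace Cartan2

universe u

open MonoidAlgebra (single)

variable {F : Type} [Field F] [Fintype F] [DecidableEq F]
variable {k : Type u} [Field k]

theorem uu_mul (a b : F) : uu a * uu b = uu (a + b) := by
  apply Subtype.ext
  change (uu a).1 * (uu b).1 = (uu (a + b)).1
  rw [uu_val, uu_val, uu_val, Matrix.mul_fin_two]
  simp [add_comm]

theorem dg_mul (a b : Fˣ) : dg a * dg b = dg (a * b) := by
  apply Subtype.ext
  change (dg a).1 * (dg b).1 = (dg (a * b)).1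
  rw [dg_val, dg_val, dg_val, Matrix.mul_fin_two]
  simp [mul_comm]

theorem uu_zero : (uu 0 : SLF F) = 1 := by
  apply Subtype.ext
  rw [uu_val]
  ext i j; fin_cases i <;> fin_cases j <;> simp

theorem dg_one : (dg 1 : SLF F) = 1 := by
  apply Subtype.ext
  rw [dg_val]
  ext i j; fin_cases i <;> fin_cases j <;> simp

theorem ww_mul_dg (t : Fˣ) : ww * dg t = dg t⁻¹ * (ww : SLF F) := by
  apply Subtype.ext
  change (ww).1 * (dg t).1 = (dg t⁻¹).1 * (ww).1
  rw [dg_val, dg_val, ww_val, Matrix.mul_fin_two, Matrix.mul_fin_two]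
  simp

theorem dg_mul_uu (t : Fˣ) (b : F) : dg t * uu b = uu (t * t * b) * dg t := by
  apply Subtype.ext
  change (dg t).1 * (uu b).1 = (uu _).1 * (dg t).1
  rw [dg_val, uu_val, uu_val, Matrix.mul_fin_two, Matrix.mul_fin_two]
  simp [mul_comm, mul_assoc]

/-- The unipotent subgroup. -/
def αU : Multiplicative F →* PSLF F where
  toFun b := pr (uu b.toAdd)
  map_one' := by
    change pr (uu 0) = 1
    rw [uu_zero, map_one]
  map_mul' a b := by
    rw [← map_mul, uu_mul]; rfl

theorem αU_apply (b : F) : αU (Multiplicative.ofAdd b) = pr (uu b) := rfl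

/-- The odd part of the Borel subgroup. -/
def BB (F : Type) [Field F] : Subgroup (SLF F) where
  carrier := {g | g.1 1 0 = 0 ∧ IsSquare (g.1 0 0)}
  one_mem' := by
    constructor
    · simp
    · exact ⟨1, by simp⟩
  mul_mem' := by
    intro a b ha hb
    simp only [Set.mem_ofPred_eq] at ha hb ⊢
    have h1 : (a * b).1 = a.1 * b.1 := rfl
    rw [h1]
    constructor
    · rw [Matrix.mul_apply, Fin.sum_univ_two, ha.1, hb.1]; ring
    · rw [Matrix.mul_apply, Fin.sum_univ_two, hb.1, mul_zero, add_zero]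
      exact ha.2.mul hb.2
  inv_mem' := by
    intro a ha
    simp only [Set.mem_ofPred_eq] at ha ⊢
    have h1 : (a⁻¹).1 = !![a.1 1 1, -a.1 0 1; -a.1 1 0, a.1 0 0] := by
      have := Matrix.SpecialLinearGroup.coe_inv a
      rw [Matrix.adjugate_fin_two] at this
      exact this
    have hdet : a.1 0 0 * a.1 1 1 = 1 := by
      have := a.2
      rw [Matrix.det_fin_two, ha.1, mul_zero, sub_zero] at this
      exact this
    rw [h1]
    constructor
    · simp [ha.1]
    · have : a.1 1 1 = (a.1 0 0)⁻¹ := eq_inv_of_mul_eq_one_right hdet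
      simp only [Matrix.of_apply, Matrix.cons_val', Matrix.cons_val_zero]
      change IsSquare (a.1 1 1)
      rw [this]
      exact ha.2.inv

theorem mem_BB {g : SLF F} : g ∈ BB F ↔ g.1 1 0 = 0 ∧ IsSquare (g.1 0 0) := Iff.rfl

theorem BB_form (p : BB F) : ∃ (a : Fˣ) (b : F), IsSquare (a : F) ∧
    p.1.1 = !![(a : F), b; 0, (a : F)⁻¹] := by
  obtain ⟨h1, h2⟩ := p.2
  have hdet : p.1.1 0 0 * p.1.1 1 1 = 1 := by
    have := p.1.2
    rw [Matrix.det_fin_two, h1, mul_zero, sub_zero] at this
    exact this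
  have h3 : p.1.1 1 1 = (p.1.1 0 0)⁻¹ := eq_inv_of_mul_eq_one_right hdet
  refine ⟨Units.mk0 (p.1.1 0 0) (left_ne_zero_of_mul_eq_one hdet), p.1.1 0 1, h2, ?_⟩
  ext i j; fin_cases i <;> fin_cases j <;> simp [h1, h3]

/-- The map to the torus. -/
def bdiag : BB F →* Fˣ where
  toFun p := Units.mk0 (p.1.1 0 0) (by
    obtain ⟨h1, h2⟩ := p.2
    intro h
    have := p.1.2
    rw [Matrix.det_fin_two, h1, h] at this
    simp at this)
  map_one' := by
    ext
    simp
  map_mul' a b := by
    ext
    have h1 : (a * b).1.1 = a.1.1 * b.1.1 := rfl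
    simp only [Units.val_mk0, Units.val_mul]
    rw [h1, Matrix.mul_apply, Fin.sum_univ_two, b.2.1, mul_zero, add_zero]

theorem bdiag_val (p : BB F) : ((bdiag p : Fˣ) : F) = p.1.1 0 0 := rfl

/-- The embedding of `BB`. -/
def αB : BB F →* PSLF F := pr.comp (BB F).subtype

theorem uu_mem (b : F) : uu b ∈ BB F := by
  rw [mem_BB, uu_val]
  exact ⟨by simp, ⟨1, by simp⟩⟩

theorem dg_mem {t : Fˣ} (ht : IsSquare (t : F)) : dg t ∈ BB F := by
  rw [mem_BB, dg_val]
  exact ⟨by simp, by simpa using ht⟩

theorem pr_ne_ww {g : SLF F} (hg : g ∈ BB F) : pr g ≠ pr ww := by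
  intro h
  rw [pr_eq_iff] at h
  have h10 := hg.1
  rcases h with h | h
  · rw [h, ww_val] at h10; simp at h10
  · rw [h, ww_val] at h10; simp at h10

/-- `pr` is injective on `BB`. -/
theorem pr_inj_BB (h1 : ¬ IsSquare (-1 : F)) {g h : SLF F} (hg : g ∈ BB F) (hh : h ∈ BB F)
    (hgh : pr g = pr h) : g = h := by
  rw [pr_eq_iff] at hgh
  rcases hgh with e | e
  · exact Subtype.ext e
  · exfalso
    obtain ⟨a, b, ha, hp⟩ := BB_form ⟨g, hg⟩
    obtain ⟨c, d, hc, hr⟩ := BB_form ⟨h, hh⟩
    change g.1 = _ at hp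
    change h.1 = _ at hr
    rw [hp, hr] at e
    have := congrFun (congrFun e 0) 0
    simp only [Matrix.of_apply, Matrix.cons_val', Matrix.cons_val_zero, Matrix.neg_apply] at this
    apply h1
    have h2 : (-1 : F) = a * (c : F)⁻¹ := by
      change (a : F) = -(c : F) at this
      rw [this]; simp
    rw [h2]
    exact ha.mul hc.inv

theorem odd_cast_ne [CharP k 2] {n : ℕ} (hn : Odd n) : (n : k) ≠ 0 := by
  rw [Ne, CharP.cast_eq_zero_iff k 2 n]
  exact hn.not_two_dvd_nat

omit [DecidableEq F] in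
theorem card_mod_four (h1 : ¬ IsSquare (-1 : F)) : Fintype.card F % 4 = 3 := by
  rw [FiniteField.isSquare_neg_one_iff] at h1
  push Not at h1
  exact h1

/-- `(q-1)/2` -/
noncomputable def N0 (F : Type) [Field F] : ℕ := Nat.card (SqF F)

theorem unit_ne_neg (h1 : ¬ IsSquare (-1 : F)) (t : F) (ht : t ≠ 0) : t ≠ -t := by
  intro h
  have h2 : (2 : F) * t = 0 := by linear_combination h
  rcases mul_eq_zero.1 h2 with h3 | h3
  · apply h1
    have : (-1 : F) = 1 := by linear_combination (-1 : F) * h3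
    rw [this]; exact ⟨1, by simp⟩
  · exact ht h3

/-- `Fˣ` is the product of the squares and `±1`. -/
noncomputable def unitsEquiv (h1 : ¬ IsSquare (-1 : F)) : SqF F × Bool ≃ Fˣ :=
  Equiv.ofBijective (fun x => if x.2 then x.1.1 else -x.1.1) (by
    constructor
    · rintro ⟨⟨t, ht⟩, s⟩ ⟨⟨t', ht'⟩, s'⟩ h
      have key : ∀ a b : Fˣ, IsSquare (a : F) → IsSquare (b : F) → a = -b → False := by
        intro a b ha hb hab
        apply h1
        have h2 : (-1 : F) = a * (b : F)⁻¹ := by rw [hab]; simp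
        rw [h2]
        exact ha.mul hb.inv
      cases s <;> cases s' <;> simp at h
      · simp [h]
      · exact (key t' t ht' ht h.symm).elim
      · exact (key t t' ht ht' h).elim
      · simp [h]
    · intro t
      rcases isSquare_or_neg h1 t.ne_zero with h | h
      · exact ⟨(⟨t, h⟩, true), by simp⟩
      · exact ⟨(⟨-t, by simpa using h⟩, false), by simp⟩)

theorem unitsEquiv_true (h1 : ¬ IsSquare (-1 : F)) (t : SqF F) :
    unitsEquiv h1 (t, true) = t.1 := rfl

theorem unitsEquiv_false (h1 : ¬ IsSquare (-1 : F)) (t : SqF F) :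
    unitsEquiv h1 (t, false) = -t.1 := rfl

theorem two_N0 (h1 : ¬ IsSquare (-1 : F)) : 2 * N0 F + 1 = Fintype.card F := by
  classical
  have h2 := Nat.card_congr (unitsEquiv h1)
  rw [Nat.card_prod, Nat.card_eq_fintype_card (α := Bool), Fintype.card_bool] at h2
  have h3 : Nat.card Fˣ + 1 = Fintype.card F := by
    rw [Nat.card_eq_fintype_card, Fintype.card_units]
    have := Fintype.card_pos (α := F)
    omega
  unfold N0
  omega

theorem odd_N0 (h1 : ¬ IsSquare (-1 : F)) : Odd (N0 F) := by
  have h2 := two_N0 h1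
  have h3 := card_mod_four h1
  rw [Nat.odd_iff]
  omega

theorem odd_card (h1 : ¬ IsSquare (-1 : F)) : Odd (Fintype.card F) := by
  have h3 := card_mod_four h1
  rw [Nat.odd_iff]
  omega

noncomputable instance : Fintype (BB F) := Fintype.ofFinite _

theorem card_BB : Nat.card (BB F) = N0 F * Fintype.card F := by
  let f : SqF F × F → BB F := fun x => ⟨uu (x.2 * x.1.1) * dg x.1.1,
    (BB F).mul_mem (uu_mem _) (dg_mem x.1.2)⟩
  have hf : Function.Bijective f := by
    constructor
    · rintro ⟨t, b⟩ ⟨t', b'⟩ h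
      have h2 := congrArg (fun g : BB F => g.1.1) h
      simp only [f] at h2
      rw [udg_val, udg_val] at h2
      have h3 := congrFun (congrFun h2 0) 0
      have h4 := congrFun (congrFun h2 0) 1
      simp at h3 h4
      rw [h4, show t = t' from Subtype.ext (Units.ext h3)]
    · intro p
      obtain ⟨a, b, ha, hp⟩ := BB_form p
      refine ⟨(⟨a, ha⟩, b), ?_⟩
      apply Subtype.ext; apply Subtype.ext
      change (uu (b * a) * dg a).1 = _
      rw [udg_val, hp]
      simp
  rw [← Nat.card_congr (Equiv.ofBijective f hf), Nat.card_prod, Nat.card_eq_fintype_card (α := F)]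
  rfl

theorem card_BB_ne [CharP k 2] (h1 : ¬ IsSquare (-1 : F)) : (Fintype.card (BB F) : k) ≠ 0 := by
  apply odd_cast_ne
  rw [← Nat.card_eq_fintype_card, card_BB]
  exact (odd_N0 h1).mul (odd_card h1)

theorem card_U_ne [CharP k 2] (h1 : ¬ IsSquare (-1 : F)) :
    (Fintype.card (Multiplicative F) : k) ≠ 0 := by
  apply odd_cast_ne
  rw [Fintype.card_multiplicative]
  exact odd_card h1

/-- Characters of `BB`. -/
def χB (Λ : Fˣ →* kˣ) : BB F →* kˣ := Λ.comp bdiag

/-- Characters of `U`. -/
def χU (ψ : AddChar F k) (c : F) : Multiplicative F →* kˣ :=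
  ((AddChar.mulShift ψ c).toMonoidHom).toHomUnits

theorem χU_val (ψ : AddChar F k) (c b : F) :
    ((χU ψ c (Multiplicative.ofAdd b) : kˣ) : k) = ψ (c * b) := rfl

/-- The idempotent of a character of the Borel subgroup. -/
noncomputable def eB (Λ : Fˣ →* kˣ) : MonoidAlgebra k (PSLF F) := eid αB (χB Λ)

/-- The idempotent of a character of the unipotent subgroup. -/
noncomputable def fU (ψ : AddChar F k) (c : F) : MonoidAlgebra k (PSLF F) := eid αU (χU ψ c)

theorem neg_one_char [CharP k 2] (Λ : Fˣ →* kˣ) : Λ (-1) = 1 := by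
  have h1 : Λ (-1) * Λ (-1) = 1 := by rw [← map_mul]; simp
  ext
  have h2 : ((Λ (-1) : kˣ) : k) * (Λ (-1) : kˣ) = 1 := by
    rw [← Units.val_mul, h1]; rfl
  have h3 : (((Λ (-1) : kˣ) : k) - 1) * (((Λ (-1) : kˣ) : k) - 1) = 0 := by
    have h20 : (2 : k) = 0 := CharP.cast_eq_zero k 2
    linear_combination h2 + (1 - ((Λ (-1) : kˣ) : k)) * h20
  simpa [sub_eq_zero] using h3

theorem char_eq_of_sq [CharP k 2] (h1 : ¬ IsSquare (-1 : F)) {Λ M : Fˣ →* kˣ}
    (h : ∀ t : Fˣ, IsSquare (t : F) → Λ t = M t) : Λ = M := by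
  ext t
  rcases isSquare_or_neg h1 t.ne_zero with ht | ht
  · rw [h t ht]
  · have h2 := h (-t) (by simpa using ht)
    have h3 : t = (-1) * (-t) := by simp
    rw [h3, map_mul, map_mul, h2, neg_one_char, neg_one_char]

theorem ite_iff {P Q : Prop} {dP : Decidable P} {dQ : Decidable Q} (h : P ↔ Q) :
    @ite ℕ P dP 1 0 = @ite ℕ Q dQ 1 0 := by
  by_cases hP : P
  · rw [if_pos hP, if_pos (h.1 hP)]
  · rw [if_neg hP, if_neg (fun hq => hP (h.2 hq))]

theorem bdiag_dg {t : Fˣ} (ht : IsSquare (t : F)) : bdiag ⟨dg t, dg_mem ht⟩ = t := by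
  ext
  rw [bdiag_val]
  change (dg t).1 0 0 = _
  rw [dg_val]; simp

theorem bdiag_uu (b : F) : bdiag ⟨uu b, uu_mem b⟩ = 1 := by
  ext
  rw [bdiag_val]
  change (uu b).1 0 0 = _
  rw [uu_val]; simp

theorem χB_dg (Λ : Fˣ →* kˣ) {t : Fˣ} (ht : IsSquare (t : F)) :
    χB Λ ⟨dg t, dg_mem ht⟩ = Λ t := by
  change Λ (bdiag ⟨dg t, dg_mem ht⟩) = _
  rw [bdiag_dg ht]

theorem χB_uu (Λ : Fˣ →* kˣ) (b : F) : χB Λ ⟨uu b, uu_mem b⟩ = 1 := by
  change Λ (bdiag ⟨uu b, uu_mem b⟩) = _
  rw [bdiag_uu, map_one]

open Classical in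
theorem card_bool (A : Bool → Prop) :
    Nat.card {i : Bool // A i} = (if A false then 1 else 0) + (if A true then 1 else 0) := by
  rw [Nat.card_eq_fintype_card, Fintype.card_subtype, Finset.card_filter, Fintype.sum_bool,
    add_comm]

open Classical in
theorem cdim_BB [CharP k 2] (h1 : ¬ IsSquare (-1 : F)) (Λ M : Fˣ →* kˣ) :
    cdim k (eB Λ) (eB M) = (if Λ = M then 1 else 0) + (if Λ = M⁻¹ then 1 else 0) := by
  unfold eB
  rw [mackey (card_BB_ne h1) (card_BB_ne h1) αB (χB Λ) αB (χB M)
    (ξ := Bool) (fun i => if i then pr ww else 1)]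
  · rw [card_bool]
    congr 1
    · -- the trivial double coset
      apply ite_iff
      simp only [Bool.false_eq_true, if_false, mul_one, one_mul]
      constructor
      · intro h
        apply char_eq_of_sq h1
        intro t ht
        rw [← χB_dg Λ ht, ← χB_dg M ht]
        exact h ⟨dg t, dg_mem ht⟩ ⟨dg t, dg_mem ht⟩ rfl
      · rintro rfl p r hpr
        have : p = r := Subtype.ext (pr_inj_BB h1 p.2 r.2 hpr)
        rw [this]
    · apply ite_iff
      simp only [if_true]
      constructor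
      · intro h
        apply char_eq_of_sq h1
        intro t ht
        have h2 := h ⟨dg t⁻¹, dg_mem (by simpa using ht.inv)⟩ ⟨dg t, dg_mem ht⟩ (by
          change pr (dg t⁻¹) * pr ww = pr ww * pr (dg t)
          rw [← map_mul, ← map_mul, ww_mul_dg])
        have ht' : IsSquare ((t⁻¹ : Fˣ) : F) := by simpa using ht.inv
        have h3 : (Λ t⁻¹ : kˣ) = M t := by
          rw [← χB_dg Λ ht', ← χB_dg M ht]; exact h2
        rw [map_inv] at h3
        change Λ t = (M t)⁻¹
        rw [← h3, inv_inv]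
      · rintro rfl p r hpr
        change pr p.1 * pr ww = pr ww * pr r.1 at hpr
        rw [← map_mul, ← map_mul, pr_eq_iff] at hpr
        obtain ⟨a, b, ha, hp⟩ := BB_form p
        obtain ⟨c, d, hc, hr⟩ := BB_form r
        have e1 : (p.1 * ww).1 = !![-b, (a : F); -(a : F)⁻¹, 0] := by
          change p.1.1 * (ww).1 = _
          rw [hp, ww_val, Matrix.mul_fin_two]; simp
        have e2 : (ww * r.1).1 = !![0, (c : F)⁻¹; -(c : F), -d] := by
          change (ww).1 * r.1.1 = _
          rw [hr, ww_val, Matrix.mul_fin_two]; simp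
        rw [e1, e2] at hpr
        have h3 : (a : F) = (c : F)⁻¹ := by
          rcases hpr with e | e
          · have := congrFun (congrFun e 0) 1
            simpa using this
          · exfalso
            have := congrFun (congrFun e 0) 1
            simp at this
            apply h1
            have h4 : (-1 : F) = a * c := by rw [this]; simp
            rw [h4]; exact ha.mul hc
        have h4 : bdiag p = (bdiag r)⁻¹ := by
          ext
          rw [bdiag_val, Units.val_inv_eq_inv_val, bdiag_val, hp, hr]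
          simpa using h3
        change M⁻¹ (bdiag p) = M (bdiag r)
        rw [h4, MonoidHom.inv_apply, map_inv, inv_inv]
  · intro g
    rcases bruhat h1 g with ⟨b, t, rfl⟩ | ⟨b, t, b', rfl⟩
    · refine ⟨false, ⟨uu b * dg t, (BB F).mul_mem (uu_mem b) (dg_mem t.2)⟩, 1, ?_⟩
      simp only [Bool.false_eq_true, if_false, mul_one, map_one]
      rfl
    · refine ⟨true, ⟨uu b, uu_mem b⟩, ⟨dg t * uu b', (BB F).mul_mem (dg_mem t.2) (uu_mem b')⟩, ?_⟩
      simp only [if_true]
      change _ = pr (uu b) * pr ww * pr (dg t * uu b')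
      rw [← map_mul, ← map_mul, ← mul_assoc]
  · intro i j p r h
    cases i <;> cases j <;> simp only [Bool.false_eq_true, if_false, if_true, mul_one] at h
    · rfl
    · exfalso
      change pr p.1 * pr r.1 = pr ww at h
      rw [← map_mul] at h
      exact pr_ne_ww ((BB F).mul_mem p.2 r.2) h
    · exfalso
      change pr p.1 * pr ww * pr r.1 = 1 at h
      have h2 : pr (p.1⁻¹ * r.1⁻¹) = pr ww := by
        rw [map_mul, map_inv, map_inv]
        have := congrArg (fun x => (pr p.1)⁻¹ * x * (pr r.1)⁻¹) h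
        rw [mul_one] at this
        rw [← this]
        group
      exact pr_ne_ww ((BB F).mul_mem ((BB F).inv_mem p.2) ((BB F).inv_mem r.2)) h2
    · rfl

theorem exists_psi_ne {ψ : AddChar F k} (hψ : ψ.IsPrimitive) {c : F} (hc : c ≠ 0) :
    ∃ b, ψ (c * b) ≠ 1 := by
  have h := hψ hc
  by_contra hcon
  push Not at hcon
  apply h
  ext b
  exact hcon b

theorem cdim_UB [CharP k 2] (h1 : ¬ IsSquare (-1 : F)) {ψ : AddChar F k} (hψ : ψ.IsPrimitive)
    {c : F} (hc : c ≠ 0) (Λ : Fˣ →* kˣ) : cdim k (fU ψ c) (eB Λ) = 1 := by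
  classical
  unfold eB fU
  rw [mackey (card_U_ne h1) (card_BB_ne h1) αU (χU ψ c) αB (χB Λ)
    (ξ := Bool) (fun i => if i then pr ww else 1)]
  · rw [card_bool, if_neg, if_pos, zero_add]
    · simp only [if_true]
      intro b r hbr
      change pr (uu b.toAdd) * pr ww = pr ww * pr r.1 at hbr
      rw [← map_mul, ← map_mul, pr_eq_iff] at hbr
      obtain ⟨a, d, ha, hr⟩ := BB_form r
      have e1 : (uu b.toAdd * ww).1 = !![-b.toAdd, 1; -1, 0] := by
        change (uu b.toAdd).1 * (ww).1 = _
        rw [uu_val, ww_val, Matrix.mul_fin_two]; simp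
      have e2 : (ww * r.1).1 = !![0, (a : F)⁻¹; -(a : F), -d] := by
        change (ww).1 * r.1.1 = _
        rw [hr, ww_val, Matrix.mul_fin_two]; simp
      rw [e1, e2] at hbr
      rcases hbr with e | e
      · have e00 := congrFun (congrFun e 0) 0
        have e10 := congrFun (congrFun e 1) 0
        simp at e00 e10
        have hb : b = Multiplicative.ofAdd 0 := e00
        have ha1 : bdiag r = 1 := by
          ext
          rw [bdiag_val, hr]
          simpa using e10.symm
        change χU ψ c b = Λ (bdiag r)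
        rw [ha1, map_one, hb]
        ext
        rw [χU_val]
        simp
      · exfalso
        have e10 := congrFun (congrFun e 1) 0
        simp at e10
        apply h1
        rw [e10]; exact ha
    · simp only [Bool.false_eq_true, if_false, mul_one, one_mul]
      intro h
      obtain ⟨b, hb⟩ := exists_psi_ne hψ hc
      have h2 := h (Multiplicative.ofAdd b) ⟨uu b, uu_mem b⟩ rfl
      rw [χB_uu] at h2
      apply hb
      rw [← χU_val, h2]; rfl
  · intro g
    rcases bruhat h1 g with ⟨b, t, rfl⟩ | ⟨b, t, b', rfl⟩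
    · refine ⟨false, Multiplicative.ofAdd b, ⟨dg t, dg_mem t.2⟩, ?_⟩
      simp only [Bool.false_eq_true, if_false, mul_one]
      change _ = pr (uu b) * pr (dg t)
      rw [← map_mul]
    · refine ⟨true, Multiplicative.ofAdd b, ⟨dg t * uu b', (BB F).mul_mem (dg_mem t.2) (uu_mem b')⟩, ?_⟩
      simp only [if_true]
      change _ = pr (uu b) * pr ww * pr (dg t * uu b')
      rw [← map_mul, ← map_mul, ← mul_assoc]
  · intro i j p r h
    cases i <;> cases j <;> simp only [Bool.false_eq_true, if_false, if_true, mul_one] at h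
    · rfl
    · exfalso
      change pr (uu p.toAdd) * pr r.1 = pr ww at h
      rw [← map_mul] at h
      exact pr_ne_ww ((BB F).mul_mem (uu_mem _) r.2) h
    · exfalso
      change pr (uu p.toAdd) * pr ww * pr r.1 = 1 at h
      have h2 : pr ((uu p.toAdd)⁻¹ * r.1⁻¹) = pr ww := by
        rw [map_mul, map_inv, map_inv]
        have := congrArg (fun x => (pr (uu p.toAdd))⁻¹ * x * (pr r.1)⁻¹) h
        rw [mul_one] at this
        rw [← this]
        group
      exact pr_ne_ww ((BB F).mul_mem ((BB F).inv_mem (uu_mem _)) ((BB F).inv_mem r.2)) h2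
    · rfl

/-- Coset representatives for `U \ G / U`. -/
def repU : SqF F ⊕ SqF F → PSLF F
  | Sum.inl t => pr (dg t)
  | Sum.inr t => pr (ww * dg t)

theorem sq_eq_of_neg (h1 : ¬ IsSquare (-1 : F)) {a b : F} (ha : IsSquare a) (hb : IsSquare b)
    (hb0 : b ≠ 0) (h : a = -b) : False := by
  apply h1
  have h2 : (-1 : F) = a * b⁻¹ := by rw [h]; field_simp
  rw [h2]; exact ha.mul hb.inv

theorem cdim_UU_aux [CharP k 2] (h1 : ¬ IsSquare (-1 : F)) {ψ : AddChar F k}
    (hψ : ψ.IsPrimitive) {c d : F} :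
    cdim k (fU ψ c) (fU ψ d) =
      Nat.card {t : SqF F // c * (t.1 * t.1) = d} + N0 F := by
  classical
  unfold fU
  have hF : Finite (SqF F) := inferInstance
  have : Fintype (SqF F) := Fintype.ofFinite _
  rw [mackey (card_U_ne h1) (card_U_ne h1) αU (χU ψ c) αU (χU ψ d) repU]
  · set adm : SqF F ⊕ SqF F → Prop := fun i => ∀ p r, αU p * repU i = repU i * αU r →
      χU ψ c p = χU ψ d r with hadm
    have hl : ∀ t : SqF F, adm (Sum.inl t) ↔ c * (t.1 * t.1) = d := by
      intro t
      have ht0 := t.1.ne_zero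
      constructor
      · intro h
        have hinj := AddChar.to_mulShift_inj_of_isPrimitive hψ
        apply hinj
        ext b
        rw [AddChar.mulShift_apply, AddChar.mulShift_apply]
        have h2 := h (Multiplicative.ofAdd ((t.1 : F) * t.1 * b)) (Multiplicative.ofAdd b) (by
          change pr (uu _) * pr (dg t.1) = pr (dg t.1) * pr (uu b)
          rw [← map_mul, ← map_mul, dg_mul_uu]; rfl)
        have h3 := congrArg (fun x : kˣ => (x : k)) h2
        simp only [χU_val] at h3
        rw [← h3]; congr 1; ring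
      · intro h p r hpr
        change pr (uu p.toAdd) * pr (dg t.1) = pr (dg t.1) * pr (uu r.toAdd) at hpr
        rw [← map_mul, ← map_mul, dg_mul_uu] at hpr
        have h2 := pr_inj_BB h1 ((BB F).mul_mem (uu_mem _) (dg_mem t.2))
          ((BB F).mul_mem (uu_mem _) (dg_mem t.2)) hpr
        have h3 := mul_right_cancel h2
        have h4 := congrFun (congrFun (congrArg Subtype.val h3) 0) 1
        rw [uu_val, uu_val] at h4
        simp at h4
        ext
        change ψ (c * p.toAdd) = ψ (d * r.toAdd)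
        rw [h4, ← h]; congr 1; ring
    have hr : ∀ t : SqF F, adm (Sum.inr t) := by
      intro t p r hpr
      have ht0 := t.1.ne_zero
      change pr (uu p.toAdd) * pr (ww * dg t.1) = pr (ww * dg t.1) * pr (uu r.toAdd) at hpr
      rw [← map_mul, ← map_mul, pr_eq_iff] at hpr
      have e1 : (uu p.toAdd * (ww * dg t.1)).1 =
          !![-p.toAdd * t.1, (t.1 : F)⁻¹; -(t.1 : F), 0] := by
        change (uu p.toAdd).1 * ((ww).1 * (dg t.1).1) = _
        rw [uu_val, ww_val, dg_val, Matrix.mul_fin_two, Matrix.mul_fin_two]; simp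
      have e2 : (ww * dg t.1 * uu r.toAdd).1 =
          !![0, (t.1 : F)⁻¹; -(t.1 : F), -(t.1 : F) * r.toAdd] := by
        change ((ww).1 * (dg t.1).1) * (uu r.toAdd).1 = _
        rw [uu_val, ww_val, dg_val, Matrix.mul_fin_two, Matrix.mul_fin_two]; simp
      rw [e1, e2] at hpr
      rcases hpr with e | e
      · have e00 := congrFun (congrFun e 0) 0
        have e11 := congrFun (congrFun e 1) 1
        simp at e00 e11
        ext
        change ψ (c * p.toAdd) = ψ (d * r.toAdd)
        rw [e00, e11]; simp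
      · exfalso
        have e10 := congrFun (congrFun e 1) 0
        simp at e10
        exact unit_ne_neg h1 _ ht0 (by linear_combination (-1 : F) * e10)
    rw [Nat.card_congr (Equiv.subtypeSum (p := adm)), Nat.card_sum]
    congr 1
    · exact Nat.card_congr (Equiv.subtypeEquivRight hl)
    · exact Nat.card_congr (Equiv.subtypeUnivEquiv hr)
  · intro g
    rcases bruhat h1 g with ⟨b, t, rfl⟩ | ⟨b, t, b', rfl⟩
    · refine ⟨Sum.inl t, Multiplicative.ofAdd b, 1, ?_⟩
      rw [map_one, mul_one]
      change _ = pr (uu b) * pr (dg t)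
      rw [← map_mul]
    · refine ⟨Sum.inr t, Multiplicative.ofAdd b, Multiplicative.ofAdd b', ?_⟩
      change _ = pr (uu b) * pr (ww * dg t) * pr (uu b')
      rw [← map_mul, ← map_mul, ← mul_assoc]
  · intro i j p r h
    rcases i with t | t <;> rcases j with s | s
    · change pr (uu p.toAdd) * pr (dg t.1) * pr (uu r.toAdd) = pr (dg s.1) at h
      rw [← map_mul, ← map_mul] at h
      have h2 := pr_inj_BB h1 ((BB F).mul_mem ((BB F).mul_mem (uu_mem _) (dg_mem t.2)) (uu_mem _))
        (dg_mem s.2) h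
      have h3 := congrFun (congrFun (congrArg Subtype.val h2) 0) 0
      have e1 : (uu p.toAdd * dg t.1 * uu r.toAdd).1 0 0 = t.1 := by
        change (((uu p.toAdd).1 * (dg t.1).1) * (uu r.toAdd).1) 0 0 = _
        rw [uu_val, dg_val, uu_val, Matrix.mul_fin_two, Matrix.mul_fin_two]; simp
      rw [e1, dg_val] at h3
      have : t = s := Subtype.ext (Units.ext (by simpa using h3))
      rw [this]
    · exfalso
      change pr (uu p.toAdd) * pr (dg t.1) * pr (uu r.toAdd) = pr (ww * dg s.1) at h
      have h2 : pr (uu p.toAdd * dg t.1 * uu r.toAdd * (dg s.1)⁻¹) = pr ww := by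
        rw [map_mul, map_mul, map_mul, h, map_mul, map_inv, mul_inv_cancel_right]
      exact pr_ne_ww ((BB F).mul_mem ((BB F).mul_mem ((BB F).mul_mem (uu_mem _) (dg_mem t.2))
        (uu_mem _)) ((BB F).inv_mem (dg_mem s.2))) h2
    · exfalso
      change pr (uu p.toAdd) * pr (ww * dg t.1) * pr (uu r.toAdd) = pr (dg s.1) at h
      have h2 : pr ((uu p.toAdd)⁻¹ * dg s.1 * (uu r.toAdd)⁻¹ * (dg t.1)⁻¹) = pr ww := by
        rw [map_mul, map_mul, map_mul, ← h, map_mul, map_inv, map_inv, map_inv]
        group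
      exact pr_ne_ww ((BB F).mul_mem ((BB F).mul_mem ((BB F).mul_mem ((BB F).inv_mem (uu_mem _))
        (dg_mem s.2)) ((BB F).inv_mem (uu_mem _))) ((BB F).inv_mem (dg_mem t.2))) h2
    · change pr (uu p.toAdd) * pr (ww * dg t.1) * pr (uu r.toAdd) = pr (ww * dg s.1) at h
      rw [← map_mul, ← map_mul, ← mul_assoc, pr_eq_iff, uwdu_val] at h
      have e1 : (ww * dg s.1).1 = !![0, (s.1 : F)⁻¹; -(s.1 : F), 0] := by
        change (ww).1 * (dg s.1).1 = _
        rw [ww_val, dg_val, Matrix.mul_fin_two]; simp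
      rw [e1] at h
      rcases h with e | e
      · have e10 := congrFun (congrFun e 1) 0
        simp at e10
        rw [show t = s from Subtype.ext (Units.ext e10)]
      · exfalso
        have e10 := congrFun (congrFun e 1) 0
        simp at e10
        exact sq_eq_of_neg h1 t.2 s.2 s.1.ne_zero (by linear_combination (-1 : F) * e10)

end Cartan2
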