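import Pool.Agent.Cartan2.PSLDim
import Pool.Agent.Cartan2.Brauer

open Module

namespace Cartan2

universe u

open MonoidAlgebra (single)

variable {F : Type} [Field F] [Fintype F] [DecidableEq F]
variable {k : Type u} [Field k]

theorem neg_one_char_two (h1 : ¬ IsSquare (-1 : F)) : (2 : F) ≠ 0 := by
  intro h
  apply h1
  have : (-1 : F) = 1 := by linear_combination (-1 : F) * h
  rw [this]; exact ⟨1, by simp⟩

theorem trace_of_conj {a h : SLF F} (hc : IsConj (pr a) (pr h)) :
    h.1.trace = a.1.trace ∨ h.1.trace = -a.1.trace := by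
  obtain ⟨c, hc⟩ := isConj_iff.1 hc
  obtain ⟨c, rfl⟩ := pr_surjective c
  rw [← map_mul, ← map_inv, ← map_mul] at hc
  have h1 : (c * a * c⁻¹).1.trace = a.1.trace := by
    change (c.1 * a.1 * (c⁻¹).1).trace = _
    rw [Matrix.trace_mul_comm, ← Matrix.mul_assoc]
    have : (c⁻¹).1 * c.1 = 1 := congrArg Subtype.val (inv_mul_cancel c)
    rw [this, Matrix.one_mul]
  rcases (pr_eq_iff _ _).1 hc with h2 | h2
  · left; rw [← h1, h2]
  · right; rw [← h1, h2, Matrix.trace_neg, neg_neg]

/-- The element of the non-split torus. -/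
def tor (x y : F) (h : x * x + y * y = 1) : SLF F := mk4 x y (-y) x (by rw [← h]; ring)

theorem tor_val {x y : F} (h : x * x + y * y = 1) : (tor x y h).1 = !![x, y; -y, x] := rfl

theorem pr_ww_sq : pr (ww : SLF F) * pr ww = 1 := by
  rw [← map_mul, ← map_one pr, pr_eq_iff]
  right
  change (ww).1 * (ww).1 = _
  rw [ww_val, Matrix.mul_fin_two]
  ext i j; fin_cases i <;> fin_cases j <;> simp

section

variable {x y : F} (h : x * x + y * y = 1)
include h

theorem sq_ne_one (hodd : Odd (orderOf (pr (tor x y h)))) (hne : pr (tor x y h) ≠ 1) :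
    pr (tor x y h) * pr (tor x y h) ≠ 1 := by
  intro h2
  apply hne
  rw [← pow_two] at h2
  have h3 := orderOf_dvd_of_pow_eq_one h2
  have h4 : orderOf (pr (tor x y h)) = 1 := by
    rcases (Nat.dvd_prime Nat.prime_two).1 h3 with h5 | h5
    · exact h5
    · rw [h5] at hodd; exact absurd hodd (by decide)
  exact orderOf_eq_one_iff.1 h4

theorem tor_x_ne (hodd : Odd (orderOf (pr (tor x y h)))) (hne : pr (tor x y h) ≠ 1) : x ≠ 0 := by
  intro hx
  apply sq_ne_one h hodd hne
  rw [← map_mul, ← map_one pr, pr_eq_iff]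
  right
  change (tor x y h).1 * (tor x y h).1 = _
  rw [tor_val, Matrix.mul_fin_two]
  have hy : y * y = 1 := by rw [hx] at h; simpa using h
  ext i j; fin_cases i <;> fin_cases j <;> simp [hx, hy]

theorem tor_y_ne (hne : pr (tor x y h) ≠ 1) : y ≠ 0 := by
  intro hy
  apply hne
  have hx : (x - 1) * (x + 1) = 0 := by rw [hy] at h; linear_combination h
  rw [← map_one pr, pr_eq_iff, tor_val]
  rcases mul_eq_zero.1 hx with h2 | h2
  · left
    rw [sub_eq_zero.1 h2, hy]
    ext i j; fin_cases i <;> fin_cases j <;> simp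
  · right
    rw [eq_neg_of_add_eq_zero_left h2, hy]
    ext i j; fin_cases i <;> fin_cases j <;> simp

theorem not_conj_BB (h1 : ¬ IsSquare (-1 : F)) (hne : pr (tor x y h) ≠ 1) (p : BB F) :
    ¬ IsConj (pr (tor x y h)) (pr p.1) := by
  intro hc
  have hy := tor_y_ne h hne
  obtain ⟨α, β, -, hp⟩ := BB_form p
  have ht := trace_of_conj hc
  have e1 : p.1.1.trace = α + (α : F)⁻¹ := by
    rw [hp, Matrix.trace_fin_two]; simp
  have e2 : (tor x y h).1.trace = 2 * x := by
    rw [tor_val, Matrix.trace_fin_two]; simp; ring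
  rw [e1, e2] at ht
  have hα : (α : F) ≠ 0 := α.ne_zero
  have key : ∀ z : F, z * z = x * x → (α : F) + (α : F)⁻¹ = 2 * z → False := by
    intro z hz h3
    apply h1
    refine ⟨((α : F) - z) / y, ?_⟩
    have h4 : (α : F) * α + 1 = 2 * z * α := by
      rw [← h3, add_mul, inv_mul_cancel₀ hα]
    field_simp
    linear_combination (-1 : F) * h4 + (-1 : F) * h + (-1 : F) * hz
  rcases ht with h3 | h3
  · exact key x rfl h3
  · exact key (-x) (by ring) (by rw [h3]; ring)

theorem brData_tor (h1 : ¬ IsSquare (-1 : F)) {u v : F} (huv : u * u + v * v = -1)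
    (hodd : Odd (orderOf (pr (tor x y h)))) (hne : pr (tor x y h) ≠ 1) :
    BrData (pr (tor x y h)) (pr ww) := by
  have hinv : ((tor x y h)⁻¹).1 = !![x, -y; y, x] := by
    have := Matrix.SpecialLinearGroup.coe_inv (tor x y h)
    rw [Matrix.adjugate_fin_two] at this
    change (↑(tor x y h)⁻¹ : Matrix (Fin 2) (Fin 2) F) = _
    rw [this]
    change !![(tor x y h).1 1 1, -(tor x y h).1 0 1; -(tor x y h).1 1 0, (tor x y h).1 0 0] = _
    rw [tor_val]
    ext i j; fin_cases i <;> fin_cases j <;> simp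
  refine ⟨pr_ww_sq, ?_, ?_, ?_, ?_⟩
  · rw [← map_mul, ← map_mul, pr_eq_iff]
    left
    change (tor x y h).1 * (ww).1 = (ww).1 * (tor x y h).1
    rw [tor_val, ww_val, Matrix.mul_fin_two, Matrix.mul_fin_two]
    simp
  · rw [isConj_iff]
    refine ⟨pr (mk4 u v v (-u) (by linear_combination (-1 : F) * huv)), ?_⟩
    rw [mul_inv_eq_iff_eq_mul, ← map_inv, ← map_mul, ← map_mul, pr_eq_iff]
    left
    change !![u, v; v, -u] * (tor x y h).1 = ((tor x y h)⁻¹).1 * !![u, v; v, -u]
    rw [hinv, tor_val, Matrix.mul_fin_two, Matrix.mul_fin_two]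
    ext i j; fin_cases i <;> fin_cases j <;> simp <;> ring
  · intro h2
    apply sq_ne_one h hodd hne
    nth_rw 2 [h2]
    exact mul_inv_cancel _
  · intro g hg hgt
    obtain ⟨g, rfl⟩ := pr_surjective g
    have ht := trace_of_conj hg
    have hx := tor_x_ne h hodd hne
    obtain ⟨p, q, r, s, hgv⟩ : ∃ p q r s, g.1 = !![p, q; r, s] :=
      ⟨_, _, _, _, Matrix.eta_fin_two _⟩
    have hdet : p * s - q * r = 1 := by
      have := g.2
      rw [hgv, Matrix.det_fin_two_of] at this
      exact this
    have h20 := neg_one_char_two h1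
    have e2 : (tor x y h).1.trace = 2 * x := by
      rw [tor_val, Matrix.trace_fin_two]; simp; ring
    have e3 : g.1.trace = p + s := by
      rw [hgv, Matrix.trace_fin_two]; simp
    rw [e2, e3] at ht
    rw [← map_mul, ← map_mul, pr_eq_iff] at hgt
    have e4 : (g * ww).1 = !![-q, p; -s, r] := by
      change g.1 * (ww).1 = _
      rw [hgv, ww_val, Matrix.mul_fin_two]; simp
    have e5 : (ww * g).1 = !![r, s; -p, -q] := by
      change (ww).1 * g.1 = _
      rw [hgv, ww_val, Matrix.mul_fin_two]; simp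
    rw [e4, e5] at hgt
    rcases hgt with e | e
    · have e00 := congrFun (congrFun e 0) 0
      have e01 := congrFun (congrFun e 0) 1
      simp at e00 e01
      -- r = -q, p = s
      subst e01
      have hr : r = -q := e00.symm
      subst hr
      have hpx : p = x ∨ p = -x := by
        rcases ht with h3 | h3
        · left
          have : (2 : F) * (p - x) = 0 := by linear_combination h3
          exact sub_eq_zero.1 ((mul_eq_zero.1 this).resolve_left h20)
        · right
          have : (2 : F) * (p + x) = 0 := by linear_combination h3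
          exact eq_neg_of_add_eq_zero_left ((mul_eq_zero.1 this).resolve_left h20)
      have hp2 : p * p = x * x := by rcases hpx with h3 | h3 <;> rw [h3] <;> ring
      have hqy : q = y ∨ q = -y := by
        have : (q - y) * (q + y) = 0 := by linear_combination hdet - hp2 - h
        rcases mul_eq_zero.1 this with h3 | h3
        · left; exact sub_eq_zero.1 h3
        · right; exact eq_neg_of_add_eq_zero_left h3
      rcases hpx with h3 | h3 <;> rcases hqy with h4 | h4
      · left; rw [pr_eq_iff]; left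
        rw [hgv, tor_val, h3, h4]
      · right; rw [← map_inv, pr_eq_iff]; left
        rw [hgv, hinv, h3, h4]; simp
      · right; rw [← map_inv, pr_eq_iff]; right
        rw [hgv, hinv, h3, h4]
        ext i j; fin_cases i <;> fin_cases j <;> simp
      · left; rw [pr_eq_iff]; right
        rw [hgv, tor_val, h3, h4]
        ext i j; fin_cases i <;> fin_cases j <;> simp
    · exfalso
      have e01 := congrFun (congrFun e 0) 1
      simp at e01
      apply hx
      have : (2 : F) * x = 0 := by
        rcases ht with h3 | h3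
        · rw [← h3, e01]; ring
        · have : (2 : F) * x = -(p + s) := by rw [h3]; ring
          rw [this, e01]; ring
      exact (mul_eq_zero.1 this).resolve_left h20

end

theorem coeff_eid {G : Type} [Group G] [Fintype G] [DecidableEq G] {P : Type} [Group P]
    [Fintype P] (α : P →* G) (χ : P →* kˣ) (g : G) :
    (eid α χ).coeff g = (Fintype.card P : k)⁻¹ *
      ∑ p, if α p = g then (((χ p)⁻¹ : kˣ) : k) else 0 := by
  unfold eid
  rw [MonoidAlgebra.coeff_smul, Finsupp.smul_apply, smul_eq_mul]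
  congr 1
  rw [MonoidAlgebra.coeff_sum, Finset.sum_apply']
  refine Finset.sum_congr rfl fun p _ => ?_
  rw [MonoidAlgebra.coeff_single, Finsupp.single_apply]

theorem char_ne_inv [CharP k 2] {Λ : Fˣ →* kˣ} (hΛ : Λ ≠ 1) : Λ ≠ Λ⁻¹ := by
  intro h
  apply hΛ
  ext t
  have h1 : Λ t * Λ t = 1 := by
    have := congrArg (fun M : Fˣ →* kˣ => M t) h
    simp only [MonoidHom.inv_apply] at this
    nth_rw 1 [this]
    exact inv_mul_cancel _
  have h2 : ((Λ t : kˣ) : k) * (Λ t : kˣ) = 1 := by
    rw [← Units.val_mul, h1]; rfl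
  have h3 : (((Λ t : kˣ) : k) - 1) * (((Λ t : kˣ) : k) - 1) = 0 := by
    have h20 : (2 : k) = 0 := CharP.cast_eq_zero k 2
    linear_combination h2 + (1 - ((Λ t : kˣ) : k)) * h20
  simpa [sub_eq_zero] using h3

theorem clsum_mul_eB [CharP k 2] (h1 : ¬ IsSquare (-1 : F)) {x y : F} (h : x * x + y * y = 1)
    (hne : pr (tor x y h) ≠ 1) {Λ : Fˣ →* kˣ} (hΛ : Λ ≠ 1) :
    clsum k (pr (tor x y h)) * eB (F := F) Λ = 0 := by
  classical
  obtain ⟨e, he⟩ : ∃ e : MonoidAlgebra k (PSLF F), e = eB (F := F) Λ := ⟨_, rfl⟩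
  have hid : e * e = e := by rw [he]; exact eid_idem (card_BB_ne h1) _ _
  have hcd : finrank k (corner k e e) = 1 := by
    have := cdim_BB h1 Λ Λ
    rw [if_pos rfl, if_neg (char_ne_inv hΛ)] at this
    rw [he]
    exact this
  have hinj : Function.Injective (αB : BB F →* PSLF F) := by
    intro p r hpr
    exact Subtype.ext (pr_inj_BB h1 p.2 r.2 hpr)
  have he1 : e.coeff 1 ≠ 0 := by
    rw [he, eB, coeff_eid, Finset.sum_eq_single 1]
    · rw [if_pos (map_one _), map_one, inv_one]
      simp [card_BB_ne h1]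
    · intro p _ hp
      rw [if_neg]
      intro h2
      apply hp
      apply hinj
      rw [h2, map_one]
    · intro h2; exact absurd (Finset.mem_univ _) h2
  have he0 : e ≠ 0 := by
    intro h2; rw [h2] at he1; exact he1 rfl
  have hmem : e ∈ corner k e e := (mem_corner hid hid).2 ⟨hid, hid⟩
  have hze : clsum k (pr (tor x y h)) * e ∈ corner k e e := by
    rw [mem_corner hid hid]
    constructor
    · rw [← mul_assoc, ← clsum_central, mul_assoc, hid]
    · rw [mul_assoc, hid]
  obtain ⟨c, hc⟩ := (finrank_eq_one_iff_of_nonzero' (⟨e, hmem⟩ : corner k e e)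
    (fun h0 => he0 (congrArg Subtype.val h0))).1 hcd ⟨_, hze⟩
  have hc' : c • e = clsum k (pr (tor x y h)) * e := congrArg Subtype.val hc
  have hz1 : (clsum k (pr (tor x y h)) * e).coeff 1 = 0 := by
    rw [coeff_mul']
    apply Finset.sum_eq_zero
    intro g _
    rw [coeff_clsum]
    by_cases hg : IsConj (pr (tor x y h)) g
    · rw [if_pos hg, one_mul, mul_one, he, eB, coeff_eid, Finset.sum_eq_zero, mul_zero]
      intro p _
      rw [if_neg]
      intro h2
      apply not_conj_BB h h1 hne p⁻¹
      have h3 : g = pr (p⁻¹ : BB F).1 := by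
        have : (αB p)⁻¹ = g := by rw [h2, inv_inv]
        rw [← this]
        change (pr p.1)⁻¹ = pr (p.1⁻¹)
        rw [map_inv]
      rw [← h3]
      exact hg
    · rw [if_neg hg, zero_mul]
  have hc0 : c = 0 := by
    rw [← hc', MonoidAlgebra.coeff_smul, Finsupp.smul_apply, smul_eq_mul] at hz1
    exact (mul_eq_zero.1 hz1).resolve_right he1
  rw [← he, ← hc', hc0, zero_smul]

/-- The class sum kills the modules `i Λ`, `Λ ≠ 1`. -/
theorem omega_eB [CharP k 2] (h1 : ¬ IsSquare (-1 : F)) {x y : F} (h : x * x + y * y = 1)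
    (hne : pr (tor x y h) ≠ 1) {ι : Type} (Z : SimpleSys k (MonoidAlgebra k (PSLF F)) ι)
    {Λ : Fˣ →* kˣ} (hΛ : Λ ≠ 1) {i : ι} (hi : rk k (eB (F := F) Λ) (Z.S i) ≠ 0) :
    Z.omega (clsum k (pr (tor x y h))) (clsum_central _) i = 0 := by
  rw [Ne, rk_eq_zero_iff] at hi
  push Not at hi
  obtain ⟨s, hs⟩ := hi
  have h5 := Z.omega_spec (clsum_central (k := k) (pr (tor x y h))) i (eB (F := F) Λ • s)
  have h6 : clsum k (pr (tor x y h)) • (eB (F := F) Λ • s) = 0 := by
    rw [smul_smul, clsum_mul_eB h1 h hne hΛ, zero_smul]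
  rw [h6] at h5
  exact (smul_eq_zero.1 h5.symm).resolve_right hs

end Cartan2
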