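import Pool.Agent.Cartan2.Exist
import Pool.Agent.Cartan2.Defs

open Module

namespace Cartan2

universe u

section Corner

variable {k A : Type u} [Field k] [Ring A] [Algebra k A]

/-- The subspace `e A f` of `A`. -/
def corner (k : Type u) {A : Type u} [Field k] [Ring A] [Algebra k A] (e f : A) :
    Submodule k A :=
  LinearMap.range ((LinearMap.mulLeft k e).comp (LinearMap.mulRight k f))

theorem mem_corner {e f x : A} (he : e * e = e) (hf : f * f = f) :
    x ∈ corner k e f ↔ e * x = x ∧ x * f = x := by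
  constructor
  · rintro ⟨y, rfl⟩
    simp only [LinearMap.comp_apply, LinearMap.mulLeft_apply, LinearMap.mulRight_apply]
    constructor
    · rw [← mul_assoc, he]
    · rw [mul_assoc, mul_assoc, hf]
  · rintro ⟨h1, h2⟩
    exact ⟨x, by simp [h1, h2]⟩

theorem mul_mem_corner (e f x : A) : e * x * f ∈ corner k e f :=
  ⟨x, by simp [mul_assoc]⟩

/-- The dimension of `e A f`. -/
noncomputable def cdim (k : Type u) {A : Type u} [Field k] [Ring A] [Algebra k A] (e f : A) : ℕ :=
  finrank k (corner k e f)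

/-- The left ideal `A f`. -/
def lid (f : A) : Submodule A A := Ideal.span {f}

theorem mem_lid {f x : A} : x ∈ lid f ↔ ∃ a, a * f = x := Ideal.mem_span_singleton'

theorem mem_lid_idem {f x : A} (hf : f * f = f) : x ∈ lid f ↔ x * f = x := by
  rw [mem_lid]
  constructor
  · rintro ⟨a, rfl⟩
    rw [mul_assoc, hf]
  · intro h
    exact ⟨x, h⟩

theorem rk_lid {e f : A} : rk k e (lid f) = cdim k e f := by
  unfold rk cdim
  have h1 : (LinearMap.range (Algebra.lsmul k k (lid f) e)).map
      ((lid f).subtype.restrictScalars k) = corner k e f := by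
    ext x
    simp only [Submodule.mem_map, LinearMap.mem_range]
    constructor
    · rintro ⟨y, ⟨⟨z, hz⟩, rfl⟩, rfl⟩
      obtain ⟨a, rfl⟩ := mem_lid.1 hz
      exact ⟨a, by simp⟩
    · rintro ⟨a, rfl⟩
      refine ⟨⟨e * (a * f), ?_⟩, ⟨⟨a * f, mem_lid.2 ⟨a, rfl⟩⟩, rfl⟩, by simp⟩
      exact mem_lid.2 ⟨e * a, by rw [mul_assoc]⟩
  have i1 : Function.Injective ((lid f).subtype.restrictScalars k) := Subtype.val_injective
  rw [(Submodule.equivMapOfInjective _ i1 _).finrank_eq, h1]

end Corner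

namespace SimpleSys

variable {k A : Type u} [Field k] [Ring A] [Algebra k A] {ι : Type} (Z : SimpleSys k A ι)

/-- The Cartan numbers. -/
noncomputable def c (i j : ι) : ℕ := cdim k (Z.ε j) (Z.ε i)

theorem rk_lid_c (i j : ι) : rk k (Z.ε j) (lid (Z.ε i)) = Z.c i j := rk_lid

/-- An element killing all simple modules lies in the Jacobson radical. -/
theorem mem_jac {x : A} (h : ∀ i (s : Z.S i), x • s = 0) : x ∈ Ring.jacobson A := by
  rw [Ring.jacobson_eq_sInf_isMaximal, Ideal.mem_sInf]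
  intro I hI
  have : IsSimpleModule A (A ⧸ I) := isSimpleModule_iff_isCoatom.2 (Ideal.isMaximal_def.1 hI)
  obtain ⟨i, ⟨f⟩⟩ := Z.complete (A ⧸ I)
  have h1 : x • (Submodule.Quotient.mk (1 : A) : A ⧸ I) = 0 := by
    apply f.injective
    rw [map_smul, h, map_zero]
  rw [← Submodule.Quotient.mk_smul, Submodule.Quotient.mk_eq_zero] at h1
  simpa using h1

/-- A generator of the line `ε i S i`. -/
theorem exists_gen (i : ι) : ∃ s : Z.S i, s ≠ 0 ∧ Z.ε i • s = s ∧
    ∀ t : Z.S i, ∃ c : k, Z.ε i • t = c • s := by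
  have h := Z.rk_self i
  unfold rk at h
  obtain ⟨⟨v, ⟨w, hw⟩⟩, hv, hv2⟩ := finrank_eq_one_iff'.1 h
  have hv3 : v ≠ 0 := fun h0 => hv (Subtype.ext h0)
  refine ⟨v, hv3, ?_, ?_⟩
  · rw [← hw]
    change Z.ε i • (Z.ε i • w) = Z.ε i • w
    rw [smul_smul, Z.idem]
  · intro t
    obtain ⟨c, hc⟩ := hv2 ⟨Z.ε i • t, ⟨t, rfl⟩⟩
    exact ⟨c, (congrArg Subtype.val hc).symm⟩

theorem ε_smul_ne {i j : ι} (hij : i ≠ j) (s : Z.S j) : Z.ε i • s = 0 :=
  (rk_eq_zero_iff (k := k) (Z.ε i)).1 (Z.rk_ne i j hij) s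

theorem ε_ne_zero (i : ι) : Z.ε i ≠ 0 := by
  intro h
  have := Z.rk_self i
  rw [h, rk_zero] at this
  exact zero_ne_one this

/-- `A ε i` is a projective cover of `S i`. -/
theorem projectiveCover [FiniteDimensional k A] (i : ι) :
    IsProjectiveCover A (ModuleCat.of A (lid (Z.ε i))) (ModuleCat.of A (Z.S i)) := by
  have : IsArtinianRing A := IsArtinianRing.of_finite k A
  refine ⟨?_, ?_⟩
  · refine Module.Projective.of_split (P := lid (Z.ε i)) (M := A) ((lid (Z.ε i)).subtype)
      (LinearMap.codRestrict (lid (Z.ε i)) (LinearMap.toSpanSingleton A A (Z.ε i)) ?_) ?_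
    · intro a
      exact mem_lid.2 ⟨a, rfl⟩
    · ext x
      have := (mem_lid_idem (Z.idem i)).1 x.2
      simpa using this
  · obtain ⟨s, hs, hs1, hs2⟩ := Z.exists_gen i
    refine ⟨(LinearMap.toSpanSingleton A (Z.S i) s).comp (lid (Z.ε i)).subtype, ?_, ?_⟩
    · intro t
      obtain ⟨a, ha⟩ := (isSimpleModule_iff_toSpanSingleton_surjective.1
        (inferInstance : IsSimpleModule A (Z.S i))).2 s hs t
      refine ⟨⟨a * Z.ε i, mem_lid.2 ⟨a, rfl⟩⟩, ?_⟩
      change (a * Z.ε i) • s = t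
      rw [mul_smul, hs1]
      exact ha
    · intro N hN
      have h1 : (⟨Z.ε i, mem_lid.2 ⟨1, one_mul _⟩⟩ : lid (Z.ε i)) ∈ N ⊔ LinearMap.ker
          ((LinearMap.toSpanSingleton A (Z.S i) s).comp (lid (Z.ε i)).subtype) := by
        rw [hN]; trivial
      obtain ⟨n, hn, j, hj, hnj⟩ := Submodule.mem_sup.1 h1
      have hnj' : (n : A) + (j : A) = Z.ε i := congrArg Subtype.val hnj
      have hj' : (j : A) • s = 0 := hj
      have hje : (j : A) * Z.ε i = j := (mem_lid_idem (Z.idem i)).1 j.2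
      have hjJ : (j : A) ∈ Ring.jacobson A := by
        apply Z.mem_jac
        intro l t
        by_cases hl : i = l
        · subst hl
          obtain ⟨c, hc⟩ := hs2 t
          rw [← hje, mul_smul, hc, smul_comm, hj', smul_zero]
        · rw [← hje, mul_smul, Z.ε_smul_ne hl, smul_zero]
      have hu : IsUnit (1 - (j : A)) := (jacobson_nilpotent hjJ).isUnit_one_sub
      obtain ⟨u, hu⟩ := hu
      have hε : (⟨Z.ε i, mem_lid.2 ⟨1, one_mul _⟩⟩ : lid (Z.ε i)) =
          (↑(u⁻¹) : A) • n := by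
        apply Subtype.ext
        change Z.ε i = (↑(u⁻¹) : A) * (n : A)
        have : (n : A) = (u : A) * Z.ε i := by
          rw [hu, sub_mul, one_mul, hje]; exact eq_sub_of_add_eq hnj'
        rw [this, ← mul_assoc, Units.inv_mul, one_mul]
      rw [eq_top_iff]
      intro x _
      have hx : x = (x : A) • (⟨Z.ε i, mem_lid.2 ⟨1, one_mul _⟩⟩ : lid (Z.ε i)) := by
        apply Subtype.ext
        exact ((mem_lid_idem (Z.idem i)).1 x.2).symm
      rw [hx, hε]
      exact N.smul_mem _ (N.smul_mem _ hn)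

theorem _root_.Cartan2.telescope {n : ℕ} (f : Fin (n + 1) → ℕ) (δ : Fin n → ℕ)
    (h : ∀ t, f t.succ = f t.castSucc + δ t) : f (Fin.last n) = f 0 + ∑ t, δ t := by
  induction n with
  | zero => simp
  | succ n ih =>
    have h1 := ih (fun t => f t.castSucc) (fun t => δ t.castSucc) (fun t => by
      have := h t.castSucc
      rwa [Fin.succ_castSucc] at this)
    rw [Fin.sum_univ_castSucc, ← add_assoc]
    have h2 := h (Fin.last n)
    rw [Fin.succ_last] at h2
    rw [h2, h1]
    rfl

theorem hasMultiplicity (M : Type u) [AddCommGroup M] [Module A M] [Module k M]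
    [IsScalarTower k A M] [FiniteDimensional k M] (j : ι) :
    HasMultiplicity A (ModuleCat.of A M) (ModuleCat.of A (Z.S j)) (rk k (Z.ε j) M) := by
  classical
  have hN : IsNoetherian A M := isNoetherian_of_tower k inferInstance
  have hA : IsArtinian A M := isArtinian_of_tower k inferInstance
  obtain ⟨s, hs1, hs2⟩ := exists_compositionSeries_of_isNoetherian_isArtinian A M
  refine ⟨s.length, s.toFun, hs1, hs2, fun t => s.step t, ?_⟩
  have key : ∀ t : Fin s.length, rk k (Z.ε j) (s t.succ) = rk k (Z.ε j) (s t.castSucc) +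
      if FactorIso A (ModuleCat.of A M) (ModuleCat.of A (Z.S j)) (s t.castSucc) (s t.succ)
        then 1 else 0 := by
    intro t
    have hle : s t.castSucc ≤ s t.succ := (s.step t).le
    haveI := fd_sub (k := k) (s t.succ)
    haveI := fd_sub (k := k) (s t.castSucc)
    rw [rk_add (Z.idem j) ((s t.castSucc).submoduleOf (s t.succ)),
      rk_congr (Z.ε j) (Submodule.submoduleOfEquivOfLe hle)]
    congr 1
    have hsim : IsSimpleModule A (↥(s t.succ) ⧸ (s t.castSucc).submoduleOf (s t.succ)) :=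
      (covBy_iff_quot_is_simple hle).1 (s.step t)
    obtain ⟨i, ⟨f⟩⟩ := Z.complete (↥(s t.succ) ⧸ (s t.castSucc).submoduleOf (s t.succ))
    rw [rk_congr (Z.ε j) f]
    by_cases hij : j = i
    · subst hij
      rw [if_pos ⟨f⟩, Z.rk_self]
    · rw [if_neg, Z.rk_ne j i hij]
      rintro ⟨g⟩
      exact hij (Z.eq_of_iso ⟨g.symm.trans f⟩)
  have h1 := telescope (fun t => rk k (Z.ε j) (s t)) _ key
  have h2 : rk k (Z.ε j) (s 0) = 0 := by
    have : s 0 = ⊥ := hs1
    rw [this]
    exact rk_subsingleton _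
  have h3 : rk k (Z.ε j) (s (Fin.last _)) = rk k (Z.ε j) M := by
    have : s (Fin.last _) = ⊤ := hs2
    rw [this]
    exact rk_congr _ Submodule.topEquiv
  rw [h3, h2, zero_add] at h1
  rw [h1, Finset.sum_boole, Nat.card_eq_fintype_card, Fintype.card_subtype]
  rfl

/-- The numbers `c i j = dim ε j A ε i` form the Cartan matrix. -/
theorem isCartanMatrix [FiniteDimensional k A] : IsCartanMatrix A Z.c := by
  refine ⟨fun i => ModuleCat.of A (Z.S i), fun i => ModuleCat.of A (lid (Z.ε i)),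
    fun i => Z.simple i, fun i j h => Z.eq_of_iso h, ?_, fun i => Z.projectiveCover i, ?_⟩
  · intro T hT
    exact Z.complete T
  · intro i j
    haveI := fd_sub (k := k) (lid (Z.ε i))
    rw [← Z.rk_lid_c i j]
    exact Z.hasMultiplicity (lid (Z.ε i)) j

end SimpleSys

end Cartan2
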