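import Mathlib

open Module

namespace Cartan2

universe u v w

section Rank

variable (k : Type u) [Field k] {A : Type v} [Ring A] [Algebra k A]

/-- The rank of (the action of) an element `e` of a `k`-algebra on a module. -/
noncomputable def rk (e : A) (M : Type w) [AddCommGroup M] [Module k M] [Module A M]
    [IsScalarTower k A M] : ℕ :=
  finrank k (LinearMap.range (Algebra.lsmul k k M e))

variable {k}
variable {M : Type*} [AddCommGroup M] [Module k M] [Module A M] [IsScalarTower k A M]
variable {M' : Type*} [AddCommGroup M'] [Module k M'] [Module A M'] [IsScalarTower k A M']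

theorem rk_congr (e : A) (f : M ≃ₗ[A] M') : rk k e M = rk k e M' := by
  unfold rk
  let g : M ≃ₗ[k] M' := f.restrictScalars k
  have : LinearMap.range (Algebra.lsmul k k M' e) =
      (LinearMap.range (Algebra.lsmul k k M e)).map (g : M →ₗ[k] M') := by
    ext x
    simp only [LinearMap.mem_range, Submodule.mem_map, Algebra.lsmul_coe]
    constructor
    · rintro ⟨y, rfl⟩
      exact ⟨e • f.symm y, ⟨_, rfl⟩, by simp [g]⟩
    · rintro ⟨_, ⟨y, rfl⟩, rfl⟩
      exact ⟨f y, by simp [g]⟩
  rw [this]
  exact (LinearEquiv.finrank_map_eq g _).symm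

theorem rk_one [FiniteDimensional k M] : rk k (1 : A) M = finrank k M := by
  unfold rk
  rw [map_one]
  have : LinearMap.range (1 : Module.End k M) = ⊤ := LinearMap.range_id
  rw [this, finrank_top]

theorem rk_zero : rk k (0 : A) M = 0 := by
  unfold rk
  rw [map_zero, LinearMap.range_zero, finrank_bot]

theorem rk_subsingleton [Subsingleton M] (e : A) : rk k e M = 0 := by
  unfold rk
  exact finrank_zero_of_subsingleton

theorem rk_eq_zero_iff [FiniteDimensional k M] (e : A) : rk k e M = 0 ↔ ∀ m : M, e • m = 0 := by
  unfold rk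
  rw [Submodule.finrank_eq_zero, LinearMap.range_eq_bot]
  constructor
  · intro h m
    have := LinearMap.congr_fun h m
    simpa using this
  · intro h
    ext m
    simpa using h m

/-- Additivity of the rank of an idempotent. -/
theorem rk_add [FiniteDimensional k M] {e : A} (he : e * e = e) (N : Submodule A M) :
    rk k e M = rk k e N + rk k e (M ⧸ N) := by
  unfold rk
  set E := Algebra.lsmul k k M e with hE
  let q : M →ₗ[k] M ⧸ N := (N.mkQ).restrictScalars k
  let φ : LinearMap.range E →ₗ[k] M ⧸ N := q.domRestrict (LinearMap.range E)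
  have h1 := LinearMap.finrank_range_add_finrank_ker φ
  have h2 : LinearMap.range φ = LinearMap.range (Algebra.lsmul k k (M ⧸ N) e) := by
    ext x
    constructor
    · rintro ⟨⟨_, ⟨y, rfl⟩⟩, rfl⟩
      exact ⟨N.mkQ y, by simp [φ, q, hE]⟩
    · rintro ⟨y, rfl⟩
      obtain ⟨y, rfl⟩ := N.mkQ_surjective y
      exact ⟨⟨E y, ⟨y, rfl⟩⟩, by simp [φ, q, hE]⟩
  have h3 : finrank k (LinearMap.ker φ) =
      finrank k (LinearMap.range (Algebra.lsmul k k N e)) := by
    have e1 : (LinearMap.ker φ).map (LinearMap.range E).subtype =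
        (LinearMap.range (Algebra.lsmul k k N e)).map (N.subtype.restrictScalars k) := by
      ext x
      simp only [Submodule.mem_map]
      constructor
      · rintro ⟨⟨y, ⟨z, rfl⟩⟩, hy, rfl⟩
        have hy' : (E z) ∈ N := by
          have : φ ⟨E z, ⟨z, rfl⟩⟩ = 0 := hy
          simpa [φ, q] using this
        refine ⟨⟨E z, hy'⟩, ⟨⟨E z, hy'⟩, ?_⟩, rfl⟩
        apply Subtype.ext
        simp only [hE, Algebra.lsmul_coe, Submodule.coe_smul, smul_smul, he]
      · rintro ⟨y, ⟨z, rfl⟩, rfl⟩
        refine ⟨⟨E z, ⟨z, rfl⟩⟩, ?_, ?_⟩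
        · rw [LinearMap.mem_ker]
          change N.mkQ (e • (z : M)) = 0
          rw [Submodule.mkQ_apply, Submodule.Quotient.mk_eq_zero]
          exact N.smul_mem e z.2
        · simp [hE]
    have i1 : Function.Injective (LinearMap.range E).subtype := Subtype.val_injective
    have i2 : Function.Injective (N.subtype.restrictScalars k) := Subtype.val_injective
    rw [(Submodule.equivMapOfInjective _ i1 (LinearMap.ker φ)).finrank_eq, e1,
      ← (Submodule.equivMapOfInjective _ i2 _).finrank_eq]
  rw [← h1, h2, h3, add_comm]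

theorem fd_sub [FiniteDimensional k M] (N : Submodule A M) : FiniteDimensional k N :=
  inferInstanceAs (FiniteDimensional k (N.restrictScalars k))

theorem fd_quot [FiniteDimensional k M] (N : Submodule A M) : FiniteDimensional k (M ⧸ N) :=
  Module.Finite.of_surjective (N.mkQ.restrictScalars k) N.mkQ_surjective

end Rank

end Cartan2
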