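import Pool.Agent.Cartan2.RhoTest

namespace Cartan2

open M9 V3

instance fact7 : Fact (Nat.Prime 7) := ⟨by norm_num⟩
instance fact11 : Fact (Nat.Prime 11) := ⟨by norm_num⟩

/-- coded value of the homomorphism -/
def Rc (g : SLF (ZMod 7)) : M9 := Rn (g.1 0 0).val (g.1 0 1).val (g.1 1 0).val (g.1 1 1).val

theorem test1_spec (g : SLF (ZMod 7)) {a b c d : ZMod 7} (hg : g.1 = !![a, b; c, d]) :
    M9.beq (Rn a.val ((a.val + b.val) % 7) c.val ((c.val + d.val) % 7))
      (mul (Rn a.val b.val c.val d.val) Um) = true ∧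
    M9.beq (Rn ((7 - b.val) % 7) a.val ((7 - d.val) % 7) c.val)
      (mul (Rn a.val b.val c.val d.val) Wm) = true ∧
    M9.beq (Rn ((7 - a.val) % 7) ((7 - b.val) % 7) ((7 - c.val) % 7) ((7 - d.val) % 7))
      (Rn a.val b.val c.val d.val) = true ∧ det1 (Rn a.val b.val c.val d.val) = true := by
  have h := test1_true a b c d
  change test1 a.val b.val c.val d.val = true at h
  have hdet : a * d - b * c = 1 := by
    have := g.2
    rw [hg, Matrix.det_fin_two_of] at this
    exact this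
  have ha := ZMod.val_lt a
  have hb := ZMod.val_lt b
  have hc := ZMod.val_lt c
  have hd := ZMod.val_lt d
  have h1 : Nat.beq ((a.val * d.val + 49 - b.val * c.val) % 7) 1 = true := by
    rw [Nat.beq_eq]
    have h2 : b.val * c.val ≤ a.val * d.val + 49 := by nlinarith
    have h3 : ((a.val * d.val + 49 - b.val * c.val : ℕ) : ZMod 7) = ((1 : ℕ) : ZMod 7) := by
      rw [Nat.cast_sub h2]
      push_cast
      rw [ZMod.natCast_zmod_val, ZMod.natCast_zmod_val, ZMod.natCast_zmod_val,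
        ZMod.natCast_zmod_val]
      have : (49 : ZMod 7) = 0 := by decide
      rw [this, add_zero, hdet]
    exact (ZMod.natCast_eq_natCast_iff' _ _ 7).1 h3
  unfold test1 at h
  rw [h1, cond_true] at h
  simpa only [Bool.and_eq_true] using h

theorem eta2 (g : SLF (ZMod 7)) : ∃ a b c d : ZMod 7, g.1 = !![a, b; c, d] :=
  ⟨_, _, _, _, Matrix.eta_fin_two _⟩

theorem Rc_eq {g : SLF (ZMod 7)} {a b c d : ZMod 7} (hg : g.1 = !![a, b; c, d]) :
    Rc g = Rn a.val b.val c.val d.val := by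
  unfold Rc
  rw [hg]
  simp

/-- The value. -/
def RM (g : SLF (ZMod 7)) : Matrix (Fin 3) (Fin 3) (ZMod 11) := toM (Rc g)

theorem RM_uu (g : SLF (ZMod 7)) : RM (g * uu 1) = RM g * toM Um := by
  obtain ⟨a, b, c, d, hg⟩ := eta2 g
  have h := (test1_spec g hg).1
  have h2 : (g * uu 1).1 = !![a, a + b; c, c + d] := by
    change g.1 * (uu 1).1 = _
    rw [hg, uu_val, Matrix.mul_fin_two]
    simp
  unfold RM
  rw [Rc_eq hg, Rc_eq h2, ← toM_mul, ← M9.beq_eq h, ZMod.val_add, ZMod.val_add]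

theorem RM_ww (g : SLF (ZMod 7)) : RM (g * ww) = RM g * toM Wm := by
  obtain ⟨a, b, c, d, hg⟩ := eta2 g
  have h := (test1_spec g hg).2.1
  have h2 : (g * ww).1 = !![-b, a; -d, c] := by
    change g.1 * (ww).1 = _
    rw [hg, ww_val, Matrix.mul_fin_two]
    simp
  unfold RM
  rw [Rc_eq hg, Rc_eq h2, ← toM_mul, ← M9.beq_eq h, ZMod.neg_val', ZMod.neg_val']

theorem RM_neg {g h : SLF (ZMod 7)} (hgh : h.1 = -g.1) : RM h = RM g := by
  obtain ⟨a, b, c, d, hg⟩ := eta2 g
  have h1 := (test1_spec g hg).2.2.1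
  have h2 : h.1 = !![-a, -b; -c, -d] := by
    rw [hgh, hg]
    ext i j
    fin_cases i <;> fin_cases j <;> simp
  unfold RM
  rw [Rc_eq hg, Rc_eq h2, ← M9.beq_eq h1, ZMod.neg_val', ZMod.neg_val', ZMod.neg_val',
    ZMod.neg_val']

theorem RM_det (g : SLF (ZMod 7)) : (RM g).det = 1 := by
  obtain ⟨a, b, c, d, hg⟩ := eta2 g
  unfold RM
  rw [Rc_eq hg]
  exact toM_det (test1_spec g hg).2.2.2

theorem RM_one : RM 1 = 1 := by
  have h : (1 : SLF (ZMod 7)).1 = !![1, 0; 0, 1] := Matrix.one_fin_two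
  unfold RM
  rw [Rc_eq h, ← toM_one]
  congr 1

theorem RM_mul_closed {h h' : SLF (ZMod 7)} (H : ∀ g, RM (g * h) = RM g * RM h)
    (H' : ∀ g, RM (g * h') = RM g * RM h') : ∀ g, RM (g * (h * h')) = RM g * RM (h * h') := by
  intro g
  rw [← mul_assoc, H', H, H' h, Matrix.mul_assoc]

theorem RM_mul_uu (b : ZMod 7) : ∀ g, RM (g * uu b) = RM g * RM (uu b) := by
  have h1 : ∀ g, RM (g * uu 1) = RM g * RM (uu 1) := by
    intro g
    have : RM (uu 1) = toM Um := by
      have := RM_uu 1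
      rwa [one_mul, RM_one, Matrix.one_mul] at this
    rw [RM_uu, this]
  have h2 : ∀ n : ℕ, ∀ g, RM (g * uu (n : ZMod 7)) = RM g * RM (uu (n : ZMod 7)) := by
    intro n
    induction n with
    | zero =>
      intro g
      rw [Nat.cast_zero, uu_zero, mul_one, RM_one, Matrix.mul_one]
    | succ n ih =>
      rw [Nat.cast_succ, ← uu_mul]
      exact RM_mul_closed ih h1
  have := h2 b.val
  rwa [ZMod.natCast_zmod_val] at this

theorem RM_mul_ww : ∀ g, RM (g * ww) = RM g * RM ww := by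
  intro g
  have : RM ww = toM Wm := by
    have := RM_ww 1
    rwa [one_mul, RM_one, Matrix.one_mul] at this
  rw [RM_ww, this]

theorem dg_eq {F : Type} [Field F] [Fintype F] [DecidableEq F] (t : Fˣ) : dg t = uu (t : F) * ww * uu ((t : F)⁻¹) * ww *
    uu (t : F) * ww := by
  apply Subtype.ext
  change _ = (uu _).1 * (ww).1 * (uu _).1 * (ww).1 * (uu _).1 * (ww).1
  rw [dg_val, uu_val, uu_val, ww_val]
  simp

theorem RM_mul_dg (t : (ZMod 7)ˣ) : ∀ g, RM (g * dg t) = RM g * RM (dg t) := by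
  rw [dg_eq]
  exact RM_mul_closed (RM_mul_closed (RM_mul_closed (RM_mul_closed (RM_mul_closed (RM_mul_uu _)
    RM_mul_ww) (RM_mul_uu _)) RM_mul_ww) (RM_mul_uu _)) RM_mul_ww

theorem not_isSquare_neg_one7 : ¬ IsSquare (-1 : ZMod 7) := by decide

theorem RM_mul (g h : SLF (ZMod 7)) : RM (g * h) = RM g * RM h := by
  have key : ∀ h' : SLF (ZMod 7), pr h = pr h' → (∀ g, RM (g * h') = RM g * RM h') →
      RM (g * h) = RM g * RM h := by
    intro h' hh H
    rcases (pr_eq_iff _ _).1 hh with h1 | h1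
    · have : h = h' := Subtype.ext h1
      rw [this]; exact H g
    · rw [RM_neg h1, ← H g]
      apply RM_neg
      change g.1 * h.1 = -(g.1 * h'.1)
      rw [h1, mul_neg]
  rcases bruhat not_isSquare_neg_one7 (pr h) with ⟨b, t, hb⟩ | ⟨b, t, b', hb⟩
  · exact key _ hb (RM_mul_closed (RM_mul_uu _) (RM_mul_dg _))
  · exact key _ hb (RM_mul_closed (RM_mul_closed (RM_mul_closed (RM_mul_uu _) RM_mul_ww)
      (RM_mul_dg _)) (RM_mul_uu _))

/-- The homomorphism from `SL(2,7)`. -/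
def ρS : SLF (ZMod 7) →* SL3 (ZMod 11) where
  toFun g := ⟨RM g, RM_det g⟩
  map_one' := Subtype.ext RM_one
  map_mul' g h := Subtype.ext (RM_mul g h)

/-- The homomorphism from `PSL(2,7)`. -/
def ρ7 : PSLF (ZMod 7) →* SL3 (ZMod 11) :=
  QuotientGroup.lift _ ρS (by
    intro z hz
    have h1 : pr z = pr (1 : SLF (ZMod 7)) := by
      rw [map_one]
      exact (QuotientGroup.eq_one_iff z).2 hz
    rcases (pr_eq_iff _ _).1 h1 with h2 | h2
    · rw [show z = 1 from Subtype.ext h2, MonoidHom.mem_ker, map_one]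
    · have h3 : RM 1 = RM z := RM_neg (by rw [h2, neg_neg])
      apply Subtype.ext
      change RM z = 1
      rw [← h3, RM_one])

theorem ρ7_pr (g : SLF (ZMod 7)) : (ρ7 (pr g)).1 = RM g := rfl

end Cartan2
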