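import Pool.Agent.Cartan2.M9

namespace Cartan2

open M9 V3

/-- image of `uu 1` -/
def Um : M9 := ⟨0, 10, 0, 0, 0, 10, 1, 4, 6⟩
/-- image of `ww` -/
def Wm : M9 := ⟨1, 4, 6, 0, 10, 0, 0, 0, 10⟩
/-- image of `dg 2` -/
def D2m : M9 := ⟨4, 10, 0, 10, 7, 1, 1, 5, 0⟩
/-- image of `dg 4` -/
def D4m : M9 := ⟨6, 0, 10, 1, 0, 7, 10, 1, 5⟩

/-- inverses mod 7 -/
def inv7 : ℕ → ℕ
  | 1 => 1
  | 2 => 4
  | 3 => 5
  | 4 => 2
  | 5 => 3
  | 6 => 6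
  | _ => 0

/-- images of the diagonal elements -/
def Dm : ℕ → M9
  | 1 => one
  | 2 => D2m
  | 3 => D4m
  | 4 => D4m
  | 5 => D2m
  | 6 => one
  | _ => one

/-- image of `[[a,b],[c,d]]` -/
def Rn (a b c d : ℕ) : M9 :=
  bif Nat.beq c 0 then mul (pw Um (a * b % 7)) (Dm a)
  else mul (mul (mul (pw Um (a * inv7 c % 7)) Wm) (Dm (7 - c))) (pw Um (d * inv7 c % 7))

/-- the test -/
def test1 (a b c d : ℕ) : Bool :=
  bif Nat.beq ((a * d + 49 - b * c) % 7) 1 then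
    (M9.beq (Rn a ((a + b) % 7) c ((c + d) % 7)) (mul (Rn a b c d) Um) &&
    (M9.beq (Rn ((7 - b) % 7) a ((7 - d) % 7) c) (mul (Rn a b c d) Wm) &&
    (M9.beq (Rn ((7 - a) % 7) ((7 - b) % 7) ((7 - c) % 7) ((7 - d) % 7)) (Rn a b c d) &&
    det1 (Rn a b c d))))
  else true

set_option maxRecDepth 100000 in
theorem test1_true : ∀ a b c d : Fin 7, test1 a.1 b.1 c.1 d.1 = true := by decide +kernel

end Cartan2
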