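import Pool.Agent.Cartan2.Rank

open Module

namespace Cartan2

universe u

/-- A complete system of simple modules of an algebra together with idempotents
`ε i` such that `dim ε i S j = δ i j`. -/
structure SimpleSys (k : Type u) (A : Type u) [Field k] [Ring A] [Algebra k A] (ι : Type) where
  S : ι → Type u
  [acg : ∀ i, AddCommGroup (S i)]
  [kmod : ∀ i, Module k (S i)]
  [mod : ∀ i, Module A (S i)]
  [tower : ∀ i, IsScalarTower k A (S i)]
  [fd : ∀ i, FiniteDimensional k (S i)]
  [simple : ∀ i, IsSimpleModule A (S i)]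
  ε : ι → A
  idem : ∀ i, ε i * ε i = ε i
  rk_self : ∀ i, rk k (ε i) (S i) = 1
  rk_ne : ∀ i j, i ≠ j → rk k (ε i) (S j) = 0
  complete : ∀ (T : Type u) [AddCommGroup T] [Module A T] [IsSimpleModule A T],
    ∃ i, Nonempty (T ≃ₗ[A] S i)

attribute [instance] SimpleSys.acg SimpleSys.kmod SimpleSys.mod SimpleSys.tower SimpleSys.fd
  SimpleSys.simple

namespace SimpleSys

variable {k A : Type u} [Field k] [Ring A] [Algebra k A] {ι : Type} (Z : SimpleSys k A ι)

theorem eq_of_iso {i j : ι} (h : Nonempty (Z.S i ≃ₗ[A] Z.S j)) : i = j := by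
  by_contra hij
  obtain ⟨f⟩ := h
  have := rk_congr (k := k) (Z.ε i) f
  rw [Z.rk_self, Z.rk_ne i j hij] at this
  exact one_ne_zero this

theorem rk_ite [DecidableEq ι] (i j : ι) : rk k (Z.ε i) (Z.S j) = if i = j then 1 else 0 := by
  split_ifs with h
  · subst h; exact Z.rk_self i
  · exact Z.rk_ne i j h

/-- (K1) the rank of an idempotent is determined by composition factors. -/
theorem rk_eq_sum [Fintype ι] {e : A} (he : e * e = e)
    (M : Type u) [AddCommGroup M] [Module A M] [Module k M] [IsScalarTower k A M]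
    [FiniteDimensional k M] :
    rk k e M = ∑ i, rk k (Z.ε i) M * rk k e (Z.S i) := by
  classical
  have hN : IsNoetherian A M := isNoetherian_of_tower k inferInstance
  have hA : IsArtinian A M := isArtinian_of_tower k inferInstance
  have hfl : IsFiniteLength A M := isFiniteLength_iff_isNoetherian_isArtinian.2 ⟨hN, hA⟩
  clear hN hA
  suffices H : ∀ [Module k M] [IsScalarTower k A M] [FiniteDimensional k M],
      rk k e M = ∑ i, rk k (Z.ε i) M * rk k e (Z.S i) from H
  rename_i i1 i2 i3
  clear i1 i2 i3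
  induction hfl with
  | @of_subsingleton M _ _ _ =>
    intro _ _ _
    simp [rk_subsingleton]
  | @of_simple_quotient M _ _ N _ _ ih =>
    intro _ _ _
    haveI := fd_sub (k := k) N
    rw [rk_add he N, ih]
    have h2 : ∀ i, rk k (Z.ε i) M = rk k (Z.ε i) N + rk k (Z.ε i) (M ⧸ N) :=
      fun i => rk_add (Z.idem i) N
    simp only [h2, add_mul, Finset.sum_add_distrib]
    congr 1
    obtain ⟨j, ⟨f⟩⟩ := Z.complete (M ⧸ N)
    rw [rk_congr e f, Finset.sum_eq_single j]
    · rw [rk_congr (Z.ε j) f, Z.rk_self, one_mul]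
    · intro i _ hij
      rw [rk_congr (Z.ε i) f, Z.rk_ne i j hij, zero_mul]
    · intro h; exact absurd (Finset.mem_univ j) h

end SimpleSys

end Cartan2
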