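import Pool.Agent.Cartan2.Proj

open Module

namespace Cartan2

universe u

/-- A symmetrizing form on an algebra. -/
structure SymForm (k A : Type u) [Field k] [Ring A] [Algebra k A] where
  t : A →ₗ[k] k
  symm : ∀ x y, t (x * y) = t (y * x)
  nondeg : ∀ x, (∀ y, t (x * y) = 0) → x = 0

variable {k A : Type u} [Field k] [Ring A] [Algebra k A]

theorem cdim_le_of_symForm (τ : SymForm k A) [FiniteDimensional k A] {e f : A} (he : e * e = e)
    (hf : f * f = f) : cdim k e f ≤ cdim k f e := by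
  unfold cdim
  let Φ : corner k e f →ₗ[k] Dual k (corner k f e) :=
    (((LinearMap.mul k A).compr₂ τ.t).domRestrict₁₂ (corner k e f) (corner k f e))
  have hΦ : ∀ x y, Φ x y = τ.t ((x : A) * (y : A)) := fun x y => rfl
  have hinj : Function.Injective Φ := by
    rw [← LinearMap.ker_eq_bot, eq_bot_iff]
    intro x hx
    rw [LinearMap.mem_ker] at hx
    rw [Submodule.mem_bot]
    apply Subtype.ext
    apply τ.nondeg
    intro a
    obtain ⟨h1, h2⟩ := (mem_corner he hf).1 x.2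
    have h3 : τ.t ((x : A) * (f * a * e)) = 0 := by
      have := hΦ x ⟨f * a * e, mul_mem_corner f e a⟩
      rw [hx] at this
      simpa using this.symm
    have h4 : (x : A) * a = e * ((x : A) * (f * a)) := by
      rw [← mul_assoc, ← mul_assoc, h1, h2]
    rw [h4, τ.symm, mul_assoc]
    exact h3
  calc finrank k (corner k e f) ≤ finrank k (Dual k (corner k f e)) :=
        LinearMap.finrank_le_finrank_of_injective hinj
    _ = finrank k (corner k f e) := Subspace.dual_finrank_eq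

/-- (K2) -/
theorem cdim_symm (τ : SymForm k A) [FiniteDimensional k A] {e f : A} (he : e * e = e)
    (hf : f * f = f) : cdim k e f = cdim k f e :=
  le_antisymm (cdim_le_of_symForm τ he hf) (cdim_le_of_symForm τ hf he)

namespace SimpleSys

variable {ι : Type} (Z : SimpleSys k A ι)

theorem c_symm (τ : SymForm k A) [FiniteDimensional k A] (i j : ι) : Z.c i j = Z.c j i :=
  cdim_symm τ (Z.idem j) (Z.idem i)

/-- (K3) -/
theorem cdim_eq_sum (τ : SymForm k A) [FiniteDimensional k A] [Fintype ι] {e f : A}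
    (he : e * e = e) (hf : f * f = f) :
    cdim k e f = ∑ i, ∑ j, rk k e (Z.S i) * rk k f (Z.S j) * Z.c i j := by
  haveI := fd_sub (k := k) (lid f)
  rw [← rk_lid, Z.rk_eq_sum he (lid f)]
  refine Finset.sum_congr rfl fun i _ => ?_
  haveI := fd_sub (k := k) (lid (Z.ε i))
  rw [rk_lid, cdim_symm τ (Z.idem i) hf, ← rk_lid, Z.rk_eq_sum hf (lid (Z.ε i)),
    Finset.sum_mul]
  refine Finset.sum_congr rfl fun j _ => ?_
  rw [Z.rk_lid_c]
  ring

/-- The dimension of a projective indecomposable. -/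
theorem finrank_lid [FiniteDimensional k A] [Fintype ι] (i : ι) :
    finrank k (lid (Z.ε i)) = ∑ j, Z.c i j * finrank k (Z.S j) := by
  haveI := fd_sub (k := k) (lid (Z.ε i))
  rw [← rk_one (A := A), Z.rk_eq_sum (one_mul 1)]
  refine Finset.sum_congr rfl fun j _ => ?_
  rw [Z.rk_lid_c, rk_one]

theorem c_self_pos [FiniteDimensional k A] (i : ι) : 1 ≤ Z.c i i := by
  unfold c cdim
  rw [Nat.one_le_iff_ne_zero]
  intro h
  rw [Submodule.finrank_eq_zero] at h
  have : Z.ε i ∈ corner k (Z.ε i) (Z.ε i) :=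
    (mem_corner (Z.idem i) (Z.idem i)).2 ⟨Z.idem i, Z.idem i⟩
  rw [h] at this
  exact Z.ε_ne_zero i (by simpa using this)

/-- (K4) -/
theorem c_eq_zero_of_self (τ : SymForm k A) [FiniteDimensional k A] {i j : ι}
    (h : Z.c i i = 1) (hij : j ≠ i) : Z.c i j = 0 := by
  unfold c cdim
  rw [Submodule.finrank_eq_zero, eq_bot_iff]
  intro x hx
  rw [Submodule.mem_bot]
  obtain ⟨h1, h2⟩ := (mem_corner (Z.idem j) (Z.idem i)).1 hx
  apply τ.nondeg
  intro a
  -- `x a = ε j x ε i a`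
  have h3 : τ.t (x * a) = τ.t (Z.ε i * a * Z.ε j * x) := by
    calc τ.t (x * a) = τ.t (Z.ε j * (x * Z.ε i * a)) := by rw [h2, ← mul_assoc, h1]
      _ = τ.t ((x * Z.ε i * a) * Z.ε j) := τ.symm _ _
      _ = τ.t (x * (Z.ε i * a * Z.ε j)) := by simp only [mul_assoc]
      _ = τ.t (Z.ε i * a * Z.ε j * x) := τ.symm _ _
  rw [h3]
  have h4 : Z.ε i * a * Z.ε j * x ∈ corner k (Z.ε i) (Z.ε i) := by
    rw [mem_corner (Z.idem i) (Z.idem i)]
    constructor
    · rw [← mul_assoc, ← mul_assoc, ← mul_assoc, Z.idem]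
    · rw [mul_assoc, h2]
  have h5 : finrank k (corner k (Z.ε i) (Z.ε i)) = 1 := h
  have hmem : Z.ε i ∈ corner k (Z.ε i) (Z.ε i) :=
    (mem_corner (Z.idem i) (Z.idem i)).2 ⟨Z.idem i, Z.idem i⟩
  obtain ⟨c, hc⟩ := (finrank_eq_one_iff_of_nonzero' (⟨Z.ε i, hmem⟩ : corner k (Z.ε i) (Z.ε i))
    (fun h0 => Z.ε_ne_zero i (congrArg Subtype.val h0))).1 h5 ⟨_, h4⟩
  have hc' : c • Z.ε i = Z.ε i * a * Z.ε j * x := congrArg Subtype.val hc
  obtain ⟨s, hs, hs1, -⟩ := Z.exists_gen i
  have h6 : (Z.ε i * a * Z.ε j * x) • s = 0 := by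
    rw [mul_smul, mul_smul, Z.ε_smul_ne hij, smul_zero]
  rw [← hc', smul_assoc, hs1] at h6
  have hc0 : c = 0 := (smul_eq_zero.1 h6).resolve_right hs
  rw [← hc', hc0, zero_smul, map_zero]

/-- (K8) If `J e = 0`, the simple modules seen by `e` are projective. -/
theorem c_eq_ite_of_jac [DecidableEq ι] [IsAlgClosed k] [FiniteDimensional k A] {e : A}
    (hJ : ∀ x ∈ Ring.jacobson A, x * e = 0) {i : ι}
    (hi : rk k e (Z.S i) ≠ 0) (j : ι) : Z.c i j = if i = j then 1 else 0 := by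
  -- `J ε i = 0`
  have hJi : ∀ x ∈ Ring.jacobson A, x * Z.ε i = 0 := by
    obtain ⟨s, hs, hs1, hs2⟩ := Z.exists_gen i
    have h1 : ∃ t : Z.S i, e • t ≠ 0 := by
      by_contra h
      push Not at h
      exact hi ((rk_eq_zero_iff e).2 h)
    obtain ⟨t, ht⟩ := h1
    have hsp := (isSimpleModule_iff_toSpanSingleton_surjective.1
        (inferInstance : IsSimpleModule A (Z.S i))).2
    obtain ⟨a, ha⟩ := hsp s hs t
    obtain ⟨b, hb⟩ := hsp (e • t) ht s
    change a • s = t at ha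
    change b • e • t = s at hb
    -- `y = ε i b e a ε i` acts as `ε i` on all simples
    have h2 : Z.ε i - Z.ε i * b * e * a * Z.ε i ∈ Ring.jacobson A := by
      apply Z.mem_jac
      intro l v
      by_cases hl : i = l
      · subst hl
        obtain ⟨c, hc⟩ := hs2 v
        rw [sub_smul, mul_smul _ (Z.ε i), hc, smul_comm _ c, mul_smul, mul_smul, mul_smul, ha,
          hb, hs1, sub_self]
      · rw [sub_smul, mul_smul _ (Z.ε i), Z.ε_smul_ne hl, smul_zero, sub_zero]
    have : IsArtinianRing A := IsArtinianRing.of_finite k A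
    obtain ⟨u, hu⟩ := (jacobson_nilpotent h2).isUnit_one_sub
    intro x hx
    -- `(1 - (ε - y)) ε = y`
    have h3 : (u : A) * Z.ε i = Z.ε i * b * e * a * Z.ε i := by
      rw [hu, sub_mul, one_mul, sub_mul, Z.idem, mul_assoc _ (Z.ε i) (Z.ε i), Z.idem]
      abel
    have h4 : Z.ε i = (↑(u⁻¹) : A) * (Z.ε i * b) * e * (a * Z.ε i) := by
      calc Z.ε i = (↑(u⁻¹) : A) * ((u : A) * Z.ε i) := by rw [← mul_assoc, Units.inv_mul, one_mul]
        _ = _ := by rw [h3]; simp only [mul_assoc]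
    have h5 : x * ((↑(u⁻¹) : A) * (Z.ε i * b)) ∈ Ring.jacobson A :=
      Ideal.mul_mem_right _ _ hx
    rw [h4]
    calc x * ((↑(u⁻¹) : A) * (Z.ε i * b) * e * (a * Z.ε i)) =
        (x * ((↑(u⁻¹) : A) * (Z.ε i * b)) * e) * (a * Z.ε i) := by simp only [mul_assoc]
      _ = 0 := by rw [hJ _ h5, zero_mul]
  unfold c cdim
  split_ifs with hij
  · subst hij
    have hmem : Z.ε i ∈ corner k (Z.ε i) (Z.ε i) :=
      (mem_corner (Z.idem i) (Z.idem i)).2 ⟨Z.idem i, Z.idem i⟩
    rw [finrank_eq_one_iff_of_nonzero' (⟨Z.ε i, hmem⟩ : corner k (Z.ε i) (Z.ε i))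
      (fun h0 => Z.ε_ne_zero i (congrArg Subtype.val h0))]
    rintro ⟨x, hx⟩
    obtain ⟨h1, h2⟩ := (mem_corner (Z.idem i) (Z.idem i)).1 hx
    obtain ⟨s, hs, hs1, hs2⟩ := Z.exists_gen i
    obtain ⟨c, hc⟩ := hs2 (x • s)
    rw [← mul_smul, h1] at hc
    refine ⟨c, Subtype.ext ?_⟩
    change c • Z.ε i = x
    have h3 : x - c • Z.ε i ∈ Ring.jacobson A := by
      apply Z.mem_jac
      intro l v
      by_cases hl : i = l
      · subst hl
        obtain ⟨d, hd⟩ := hs2 v
        rw [sub_smul, ← h2, mul_smul, smul_assoc, hd, smul_comm x d, hc, smul_comm c d, sub_self]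
      · rw [sub_smul, ← h2, mul_smul, smul_assoc, Z.ε_smul_ne hl, smul_zero, smul_zero, sub_zero]
    have h4 := hJi _ h3
    rw [sub_mul, h2, smul_mul_assoc, Z.idem] at h4
    exact (sub_eq_zero.1 h4).symm
  · rw [Submodule.finrank_eq_zero, eq_bot_iff]
    intro x hx
    rw [Submodule.mem_bot]
    obtain ⟨h1, h2⟩ := (mem_corner (Z.idem j) (Z.idem i)).1 hx
    have h3 : x ∈ Ring.jacobson A := by
      apply Z.mem_jac
      intro l v
      by_cases hl : i = l
      · subst hl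
        rw [← h1, mul_smul, Z.ε_smul_ne (fun h => hij h.symm)]
      · rw [← h2, mul_smul, Z.ε_smul_ne hl, smul_zero]
    rw [← h2]
    exact hJi x h3

end SimpleSys

end Cartan2
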