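import Pool.Agent.Cartan2.Sym

open Module

namespace Cartan2

universe u

variable {k A : Type u} [Field k] [Ring A] [Algebra k A]

/-- (K8') -/
theorem jac_mul_eq_zero (τ : SymForm k A) {e : A} (he : e * e = e)
    (h : ∀ x ∈ Ring.jacobson A, e * x * e = 0) : ∀ x ∈ Ring.jacobson A, x * e = 0 := by
  intro x hx
  apply τ.nondeg
  intro y
  have h1 : τ.t (x * e * y) = τ.t (e * (y * x) * e) := by
    calc τ.t (x * e * y) = τ.t ((x * e) * (e * y)) := by
          rw [← mul_assoc (x * e), mul_assoc x e e, he]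
      _ = τ.t ((e * y) * (x * e)) := τ.symm _ _
      _ = _ := by simp only [mul_assoc]
  rw [h1, h _ (Ideal.mul_mem_left _ y hx), map_zero]

theorem eq_zero_of_pow_mul {p q x : A} {δ : k} (hδ : δ ≠ 0) (hpq : Commute p q)
    (h : p - q = algebraMap k A δ) {a b : ℕ} (hp : p ^ a * x = 0) (hq : q ^ b * x = 0) :
    x = 0 := by
  induction a generalizing x with
  | zero => simpa using hp
  | succ a ih =>
    have h1 : p * x = 0 := by
      apply ih
      · rw [← mul_assoc, ← pow_succ]; exact hp
      · rw [← mul_assoc, (hpq.symm.pow_left b).eq, mul_assoc, hq, mul_zero]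
    have h2 : q * x = (-δ) • x := by
      have : q = p - algebraMap k A δ := by rw [← h]; abel
      rw [this, sub_mul, h1, zero_sub, neg_smul, Algebra.smul_def]
    have h3 : ∀ n : ℕ, q ^ n * x = (-δ) ^ n • x := by
      intro n
      induction n with
      | zero => simp
      | succ n ihn =>
        rw [pow_succ', mul_assoc, ihn, mul_smul_comm, h2, smul_smul, ← pow_succ]
    rw [h3] at hq
    exact (smul_eq_zero.1 hq).resolve_left (pow_ne_zero _ (neg_ne_zero.2 hδ))

namespace SimpleSys

variable {ι : Type} (Z : SimpleSys k A ι)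

/-- Central elements act by scalars. -/
theorem exists_omega {z : A} (hz : ∀ a, z * a = a * z) (i : ι) :
    ∃ c : k, ∀ s : Z.S i, z • s = c • s := by
  obtain ⟨s, hs, hs1, hs2⟩ := Z.exists_gen i
  obtain ⟨c, hc⟩ := hs2 (z • s)
  refine ⟨c, fun v => ?_⟩
  obtain ⟨a, rfl⟩ := (isSimpleModule_iff_toSpanSingleton_surjective.1
        (inferInstance : IsSimpleModule A (Z.S i))).2 s hs v
  change z • a • s = c • a • s
  rw [← mul_smul, hz, mul_smul, smul_comm c a]
  congr 1
  rw [← mul_smul, ← hz, mul_smul, hs1] at hc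
  exact hc

/-- The scalar by which a central element acts on the `i`-th simple module. -/
noncomputable def omega (z : A) (hz : ∀ a, z * a = a * z) (i : ι) : k :=
  (Z.exists_omega hz i).choose

theorem omega_spec {z : A} (hz : ∀ a, z * a = a * z) (i : ι) (s : Z.S i) :
    z • s = Z.omega z hz i • s := (Z.exists_omega hz i).choose_spec s

theorem omega_eq_of {z : A} (hz : ∀ a, z * a = a * z) (i : ι) {c : k}
    (h : ∀ s : Z.S i, z • s = c • s) : Z.omega z hz i = c := by
  obtain ⟨s, hs, -, -⟩ := Z.exists_gen i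
  have := Z.omega_spec hz i s
  rw [h s] at this
  exact (smul_left_injective k hs this).symm

/-- (K6) blocks. -/
theorem omega_eq_of_c_ne [FiniteDimensional k A] {z : A} (hz : ∀ a, z * a = a * z) {i j : ι}
    (hij : Z.c i j ≠ 0) : Z.omega z hz i = Z.omega z hz j := by
  have : IsArtinianRing A := IsArtinianRing.of_finite k A
  by_contra hne
  apply hij
  unfold c cdim
  rw [Submodule.finrank_eq_zero, eq_bot_iff]
  intro x hx
  rw [Submodule.mem_bot]
  obtain ⟨h1, h2⟩ := (mem_corner (Z.idem j) (Z.idem i)).1 hx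
  -- nilpotency
  have key : ∀ l, ∃ n : ℕ, (z - algebraMap k A (Z.omega z hz l)) ^ n * Z.ε l = 0 := by
    intro l
    set p := z - algebraMap k A (Z.omega z hz l) with hp
    have hpc : ∀ a, p * a = a * p := by
      intro a
      rw [hp, sub_mul, mul_sub, hz, Algebra.commutes]
    have hJ : p * Z.ε l ∈ Ring.jacobson A := by
      apply Z.mem_jac
      intro m v
      by_cases hm : l = m
      · subst hm
        rw [mul_smul, hp, sub_smul, algebraMap_smul, Z.omega_spec hz, sub_self]
      · rw [mul_smul, Z.ε_smul_ne hm, smul_zero]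
    obtain ⟨n, hn⟩ := jacobson_nilpotent hJ
    refine ⟨n, ?_⟩
    have hcomm : Commute p (Z.ε l) := hpc _
    rw [hcomm.mul_pow] at hn
    calc p ^ n * Z.ε l = p ^ n * (Z.ε l ^ n * Z.ε l) := by
          congr 1
          rcases Nat.eq_zero_or_pos n with h0 | h0
          · subst h0; simp
          · have : IsIdempotentElem (Z.ε l) := Z.idem l
            rw [← pow_succ, this.pow_succ_eq]
      _ = 0 := by rw [← mul_assoc, hn, zero_mul]
  obtain ⟨a, ha⟩ := key i
  obtain ⟨b, hb⟩ := key j
  set p := z - algebraMap k A (Z.omega z hz i) with hp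
  set q := z - algebraMap k A (Z.omega z hz j) with hq
  have hpc : ∀ a, p * a = a * p := by
    intro a
    rw [hp, sub_mul, mul_sub, hz, Algebra.commutes]
  refine eq_zero_of_pow_mul (p := p) (q := q) (δ := Z.omega z hz j - Z.omega z hz i)
    (sub_ne_zero.2 (Ne.symm hne)) (hpc q) ?_ (a := a) (b := b) ?_ ?_
  · rw [hp, hq, map_sub]; abel
  · have : p ^ a * x = x * (p ^ a * Z.ε i) := by
      rw [← mul_assoc, ← (show Commute p x from hpc x).pow_left a |>.eq, mul_assoc, h2]
    rw [this, ha, mul_zero]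
  · rw [← h1, ← mul_assoc, hb, zero_mul]

/-- A central element all of whose eigenvalues are non-zero is invertible. -/
theorem exists_inv_of_omega {z : A} (hz : ∀ a, z * a = a * z)
    (h : ∀ i, Z.omega z hz i ≠ 0) : ∃ y, y * z = 1 := by
  by_contra hcon
  have hne : Ideal.span {z} ≠ ⊤ := by
    intro htop
    apply hcon
    rw [Ideal.eq_top_iff_one, Ideal.mem_span_singleton'] at htop
    exact htop
  obtain ⟨I, hI, hle⟩ := Ideal.exists_le_maximal _ hne
  have : IsSimpleModule A (A ⧸ I) := isSimpleModule_iff_isCoatom.2 (Ideal.isMaximal_def.1 hI)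
  obtain ⟨i, ⟨f⟩⟩ := Z.complete (A ⧸ I)
  obtain ⟨s, hs, -, -⟩ := Z.exists_gen i
  obtain ⟨y, rfl⟩ := f.surjective s
  obtain ⟨a, rfl⟩ := Submodule.Quotient.mk_surjective _ y
  have h1 : z • f (Submodule.Quotient.mk a) = 0 := by
    rw [← map_smul, ← Submodule.Quotient.mk_smul]
    have : z • a ∈ I := by
      rw [smul_eq_mul, hz]
      exact I.mul_mem_left a (hle (Ideal.mem_span_singleton_self z))
    rw [(Submodule.Quotient.mk_eq_zero I).2 this, map_zero]
  rw [Z.omega_spec hz i] at h1
  exact (smul_eq_zero.1 h1).elim (h i) hs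

/-- (K7) -/
theorem rk_le_one_of_comm [IsAlgClosed k] {e : A} (he : e * e = e)
    (hcomm : ∀ x y, (e * x * e) * (e * y * e) = (e * y * e) * (e * x * e)) (i : ι) :
    rk k e (Z.S i) ≤ 1 := by
  by_cases h0 : ∀ s : Z.S i, e • s = 0
  · rw [(rk_eq_zero_iff (k := k) e).2 h0]; exact zero_le_one
  push Not at h0
  obtain ⟨s1, hs1⟩ := h0
  have hsp := (isSimpleModule_iff_toSpanSingleton_surjective.1
        (inferInstance : IsSimpleModule A (Z.S i))).2
  set V := LinearMap.range (Algebra.lsmul k k (Z.S i) e) with hV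
  have hVe : ∀ v : V, e • (v : Z.S i) = v := by
    rintro ⟨_, ⟨w, rfl⟩⟩
    change e • e • w = e • w
    rw [smul_smul, he]
  have : Nontrivial V := ⟨⟨⟨e • s1, ⟨s1, rfl⟩⟩, 0, fun h => hs1 (congrArg Subtype.val h)⟩⟩
  -- each corner element acts by a scalar
  have key : ∀ x : A, ∃ c : k, ∀ v : Z.S i, (e * x * e) • v = c • e • v := by
    intro x
    let T : V →ₗ[k] V := LinearMap.codRestrict V
      ((Algebra.lsmul k k (Z.S i) (e * x * e)).comp V.subtype) (fun v => by
        refine ⟨(x * e) • (v : Z.S i), ?_⟩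
        change e • (x * e) • (v : Z.S i) = (e * x * e) • (v : Z.S i)
        rw [smul_smul, mul_assoc])
    obtain ⟨c, hc⟩ := Module.End.exists_eigenvalue T
    obtain ⟨v, hv⟩ := hc.exists_hasEigenvector
    refine ⟨c, fun w => ?_⟩
    have hv1 : (e * x * e) • (v : Z.S i) = c • (v : Z.S i) :=
      congrArg Subtype.val hv.apply_eq_smul
    have hv0 : (v : Z.S i) ≠ 0 := fun h => hv.2 (Subtype.ext h)
    obtain ⟨a, ha⟩ := hsp _ hv0 w
    change a • (v : Z.S i) = w at ha
    calc (e * x * e) • w = ((e * x * e) * (e * a * e)) • (v : Z.S i) := by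
          rw [← ha]
          nth_rw 1 [← hVe v]
          rw [smul_smul, smul_smul]
          congr 1
          calc e * x * e * a * e = e * x * (e * e) * a * e := by rw [he]
            _ = _ := by simp only [mul_assoc]
      _ = ((e * a * e) * (e * x * e)) • (v : Z.S i) := by rw [hcomm]
      _ = c • (e * a * e) • (v : Z.S i) := by rw [mul_smul, hv1, smul_comm]
      _ = c • e • w := by rw [mul_smul, hVe v, mul_smul, ha]
  -- hence the line
  have hle : V ≤ Submodule.span k {e • s1} := by
    rintro _ ⟨w, rfl⟩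
    obtain ⟨a, ha⟩ := hsp _ hs1 w
    change a • e • s1 = w at ha
    obtain ⟨c, hc⟩ := key a
    rw [Submodule.mem_span_singleton]
    refine ⟨c, ?_⟩
    change c • e • s1 = e • w
    rw [← hc, ← ha, mul_smul, mul_smul]
  calc rk k e (Z.S i) = finrank k V := rfl
    _ ≤ finrank k (Submodule.span k {e • s1}) := Submodule.finrank_mono hle
    _ = 1 := finrank_span_singleton hs1

end SimpleSys

end Cartan2
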