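import Pool.Agent.Cartan2.Comb

open Module

namespace Cartan2

universe u

open MonoidAlgebra (single)

variable {F : Type} [Field F] [Fintype F] [DecidableEq F]
variable {k : Type u} [Field k]

theorem χU_ne_one {ψ : AddChar F k} (hψ : ψ.IsPrimitive) {c : F} (hc : c ≠ 0) :
    χU ψ c ≠ 1 := by
  obtain ⟨b, hb⟩ := exists_psi_ne hψ hc
  intro h
  apply hb
  rw [← χU_val, h]; rfl

theorem hom_inv_ne_one {Λ : Fˣ →* kˣ} (h : Λ ≠ 1) : Λ⁻¹ ≠ 1 := by
  intro h2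
  apply h
  ext t
  have h3 : (Λ t)⁻¹ = 1 := congrArg (fun M : Fˣ →* kˣ => M t) h2
  rw [inv_eq_one] at h3
  rw [h3]; rfl

theorem hom_inv_inv (Λ : Fˣ →* kˣ) : Λ⁻¹⁻¹ = Λ := by
  ext t
  simp

theorem hom_one_inv : (1 : Fˣ →* kˣ) = (1 : Fˣ →* kˣ)⁻¹ := by
  ext t
  simp

/-- The signs. -/
def cc (F : Type) [Field F] : Fin 2 → F := ![1, -1]

theorem cc_ne (h1 : ¬ IsSquare (-1 : F)) (a : Fin 2) : cc F a ≠ 0 := by
  fin_cases a <;> simp [cc]

theorem eight_dvd (h1 : ¬ IsSquare (-1 : F)) {p : ℕ} (hq : Fintype.card F = 16 * p + 7)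
    [Fintype (PSLF F)] : 2 ^ 3 ∣ Fintype.card (PSLF F) := by
  rw [← Nat.card_eq_fintype_card, card_PSLF h1, hq]
  exact ⟨N0 F * (16 * p + 7) * (2 * p + 1), by ring⟩

theorem psl_blockType [IsAlgClosed k] [CharP k 2] {p : ℕ} (hq : Fintype.card F = 16 * p + 7)
    {ψ : AddChar F k} (hψ : ψ.IsPrimitive) {ι : Type} [Fintype ι]
    (Z : SimpleSys k (MonoidAlgebra k (PSLF F)) ι) (i0 : ι) (hi0 : finrank k (Z.S i0) = 1)
    (hi0' : ∀ (g : PSLF F) (s : Z.S i0), single g (1 : k) • s = s)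
    {K : Type*} (om : ι → K) (hom : ∀ i j, Z.c i j ≠ 0 → om i = om j)
    (s : Fin p → ι) (hs0 : ∀ w, om (s w) ≠ om i0) (hsom : ∀ w w', om (s w) = om (s w') → w = w')
    (hsr : ∀ w (Λ : Fˣ →* kˣ), Λ ≠ 1 → rk k (eB (F := F) Λ) (Z.S (s w)) = 0)
    (hse : ∀ w, Even (finrank k (Z.S (s w)))) :
    BlockType Z.c p (4 * p + 1) := by
  classical
  have h1 : ¬ IsSquare (-1 : F) := by
    rw [FiniteField.isSquare_neg_one_iff, hq]
    omega
  have hN0 : N0 F = 8 * p + 3 := by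
    have := two_N0 h1
    omega
  have τ := groupForm k (PSLF F)
  have hidB : ∀ Λ : Fˣ →* kˣ, eB (F := F) Λ * eB Λ = eB Λ := fun Λ => eid_idem (card_BB_ne h1) _ _
  have hidU : ∀ c : F, fU ψ c * fU ψ c = fU ψ c := fun c => eid_idem (card_U_ne h1) _ _
  have hBB : ∀ Λ M : Fˣ →* kˣ, ∑ i, ∑ j, rk k (eB (F := F) Λ) (Z.S i) *
      rk k (eB (F := F) M) (Z.S j) * Z.c i j =
      (if Λ = M then 1 else 0) + (if Λ = M⁻¹ then 1 else 0) := by
    intro Λ M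
    rw [← Z.cdim_eq_sum τ (hidB Λ) (hidB M), cdim_BB h1]
  refine combA Z.c (fun i j => Z.c_symm τ i j) (fun i => Z.c_self_pos i)
    (fun i j h hij => Z.c_eq_zero_of_self τ h hij) p (N0 F) hN0
    (fun i => finrank k (Z.S i)) ?_ ?_ i0 hi0
    (Γ := {Λ : Fˣ →* kˣ // Λ ≠ 1}) (fun γ => ⟨γ.1⁻¹, hom_inv_ne_one γ.2⟩) ?_ ?_
    (fun γ i => rk k (eB (F := F) γ.1) (Z.S i))
    (fun i => rk k (eB (F := F) (1 : Fˣ →* kˣ)) (Z.S i)) ?_ ?_ ?_ ?_
    (fun a i => rk k (fU ψ (cc F a)) (Z.S i)) ?_ ?_ ?_ ?_ ?_ ?_ ?_ om hom s hs0 hsom ?_ hse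
  · -- dimensions are positive
    intro i
    have : Nontrivial (Z.S i) := IsSimpleModule.nontrivial (MonoidAlgebra k (PSLF F)) _
    exact finrank_pos
  · intro i
    rw [← Z.finrank_lid i]
    exact pow_dvd_finrank_lid (Z.idem i) (eight_dvd h1 hq)
  · intro γ h
    exact char_ne_inv γ.2 (congrArg Subtype.val h).symm
  · have h2 := card_hom (k := k) h1
    have : Fintype (Fˣ →* kˣ) := Fintype.ofFinite _
    rw [Nat.card_eq_fintype_card] at h2 ⊢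
    rw [Fintype.card_subtype_compl, Fintype.card_subtype_eq]
    omega
  · -- r1 i0 = 1
    change rk k (eB (F := F) (1 : Fˣ →* kˣ)) (Z.S i0) = 1
    have : eB (F := F) (1 : Fˣ →* kˣ) = eid αB 1 := by
      unfold eB
      congr 1
    rw [this, rk_triv_one hi0' (card_BB_ne h1), hi0]
  · have := hBB 1 1
    rw [if_pos rfl, if_pos hom_one_inv] at this
    exact this
  · intro γ
    have := hBB γ.1 γ.1
    rw [if_pos rfl, if_neg (char_ne_inv γ.2)] at this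
    exact this
  · intro γ δ
    rw [hBB]
    have e1 : δ = γ ↔ γ.1 = δ.1 := ⟨fun h => by rw [h], fun h => (Subtype.ext h).symm⟩
    have e2 : δ = ⟨γ.1⁻¹, hom_inv_ne_one γ.2⟩ ↔ γ.1 = δ.1⁻¹ := by
      constructor
      · intro h; rw [h]; exact (hom_inv_inv γ.1).symm
      · intro h; apply Subtype.ext; change δ.1 = γ.1⁻¹; rw [h, hom_inv_inv]
    rw [e1, e2]
    by_cases h2 : γ.1 = δ.1 <;> by_cases h3 : γ.1 = δ.1⁻¹ <;> simp [h2, h3]
  · intro a i
    exact Z.rk_le_one_of_comm (hidU _) (fU_comm h1 hψ (cc_ne h1 a)) i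
  · intro a
    rw [← Z.cdim_eq_sum τ (hidU _) (hidB _), cdim_UB h1 hψ (cc_ne h1 a)]
  · intro a γ
    rw [← Z.cdim_eq_sum τ (hidU _) (hidB _), cdim_UB h1 hψ (cc_ne h1 a)]
  · intro a
    rw [← Z.cdim_eq_sum τ (hidU _) (hidU _), cdim_UU_same h1 hψ (cc_ne h1 a)]
  · rw [← Z.cdim_eq_sum τ (hidU _) (hidU _)]
    exact cdim_UU_ne h1 hψ
  · intro a
    exact rk_triv_ne hi0' αU (χU_ne_one hψ (cc_ne h1 a))
  · intro i hi hr1 hrγ
    have h2 : rk k (fU ψ 0) (Z.S i) = 0 := by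
      by_contra h3
      obtain ⟨Λ, hΛ⟩ := exists_eB (M := Z.S i) h1 ψ h3
      by_cases h4 : Λ = 1
      · rw [h4] at hΛ; exact hΛ hr1
      · exact hΛ (hrγ ⟨Λ, h4⟩)
    change finrank k (Z.S i) = _
    rw [finrank_eq_fU h1 hψ, h2, zero_add]
    rfl
  · intro w γ
    exact hsr w γ.1 γ.2

/-- The case `q = 7`. -/
theorem psl_blockType_zero [IsAlgClosed k] [CharP k 2] (hq : Fintype.card F = 7)
    {ψ : AddChar F k} (hψ : ψ.IsPrimitive) {ι : Type} [Fintype ι]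
    (Z : SimpleSys k (MonoidAlgebra k (PSLF F)) ι) : BlockType Z.c 0 1 := by
  obtain ⟨i0, hi0, hi0'⟩ := exists_triv Z
  exact psl_blockType (p := 0) hq hψ Z i0 hi0 hi0' (K := Unit) (fun _ => ()) (fun _ _ _ => rfl)
    Fin.elim0 (fun w => w.elim0) (fun w => w.elim0) (fun w => w.elim0) (fun w => w.elim0)

/-- The general case. -/
theorem psl_blockType_tor [IsAlgClosed k] [CharP k 2] {p : ℕ} (hq : Fintype.card F = 16 * p + 7)
    {ψ : AddChar F k} (hψ : ψ.IsPrimitive) {x y u v : F} (h : x * x + y * y = 1)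
    (huv : u * u + v * v = -1) (hord : orderOf (pr (tor x y h)) = 2 * p + 1) (hp : 0 < p)
    {ι : Type} [Fintype ι]
    (Z : SimpleSys k (MonoidAlgebra k (PSLF F)) ι) : BlockType Z.c p (4 * p + 1) := by
  classical
  have h1 : ¬ IsSquare (-1 : F) := by
    rw [FiniteField.isSquare_neg_one_iff, hq]
    omega
  obtain ⟨i0, hi0, hi0'⟩ := exists_triv Z
  have hodd : Odd (orderOf (pr (tor x y h))) := by rw [hord]; exact ⟨p, rfl⟩
  have hne : pr (tor x y h) ≠ 1 := by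
    intro h2
    rw [h2, orderOf_one] at hord
    omega
  have H : BrData (pr (tor x y h)) (pr ww) := brData_tor h h1 huv hodd hne
  -- the eigenvalues
  have hm : NeZero ((2 * p + 1 : ℕ) : k) := ⟨odd_cast_ne ⟨p, rfl⟩⟩
  have hmn : NeZero (2 * p + 1) := ⟨by omega⟩
  obtain ⟨ζ, hζ⟩ := HasEnoughRootsOfUnity.exists_primitiveRoot k (2 * p + 1)
  have hζ0 : ζ ≠ 0 := hζ.ne_zero (by omega)
  have key : ∀ j : ℕ, ∃ i, Z.omega (clsum k (pr (tor x y h))) (clsum_central _) i =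
      ζ ^ j + (ζ ^ j)⁻¹ := by
    intro j
    apply H.exists_omega Z
    rw [hord, ← pow_mul, mul_comm, pow_mul, hζ.pow_eq_one, one_pow]
  choose f hf using key
  set om : ι → k := fun i => Z.omega (clsum k (pr (tor x y h))) (clsum_central _) i with hom
  have hom0 : om i0 = 0 := H.omega_triv Z hi0'
  have h20 : (2 : k) = 0 := CharP.cast_eq_zero k 2
  -- the eigenvalues `ζ^j + ζ^{-j}` are non-zero and distinct, `1 ≤ j ≤ p`
  have hη0 : ∀ w : Fin p, ζ ^ ((w : ℕ) + 1) + (ζ ^ ((w : ℕ) + 1))⁻¹ ≠ 0 := by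
    intro w h2
    have hz : ζ ^ ((w : ℕ) + 1) ≠ 0 := pow_ne_zero _ hζ0
    have h3 : ζ ^ ((w : ℕ) + 1) * ζ ^ ((w : ℕ) + 1) = 1 := by
      have h4 : ζ ^ ((w : ℕ) + 1) * (ζ ^ ((w : ℕ) + 1) + (ζ ^ ((w : ℕ) + 1))⁻¹) = 0 := by
        rw [h2, mul_zero]
      rw [mul_add, mul_inv_cancel₀ hz] at h4
      linear_combination h4 - h20
    rw [← pow_add] at h3
    have h5 := (hζ.pow_eq_one_iff_dvd _).1 h3
    have h6 := Nat.le_of_dvd (by omega) h5
    have := w.2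
    omega
  have hηinj : ∀ w w' : Fin p, ζ ^ ((w : ℕ) + 1) + (ζ ^ ((w : ℕ) + 1))⁻¹ =
      ζ ^ ((w' : ℕ) + 1) + (ζ ^ ((w' : ℕ) + 1))⁻¹ → w = w' := by
    intro w w' h2
    set a := ζ ^ ((w : ℕ) + 1) with ha
    set b := ζ ^ ((w' : ℕ) + 1) with hb
    have ha0 : a ≠ 0 := pow_ne_zero _ hζ0
    have hb0 : b ≠ 0 := pow_ne_zero _ hζ0
    have h3 : (a - b) * (a * b - 1) = 0 := by
      have h4 : a * b * (a + a⁻¹ - (b + b⁻¹)) = 0 := by rw [h2, sub_self, mul_zero]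
      have h5 : a * b * (a + a⁻¹ - (b + b⁻¹)) = (a - b) * (a * b - 1) := by
        field_simp
        ring
      rw [← h5, h4]
    rcases mul_eq_zero.1 h3 with h4 | h4
    · have h5 : ζ ^ ((w : ℕ) + 1) = ζ ^ ((w' : ℕ) + 1) := sub_eq_zero.1 h4
      have := w.2
      have := w'.2
      have h6 := hζ.pow_inj (by omega) (by omega) h5
      ext; omega
    · exfalso
      have h5 : ζ ^ (((w : ℕ) + 1) + ((w' : ℕ) + 1)) = 1 := by
        rw [pow_add]; exact sub_eq_zero.1 h4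
      have h6 := Nat.le_of_dvd (by omega) ((hζ.pow_eq_one_iff_dvd _).1 h5)
      have := w.2
      have := w'.2
      omega
  refine psl_blockType hq hψ Z i0 hi0 hi0' om (fun i j hij => ?_) (fun w => f ((w : ℕ) + 1))
    ?_ ?_ ?_ ?_
  · exact Z.omega_eq_of_c_ne (clsum_central _) hij
  · intro w
    rw [hom0, hom]
    simp only
    rw [hf]
    exact hη0 w
  · intro w w' h2
    rw [hom] at h2
    simp only at h2
    rw [hf, hf] at h2
    exact hηinj w w' h2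
  · intro w Λ hΛ
    by_contra h2
    have h3 := omega_eB h1 h hne Z hΛ h2
    rw [hf] at h3
    exact hη0 w h3
  · intro w
    apply H.even_finrank Z
    rw [hf]
    exact hη0 w

end Cartan2
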