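import Pool.Agent.Cartan2.Orbits
import Pool.Agent.Cartan2.HeisCliff3
import Pool.Agent.Cartan2.TheoremA

open Module

namespace Cartan2

universe u

section cover

theorem cover_of_count {L Θ : Type} [Group L] [Finite L] [Finite Θ] [MulAction L Θ] (θ0 : Θ)
    (hθ0 : ∀ l : L, l • θ0 = θ0) {R : Type} [Fintype R] (rep : R → Θ) (t : R → ℕ)
    (hstab : ∀ r, Nat.card (MulAction.stabilizer L (rep r)) = t r)
    (hdisj : ∀ r r' (l : L), l • rep r = rep r' → r = r')
    (hrep0 : ∀ r, rep r ≠ θ0) (hcount : ∑ r, Nat.card L / t r + 1 = Nat.card Θ) :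
    ∀ θ, θ ≠ θ0 → ∃ r, ∃ l : L, l • rep r = θ := by
  classical
  have : Fintype Θ := Fintype.ofFinite _
  have : Fintype L := Fintype.ofFinite _
  let f : Option ((r : R) × MulAction.orbit L (rep r)) → Θ := fun o =>
    o.elim θ0 (fun x => x.2.1)
  have hf : Function.Injective f := by
    rintro (_ | ⟨r, ⟨_, ⟨l, rfl⟩⟩⟩) (_ | ⟨r', ⟨_, ⟨l', rfl⟩⟩⟩) h
    · rfl
    · exfalso
      apply hrep0 r'
      change θ0 = l' • rep r' at h
      rw [← hθ0 l'⁻¹, h, smul_smul, inv_mul_cancel, one_smul]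
    · exfalso
      apply hrep0 r
      change l • rep r = θ0 at h
      rw [← hθ0 l⁻¹, ← h, smul_smul, inv_mul_cancel, one_smul]
    · change l • rep r = l' • rep r' at h
      have h2 : (l'⁻¹ * l) • rep r = rep r' := by
        rw [mul_smul, h, smul_smul, inv_mul_cancel, one_smul]
      have h3 := hdisj _ _ _ h2
      subst h3
      congr 1
      congr 1
      exact Subtype.ext h
  have hcard : Nat.card Θ ≤ Nat.card (Option ((r : R) × MulAction.orbit L (rep r))) := by
    rw [Finite.card_option, Nat.card_sigma, ← hcount]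
    apply le_of_eq
    congr 1
    refine Finset.sum_congr rfl fun r _ => ?_
    have h2 := MulAction.card_orbit_mul_card_stabilizer_eq_card_group L (rep r)
    rw [← hstab r]
    have h3 : 0 < Nat.card (MulAction.stabilizer L (rep r)) := Nat.card_pos
    rw [← Nat.card_eq_fintype_card, ← Nat.card_eq_fintype_card, ← Nat.card_eq_fintype_card] at h2
    rw [← h2, Nat.mul_div_cancel _ h3]
  have hbij := hf.bijective_of_nat_card_le hcard
  intro θ hθ
  obtain ⟨o, ho⟩ := hbij.2 θ
  rcases o with _ | ⟨r, ⟨_, ⟨l, rfl⟩⟩⟩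
  · exact absurd ho.symm hθ
  · exact ⟨r, l, ho⟩

end cover

/-- the group `H` -/
abbrev HG := HH ρ7

/-- index set of orbits -/
abbrev RR := (Fin 3 × Fin 5) ⊕ ((Fin 3 × Fin 5) × ZMod 11)

/-- scalars -/
def sc (c : Fin 5) : ZMod 11 := ((c.1 + 1 : ℕ) : ZMod 11)

theorem sc_ne (c : Fin 5) : sc c ≠ 0 := by
  revert c; decide

theorem sc_inj : ∀ c c' : Fin 5, (sc c' = sc c ∨ sc c' = - sc c) → c = c' := by decide

theorem XX_ne (a : Fin 3) : XX a ≠ 0 := by
  intro h
  have h2 := congrFun h 2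
  match a with
  | 0 => exact absurd h2 (by decide)
  | 1 => exact absurd h2 (by decide)
  | 2 => exact absurd h2 (by decide)

/-- orbit representatives -/
def repH : RR → ThH (ZMod 11)
  | Sum.inl x => Sum.inl (sc x.2 • XX x.1)
  | Sum.inr x => Sum.inr (⟨sc x.1.2 • XX x.1.1, smul_ne_zero (sc_ne _) (XX_ne _)⟩, x.2)

/-- stabilizer orders -/
def tH : RR → ℕ
  | Sum.inl x => tt x.1
  | Sum.inr x => tt x.1.1

theorem smul_repH_inl (l : PSLF (ZMod 7)) (x : Fin 3 × Fin 5) :
    thSmul (ρ7 l) (repH (Sum.inl x)) = Sum.inl (sc x.2 • (ct (ρ7 l)).mulVec (XX x.1)) := by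
  rw [← Matrix.mulVec_smul]; rfl

theorem smul_repH_inr (l : PSLF (ZMod 7)) (x : (Fin 3 × Fin 5) × ZMod 11) :
    thSmul (ρ7 l) (repH (Sum.inr x)) = Sum.inr (⟨sc x.1.2 • (ρ7 l).1.mulVec (XX x.1.1), by
      rw [← Matrix.mulVec_smul]
      exact mulVec_ne_zero _ (smul_ne_zero (sc_ne _) (XX_ne _))⟩, x.2) := by
  apply th_inr_ext
  change (ρ7 l).1.mulVec (sc x.1.2 • XX x.1.1) = sc x.1.2 • (ρ7 l).1.mulVec (XX x.1.1)
  rw [Matrix.mulVec_smul]

theorem disj_aux {v : Fin 3 → ZMod 11} {c c' : Fin 5} {a' : Fin 3}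
    (h : sc c • v = sc c' • XX a') : v = ((sc c)⁻¹ * sc c') • XX a' := by
  rw [mul_smul, ← h, smul_smul, inv_mul_cancel₀ (sc_ne c), one_smul]

theorem disj_aux2 {c c' : Fin 5} (h : (sc c)⁻¹ * sc c' = 1 ∨ (sc c)⁻¹ * sc c' = -1) : c = c' := by
  apply sc_inj
  rcases h with h | h
  · left
    have := congrArg (fun z => sc c * z) h
    simp only [← mul_assoc, mul_inv_cancel₀ (sc_ne c), one_mul, mul_one] at this
    exact this
  · right
    have := congrArg (fun z => sc c * z) h
    simp only [← mul_assoc, mul_inv_cancel₀ (sc_ne c), one_mul] at this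
    rw [this]; ring

theorem disjH (r r' : RR) (l : PSLF (ZMod 7)) (h : thSmul (ρ7 l) (repH r) = repH r') : r = r' := by
  rcases r with ⟨a, c⟩ | ⟨⟨a, c⟩, s⟩ <;> rcases r' with ⟨a', c'⟩ | ⟨⟨a', c'⟩, s'⟩
  · rw [smul_repH_inl] at h
    have h1 : sc c • (ct (ρ7 l)).mulVec (XX a) = sc c' • XX a' := Sum.inl_injective h
    have h2 := disj_aux h1
    obtain ⟨h3, h4⟩ := orbT l a a' _ (mul_ne_zero (inv_ne_zero (sc_ne _)) (sc_ne _)) h2
    rw [h3, disj_aux2 h4]
  · rw [smul_repH_inl] at h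
    cases h
  · rw [smul_repH_inr] at h
    cases h
  · rw [smul_repH_inr] at h
    have h1 := Sum.inr_injective h
    have hs : s = s' := congrArg Prod.snd h1
    have h5 : sc c • (ρ7 l).1.mulVec (XX a) = sc c' • XX a' :=
      congrArg Subtype.val (congrArg Prod.fst h1)
    have h2 := disj_aux h5
    obtain ⟨h3, h4⟩ := orbV l a a' _ (mul_ne_zero (inv_ne_zero (sc_ne _)) (sc_ne _)) h2
    rw [h3, disj_aux2 h4, hs]

theorem stabH (r : RR) : Nat.card {l : PSLF (ZMod 7) // thSmul (ρ7 l) (repH r) = repH r} = tH r := by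
  rcases r with ⟨a, c⟩ | ⟨⟨a, c⟩, s⟩
  · rw [tH, ← stabT a]
    apply Nat.card_congr
    apply Equiv.subtypeEquivRight
    intro l
    rw [smul_repH_inl]
    constructor
    · intro h
      exact smul_right_injective _ (sc_ne c) (Sum.inl_injective h)
    · intro h
      change Sum.inl (sc c • (ct (ρ7 l)).mulVec (XX a)) = Sum.inl (sc c • XX a)
      rw [h]
  · rw [tH, ← stabV a]
    apply Nat.card_congr
    apply Equiv.subtypeEquivRight
    intro l
    rw [smul_repH_inr]
    constructor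
    · intro h
      have h5 : sc c • (ρ7 l).1.mulVec (XX a) = sc c • XX a :=
        congrArg Subtype.val (congrArg Prod.fst (Sum.inr_injective h))
      exact smul_right_injective _ (sc_ne c) h5
    · intro h
      apply th_inr_ext
      change sc c • (ρ7 l).1.mulVec (XX a) = sc c • XX a
      rw [h]

theorem tH_val (r : RR) : tH r = 1 ∨ tH r = 3 ∨ tH r = 4 := by
  rcases r with ⟨a, c⟩ | ⟨⟨a, c⟩, s⟩
  · change tt a = 1 ∨ tt a = 3 ∨ tt a = 4
    revert a; decide
  · change tt a = 1 ∨ tt a = 3 ∨ tt a = 4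
    revert a; decide

theorem count4 : Nat.card {r : RR // tH r = 4} = 60 := by
  rw [Nat.card_eq_fintype_card, Fintype.card_subtype]
  decide +kernel

theorem count1 : Nat.card {r : RR // tH r = 1} = 60 := by
  rw [Nat.card_eq_fintype_card, Fintype.card_subtype]
  decide +kernel

theorem count3 : Nat.card {r : RR // tH r = 3} = 60 := by
  rw [Nat.card_eq_fintype_card, Fintype.card_subtype]
  decide +kernel

theorem sumH : ∑ r : RR, 168 / tH r = 15960 := by
  decide +kernel

theorem card_ThH : Nat.card (ThH (ZMod 11)) = 15961 := by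
  rw [Nat.card_sum, Nat.card_prod, Nat.card_eq_fintype_card, Nat.card_eq_fintype_card,
    Nat.card_eq_fintype_card]
  have h4 := Fintype.card_subtype_compl (fun x : Fin 3 → ZMod 11 => x = 0)
  rw [Fintype.card_subtype_eq, Fintype.card_fun, Fintype.card_fin, ZMod.card] at h4
  have h5 : Fintype.card {x : Fin 3 → ZMod 11 // x ≠ 0} = 11 ^ 3 - 1 := h4
  rw [h5, Fintype.card_fun, Fintype.card_fin, ZMod.card]
  norm_num

end Cartan2
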