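import Pool.Agent.Cartan2.TheoremB

open Module

namespace Cartan2

universe u

variable {k : Type u} [Field k] [IsAlgClosed k] [CharP k 2]

theorem exists_primitive_char (n : ℕ) (hn : Odd n) :
    ∃ ψ : AddChar (ZMod n) k, ψ.IsPrimitive := by
  have h0 : (n : k) ≠ 0 := odd_cast_ne hn
  have : NeZero (n : k) := ⟨h0⟩
  have : NeZero n := ⟨fun h => by rw [h] at hn; exact absurd hn (by decide)⟩
  obtain ⟨ζ, hζ⟩ := HasEnoughRootsOfUnity.exists_primitiveRoot k n
  exact ⟨_, AddChar.zmodChar_primitive_of_primitive_root n hζ⟩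

theorem card_PSL7' : Fintype.card (PSLF (ZMod 7)) = 168 := by
  rw [← Nat.card_eq_fintype_card, card_PSL7]

theorem card_ker_HG : Nat.card (SemidirectProduct.rightHom : HG →* PSLF (ZMod 7)).ker = 11 ^ 6 := by
  rw [← SemidirectProduct.range_inl_eq_ker_rightHom]
  rw [← Nat.card_congr (MonoidHom.ofInjective (SemidirectProduct.inl_injective)).toEquiv,
    Heis.card, Nat.card_eq_fintype_card, ZMod.card]

theorem heis_blockType {ι : Type} [Fintype ι] (Z : SimpleSys k (MonoidAlgebra k HG) ι) :
    BlockType Z.c 60 241 := by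
  obtain ⟨ψ, hψ⟩ := exists_primitive_char (k := k) 11 (by decide)
  obtain ⟨ψ7, hψ7⟩ := exists_primitive_char (k := k) 7 (by decide)
  letI := thActL ρ7
  have hF : (Fintype.card (ZMod 11) : k) ≠ 0 := by
    rw [ZMod.card]
    exact odd_cast_ne (by decide)
  have hprime : (Fintype.card (ZMod 11)).Prime := by rw [ZMod.card]; norm_num
  let C := cliffHeis ρ7 hF hprime (by decide) hψ
  have hcov : ∀ θ, θ ≠ C.θ0 → ∃ r, ∃ l : PSLF (ZMod 7), l • repH r = θ := by
    refine cover_of_count C.θ0 C.θ0_fix repH tH (fun r => stabH r) disjH ?_ ?_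
    · intro r h
      rcases r with ⟨a, c⟩ | ⟨⟨a, c⟩, s⟩
      · exact smul_ne_zero (sc_ne c) (XX_ne a) (Sum.inl_injective h)
      · cases h
    · rw [card_PSL7, sumH, card_ThH]
  have h := C.blockType Z (by rw [card_ker_HG]; decide) (by rw [card_PSL7']) repH tH tH_val
    (fun r => stabH r) hcov disjH (by
      intro r h
      rcases r with ⟨a, c⟩ | ⟨⟨a, c⟩, s⟩
      · exact smul_ne_zero (sc_ne c) (XX_ne a) (Sum.inl_injective h)
      · cases h) (by
      intro θ
      rcases θ with y | z
      · exact odd_one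
      · change Odd (Fintype.card (ZMod 11))
        rw [ZMod.card]; decide) (p0 := 0) (q0 := 1)
    (fun ι' _ Z' => psl_blockType_zero (by rw [ZMod.card]) hψ7 Z')
  rw [count4, count1, count3] at h
  exact h

end Cartan2
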