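import Pool.Agent.Cartan2.CliffB

open Module

namespace Cartan2

universe u

open MonoidAlgebra (single)

section Res

variable {k A B : Type u} [Field k] [Ring A] [Ring B] [Algebra k A] [Algebra k B]

/-- Restriction of scalars along an algebra homomorphism. -/
def Res (_f : B →ₐ[k] A) (M : Type u) : Type u := M

variable (f : B →ₐ[k] A) (M : Type u) [AddCommGroup M] [Module A M]

instance : AddCommGroup (Res f M) := inferInstanceAs (AddCommGroup M)
instance [Module k M] : Module k (Res f M) := inferInstanceAs (Module k M)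
instance [Module k M] [FiniteDimensional k M] : FiniteDimensional k (Res f M) :=
  inferInstanceAs (FiniteDimensional k M)
instance : Module B (Res f M) := Module.compHom M (f : B →+* A)

/-- identification -/
def Res.mk : M ≃+ Res f M := AddEquiv.refl M

theorem Res.smul_mk (b : B) (m : M) : b • Res.mk f M m = Res.mk f M (f b • m) := rfl

theorem Res.ksmul_mk [Module k M] (c : k) (m : M) : c • Res.mk f M m = Res.mk f M (c • m) := rfl

instance [Module k M] [IsScalarTower k A M] : IsScalarTower k B (Res f M) := ⟨fun c b v => by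
  obtain ⟨w, rfl⟩ := (Res.mk f M).surjective v
  rw [Res.smul_mk, Res.smul_mk, map_smul f c b, smul_assoc, Res.ksmul_mk]⟩

theorem rk_congr_act {M : Type*} [AddCommGroup M] [Module k M] [Module A M]
    [IsScalarTower k A M] {a b : A} (h : ∀ s : M, a • s = b • s) : rk k a M = rk k b M := by
  have : Algebra.lsmul k k M a = Algebra.lsmul k k M b := by
    ext s
    exact h s
  unfold rk
  rw [this]

theorem Res.rk_eq [Module k M] [IsScalarTower k A M] (b : B) :
    rk k b (Res f M) = rk k (f b) M := rfl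

end Res

namespace Cliff

variable {k : Type u} [Field k] {H L : Type} [Group H] [Fintype H] [Group L] [Fintype L]
variable {π : H →* L} {σ : L →* H} {Θ : Type} [Fintype Θ] [MulAction L Θ] (C : Cliff k π σ Θ)

variable (k) in
/-- `k H → k L` -/
noncomputable abbrev piA (π : H →* L) : MonoidAlgebra k H →ₐ[k] MonoidAlgebra k L :=
  MonoidAlgebra.mapDomainAlgHom k k π

theorem piA_single (π : H →* L) (h : H) : piA k π (single h (1 : k)) = single (π h) 1 :=
  MonoidAlgebra.mapDomain_single

include C in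
theorem piA_piA (y : MonoidAlgebra k L) : piA k π (piA k σ y) = y := by
  rw [eq_sum_coeff y]
  simp only [map_sum, map_smul, piA_single, C.πσ]

theorem E0_central (y : MonoidAlgebra k H) : C.E C.θ0 * y = y * C.E C.θ0 := by
  rw [eq_sum_coeff y, Finset.mul_sum, Finset.sum_mul]
  refine Finset.sum_congr rfl fun h _ => ?_
  rw [mul_smul_comm, smul_mul_assoc, C.single_E, C.θ0_fix]

theorem mul_E0 (y : MonoidAlgebra k H) : y * C.E C.θ0 = piA k σ (piA k π y) * C.E C.θ0 := by
  rw [eq_sum_coeff y]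
  simp only [map_sum, map_smul, piA_single, Finset.sum_mul, smul_mul_assoc]
  refine Finset.sum_congr rfl fun h _ => ?_
  congr 1
  obtain ⟨h1, h2⟩ := C.decomp h
  have h3 : single h (1 : k) = single (h * (σ (π h))⁻¹) 1 * single (σ (π h)) 1 := by
    rw [MonoidAlgebra.single_mul_single, ← h2, one_mul]
  rw [h3, mul_assoc, ← C.E0_central, ← mul_assoc, C.θ0_act _ h1]

variable {ι : Type} (Z : SimpleSys k (MonoidAlgebra k H) ι)

theorem E0_act {i : ι} (hi : rk k (C.E C.θ0) (Z.S i) ≠ 0) (s : Z.S i) :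
    C.E C.θ0 • s = s := by
  have h1 := Z.omega_spec C.E0_central i
  rw [Ne, rk_eq_zero_iff] at hi
  push Not at hi
  obtain ⟨t, ht⟩ := hi
  have h2 : C.E C.θ0 • (C.E C.θ0 • t) = C.E C.θ0 • t := by rw [smul_smul, C.idem]
  rw [h1 (C.E C.θ0 • t)] at h2
  have h3 : (Z.omega (C.E C.θ0) C.E0_central i - 1) • (C.E C.θ0 • t) = 0 := by
    rw [sub_smul, h2, one_smul, sub_self]
  have h4 := sub_eq_zero.1 ((smul_eq_zero.1 h3).resolve_right ht)
  rw [h1, h4, one_smul]

theorem act_eq {i : ι} (hi : rk k (C.E C.θ0) (Z.S i) ≠ 0) (y : MonoidAlgebra k H) (s : Z.S i) :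
    piA k σ (piA k π y) • s = y • s := by
  conv_lhs => rw [← C.E0_act Z hi s]
  conv_rhs => rw [← C.E0_act Z hi s]
  rw [smul_smul, smul_smul, ← C.mul_E0]

include C in
theorem piA_surj : Function.Surjective (piA k π) := fun y => ⟨piA k σ y, C.piA_piA y⟩

theorem ε_mul_E0 {i : ι} (hi : rk k (C.E C.θ0) (Z.S i) ≠ 0) :
    Z.ε i * C.E C.θ0 = Z.ε i := by
  have : IsArtinianRing (MonoidAlgebra k H) := IsArtinianRing.of_finite k _
  set x := Z.ε i - Z.ε i * C.E C.θ0 with hx
  have hJ : x ∈ Ring.jacobson (MonoidAlgebra k H) := by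
    apply Z.mem_jac
    intro l s
    by_cases hl : i = l
    · subst hl
      rw [hx, sub_smul, mul_smul, C.E0_act Z hi, sub_self]
    · rw [hx, sub_smul, mul_smul, Z.ε_smul_ne hl, Z.ε_smul_ne hl, sub_self]
  have hidem : x * x = x := by
    have h1 : Z.ε i * C.E C.θ0 * (Z.ε i * C.E C.θ0) = Z.ε i * C.E C.θ0 := by
      calc Z.ε i * C.E C.θ0 * (Z.ε i * C.E C.θ0) =
          Z.ε i * (C.E C.θ0 * Z.ε i) * C.E C.θ0 := by simp only [mul_assoc]
        _ = (Z.ε i * Z.ε i) * (C.E C.θ0 * C.E C.θ0) := by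
            rw [C.E0_central (Z.ε i)]; simp only [mul_assoc]
        _ = _ := by rw [Z.idem, C.idem]
    have h2 : Z.ε i * C.E C.θ0 * Z.ε i = Z.ε i * C.E C.θ0 := by
      rw [mul_assoc, C.E0_central, ← mul_assoc, Z.idem]
    have h3 : Z.ε i * (Z.ε i * C.E C.θ0) = Z.ε i * C.E C.θ0 := by
      rw [← mul_assoc, Z.idem]
    rw [hx, sub_mul, mul_sub, mul_sub, Z.idem, h1, h2, h3]
    abel
  have h0 : x = 0 := by
    obtain ⟨n, hn⟩ := jacobson_nilpotent hJ
    rcases Nat.eq_zero_or_pos n with h | h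
    · rw [h, pow_zero] at hn
      have : x = x * 1 := (mul_one x).symm
      rw [this, hn, mul_zero]
    · have h4 : x ^ n = x := by
        have : IsIdempotentElem x := hidem
        exact this.pow_eq h.ne'
      rw [← h4, hn]
  exact (sub_eq_zero.1 h0).symm

/-- The simple modules of `k L` inside those of `k H`. -/
noncomputable def sysL : SimpleSys k (MonoidAlgebra k L)
    {i : ι // rk k (C.E C.θ0) (Z.S i) ≠ 0} where
  S i := Res (piA k σ) (Z.S i.1)
  simple i := by
    rw [isSimpleModule_iff_toSpanSingleton_surjective]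
    have h := isSimpleModule_iff_toSpanSingleton_surjective.1 (Z.simple i.1)
    refine ⟨h.1, ?_⟩
    · intro v hv w
      obtain ⟨v, rfl⟩ := (Res.mk (piA k σ) (Z.S i.1)).surjective v
      obtain ⟨w, rfl⟩ := (Res.mk (piA k σ) (Z.S i.1)).surjective w
      have hv' : v ≠ 0 := by
        rintro rfl
        exact hv (map_zero _)
      obtain ⟨a, ha⟩ := h.2 v hv' w
      refine ⟨piA k π a, ?_⟩
      rw [LinearMap.toSpanSingleton_apply, Res.smul_mk, C.act_eq Z i.2]
      congr 1
  ε i := piA k π (Z.ε i.1)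
  idem i := by rw [← map_mul, Z.idem]
  rk_self i := by
    rw [Res.rk_eq]
    exact (rk_congr_act fun s => C.act_eq Z i.2 _ _).trans (Z.rk_self i.1)
  rk_ne i j hij := by
    rw [Res.rk_eq]
    exact (rk_congr_act fun s => C.act_eq Z j.2 _ _).trans
      (Z.rk_ne i.1 j.1 (fun h => hij (Subtype.ext h)))
  complete := by
    intro T _ _ _
    have hsT : IsSimpleModule (MonoidAlgebra k H) (Res (piA k π) T) := by
      rw [isSimpleModule_iff_toSpanSingleton_surjective]
      have h := isSimpleModule_iff_toSpanSingleton_surjective.1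
        (inferInstance : IsSimpleModule (MonoidAlgebra k L) T)
      refine ⟨h.1, ?_⟩
      intro v hv w
      obtain ⟨v, rfl⟩ := (Res.mk (piA k π) T).surjective v
      obtain ⟨w, rfl⟩ := (Res.mk (piA k π) T).surjective w
      have hv' : v ≠ 0 := by
        rintro rfl
        exact hv (map_zero _)
      obtain ⟨a, ha⟩ := h.2 v hv' w
      obtain ⟨a, rfl⟩ := C.piA_surj a
      exact ⟨a, by
        rw [LinearMap.toSpanSingleton_apply, Res.smul_mk]
        congr 1⟩
    obtain ⟨i, ⟨g⟩⟩ := Z.complete (Res (piA k π) T)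
    have hi : rk k (C.E C.θ0) (Z.S i) ≠ 0 := by
      rw [Ne, rk_eq_zero_iff]
      intro h
      have hnt : Nontrivial T := IsSimpleModule.nontrivial (MonoidAlgebra k L) T
      obtain ⟨t, ht⟩ := exists_ne (0 : T)
      have h1 := h (g (Res.mk (piA k π) T t))
      rw [← map_smul, Res.smul_mk, C.θ0_map, one_smul] at h1
      have h2 := (map_eq_zero_iff g g.injective).1 h1
      have h3 := (map_eq_zero_iff (Res.mk (piA k π) T) (Res.mk (piA k π) T).injective).1 h2
      exact ht h3
    refine ⟨⟨i, hi⟩, ⟨?_⟩⟩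
    exact {
      toFun := fun t => Res.mk (piA k σ) (Z.S i) (g (Res.mk (piA k π) T t))
      map_add' := fun a b => by rw [map_add, map_add, map_add]
      map_smul' := fun b t => by
        rw [RingHom.id_apply, Res.smul_mk, ← map_smul g, Res.smul_mk, C.piA_piA]
      invFun := fun s => (Res.mk (piA k π) T).symm (g.symm ((Res.mk (piA k σ) (Z.S i)).symm s))
      left_inv := fun t => by simp
      right_inv := fun s => by simp }

theorem sysL_c (i j : {i : ι // rk k (C.E C.θ0) (Z.S i) ≠ 0}) :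
    (C.sysL Z).c i j = Z.c i.1 j.1 := by
  unfold SimpleSys.c cdim
  change finrank k (corner k (piA k π (Z.ε j.1)) (piA k π (Z.ε i.1))) = _
  have h1 : corner k (piA k π (Z.ε j.1)) (piA k π (Z.ε i.1)) =
      (corner k (Z.ε j.1) (Z.ε i.1)).map (piA k π).toLinearMap := by
    ext x
    constructor
    · rintro ⟨y, rfl⟩
      obtain ⟨y, rfl⟩ := C.piA_surj y
      refine ⟨Z.ε j.1 * (y * Z.ε i.1), ⟨y, rfl⟩, ?_⟩
      change piA k π (Z.ε j.1 * (y * Z.ε i.1)) = piA k π (Z.ε j.1) *
        (piA k π y * piA k π (Z.ε i.1))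
      rw [map_mul, map_mul]
    · rintro ⟨_, ⟨y, rfl⟩, rfl⟩
      refine ⟨piA k π y, ?_⟩
      change piA k π (Z.ε j.1) * (piA k π y * piA k π (Z.ε i.1)) =
        piA k π (Z.ε j.1 * (y * Z.ε i.1))
      rw [map_mul, map_mul]
  rw [h1]
  symm
  let φ : corner k (Z.ε j.1) (Z.ε i.1) →ₗ[k] MonoidAlgebra k L :=
    (piA k π).toLinearMap.domRestrict _
  have hφ : LinearMap.ker φ = ⊥ := by
    rw [eq_bot_iff]
    rintro ⟨x, hx⟩ hx0
    rw [Submodule.mem_bot]
    apply Subtype.ext
    change x = 0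
    have h2 : piA k π x = 0 := hx0
    have h3 := ((mem_corner (Z.idem j.1) (Z.idem i.1)).1 hx).2
    rw [← h3, ← C.ε_mul_E0 Z i.2, ← mul_assoc, h3, C.mul_E0, h2, map_zero, zero_mul]
  have h2 := LinearMap.finrank_range_of_inj (LinearMap.ker_eq_bot.1 hφ)
  have h3 : LinearMap.range φ = (corner k (Z.ε j.1) (Z.ε i.1)).map (piA k π).toLinearMap :=
    LinearMap.range_domRestrict _ _
  rw [← h2, h3]

end Cliff

end Cartan2
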